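import Pool.Agent.Lib.HL21.Path

/-! # Module Cross: decomposition of the negative bundle crossing -/

namespace Pool.Agent.HL

open Finset

variable {k : Type*} [CommRing k]

/-! ### Projections on spans of basis elements -/

/-- The projection of `H z` on the span of the `T_w`, `w ∈ Ω`. -/
noncomputable def cpr (z : k) (Ω : Finset S) : H z →ₗ[k] H z :=
  ∑ w ∈ Ω, ((τ z) ∘ₗ (LinearMap.mulLeft k (T z w⁻¹))).smulRight (T z w)

theorem cpr_apply (z : k) (Ω : Finset S) (x : H z) :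
    cpr z Ω x = ∑ w ∈ Ω, τ z (T z w⁻¹ * x) • T z w := by
  simp only [cpr, LinearMap.sum_apply, LinearMap.smulRight_apply, LinearMap.comp_apply,
    LinearMap.mulLeft_apply]

theorem cr_gen (z : k) {Ω : Finset S} {M : Type*} [AddCommGroup M] [Module k M]
    (F : H z →ₗ[k] H z →ₗ[k] M) {i : ℕ} (hs : ∀ w ∈ Ω, s i * w ∈ Ω) :
    ∑ w ∈ Ω, F (g z i * T z w) (T z w⁻¹) = ∑ w ∈ Ω, F (T z w) (T z w⁻¹ * g z i) := by
  classical
  have h1 : ∀ w ∈ Ω, F (g z i * T z w) (T z w⁻¹) = F (T z (s i * w)) (T z w⁻¹) +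
      (if w.1.symm (i+1) < w.1.symm i then z • F (T z w) (T z w⁻¹) else 0) := by
    intro w _
    by_cases h : w.1.symm i < w.1.symm (i+1)
    · rw [sT_lt z h, if_neg (by omega), add_zero]
    · have hne : w.1.symm i ≠ w.1.symm (i+1) := fun h' => by
        have := w.1.symm.injective h'
        omega
      have h' : w.1.symm (i+1) < w.1.symm i := by omega
      rw [sT_gt z h', if_pos h', map_add, LinearMap.add_apply, map_smul, LinearMap.smul_apply]
  have h2 : ∀ w ∈ Ω, F (T z w) (T z w⁻¹ * g z i) = F (T z w) (T z (w⁻¹ * s i)) +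
      (if w.1.symm (i+1) < w.1.symm i then z • F (T z w) (T z w⁻¹) else 0) := by
    intro w _
    by_cases h : w.1.symm i < w.1.symm (i+1)
    · rw [Ts_lt z (w := w⁻¹) (i := i) h, if_neg (by omega), add_zero]
    · have hne : w.1.symm i ≠ w.1.symm (i+1) := fun h' => by
        have := w.1.symm.injective h'
        omega
      have h' : w.1.symm (i+1) < w.1.symm i := by omega
      rw [Ts_gt z (w := w⁻¹) (i := i) h', if_pos h', map_add, map_smul]
  rw [Finset.sum_congr rfl h1, Finset.sum_congr rfl h2, Finset.sum_add_distrib, Finset.sum_add_distrib,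
    add_left_inj]
  refine Finset.sum_nbij' (fun w => s i * w) (fun w => s i * w) ?_ ?_ ?_ ?_ ?_
  · intro w hw; exact hs w hw
  · intro w hw; exact hs w hw
  · intro w _; rw [← mul_assoc, s_mul_self, one_mul]
  · intro w _; rw [← mul_assoc, s_mul_self, one_mul]
  · intro w _
    rw [mul_inv_rev, s_inv, mul_assoc, s_mul_self, mul_one]

theorem cpr_g_mul (z : k) {Ω : Finset S} {i : ℕ} (hs : ∀ w ∈ Ω, s i * w ∈ Ω) (x : H z) :
    cpr z Ω (g z i * x) = g z i * cpr z Ω x := by
  have h := cr_gen z (Ω := Ω) (M := H z)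
    ((LinearMap.lsmul k (H z)).flip.compl₂ ((τ z) ∘ₗ (LinearMap.mulRight k x))) hs
  simp only [LinearMap.compl₂_apply, LinearMap.flip_apply, LinearMap.lsmul_apply, LinearMap.comp_apply,
    LinearMap.mulRight_apply] at h
  rw [cpr_apply, cpr_apply, Finset.mul_sum]
  simp only [mul_smul_comm]
  rw [h]
  simp only [mul_assoc]

theorem cpr_mul_g (z : k) {Ω : Finset S} {i : ℕ} (hs : ∀ w ∈ Ω, w * s i ∈ Ω) (x : H z) :
    cpr z Ω (x * g z i) = cpr z Ω x * g z i := by
  classical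
  have hinv : ∀ G : S → H z, ∑ w ∈ Ω.image (fun w => w⁻¹), G w = ∑ w ∈ Ω, G w⁻¹ := by
    intro G
    rw [Finset.sum_image]
    intro a _ b _ hab
    exact inv_injective hab
  have h := cr_gen z (Ω := Ω.image (fun w => w⁻¹)) (M := H z) (i := i)
    (((LinearMap.lsmul k (H z)) ∘ₗ ((τ z) ∘ₗ (LinearMap.mulRight k x)))) (by
      intro w hw
      rw [Finset.mem_image] at hw ⊢
      obtain ⟨v, hv, rfl⟩ := hw
      exact ⟨v * s i, hs v hv, by rw [mul_inv_rev, s_inv]⟩)
  simp only [LinearMap.comp_apply, LinearMap.lsmul_apply, LinearMap.mulRight_apply] at h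
  rw [hinv, hinv] at h
  simp only [inv_inv] at h
  rw [cpr_apply, cpr_apply, Finset.sum_mul]
  simp only [smul_mul_assoc]
  rw [← h]
  refine Finset.sum_congr rfl fun w _ => ?_
  rw [← mul_assoc, τ_comm, mul_assoc]

/-- left linearity over a Young subalgebra -/
theorem cpr_mul_left (z : k) {f : ℕ → ℕ} (hf : Monotone f) {N : ℕ} {Ω : Finset S}
    (hΩ : ∀ i, i + 1 < N → f i = f (i+1) → ∀ w ∈ Ω, s i * w ∈ Ω) {y : H z} (hy : y ∈ HW z f N) (x : H z) :
    cpr z Ω (y * x) = y * cpr z Ω x := by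
  refine HW_ind z hf (P := fun y => cpr z Ω (y * x) = y * cpr z Ω x) ?_ ?_ ?_ ?_ y hy
  · rw [one_mul, one_mul]
  · intro a b ha hb
    rw [add_mul, map_add, ha, hb, add_mul]
  · intro c a ha
    rw [smul_mul_assoc, map_smul, ha, smul_mul_assoc]
  · intro i a hi hfi ha
    rw [mul_assoc, cpr_g_mul z (hΩ i hi hfi), ha, mul_assoc]

/-- right linearity over a Young subalgebra -/
theorem cpr_mul_right (z : k) {f : ℕ → ℕ} (hf : Monotone f) {N : ℕ} {Ω : Finset S}
    (hΩ : ∀ i, i + 1 < N → f i = f (i+1) → ∀ w ∈ Ω, w * s i ∈ Ω) {y : H z} (hy : y ∈ HW z f N) (x : H z) :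
    cpr z Ω (x * y) = cpr z Ω x * y := by
  revert x
  refine HW_ind z hf (P := fun y => ∀ x : H z, cpr z Ω (x * y) = cpr z Ω x * y) ?_ ?_ ?_ ?_ y hy
  · intro x
    rw [mul_one, mul_one]
  · intro a b ha hb x
    rw [mul_add, map_add, ha, hb, mul_add]
  · intro c a ha x
    rw [mul_smul_comm, map_smul, ha, mul_smul_comm]
  · intro i a hi hfi ha x
    rw [← mul_assoc, ha, cpr_mul_g z (hΩ i hi hfi), mul_assoc]

/-! ### Products of commuting permutations -/

theorem cr_comm {p : ℕ} {a : S} (ha : a ∈ W0 p) (b : S) : a * shS p b = shS p b * a := by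
  refine S_ext fun x => ?_
  rw [mul_app, mul_app, shS_apply, shS_apply]
  by_cases hx : x < p
  · rw [if_pos hx, if_pos (W_lt ha hx)]
  · rw [if_neg hx, (mem_W.1 ha).1 x (by omega), if_neg hx, (mem_W.1 ha).1 _ (by omega)]

theorem cr_TT (z : k) {p : ℕ} {a : S} (ha : a ∈ W0 p) (b : S) :
    T z a * T z (shS p b) = T z (a * shS p b) := by
  apply TT
  intro i j hij h
  rw [shS_apply, shS_apply] at h ⊢
  by_cases hj : j < p
  · rw [if_pos hj, if_pos (by omega)] at h
    omega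
  · rw [if_neg hj] at h ⊢
    by_cases hi : i < p
    · rw [if_pos hi] at h
      omega
    · rw [if_neg hi] at h ⊢
      rw [(mem_W.1 ha).1 _ (by omega), (mem_W.1 ha).1 _ (by omega)]
      exact h

theorem cr_TT' (z : k) {p : ℕ} {a : S} (ha : a ∈ W0 p) (b : S) :
    T z (shS p b) * T z a = T z (a * shS p b) := by
  rw [← cr_TT z ha, ← sh_T, sh_commute z (le_refl p) (T_mem_HW z ha)]

/-- the criterion `TT` is symmetric under inversion -/
theorem cr_TT_inv (z : k) {u v : S} (h : ∀ i j, i < j → v.1 j < v.1 i → u.1 (v.1 j) < u.1 (v.1 i)) :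
    T z v⁻¹ * T z u⁻¹ = T z (u * v)⁻¹ := by
  rw [mul_inv_rev]
  apply TT
  intro i j hij hji
  have ei : u.1 ((u⁻¹).1 i) = i := u.1.apply_symm_apply i
  have ej : u.1 ((u⁻¹).1 j) = j := u.1.apply_symm_apply j
  set α := (u⁻¹).1 j with hα
  set β := (u⁻¹).1 i with hβ
  have eα : v.1 ((v⁻¹).1 α) = α := v.1.apply_symm_apply α
  have eβ : v.1 ((v⁻¹).1 β) = β := v.1.apply_symm_apply β
  by_contra hge
  have hne : (v⁻¹).1 α ≠ (v⁻¹).1 β := by
    intro he
    have := (v⁻¹).1.injective he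
    omega
  have h1 := h ((v⁻¹).1 β) ((v⁻¹).1 α) (by omega) (by rw [eα, eβ]; exact hji)
  rw [eα, eβ, ei, ej] at h1
  omega

/-! ### The two families of permutations -/

/-- number of positions `< p` with value `≥ p` -/
def ckk (p : ℕ) (w : S) : ℕ := ((range p).filter (fun i => p ≤ w.1 i)).card

/-- permutations of `[0,2p)` sending exactly `r` positions of the first bundle to the second one -/
noncomputable def cOm (p r : ℕ) : Finset S := by
  classical
  exact (W0 (2 * p)).filter (fun w => ckk p w = r)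

theorem mem_cOm {p r : ℕ} {w : S} : w ∈ cOm p r ↔ w ∈ W0 (2 * p) ∧ ckk p w = r := by
  classical
  unfold cOm
  rw [Finset.mem_filter]

/-- the permutations of `[0,2p)` mapping the first bundle to `[0,p-r) ∪ [p,p+r)` -/
noncomputable def cN (p r : ℕ) : Finset S := by
  classical
  exact (W0 (2 * p)).filter (fun w => ∀ i, i < p → w.1 i < p - r ∨ (p ≤ w.1 i ∧ w.1 i < p + r))

theorem mem_cN {p r : ℕ} {w : S} : w ∈ cN p r ↔ w ∈ W0 (2 * p) ∧
    ∀ i, i < p → w.1 i < p - r ∨ (p ≤ w.1 i ∧ w.1 i < p + r) := by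
  classical
  unfold cN
  rw [Finset.mem_filter]

theorem cr_s_ge_iff {p i x : ℕ} (h : i + 1 ≠ p) : p ≤ (s i).1 x ↔ p ≤ x := by
  rw [s_apply]
  split_ifs <;> omega

theorem cOm_left {p r : ℕ} {i : ℕ} (hi : i + 1 < 2 * p) (h : i + 1 ≠ p) {w : S} (hw : w ∈ cOm p r) :
    s i * w ∈ cOm p r := by
  rw [mem_cOm] at hw ⊢
  refine ⟨mul_mem_W (s_mem_W hi rfl) hw.1, ?_⟩
  rw [← hw.2]
  unfold ckk
  congr 1
  refine Finset.filter_congr fun x _ => ?_
  rw [mul_app, cr_s_ge_iff h]

theorem cOm_right {p r : ℕ} {i : ℕ} (hi : i + 1 < 2 * p) (h : i + 1 ≠ p) {w : S} (hw : w ∈ cOm p r) :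
    w * s i ∈ cOm p r := by
  rw [mem_cOm] at hw ⊢
  refine ⟨mul_mem_W hw.1 (s_mem_W hi rfl), ?_⟩
  rw [← hw.2]
  unfold ckk
  have hlt : ∀ x, (s i).1 x < p ↔ x < p := by
    intro x
    have := cr_s_ge_iff (x := x) h
    omega
  refine Finset.card_bij (fun x _ => (s i).1 x) ?_ ?_ ?_
  · intro x hx
    rw [Finset.mem_filter, Finset.mem_range] at hx ⊢
    rw [mul_app] at hx
    exact ⟨(hlt x).2 hx.1, hx.2⟩
  · intro x _ y _ hxy
    exact (s i).1.injective hxy
  · intro x hx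
    rw [Finset.mem_filter, Finset.mem_range] at hx
    have e : (s i).1 ((s i).1 x) = x := by
      rw [← mul_app, s_mul_self, one_app]
    refine ⟨(s i).1 x, ?_, e⟩
    rw [Finset.mem_filter, Finset.mem_range, mul_app, e]
    exact ⟨(hlt x).2 hx.1, hx.2⟩

theorem cN_right {p r : ℕ} {i : ℕ} (hi : i + 1 < 2 * p) (h : i + 1 ≠ p) {w : S} (hw : w ∈ cN p r) :
    w * s i ∈ cN p r := by
  rw [mem_cN] at hw ⊢
  refine ⟨mul_mem_W hw.1 (s_mem_W hi rfl), fun x hx => ?_⟩
  rw [mul_app]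
  refine hw.2 _ ?_
  have := cr_s_ge_iff (x := x) h
  omega

/-- left stability of `cN` -/
theorem cN_left {p r : ℕ} (hr : r ≤ p) {i : ℕ} (hi : i + 1 < 2 * p) (h : i + 1 ≠ p) (h1 : i + 1 ≠ p - r)
    (h2 : i + 1 ≠ p + r) {w : S} (hw : w ∈ cN p r) : s i * w ∈ cN p r := by
  rw [mem_cN] at hw ⊢
  refine ⟨mul_mem_W (s_mem_W hi rfl) hw.1, fun x hx => ?_⟩
  rw [mul_app]
  have hx' := hw.2 x hx
  rw [s_apply]
  split_ifs <;> omega

/-- values hit by the first bundle -/
theorem cN_symm {p r : ℕ} (hr : r ≤ p) {x : S} (hx : x ∈ cN p r) (v : ℕ) :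
    x.1.symm v < p ↔ (v < p - r ∨ (p ≤ v ∧ v < p + r)) := by
  classical
  rw [mem_cN] at hx
  constructor
  · intro h
    have := hx.2 _ h
    rwa [Equiv.apply_symm_apply] at this
  · intro hv
    have hsub : (range p).image (fun i => x.1 i) ⊆ range (p - r) ∪ Ico p (p + r) := by
      intro y hy
      rw [Finset.mem_image] at hy
      obtain ⟨i, hi, rfl⟩ := hy
      rw [Finset.mem_union, Finset.mem_range, Finset.mem_Ico]
      exact hx.2 i (Finset.mem_range.1 hi)
    have hcard : (range (p - r) ∪ Ico p (p + r)).card ≤ ((range p).image (fun i => x.1 i)).card := by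
      rw [Finset.card_image_of_injective _ x.1.injective, Finset.card_range]
      refine (Finset.card_union_le _ _).trans ?_
      rw [Finset.card_range, Nat.card_Ico]
      omega
    have heq := Finset.eq_of_subset_of_card_le hsub hcard
    have hmem : v ∈ (range p).image (fun i => x.1 i) := by
      rw [heq, Finset.mem_union, Finset.mem_range, Finset.mem_Ico]
      exact hv
    rw [Finset.mem_image] at hmem
    obtain ⟨i, hi, rfl⟩ := hmem
    rw [Equiv.symm_apply_apply]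
    exact Finset.mem_range.1 hi

theorem cr_val {p : ℕ} {a : S} (ha : a ∈ W0 p) (b : S) (v : ℕ) :
    (a * shS p b).1 v = if v < p then a.1 v else b.1 (v - p) + p := by
  rw [mul_app, shS_apply]
  by_cases hv : v < p
  · rw [if_pos hv, if_pos hv]
  · rw [if_neg hv, if_neg hv, (mem_W.1 ha).1 _ (by omega)]

theorem cr_lt {p : ℕ} {a : S} (ha : a ∈ W0 p) {i : ℕ} (hi : i < p) : a.1.symm i < p :=
  symm_lt (fun j hj => (mem_W.1 ha).1 j hj) hi

theorem cr_val_symm {p : ℕ} {a : S} (ha : a ∈ W0 p) (b : S) (v : ℕ) :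
    (a * shS p b).1.symm v = if v < p then a.1.symm v else b.1.symm (v - p) + p := by
  rw [mul_symm_app, shS_symm_apply]
  by_cases hv : v < p
  · rw [if_pos (cr_lt ha hv), if_pos hv]
  · rw [symm_fix (fun j hj => (mem_W.1 ha).1 j hj) (show p ≤ v by omega)]

theorem cr_hyp {p r : ℕ} (hr : r ≤ p) {d1 d2 x : S} (h1 : d1 ∈ D (fj (p - r)) p) (h2 : d2 ∈ D (fj r) p)
    (hx : x ∈ cN p r) : ∀ i j, i < j → x.1 j < x.1 i →
      (d1 * shS p d2).1 (x.1 j) < (d1 * shS p d2).1 (x.1 i) := by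
  intro i j hij hji
  have hd1 := (mem_D.1 h1).1
  have hd2 := (mem_D.1 h2).1
  have ei : x.1.symm (x.1 i) = i := Equiv.symm_apply_apply _ _
  have ej : x.1.symm (x.1 j) = j := Equiv.symm_apply_apply _ _
  have ci := cN_symm hr hx (x.1 i)
  have cj := cN_symm hr hx (x.1 j)
  rw [ei] at ci
  rw [ej] at cj
  have hxW := (mem_W.1 (mem_cN.1 hx).1).1
  set α := x.1 j with hα
  set β := x.1 i with hβ
  have hβ2 : β < 2 * p := by
    by_contra hge
    have h3 := hxW β (by omega)
    have h4 : β = i := x.1.injective (by rw [h3, hβ])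
    have h5 := hxW j (by omega)
    omega
  rw [cr_val hd1, cr_val hd1]
  by_cases hb : β < p
  · rw [if_pos hb, if_pos (by omega)]
    refine (mem_D.1 h1).2 _ _ hji hb ?_
    simp only [fj]
    split_ifs <;> omega
  · rw [if_neg hb]
    by_cases ha : α < p
    · rw [if_pos ha]
      have := W_lt hd1 ha
      omega
    · rw [if_neg ha]
      have : d2.1 (α - p) < d2.1 (β - p) := by
        refine (mem_D.1 h2).2 _ _ (by omega) (by omega) ?_
        simp only [fj]
        split_ifs <;> omega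
      omega

theorem cr_D_ext {n j : ℕ} (hj : j ≤ n) {d d' : S} (hd : d ∈ D (fj j) n) (hd' : d' ∈ D (fj j) n)
    (h : colset j n d = colset j n d') : d = d' := by
  have key : ∀ i, d.1.symm i = d'.1.symm i := by
    intro i
    by_cases hi : i < n
    · rw [D_symm hj hd hi, D_symm hj hd' hi, h]
    · rw [symm_fix (fun j hj => (mem_W.1 (mem_D.1 hd).1).1 j hj) (show n ≤ i by omega),
        symm_fix (fun j hj => (mem_W.1 (mem_D.1 hd').1).1 j hj) (show n ≤ i by omega)]
  refine S_ext fun x => ?_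
  have := key (d.1 x)
  rw [Equiv.symm_apply_apply, Equiv.eq_symm_apply] at this
  exact this.symm

theorem cr_exists_colset {n j : ℕ} (hj : j ≤ n) {A : Finset ℕ} (hA : A ⊆ range n) (hc : A.card = n - j) :
    ∃ d ∈ D (fj j) n, colset j n d = A := by
  classical
  have h := sum_D hj (M := ℕ) (fun B => if B = A then 1 else 0)
  rw [Finset.sum_ite_eq' (powersetCard (n - j) (range n)) A, if_pos (mem_powersetCard.2 ⟨hA, hc⟩)] at h
  obtain ⟨d, hd, hne⟩ := Finset.exists_ne_zero_of_sum_ne_zero (by rw [h]; exact one_ne_zero)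
  refine ⟨d, hd, ?_⟩
  by_contra hcol
  exact hne (if_neg hcol)

theorem cr_colset1 {p r : ℕ} (hr : r ≤ p) {d1 d2 x : S} (h1 : d1 ∈ D (fj (p - r)) p)
    (hx : x ∈ cN p r) :
    colset (p - r) p d1 = (range p).filter (fun i => p ≤ (d1 * shS p d2 * x).1.symm i) := by
  unfold colset
  refine Finset.filter_congr fun i hi => ?_
  rw [Finset.mem_range] at hi
  rw [mul_symm_app, cr_val_symm (mem_D.1 h1).1, if_pos hi]
  have := cN_symm hr hx (d1.1.symm i)
  have := cr_lt (mem_D.1 h1).1 hi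
  omega

theorem cr_colset2 {p r : ℕ} (hr : r ≤ p) {d1 d2 x : S} (h1 : d1 ∈ D (fj (p - r)) p)
    (hx : x ∈ cN p r) :
    colset r p d2 = (range p).filter (fun i => p ≤ (d1 * shS p d2 * x).1.symm (p + i)) := by
  unfold colset
  refine Finset.filter_congr fun i hi => ?_
  rw [Finset.mem_range] at hi
  rw [mul_symm_app, cr_val_symm (mem_D.1 h1).1, if_neg (by omega), show p + i - p = i by omega]
  have := cN_symm hr hx (d2.1.symm i + p)
  omega

theorem cr_ckk_cN {p r : ℕ} (hr : r ≤ p) {x : S} (hx : x ∈ cN p r) : ckk p x = r := by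
  unfold ckk
  have h : ((range p).filter (fun i => p ≤ x.1 i)).card = (Ico p (p + r)).card := by
    refine Finset.card_bij (fun i _ => x.1 i) ?_ ?_ ?_
    · intro i hi
      rw [Finset.mem_filter, Finset.mem_range] at hi
      have := (mem_cN.1 hx).2 i hi.1
      rw [Finset.mem_Ico]
      omega
    · intro a _ b _ hab
      exact x.1.injective hab
    · intro v hv
      rw [Finset.mem_Ico] at hv
      refine ⟨x.1.symm v, ?_, Equiv.apply_symm_apply _ _⟩
      rw [Finset.mem_filter, Finset.mem_range, Equiv.apply_symm_apply]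
      exact ⟨(cN_symm hr hx v).2 (Or.inr hv), hv.1⟩
  rw [h, Nat.card_Ico]
  omega

theorem cr_prod_mem {p : ℕ} {d1 d2 : S} (h1 : d1 ∈ W0 p) (h2 : d2 ∈ W0 p) :
    d1 * shS p d2 ∈ W0 (2 * p) := by
  refine mem_W.2 ⟨fun i hi => ?_, fun _ => rfl⟩
  rw [cr_val h1, if_neg (by omega), (mem_W.1 h2).1 _ (by omega)]
  omega

theorem cr_mem_cOm {p r : ℕ} (hr : r ≤ p) {d1 d2 x : S} (h1 : d1 ∈ W0 p) (h2 : d2 ∈ W0 p)
    (hx : x ∈ cN p r) : d1 * shS p d2 * x ∈ cOm p r := by
  rw [mem_cOm]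
  refine ⟨mul_mem_W (cr_prod_mem h1 h2) (mem_cN.1 hx).1, ?_⟩
  have h3 : ckk p (d1 * shS p d2 * x) = ckk p x := by
    unfold ckk
    congr 1
    refine Finset.filter_congr fun i _ => ?_
    rw [mul_app, cr_val h1]
    split_ifs with hv
    · have := W_lt h1 hv
      omega
    · omega
  rw [h3, cr_ckk_cN hr hx]

theorem cr_cardA {p r : ℕ} {w : S} (hw : w ∈ cOm p r) :
    ((range p).filter (fun i => p ≤ w.1.symm i)).card = r := by
  have h1 := Finset.card_filter_add_card_filter_not (s := range p) (fun i => p ≤ w.1.symm i)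
  have h2 := Finset.card_filter_add_card_filter_not (s := range p) (fun i => p ≤ w.1 i)
  have h3 : ((range p).filter (fun i => ¬ p ≤ w.1.symm i)).card =
      ((range p).filter (fun i => ¬ p ≤ w.1 i)).card := by
    refine Finset.card_bij (fun i _ => w.1.symm i) ?_ ?_ ?_
    · intro i hi
      rw [Finset.mem_filter, Finset.mem_range] at hi ⊢
      rw [Equiv.apply_symm_apply]
      omega
    · intro a _ b _ hab
      exact w.1.symm.injective hab
    · intro v hv
      rw [Finset.mem_filter, Finset.mem_range] at hv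
      refine ⟨w.1 v, ?_, Equiv.symm_apply_apply _ _⟩
      rw [Finset.mem_filter, Finset.mem_range, Equiv.symm_apply_apply]
      omega
  have h4 := (mem_cOm.1 hw).2
  unfold ckk at h4
  rw [Finset.card_range] at h1 h2
  omega

theorem cr_cardB {p r : ℕ} {w : S} (hw : w ∈ cOm p r) :
    ((range p).filter (fun i => p ≤ w.1.symm (p + i))).card = p - r := by
  have h1 := Finset.card_filter_add_card_filter_not (s := range p) (fun i => p ≤ w.1.symm (p + i))
  have h3 : ((range p).filter (fun i => ¬ p ≤ w.1.symm (p + i))).card =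
      ((range p).filter (fun i => p ≤ w.1 i)).card := by
    refine Finset.card_bij (fun i _ => w.1.symm (p + i)) ?_ ?_ ?_
    · intro i hi
      rw [Finset.mem_filter, Finset.mem_range] at hi ⊢
      rw [Equiv.apply_symm_apply]
      omega
    · intro a _ b _ hab
      have := w.1.symm.injective hab
      omega
    · intro v hv
      rw [Finset.mem_filter, Finset.mem_range] at hv
      have h5 := W_lt (mem_cOm.1 hw).1 (show v < 2 * p by omega)
      have h6 : p + (w.1 v - p) = w.1 v := by omega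
      refine ⟨w.1 v - p, ?_, ?_⟩
      · rw [Finset.mem_filter, Finset.mem_range, h6, Equiv.symm_apply_apply]
        omega
      · rw [h6, Equiv.symm_apply_apply]
  have h4 := (mem_cOm.1 hw).2
  unfold ckk at h4
  rw [Finset.card_range] at h1
  omega

theorem cr_sum_cOm {p r : ℕ} (hr : r ≤ p) {M : Type*} [AddCommMonoid M] (F : S → M) :
    ∑ w ∈ cOm p r, F w = ∑ d1 ∈ D (fj (p - r)) p, ∑ d2 ∈ D (fj r) p, ∑ x ∈ cN p r,
      F (d1 * shS p d2 * x) := by
  classical
  have e : ∑ d1 ∈ D (fj (p - r)) p, ∑ d2 ∈ D (fj r) p, ∑ x ∈ cN p r, F (d1 * shS p d2 * x) =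
      ∑ t ∈ D (fj (p - r)) p ×ˢ (D (fj r) p ×ˢ cN p r), F (t.1 * shS p t.2.1 * t.2.2) := by
    rw [Finset.sum_product]
    refine Finset.sum_congr rfl fun d1 _ => ?_
    rw [Finset.sum_product]
  rw [e]
  symm
  refine Finset.sum_bij (fun t _ => t.1 * shS p t.2.1 * t.2.2) ?_ ?_ ?_ ?_
  · rintro ⟨d1, d2, x⟩ ht
    simp only [Finset.mem_product] at ht ⊢
    exact cr_mem_cOm hr (mem_D.1 ht.1).1 (mem_D.1 ht.2.1).1 ht.2.2
  · rintro ⟨d1, d2, x⟩ ht ⟨d1', d2', x'⟩ ht' h
    simp only [Finset.mem_product] at ht ht' h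
    have a1 := cr_colset1 (d2 := d2) hr ht.1 ht.2.2
    have a1' := cr_colset1 (d2 := d2') hr ht'.1 ht'.2.2
    have a2 := cr_colset2 (d2 := d2) hr ht.1 ht.2.2
    have a2' := cr_colset2 (d2 := d2') hr ht'.1 ht'.2.2
    rw [h, ← a1'] at a1
    rw [h, ← a2'] at a2
    have b1 := cr_D_ext (Nat.sub_le _ _) ht.1 ht'.1 a1
    have b2 := cr_D_ext hr ht.2.1 ht'.2.1 a2
    subst b1 b2
    have b3 := mul_left_cancel h
    rw [b3]
  · intro w hw
    obtain ⟨d1, hd1, hA⟩ := cr_exists_colset (n := p) (j := p - r) (Nat.sub_le _ _)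
      (A := (range p).filter (fun i => p ≤ w.1.symm i)) (Finset.filter_subset _ _)
      (by rw [cr_cardA hw]; omega)
    obtain ⟨d2, hd2, hB⟩ := cr_exists_colset (n := p) (j := r) hr
      (A := (range p).filter (fun i => p ≤ w.1.symm (p + i))) (Finset.filter_subset _ _)
      (cr_cardB hw)
    have g1 := (mem_D.1 hd1).1
    have g2 := (mem_D.1 hd2).1
    refine ⟨(d1, d2, (d1 * shS p d2)⁻¹ * w), ?_, ?_⟩
    · simp only [Finset.mem_product]
      refine ⟨hd1, hd2, mem_cN.2 ⟨mul_mem_W (inv_mem_W (cr_prod_mem g1 g2)) (mem_cOm.1 hw).1, ?_⟩⟩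
      intro i hi
      rw [mul_app, inv_apply_eq_symm, cr_val_symm g1]
      have hv2 := W_lt (mem_cOm.1 hw).1 (show i < 2 * p by omega)
      by_cases hv : w.1 i < p
      · rw [if_pos hv]
        left
        have hn : w.1 i ∉ colset (p - r) p d1 := by
          rw [hA, Finset.mem_filter, Equiv.symm_apply_apply]
          omega
        unfold colset at hn
        rw [Finset.mem_filter, Finset.mem_range] at hn
        omega
      · rw [if_neg hv]
        right
        have h6 : p + (w.1 i - p) = w.1 i := by omega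
        have hn : w.1 i - p ∉ colset r p d2 := by
          rw [hB, Finset.mem_filter, h6, Equiv.symm_apply_apply]
          omega
        unfold colset at hn
        rw [Finset.mem_filter, Finset.mem_range] at hn
        omega
    · simp only [mul_inv_cancel_left]
  · rintro ⟨d1, d2, x⟩ _
    rfl

/-! ### Young subgroups with two blocks -/

theorem cr_W_split {j n : ℕ} {w : S} (hw : w ∈ W (fj j) n) :
    ∃ a ∈ W0 j, ∃ b ∈ W0 (n - j), w = a * shS j b := by
  refine W_ind (fj_mono j) (P := fun w => ∃ a ∈ W0 j, ∃ b ∈ W0 (n - j), w = a * shS j b) ?_ ?_ w hw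
  · exact ⟨1, one_mem_W _ _, 1, one_mem_W _ _, by rw [map_one, mul_one]⟩
  · rintro i w _ hi hfi _ ⟨a, ha, b, hb, rfl⟩
    by_cases hij : i + 1 < j
    · exact ⟨s i * a, mul_mem_W (s_mem_W hij rfl) ha, b, hb, by rw [mul_assoc]⟩
    · have hji : j ≤ i := by
        simp only [fj] at hfi
        split_ifs at hfi
        omega
      refine ⟨a, ha, s (i - j) * b, mul_mem_W (s_mem_W (by omega) rfl) hb, ?_⟩
      rw [map_mul, shS_s, show j + (i - j) = i by omega, cr_comm ha, ← mul_assoc, ← mul_assoc]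
      have := cr_comm ha (s (i - j))
      rw [shS_s, show j + (i - j) = i by omega] at this
      rw [this, mul_assoc, mul_assoc, cr_comm ha]

theorem cr_mem_fj {j n : ℕ} (hj : j ≤ n) {a b : S} (ha : a ∈ W0 j) (hb : b ∈ W0 (n - j)) :
    a * shS j b ∈ W (fj j) n := by
  refine mem_W.2 ⟨fun i hi => ?_, fun i => ?_⟩
  · rw [cr_val ha, if_neg (by omega), (mem_W.1 hb).1 _ (by omega)]
    omega
  · rw [cr_val ha]
    simp only [fj]
    by_cases hi : i < j
    · rw [if_pos hi, if_pos hi, if_pos (W_lt ha hi)]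
    · rw [if_neg hi, if_neg hi, if_neg (by omega)]

theorem cr_sum_fj {j n : ℕ} (hj : j ≤ n) {M : Type*} [AddCommMonoid M] (F : S → M) :
    ∑ w ∈ W (fj j) n, F w = ∑ a ∈ W0 j, ∑ b ∈ W0 (n - j), F (a * shS j b) := by
  classical
  rw [← Finset.sum_product']
  symm
  refine Finset.sum_bij (fun t _ => t.1 * shS j t.2) ?_ ?_ ?_ ?_
  · rintro ⟨a, b⟩ ht
    rw [Finset.mem_product] at ht
    exact cr_mem_fj hj ht.1 ht.2
  · rintro ⟨a, b⟩ ht ⟨a', b'⟩ ht' h
    rw [Finset.mem_product] at ht ht'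
    simp only at ht ht' h
    have h1 : a = a' := by
      refine S_ext fun x => ?_
      by_cases hx : x < j
      · have := congrArg (fun w : S => w.1 x) h
        simp only [cr_val ht.1, cr_val ht'.1, if_pos hx] at this
        exact this
      · rw [(mem_W.1 ht.1).1 x (by omega), (mem_W.1 ht'.1).1 x (by omega)]
    subst h1
    have h2 := shS_injective j (mul_left_cancel h)
    rw [h2]
  · intro w hw
    obtain ⟨a, ha, b, hb, rfl⟩ := cr_W_split hw
    exact ⟨(a, b), Finset.mem_product.2 ⟨ha, hb⟩, rfl⟩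
  · intro t _
    rfl

theorem cr_inv {j : ℕ} {a : S} (ha : a ∈ W0 j) (b : S) : (a * shS j b)⁻¹ = a⁻¹ * shS j b⁻¹ := by
  rw [cr_comm (inv_mem_W ha), mul_inv_rev, map_inv]

theorem cr_Tr_fj (z : k) {j n : ℕ} (hj : j ≤ n) {c : H z} (hc : c ∈ HS z j) (c' : H z) :
    Tr z (W (fj j) n) (c * sh z j c') = TrS z j c * sh z j (TrS z (n - j) c') := by
  rw [Tr_apply, cr_sum_fj hj, TrS, TrS, Tr_apply, Tr_apply, map_sum, Finset.sum_mul_sum]
  refine Finset.sum_congr rfl fun a ha => Finset.sum_congr rfl fun b _ => ?_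
  have ha' := T_mem_HW z ha
  have hai' := T_mem_HW z (inv_mem_W ha)
  have e1 := sh_commute z (le_refl j) hc (T z b)
  have e2 := sh_commute z (le_refl j) hai' (T z b * c' * T z b⁻¹)
  rw [cr_inv ha, ← cr_TT z ha, ← cr_TT' z (inv_mem_W ha), ← sh_T, ← sh_T]
  simp only [map_mul] at e2 ⊢
  calc T z a * sh z j (T z b) * (c * sh z j c') * (sh z j (T z b⁻¹) * T z a⁻¹)
      = T z a * (sh z j (T z b) * c) * (sh z j c' * sh z j (T z b⁻¹)) * T z a⁻¹ := by
        simp only [mul_assoc]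
    _ = T z a * c * ((sh z j (T z b) * sh z j c' * sh z j (T z b⁻¹)) * T z a⁻¹) := by
        rw [← e1]
        simp only [mul_assoc]
    _ = T z a * c * T z a⁻¹ * (sh z j (T z b) * sh z j c' * sh z j (T z b⁻¹)) := by
        rw [← e2]
        simp only [mul_assoc]

/-! ### The three kinds of components of the negative crossing -/

theorem cpr_congr (z : k) {Ω : Finset S} {x y : H z} (h : ∀ w ∈ Ω, τ z (T z w⁻¹ * x) = τ z (T z w⁻¹ * y)) :
    cpr z Ω x = cpr z Ω y := by
  rw [cpr_apply, cpr_apply]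
  exact Finset.sum_congr rfl fun w hw => by rw [h w hw]

theorem cpr_mem (z : k) {f : ℕ → ℕ} {N : ℕ} {Ω : Finset S} (h : ∀ w ∈ Ω, w ∈ W f N) (x : H z) :
    cpr z Ω x ∈ HW z f N := by
  rw [cpr_apply]
  exact Submodule.sum_mem _ fun w hw => Submodule.smul_mem _ _ (T_mem_HW z (h w hw))

theorem cr_cN_zero {p : ℕ} {w : S} (hw : w ∈ cOm p 0) : w ∈ cN p 0 := by
  rw [mem_cOm] at hw
  rw [mem_cN]
  refine ⟨hw.1, fun i hi => ?_⟩
  left
  by_contra hge
  have h1 : i ∈ (range p).filter (fun i => p ≤ w.1 i) := by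
    rw [Finset.mem_filter, Finset.mem_range]
    omega
  have h2 := Finset.card_pos.2 ⟨i, h1⟩
  have h3 := hw.2
  unfold ckk at h3
  omega

theorem cr_cN_top {p : ℕ} {w : S} (hw : w ∈ cOm p p) : w ∈ cN p p := by
  rw [mem_cOm] at hw
  rw [mem_cN]
  refine ⟨hw.1, fun i hi => ?_⟩
  right
  have h3 := hw.2
  unfold ckk at h3
  have h4 : ((range p).filter (fun i => p ≤ w.1 i)).card = (range p).card := by rw [h3, Finset.card_range]
  have h5 := (Finset.card_filter_eq_iff.1 h4) i (Finset.mem_range.2 hi)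
  have h6 := W_lt hw.1 (show i < 2 * p by omega)
  omega

theorem cr_Om_zero (p : ℕ) : cOm p 0 = W (fj p) (2 * p) := by
  ext w
  constructor
  · intro hw
    have h1 := cr_cN_zero hw
    refine mem_W.2 ⟨(mem_W.1 (mem_cOm.1 hw).1).1, fun i => ?_⟩
    have h2 := cN_symm (Nat.zero_le p) h1 (w.1 i)
    rw [Equiv.symm_apply_apply] at h2
    simp only [fj]
    split_ifs <;> omega
  · intro hw
    rw [mem_cOm]
    refine ⟨W_le_W0 hw, ?_⟩
    unfold ckk
    rw [Finset.card_eq_zero, Finset.filter_eq_empty_iff]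
    intro i hi
    rw [Finset.mem_range] at hi
    have := (mem_W.1 hw).2 i
    simp only [fj] at this
    split_ifs at this
    omega

/-- the components lying in `H_p ⊗ H_p` -/
theorem cr_zero (z : k) (p : ℕ) :
    cpr z (cOm p 0) (Ri z p) = cpr z (W0 p) (Ri z p) * Gam z p := by
  rw [cr_Om_zero, cpr_apply, cr_sum_fj (by omega), Finset.sum_comm, Gam, Finset.mul_sum]
  rw [show 2 * p - p = p by omega, sum_W_inv (fun a => cpr z (W0 p) (Ri z p) * (T z a * sh z p (T z a⁻¹)))]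
  refine Finset.sum_congr rfl fun b hb => ?_
  have h1 := cpr_mul_right z f0_mono (Ω := W0 p) (N := p)
    (fun i hi _ w hw => mul_mem_W hw (s_mem_W hi rfl)) (T_mem_HW z (inv_mem_W hb)) (Ri z p)
  rw [← mul_assoc, ← h1, cpr_apply, Finset.sum_mul]
  refine Finset.sum_congr rfl fun a ha => ?_
  rw [cr_inv ha, ← cr_TT z ha, ← cr_TT z (inv_mem_W ha), mul_assoc, ← sh_T, ← sh_T,
    ← Ri_slide1 z p (T_mem_HW z (inv_mem_W hb)), inv_inv, smul_mul_assoc]

theorem cr_zeta_mem (z : k) (p : ℕ) : cpr z (W0 p) (Ri z p) ∈ Zc z p := by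
  refine ⟨cpr_mem z (fun w hw => hw) _, fun i hi => ?_⟩
  rw [← cpr_g_mul z (fun w hw => mul_mem_W (s_mem_W hi rfl) hw),
    ← cpr_mul_g z (fun w hw => mul_mem_W hw (s_mem_W hi rfl)), ← Ri_slide2 z p (g_mem_HW z hi rfl),
    Ri_slide1 z p (g_mem_HW z hi rfl)]
  refine cpr_congr z fun w hw => ?_
  rw [← mul_assoc, τ_comm, ← mul_assoc, ← sh_commute z (le_refl p) (T_mem_HW z (inv_mem_W hw)), mul_assoc]

/-- the top component -/
theorem cr_top (z : k) (p : ℕ) : cpr z (cOm p p) (Ri z p) = R z p := by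
  classical
  have hbs : bs p ∈ cOm p p := by
    rw [mem_cOm]
    refine ⟨mem_W.2 ⟨fun i hi => ?_, fun _ => rfl⟩, ?_⟩
    · rw [bs_apply, if_neg (by omega), if_neg (by omega)]
    · unfold ckk
      rw [Finset.filter_true_of_mem, Finset.card_range]
      intro i hi
      rw [Finset.mem_range] at hi
      rw [bs_apply, if_pos hi]
      omega
  have key : ∀ w ∈ cOm p p, T z w⁻¹ * Ri z p = T z (w⁻¹ * bs p) := by
    intro w hw
    have h1 : T z (w⁻¹ * bs p) * T z (bs p) = T z w⁻¹ := by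
      rw [TT, mul_assoc, bs_mul_self, mul_one]
      intro i j hij hji
      have e : ∀ x, (w⁻¹ * bs p).1 ((bs p).1 x) = w.1.symm x := by
        intro x
        rw [← mul_app, mul_assoc, bs_mul_self, mul_one, inv_apply_eq_symm]
      rw [e, e]
      have h2 := cN_symm (le_refl p) (cr_cN_top hw) i
      have h3 := cN_symm (le_refl p) (cr_cN_top hw) j
      rw [bs_apply, bs_apply] at hji
      split_ifs at hji <;> omega
    rw [← h1, mul_assoc, ← R_eq_T, R_Ri, mul_one]
  rw [cpr_apply, R_eq_T, Finset.sum_eq_single_of_mem (bs p) hbs]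
  · rw [key _ hbs, inv_mul_cancel, T_one, ← T_one, τ_T, if_pos rfl, one_smul]
  · intro w hw hne
    rw [key w hw, τ_T, if_neg, zero_smul]
    intro h
    exact hne (inv_mul_eq_one.1 h)

/-! ### The middle components -/

theorem cr_fj_ne {j i : ℕ} (h : fj j i = fj j (i+1)) : i + 1 ≠ j := by
  intro he
  simp only [fj] at h
  rw [if_pos (by omega), if_neg (by omega)] at h
  omega

theorem cr_N_right (z : k) {p : ℕ} (r : ℕ) {a b : H z} (ha : a ∈ HS z p) (hb : b ∈ HS z p) (x : H z) :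
    cpr z (cN p r) (x * (a * sh z p b)) = cpr z (cN p r) x * (a * sh z p b) := by
  rw [← mul_assoc, ← mul_assoc,
    cpr_mul_right z (fj_mono p) (N := p + p) (fun i hi hfi w hw => cN_right (by omega) (cr_fj_ne hfi) hw)
      (sh_mem_fj z p hb),
    cpr_mul_right z f0_mono (N := p) (fun i hi _ w hw => cN_right (by omega) (by omega) hw) ha]

theorem cr_N_left (z : k) {p r : ℕ} (hr : r ≤ p) {a b : H z} (ha : a ∈ HW z (fj (p - r)) p)
    (hb : b ∈ HW z (fj r) p) (x : H z) :
    cpr z (cN p r) (a * sh z p b * x) = a * sh z p b * cpr z (cN p r) x := by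
  have h2 : ∀ x : H z, cpr z (cN p r) (sh z p b * x) = sh z p b * cpr z (cN p r) x := by
    refine HW_ind z (fj_mono r)
      (P := fun b => ∀ x : H z, cpr z (cN p r) (sh z p b * x) = sh z p b * cpr z (cN p r) x) ?_ ?_ ?_ ?_ b hb
    · intro x
      rw [map_one, one_mul, one_mul]
    · intro a b ha hb x
      rw [map_add, add_mul, map_add, ha, hb, add_mul]
    · intro c a ha x
      rw [map_smul, smul_mul_assoc, map_smul, ha, smul_mul_assoc]
    · intro i a hi hfi ha x
      have h3 := cr_fj_ne hfi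
      rw [map_mul (sh z p), sh_g, mul_assoc, cpr_g_mul z (fun w hw => cN_left hr (by omega) (by omega) (by omega)
        (by omega) hw), ha, mul_assoc]
  rw [mul_assoc, cpr_mul_left z (fj_mono (p - r)) (N := p) (fun i hi hfi w hw => cN_left hr (by omega)
    (by omega) (cr_fj_ne hfi) (by omega) hw) ha, h2, mul_assoc]

/-- twisted centrality -/
theorem cr_tw (z : k) (p : ℕ) {a b : H z} (ha : a ∈ HS z p) (hb : b ∈ HS z p) :
    a * sh z p b * Ri z p = Ri z p * (b * sh z p a) := by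
  rw [mul_assoc, ← Ri_slide1 z p hb, ← mul_assoc, ← Ri_slide2 z p ha, mul_assoc,
    sh_commute z (le_refl p) hb]

/-- first form of the middle components -/
theorem cr_mid1 (z : k) {p r : ℕ} (hr : r ≤ p) :
    cpr z (cOm p r) (Ri z p) = ∑ d1 ∈ D (fj (p - r)) p, ∑ d2 ∈ D (fj r) p,
      T z d1 * sh z p (T z d2) * cpr z (cN p r) (Ri z p) * (T z d2⁻¹ * sh z p (T z d1⁻¹)) := by
  rw [cpr_apply, cr_sum_cOm hr]
  refine Finset.sum_congr rfl fun d1 h1 => Finset.sum_congr rfl fun d2 h2 => ?_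
  have m1 := (mem_D.1 h1).1
  have m2 := (mem_D.1 h2).1
  have n1 := T_mem_HW z (inv_mem_W m1)
  have n2 := T_mem_HW z (inv_mem_W m2)
  rw [mul_assoc, ← cr_N_right z r n2 n1, ← cr_tw z p n1 n2, cpr_apply, Finset.mul_sum]
  refine Finset.sum_congr rfl fun x hx => ?_
  have hh := cr_hyp hr h1 h2 hx
  rw [← TT z hh, ← cr_TT_inv z hh, ← cr_TT z m1, cr_inv m1, ← cr_TT z (inv_mem_W m1), ← sh_T, ← sh_T,
    mul_smul_comm]
  simp only [mul_assoc]

/-- second form: a relative trace -/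
theorem cr_mid2 (z : k) {p r : ℕ} (hr : r ≤ p) {e1 e2 : H z} (he1 : e1 ∈ HS z p)
    (h1 : Tr z (W (fj (p - r)) p) e1 = 1) (h2 : Tr z (W (fj r) p) e2 = 1) :
    cpr z (cN p r) (Ri z p) = ∑ u1 ∈ W (fj (p - r)) p, ∑ u2 ∈ W (fj r) p,
      T z u1 * sh z p (T z u2) * (e1 * sh z p e2 * cpr z (cN p r) (Ri z p)) *
        (T z u2⁻¹ * sh z p (T z u1⁻¹)) := by
  have key : ∀ u1 ∈ W (fj (p - r)) p, ∀ u2 ∈ W (fj r) p,
      T z u1 * sh z p (T z u2) * (e1 * sh z p e2 * cpr z (cN p r) (Ri z p)) *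
        (T z u2⁻¹ * sh z p (T z u1⁻¹)) =
      (T z u1 * e1 * T z u1⁻¹) * sh z p (T z u2 * e2 * T z u2⁻¹) * cpr z (cN p r) (Ri z p) := by
    intro u1 m1 u2 m2
    have n1 := T_mem_HW z (inv_mem_W (W_le_W0 m1))
    have n2 := T_mem_HW z (inv_mem_W (W_le_W0 m2))
    have l1 := T_mem_HW z (inv_mem_W m1)
    have l2 := T_mem_HW z (inv_mem_W m2)
    have f1 := cr_N_right z r n2 n1 (Ri z p)
    have f2 := cr_N_left z hr l1 l2 (Ri z p)
    rw [← cr_tw z p n1 n2] at f1
    have c1 := sh_commute z (le_refl p) he1 (T z u2)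
    have c2 := sh_commute z (le_refl p) n1 (T z u2 * e2)
    rw [map_mul] at c2
    calc T z u1 * sh z p (T z u2) * (e1 * sh z p e2 * cpr z (cN p r) (Ri z p)) *
          (T z u2⁻¹ * sh z p (T z u1⁻¹))
        = T z u1 * (sh z p (T z u2) * e1) * sh z p e2 *
            (cpr z (cN p r) (Ri z p) * (T z u2⁻¹ * sh z p (T z u1⁻¹))) := by
          simp only [mul_assoc]
      _ = T z u1 * e1 * ((sh z p (T z u2) * sh z p e2) * T z u1⁻¹) * sh z p (T z u2⁻¹) *
            cpr z (cN p r) (Ri z p) := by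
          rw [← f1, f2, ← c1]
          simp only [mul_assoc]
      _ = (T z u1 * e1 * T z u1⁻¹) * sh z p (T z u2 * e2 * T z u2⁻¹) * cpr z (cN p r) (Ri z p) := by
          rw [← c2, map_mul, map_mul]
          simp only [mul_assoc]
  rw [Finset.sum_congr rfl (fun u1 m1 => Finset.sum_congr rfl (fun u2 m2 => key u1 m1 u2 m2))]
  have : ∀ u1 : S, ∑ u2 ∈ W (fj r) p, (T z u1 * e1 * T z u1⁻¹) * sh z p (T z u2 * e2 * T z u2⁻¹) *
      cpr z (cN p r) (Ri z p) = (T z u1 * e1 * T z u1⁻¹) * cpr z (cN p r) (Ri z p) := by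
    intro u1
    rw [← Finset.sum_mul, ← Finset.mul_sum, ← map_sum, ← Tr_apply, h2, map_one, mul_one]
  rw [Finset.sum_congr rfl (fun u1 _ => this u1), ← Finset.sum_mul, ← Tr_apply, h1, one_mul]

theorem cr_mid (z : k) {p r : ℕ} (hr : r ≤ p) {e1 e2 : H z} (he1 : e1 ∈ HS z p)
    (h1 : Tr z (W (fj (p - r)) p) e1 = 1) (h2 : Tr z (W (fj r) p) e2 = 1) :
    cpr z (cOm p r) (Ri z p) = ∑ a ∈ W0 p, ∑ b ∈ W0 p, T z a * sh z p (T z b) *
      (e1 * sh z p e2 * cpr z (cN p r) (Ri z p)) * (T z b⁻¹ * sh z p (T z a⁻¹)) := by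
  rw [cr_mid1 z hr, sum_coset (fj_mono (p - r)) (fun a => ∑ b ∈ W0 p, T z a * sh z p (T z b) *
      (e1 * sh z p e2 * cpr z (cN p r) (Ri z p)) * (T z b⁻¹ * sh z p (T z a⁻¹)))]
  refine Finset.sum_congr rfl fun d1 hd1 => ?_
  have e3 : ∀ u1 ∈ W (fj (p - r)) p, (∑ b ∈ W0 p, T z (d1 * u1) * sh z p (T z b) *
      (e1 * sh z p e2 * cpr z (cN p r) (Ri z p)) * (T z b⁻¹ * sh z p (T z (d1 * u1)⁻¹))) =
      ∑ d2 ∈ D (fj r) p, ∑ u2 ∈ W (fj r) p, T z d1 * sh z p (T z d2) * (T z u1 * sh z p (T z u2) *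
        (e1 * sh z p e2 * cpr z (cN p r) (Ri z p)) * (T z u2⁻¹ * sh z p (T z u1⁻¹))) *
          (T z d2⁻¹ * sh z p (T z d1⁻¹)) := by
    intro u1 m1
    rw [sum_coset (fj_mono r) (fun b => T z (d1 * u1) * sh z p (T z b) *
      (e1 * sh z p e2 * cpr z (cN p r) (Ri z p)) * (T z b⁻¹ * sh z p (T z (d1 * u1)⁻¹)))]
    refine Finset.sum_congr rfl fun d2 hd2 => Finset.sum_congr rfl fun u2 m2 => ?_
    have c1 := sh_commute z (le_refl p) (T_mem_HW z (W_le_W0 m1)) (T z d2)
    have c2 := sh_commute z (le_refl p) (T_mem_HW z (inv_mem_W (mem_D.1 hd2).1)) (T z u1⁻¹)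
    rw [← T_coset z (fj_mono _) hd1 m1, ← T_coset z (fj_mono _) hd2 m2, mul_inv_rev, mul_inv_rev,
      ← T_coset_inv z (fj_mono _) hd1 (inv_mem_W m1), ← T_coset_inv z (fj_mono _) hd2 (inv_mem_W m2),
      map_mul, map_mul]
    generalize e1 * sh z p e2 * cpr z (cN p r) (Ri z p) = h
    calc T z d1 * T z u1 * (sh z p (T z d2) * sh z p (T z u2)) * h *
          (T z u2⁻¹ * T z d2⁻¹ * (sh z p (T z u1⁻¹) * sh z p (T z d1⁻¹)))
        = T z d1 * (T z u1 * sh z p (T z d2)) * sh z p (T z u2) * h * T z u2⁻¹ *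
            (T z d2⁻¹ * sh z p (T z u1⁻¹)) * sh z p (T z d1⁻¹) := by
          simp only [mul_assoc]
      _ = _ := by
          rw [c1, c2]
          simp only [mul_assoc]
  rw [Finset.sum_congr rfl e3, Finset.sum_comm]
  refine Finset.sum_congr rfl fun d2 hd2 => ?_
  simp only [← Finset.mul_sum, ← Finset.sum_mul]
  rw [← cr_mid2 z hr he1 h1 h2]

theorem cr_split (z : k) (p : ℕ) : Ri z p = ∑ r ∈ range (p + 1), cpr z (cOm p r) (Ri z p) := by
  classical
  have h := HW_expand z (Ri_mem z p)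
  have h2 := Finset.sum_fiberwise_of_maps_to (s := W0 (2 * p)) (t := range (p + 1)) (g := ckk p)
    (fun w _ => by
      rw [Finset.mem_range]
      have := Finset.card_filter_le (range p) (fun i => p ≤ w.1 i)
      rw [Finset.card_range] at this
      unfold ckk
      omega) (fun w => τ z (T z w⁻¹ * Ri z p) • T z w)
  refine h.trans (h2.symm.trans ?_)
  refine Finset.sum_congr rfl fun r _ => ?_
  rw [cpr_apply]
  refine Finset.sum_congr ?_ fun _ _ => rfl
  ext w
  rw [mem_cOm, Finset.mem_filter]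

theorem cross_decomp (z : k) {p : ℕ} (hp : 0 < p) (hc : ∀ j, 0 < j → j < p → ∃ c ∈ HS z j, TrS z j c = 1) :
    ∃ ζ ∈ Zc z p, ∃ h ∈ HS z (2 * p), Ri z p = R z p + ζ * Gam z p +
      ∑ a ∈ W0 p, ∑ b ∈ W0 p, T z a * sh z p (T z b) * h * (T z b⁻¹ * sh z p (T z a⁻¹)) := by
  classical
  refine ⟨cpr z (W0 p) (Ri z p), cr_zeta_mem z p, ?_⟩
  have hmid : ∀ r, ∃ h ∈ HS z (2 * p), 0 < r → r < p → cpr z (cOm p r) (Ri z p) =
      ∑ a ∈ W0 p, ∑ b ∈ W0 p, T z a * sh z p (T z b) * h * (T z b⁻¹ * sh z p (T z a⁻¹)) := by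
    intro r
    by_cases hr : 0 < r ∧ r < p
    · obtain ⟨c1, m1, t1⟩ := hc r hr.1 hr.2
      obtain ⟨c2, m2, t2⟩ := hc (p - r) (by omega) (by omega)
      have e1 : c2 * sh z (p - r) c1 ∈ HS z p := by
        refine mul_mem_HW z f0_mono (HS_mono z (by omega) m2) ?_
        have := sh_mem z (p - r) m1
        rwa [show p - r + r = p by omega] at this
      have e2 : c1 * sh z r c2 ∈ HS z p := by
        refine mul_mem_HW z f0_mono (HS_mono z (by omega) m1) ?_
        have := sh_mem z r m2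
        rwa [show r + (p - r) = p by omega] at this
      have f1 : Tr z (W (fj (p - r)) p) (c2 * sh z (p - r) c1) = 1 := by
        rw [cr_Tr_fj z (by omega) m2, t2, show p - (p - r) = r by omega, t1, map_one, one_mul]
      have f2 : Tr z (W (fj r) p) (c1 * sh z r c2) = 1 := by
        rw [cr_Tr_fj z (by omega) m1, t1, t2, map_one, one_mul]
      refine ⟨c2 * sh z (p - r) c1 * sh z p (c1 * sh z r c2) * cpr z (cN p r) (Ri z p), ?_, fun _ _ =>
        cr_mid z hr.2.le e1 f1 f2⟩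
      refine mul_mem_HW z f0_mono (mul_mem_HW z f0_mono (HS_mono z (by omega) e1) ?_)
        (cpr_mem z (fun w hw => (mem_cN.1 hw).1) _)
      have := sh_mem z p e2
      rwa [show p + p = 2 * p by omega] at this
    · exact ⟨0, Submodule.zero_mem _, fun h1 h2 => absurd ⟨h1, h2⟩ hr⟩
  choose h hh hsum using hmid
  refine ⟨∑ r ∈ Ico 1 p, h r, Submodule.sum_mem _ fun r _ => hh r, ?_⟩
  have hs := cr_split z p
  rw [Finset.sum_range_succ, cr_top, Finset.range_eq_Ico, Finset.sum_eq_sum_Ico_succ_bot hp, cr_zero,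
    add_comm, ← add_assoc] at hs
  refine hs.trans ?_
  congr 1
  rw [zero_add, Finset.sum_congr rfl (fun r hr => hsum r (by
    rw [Finset.mem_Ico] at hr
    omega) (Finset.mem_Ico.1 hr).2), Finset.sum_comm]
  refine Finset.sum_congr rfl fun a _ => ?_
  rw [Finset.sum_comm]
  refine Finset.sum_congr rfl fun b _ => ?_
  rw [Finset.mul_sum, Finset.sum_mul]

end Pool.Agent.HL
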