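import Pool.Agent.Lib.HL21.Prim
import Pool.Agent.Lib.HL21.Cross

/-! # Module Bi: the three local relations -/

namespace Pool.Agent.HL

open Finset

variable {k : Type*} [CommRing k]

/-- `Φ` is central with respect to `H_p ⊗ H_p`. -/
def ACentral (z : k) (p : ℕ) (Φ : H z →ₗ[k] k) : Prop :=
  ∀ x ∈ HS z p, ∀ y ∈ HS z (2 * p), Φ (x * y) = Φ (y * x) ∧ Φ (sh z p x * y) = Φ (y * sh z p x)

/-- `Φ` is twisted-central with respect to `H_p ⊗ H_p`. -/
def ATwist (z : k) (p : ℕ) (Φ : H z →ₗ[k] k) : Prop :=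
  ∀ x ∈ HS z p, ∀ y ∈ HS z (2 * p), Φ (x * y) = Φ (y * sh z p x) ∧ Φ (sh z p x * y) = Φ (y * x)

/-! ### Preliminaries -/

theorem bi_sh_mem (z : k) {p : ℕ} {x : H z} (hx : x ∈ HS z p) : sh z p x ∈ HS z (2 * p) := by
  have := sh_mem z p hx
  rwa [show p + p = 2 * p by omega] at this

theorem bi_mem2 (z : k) {p : ℕ} {x : H z} (hx : x ∈ HS z p) : x ∈ HS z (2 * p) :=
  HS_mono z (by omega) hx

theorem bi_zc (z : k) {p : ℕ} {ζ : H z} (hζ : ζ ∈ Zc z p) {x : H z} (hx : x ∈ HS z p) : ζ * x = x * ζ := by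
  refine HW_ind z f0_mono (P := fun x => ζ * x = x * ζ) ?_ ?_ ?_ ?_ x hx
  · rw [one_mul, mul_one]
  · intro a b ha hb
    rw [mul_add, add_mul, ha, hb]
  · intro c a ha
    rw [mul_smul_comm, smul_mul_assoc, ha]
  · intro i a hi _ ha
    rw [← mul_assoc, ← hζ.2 i hi, mul_assoc, ha, mul_assoc]

theorem bi_tr (z : k) {p : ℕ} {θ : H z →ₗ[k] k} (hθ : ∀ x ∈ HS z p, ∀ y ∈ HS z p, θ (x * y) = θ (y * x))
    {x y : H z} (hx : x ∈ HS z p) (hy : y ∈ HS z p) : θ (x * TrS z p y) = θ (TrS z p x * y) := by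
  rw [← Tr_inv z f0 p x, TrS, Tr_apply, Finset.mul_sum, Finset.sum_mul, map_sum, map_sum]
  refine Finset.sum_congr rfl fun w hw => ?_
  have h1 := T_mem_HW z hw
  have h2 := T_mem_HW z (inv_mem_W hw)
  rw [show x * (T z w * y * T z w⁻¹) = (x * (T z w * y)) * T z w⁻¹ by simp only [mul_assoc],
    hθ _ (mul_mem_HW z f0_mono hx (mul_mem_HW z f0_mono h1 hy)) _ h2]
  simp only [mul_assoc]

theorem bi_TrXz {P : Par k} {p : ℕ} (hG : Good P p) {ζ : H P.z} (hζ : ζ ∈ Zc P.z p) :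
    TrS P.z p (X P.z p * ζ) = 0 := by
  rw [← bi_zc P.z hζ (X_mem P.z p), TrS, Tr_mul_left P.z f0 p (fun w hw => bi_zc P.z hζ (T_mem_HW P.z hw))]
  have := Tr_X_zero hG
  rw [TrS] at this
  rw [this, mul_zero]

/-- the character `lam` is realised by every trace functional on `X_p` -/
theorem bi_lam {P : Par k} {p : ℕ} (hG : Good P p) {lam : H P.z →ₗ[k] k} {F : H P.z →ₗ[k] H P.z}
    (hF : ∀ x, F x ∈ HS P.z p) (hZ : ∀ ζ ∈ Zc P.z p, ζ = lam ζ • (1 : H P.z) + TrS P.z p (F ζ))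
    {θ : H P.z →ₗ[k] k} (hθ : ∀ x ∈ HS P.z p, ∀ y ∈ HS P.z p, θ (x * y) = θ (y * x))
    {ζ : H P.z} (hζ : ζ ∈ Zc P.z p) : θ (X P.z p * ζ) = lam ζ * θ (X P.z p) := by
  have h1 : X P.z p * ζ = lam ζ • X P.z p + X P.z p * TrS P.z p (F ζ) := by
    conv_lhs => rw [hZ ζ hζ]
    rw [mul_add, mul_smul_comm, mul_one]
  rw [h1, map_add, map_smul, smul_eq_mul, bi_tr P.z hθ (X_mem P.z p) (hF ζ), Tr_X_zero hG, zero_mul,
    map_zero, add_zero]

theorem bi_ft {P : Par k} {p : ℕ} (hG : Good P p) {φ : H P.z →ₗ[k] k}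
    (hφ : ∀ x ∈ HS P.z p, ∀ y ∈ HS P.z p, φ (x * y) = φ (y * x)) :
    φ (X P.z p * FT P.z p) = (-1) ^ (p - 1) * φ (X P.z p) ∧
    φ (X P.z p * FTi P.z p) = (-1) ^ (p - 1) * φ (X P.z p) := by
  obtain ⟨lam, F, hF, hZ⟩ := ZJ hG
  have hp : 0 < p := hG.pr.pos
  have hFT : FT P.z p ∈ Zc P.z p := ⟨FT_mem P.z p, fun i hi => FT_central P.z hi⟩
  have hFTi : FTi P.z p ∈ Zc P.z p := ⟨FTi_mem P.z p, fun i hi => FTi_central P.z hi⟩
  have hzz : P.z ^ (p - 1) * P.zi ^ (p - 1) = 1 := by rw [← mul_pow, P.z_mul_zi, one_pow]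
  have hneg : (-P.z) ^ (p - 1) = (-1) ^ (p - 1) * P.z ^ (p - 1) := by rw [← mul_pow, neg_one_mul]
  have hs : ((-1 : k) ^ (p - 1)) * (-1) ^ (p - 1) = 1 := by rw [← mul_pow, neg_one_mul, neg_neg, one_pow]
  have hτ : ∀ x ∈ HS P.z p, ∀ y ∈ HS P.z p, τ P.z (x * y) = τ P.z (y * x) := fun x _ y _ => τ_comm P.z x y
  have a1 := bi_lam hG hF hZ hτ hFT
  have l1 : lam (FT P.z p) = (-1) ^ (p - 1) := by
    rw [τ_X_FT P.z hp, τ_X P.z hp, hneg] at a1
    calc lam (FT P.z p) = lam (FT P.z p) * ((-1) ^ (p - 1) * P.z ^ (p - 1)) * (P.zi ^ (p - 1) * (-1) ^ (p - 1)) := by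
          rw [show lam (FT P.z p) * ((-1) ^ (p - 1) * P.z ^ (p - 1)) * (P.zi ^ (p - 1) * (-1) ^ (p - 1)) =
            lam (FT P.z p) * (P.z ^ (p - 1) * P.zi ^ (p - 1)) * ((-1) ^ (p - 1) * (-1) ^ (p - 1)) by ring,
            hzz, hs, mul_one, mul_one]
      _ = (-1) ^ (p - 1) := by
          rw [← a1, ← mul_assoc, hzz, one_mul]
  have hθ : ∀ x ∈ HS P.z p, ∀ y ∈ HS P.z p, ((τ P.z) ∘ₗ (LinearMap.mulRight k (FT P.z p))) (x * y) =
      ((τ P.z) ∘ₗ (LinearMap.mulRight k (FT P.z p))) (y * x) := by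
    intro x hx y _
    simp only [LinearMap.comp_apply, LinearMap.mulRight_apply]
    rw [mul_assoc, τ_comm, mul_assoc, bi_zc P.z hFT hx, mul_assoc]
  have a2 := bi_lam hG hF hZ hθ hFTi
  have l2 : lam (FTi P.z p) = (-1) ^ (p - 1) := by
    simp only [LinearMap.comp_apply, LinearMap.mulRight_apply] at a2
    rw [mul_assoc, FTi_FT, mul_one, τ_X_FT P.z hp, τ_X P.z hp, hneg] at a2
    calc lam (FTi P.z p) = lam (FTi P.z p) * P.z ^ (p - 1) * P.zi ^ (p - 1) := by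
          rw [mul_assoc, hzz, mul_one]
      _ = (-1) ^ (p - 1) := by
          rw [← a2, mul_assoc, hzz, mul_one]
  exact ⟨by rw [bi_lam hG hF hZ hφ hFT, l1], by rw [bi_lam hG hF hZ hφ hFTi, l2]⟩

theorem bi_cross {P : Par k} {p : ℕ} (hG : Good P p) :
    ∃ ζ ∈ Zc P.z p, ∃ h ∈ HS P.z (2 * p), Ri P.z p = R P.z p + ζ * Gam P.z p +
      ∑ a ∈ W0 p, ∑ b ∈ W0 p, T P.z a * sh P.z p (T P.z b) * h * (T P.z b⁻¹ * sh P.z p (T P.z a⁻¹)) :=
  cross_decomp P.z hG.pr.pos fun _ _ hj => sep hG hj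

theorem bi_inter {P : Par k} {p : ℕ} (hG : Good P p) {Φ : H P.z →ₗ[k] k} (hΦ : ATwist P.z p Φ) :
    Φ (X P.z p * sh P.z p (X P.z p) * R P.z p) = Φ (X P.z p * sh P.z p (X P.z p) * Ri P.z p) := by
  obtain ⟨ζ, hζ, h, hh, hR⟩ := bi_cross hG
  have hX := X_mem P.z p
  have hX2 := bi_mem2 P.z hX
  have hsX := bi_sh_mem P.z hX
  have e1 : Φ (X P.z p * sh P.z p (X P.z p) * (ζ * Gam P.z p)) = 0 := by
    rw [Gam, Finset.mul_sum, Finset.mul_sum, map_sum]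
    have : ∀ a ∈ W0 p, Φ (X P.z p * sh P.z p (X P.z p) * (ζ * (T P.z a * sh P.z p (T P.z a⁻¹)))) =
        Φ (T P.z a⁻¹ * (X P.z p * ζ) * T P.z a * sh P.z p (X P.z p)) := by
      intro a ha
      have h1 := T_mem_HW P.z ha
      have h2 := T_mem_HW P.z (inv_mem_W ha)
      have h3 := mul_mem_HW P.z f0_mono hζ.1 h1
      have h4 : X P.z p * sh P.z p (X P.z p) * (ζ * T P.z a) ∈ HS P.z (2 * p) :=
        mul_mem_HW P.z f0_mono (mul_mem_HW P.z f0_mono hX2 hsX) (bi_mem2 P.z h3)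
      rw [show X P.z p * sh P.z p (X P.z p) * (ζ * (T P.z a * sh P.z p (T P.z a⁻¹))) =
        (X P.z p * sh P.z p (X P.z p) * (ζ * T P.z a)) * sh P.z p (T P.z a⁻¹) by simp only [mul_assoc],
        ← (hΦ _ h2 _ h4).1, mul_assoc (X P.z p) (sh P.z p (X P.z p)),
        ← sh_commute P.z (le_refl p) h3]
      simp only [mul_assoc]
    rw [Finset.sum_congr rfl this, ← map_sum, ← Finset.sum_mul, Tr_inv P.z f0 p (X P.z p * ζ)]
    have h5 := bi_TrXz hG hζ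
    rw [TrS] at h5
    rw [h5, zero_mul, map_zero]
  have e2 : Φ (X P.z p * sh P.z p (X P.z p) * ∑ a ∈ W0 p, ∑ b ∈ W0 p,
      T P.z a * sh P.z p (T P.z b) * h * (T P.z b⁻¹ * sh P.z p (T P.z a⁻¹))) = 0 := by
    have : ∀ a ∈ W0 p, ∀ b ∈ W0 p, Φ (X P.z p * sh P.z p (X P.z p) *
        (T P.z a * sh P.z p (T P.z b) * h * (T P.z b⁻¹ * sh P.z p (T P.z a⁻¹)))) =
        Φ ((T P.z a⁻¹ * X P.z p * T P.z a) * (sh P.z p (T P.z b⁻¹) * sh P.z p (X P.z p) *
          sh P.z p (T P.z b) * h)) := by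
      intro a ha b hb
      have h1 := T_mem_HW P.z ha
      have h2 := T_mem_HW P.z (inv_mem_W ha)
      have h3 := T_mem_HW P.z hb
      have h4 := T_mem_HW P.z (inv_mem_W hb)
      have m1 : X P.z p * sh P.z p (X P.z p) * (T P.z a * sh P.z p (T P.z b) * h) ∈ HS P.z (2 * p) :=
        mul_mem_HW P.z f0_mono (mul_mem_HW P.z f0_mono hX2 hsX) (mul_mem_HW P.z f0_mono
          (mul_mem_HW P.z f0_mono (bi_mem2 P.z h1) (bi_sh_mem P.z h3)) hh)
      have m2 := mul_mem_HW P.z f0_mono m1 (bi_mem2 P.z h4)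
      have m3 := mul_mem_HW P.z f0_mono (bi_mem2 P.z h2) m1
      have c1 := sh_commute P.z (le_refl p) h2 (T P.z b⁻¹)
      have c2 := sh_commute P.z (le_refl p) h1 (X P.z p)
      have c3 := sh_commute P.z (le_refl p) hX (T P.z b⁻¹)
      have c4 := sh_commute P.z (le_refl p) h1 (T P.z b⁻¹)
      calc Φ (X P.z p * sh P.z p (X P.z p) *
            (T P.z a * sh P.z p (T P.z b) * h * (T P.z b⁻¹ * sh P.z p (T P.z a⁻¹))))
          = Φ ((X P.z p * sh P.z p (X P.z p) * (T P.z a * sh P.z p (T P.z b) * h) * T P.z b⁻¹) *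
              sh P.z p (T P.z a⁻¹)) := by simp only [mul_assoc]
        _ = Φ ((T P.z a⁻¹ * (X P.z p * sh P.z p (X P.z p) * (T P.z a * sh P.z p (T P.z b) * h))) *
              T P.z b⁻¹) := by
            rw [← (hΦ _ h2 _ m2).1]
            simp only [mul_assoc]
        _ = Φ ((sh P.z p (T P.z b⁻¹) * T P.z a⁻¹) * X P.z p * (sh P.z p (X P.z p) * T P.z a) *
              sh P.z p (T P.z b) * h) := by
            rw [← (hΦ _ h4 _ m3).2]
            simp only [mul_assoc]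
        _ = Φ (T P.z a⁻¹ * (sh P.z p (T P.z b⁻¹) * X P.z p) * T P.z a * sh P.z p (X P.z p) *
              sh P.z p (T P.z b) * h) := by
            rw [← c1, ← c2]
            simp only [mul_assoc]
        _ = Φ (T P.z a⁻¹ * X P.z p * (sh P.z p (T P.z b⁻¹) * T P.z a) * sh P.z p (X P.z p) *
              sh P.z p (T P.z b) * h) := by
            rw [← c3]
            simp only [mul_assoc]
        _ = _ := by
            rw [← c4]
            simp only [mul_assoc]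
    rw [Finset.mul_sum, map_sum]
    simp only [Finset.mul_sum, map_sum]
    rw [Finset.sum_congr rfl (fun a ha => Finset.sum_congr rfl (fun b hb => this a ha b hb)), Finset.sum_comm]
    refine Finset.sum_eq_zero fun b _ => ?_
    rw [← map_sum, ← Finset.sum_mul, Tr_inv P.z f0 p (X P.z p)]
    have h5 := Tr_X_zero hG
    rw [TrS] at h5
    rw [h5, zero_mul, map_zero]
  rw [hR, mul_add, mul_add, map_add, map_add, e1, e2, add_zero, add_zero]

/-! ### The map `U`: `τ(U(c) x) = Φ(x ⊗ c)` -/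

/-- the element of `H_p` representing the functional `x ↦ Φ(x ⊗ c)` -/
noncomputable def biU (z : k) (p : ℕ) (Φ : H z →ₗ[k] k) : H z →ₗ[k] H z :=
  ∑ a ∈ W0 p, (Φ ∘ₗ (LinearMap.mulLeft k (T z a⁻¹)) ∘ₗ (sh z p).toLinearMap).smulRight (T z a)

theorem biU_apply (z : k) (p : ℕ) (Φ : H z →ₗ[k] k) (c : H z) :
    biU z p Φ c = ∑ a ∈ W0 p, Φ (T z a⁻¹ * sh z p c) • T z a := by
  simp only [biU, LinearMap.sum_apply, LinearMap.smulRight_apply, LinearMap.comp_apply,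
    LinearMap.mulLeft_apply, AlgHom.toLinearMap_apply]

theorem biU_mem (z : k) (p : ℕ) (Φ : H z →ₗ[k] k) (c : H z) : biU z p Φ c ∈ HS z p := by
  rw [biU_apply]
  exact Submodule.sum_mem _ fun a ha => Submodule.smul_mem _ _ (T_mem_HW z ha)

theorem biU_τ (z : k) {p : ℕ} (Φ : H z →ₗ[k] k) (c : H z) {x : H z} (hx : x ∈ HS z p) :
    τ z (biU z p Φ c * x) = Φ (x * sh z p c) := by
  have h1 : x = ∑ a ∈ W0 p, τ z (T z a * x) • T z a⁻¹ := by
    refine (HW_expand z hx).trans ?_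
    rw [sum_W_inv]
    simp only [inv_inv]
  rw [biU_apply, Finset.sum_mul, map_sum]
  conv_rhs => rw [h1]
  rw [Finset.sum_mul, map_sum]
  refine Finset.sum_congr rfl fun a _ => ?_
  rw [smul_mul_assoc, smul_mul_assoc, map_smul, map_smul, smul_eq_mul, smul_eq_mul, mul_comm]

theorem biU_comm (z : k) {p : ℕ} {Φ : H z →ₗ[k] k} (hΦ : ACentral z p Φ) {x y : H z} (hx : x ∈ HS z p)
    (hy : y ∈ HS z p) : biU z p Φ (x * y) = biU z p Φ (y * x) := by
  rw [biU_apply, biU_apply]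
  refine Finset.sum_congr rfl fun a ha => ?_
  have h2 := T_mem_HW z (inv_mem_W ha)
  have h3 := (hΦ x hx (T z a⁻¹ * sh z p y) (mul_mem_HW z f0_mono (bi_mem2 z h2) (bi_sh_mem z hy))).2
  rw [map_mul (sh z p), map_mul (sh z p), ← mul_assoc, sh_commute z (le_refl p) h2, mul_assoc, h3,
    mul_assoc]

theorem biU_zc (z : k) {p : ℕ} {Φ : H z →ₗ[k] k} (hΦ : ACentral z p Φ) {c : H z} (hc : c ∈ HS z p) :
    biU z p Φ c ∈ Zc z p := by
  refine ⟨biU_mem z p Φ c, fun i hi => ?_⟩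
  have hg := g_mem_HW z (f := f0) hi rfl
  refine sub_eq_zero.1 (τ_nondeg z (f := f0) (N := p) ?_ ?_)
  · exact Submodule.sub_mem _ (mul_mem_HW z f0_mono hg (biU_mem z p Φ c))
      (mul_mem_HW z f0_mono (biU_mem z p Φ c) hg)
  · intro y hy
    have h3 := (hΦ (g z i) hg (y * sh z p c) (mul_mem_HW z f0_mono (bi_mem2 z hy) (bi_sh_mem z hc))).1
    have a1 : τ z (g z i * biU z p Φ c * y) = Φ (y * g z i * sh z p c) := by
      rw [mul_assoc, τ_comm, mul_assoc, biU_τ z Φ c (mul_mem_HW z f0_mono hy hg)]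
    have a2 : τ z (biU z p Φ c * g z i * y) = Φ (g z i * (y * sh z p c)) := by
      rw [mul_assoc, biU_τ z Φ c (mul_mem_HW z f0_mono hg hy), mul_assoc]
    rw [sub_mul, map_sub, a1, a2, h3, mul_assoc, mul_assoc, sh_commute z (le_refl p) hg, sub_self]

/-- `∑_b U(T_{b⁻¹}) ⊗ T_b` commutes with `1 ⊗ H_p` -/
theorem biU_slide (z : k) {p : ℕ} {Φ : H z →ₗ[k] k} (hΦ : ACentral z p Φ) {M : Type*} [AddCommGroup M]
    [Module k M] (Ψ : H z →ₗ[k] H z →ₗ[k] M) {y : H z} (hy : y ∈ HS z p) :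
    ∑ b ∈ W0 p, Ψ (biU z p Φ (T z b⁻¹)) (T z b * y) = ∑ b ∈ W0 p, Ψ (biU z p Φ (T z b⁻¹)) (y * T z b) := by
  have h1 := casimir_right z f0_mono (N := p) (Ψ ∘ₗ biU z p Φ).flip hy
  have h2 := casimir_left z f0_mono (N := p) (Ψ ∘ₗ biU z p Φ).flip hy
  simp only [LinearMap.flip_apply, LinearMap.comp_apply] at h1 h2
  rw [h1, h2]
  refine Finset.sum_congr rfl fun b hb => ?_
  rw [biU_comm z hΦ hy (T_mem_HW z (inv_mem_W hb))]

theorem bi_gam {P : Par k} {p : ℕ} (hG : Good P p) {lam : H P.z →ₗ[k] k} {F : H P.z →ₗ[k] H P.z}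
    (hF : ∀ x, F x ∈ HS P.z p) (hZ : ∀ ζ ∈ Zc P.z p, ζ = lam ζ • (1 : H P.z) + TrS P.z p (F ζ))
    {ζ : H P.z} (hζ : ζ ∈ Zc P.z p) {Φ : H P.z →ₗ[k] k} (hΦ : ACentral P.z p Φ) :
    ((-P.z) ^ (p - 1)) * Φ (X P.z p * (ζ * Gam P.z p)) = lam ζ * Φ (X P.z p * sh P.z p (X P.z p)) := by
  have hp : 0 < p := hG.pr.pos
  have hX := X_mem P.z p
  have hXζ := mul_mem_HW P.z f0_mono hX hζ.1
  have hτ : ∀ x ∈ HS P.z p, ∀ y ∈ HS P.z p, τ P.z (x * y) = τ P.z (y * x) := fun x _ y _ => τ_comm P.z x y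
  set v : H P.z := ∑ b ∈ W0 p, lam (biU P.z p Φ (T P.z b⁻¹)) • T P.z b with hv
  have hvz : v ∈ Zc P.z p := by
    refine ⟨Submodule.sum_mem _ fun b hb => Submodule.smul_mem _ _ (T_mem_HW P.z hb), fun i hi => ?_⟩
    have h1 := biU_slide P.z hΦ (M := H P.z) ((LinearMap.lsmul k (H P.z)) ∘ₗ lam)
      (g_mem_HW P.z (f := f0) hi rfl)
    simp only [LinearMap.comp_apply, LinearMap.lsmul_apply] at h1
    rw [hv, Finset.mul_sum, Finset.sum_mul]
    simp only [mul_smul_comm, smul_mul_assoc]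
    exact h1.symm
  have step1 : Φ (X P.z p * (ζ * Gam P.z p)) = τ P.z (X P.z p * ζ * v) := by
    have s1 : Φ (X P.z p * (ζ * Gam P.z p)) =
        ∑ b ∈ W0 p, τ P.z (biU P.z p Φ (T P.z b⁻¹) * (X P.z p * ζ * T P.z b)) := by
      rw [Gam, Finset.mul_sum, Finset.mul_sum, map_sum]
      refine Finset.sum_congr rfl fun b hb => ?_
      rw [biU_τ P.z Φ _ (mul_mem_HW P.z f0_mono hXζ (T_mem_HW P.z hb))]
      simp only [mul_assoc]
    have s2 : ∀ b ∈ W0 p, τ P.z (biU P.z p Φ (T P.z b⁻¹) * (X P.z p * ζ * T P.z b)) =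
        τ P.z (X P.z p * ζ * (lam (biU P.z p Φ (T P.z b⁻¹)) • T P.z b)) +
        ∑ c ∈ W0 p, τ P.z (F (biU P.z p Φ (T P.z b⁻¹)) * (T P.z c⁻¹ * (X P.z p * ζ) * (T P.z b * T P.z c))) := by
      intro b hb
      have hU := biU_zc P.z hΦ (T_mem_HW P.z (inv_mem_W hb))
      conv_lhs => rw [hZ _ hU]
      rw [add_mul, map_add, smul_mul_assoc, one_mul, mul_smul_comm, add_right_inj, TrS, Tr_apply,
        Finset.sum_mul, map_sum]
      refine Finset.sum_congr rfl fun c _ => ?_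
      rw [mul_assoc (T P.z c), mul_assoc (T P.z c), τ_comm]
      simp only [mul_assoc]
    have s3 : ∀ c ∈ W0 p, ∑ b ∈ W0 p,
        τ P.z (F (biU P.z p Φ (T P.z b⁻¹)) * (T P.z c⁻¹ * (X P.z p * ζ) * (T P.z b * T P.z c))) =
        ∑ b ∈ W0 p,
        τ P.z (F (biU P.z p Φ (T P.z b⁻¹)) * (T P.z c⁻¹ * (X P.z p * ζ) * (T P.z c * T P.z b))) := by
      intro c hc
      have h1 := biU_slide P.z hΦ (M := k) ((((LinearMap.mul k (H P.z)).compr₂ (τ P.z)) ∘ₗ F).compl₂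
        (LinearMap.mulLeft k (T P.z c⁻¹ * (X P.z p * ζ)))) (T_mem_HW P.z hc)
      simp only [LinearMap.comp_apply, LinearMap.compl₂_apply, LinearMap.compr₂_apply,
        LinearMap.mul_apply', LinearMap.mulLeft_apply] at h1
      exact h1
    have s4 : ∑ b ∈ W0 p, ∑ c ∈ W0 p,
        τ P.z (F (biU P.z p Φ (T P.z b⁻¹)) * (T P.z c⁻¹ * (X P.z p * ζ) * (T P.z b * T P.z c))) = 0 := by
      rw [Finset.sum_comm, Finset.sum_congr rfl s3, Finset.sum_comm]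
      refine Finset.sum_eq_zero fun b _ => ?_
      have s5 : ∀ c : S, F (biU P.z p Φ (T P.z b⁻¹)) * (T P.z c⁻¹ * (X P.z p * ζ) * (T P.z c * T P.z b)) =
          F (biU P.z p Φ (T P.z b⁻¹)) * ((T P.z c⁻¹ * (X P.z p * ζ) * T P.z c) * T P.z b) := by
        intro c
        simp only [mul_assoc]
      rw [Finset.sum_congr rfl (fun c _ => by rw [s5 c]), ← map_sum, ← Finset.mul_sum, ← Finset.sum_mul,
        Tr_inv P.z f0 p (X P.z p * ζ)]
      have h5 := bi_TrXz hG hζ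
      rw [TrS] at h5
      rw [h5, zero_mul, mul_zero, map_zero]
    rw [s1, Finset.sum_congr rfl s2, Finset.sum_add_distrib, s4, add_zero, ← map_sum, ← Finset.mul_sum]
  have step2 : τ P.z (X P.z p * ζ * v) = lam ζ * (lam v * τ P.z (X P.z p)) := by
    have hθ : ∀ x ∈ HS P.z p, ∀ y ∈ HS P.z p, ((τ P.z) ∘ₗ (LinearMap.mulRight k v)) (x * y) =
        ((τ P.z) ∘ₗ (LinearMap.mulRight k v)) (y * x) := by
      intro x hx y _
      simp only [LinearMap.comp_apply, LinearMap.mulRight_apply]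
      rw [mul_assoc, τ_comm, mul_assoc, bi_zc P.z hvz hx, mul_assoc]
    have h1 := bi_lam hG hF hZ hθ hζ
    simp only [LinearMap.comp_apply, LinearMap.mulRight_apply] at h1
    rw [h1, bi_lam hG hF hZ hτ hvz]
  have step3 : Φ (X P.z p * sh P.z p (X P.z p)) = τ P.z (X P.z p) * (lam v * τ P.z (X P.z p)) := by
    have h1 : X P.z p = ∑ b ∈ W0 p, τ P.z (T P.z b * X P.z p) • T P.z b⁻¹ := by
      refine (HW_expand P.z hX).trans ?_
      rw [sum_W_inv]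
      simp only [inv_inv]
    have h2 : sh P.z p (X P.z p) = ∑ b ∈ W0 p, τ P.z (T P.z b * X P.z p) • sh P.z p (T P.z b⁻¹) := by
      conv_lhs => rw [h1]
      rw [map_sum]
      simp only [map_smul]
    have h3 : ∀ b ∈ W0 p, Φ (X P.z p * sh P.z p (T P.z b⁻¹)) =
        lam (biU P.z p Φ (T P.z b⁻¹)) * τ P.z (X P.z p) := by
      intro b hb
      rw [← biU_τ P.z Φ _ hX, τ_comm, bi_lam hG hF hZ hτ (biU_zc P.z hΦ (T_mem_HW P.z (inv_mem_W hb)))]
    rw [h2, Finset.mul_sum, map_sum, ← bi_lam hG hF hZ hτ hvz, τ_comm (P.z) (X P.z p) v, hv, Finset.sum_mul,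
      map_sum, Finset.mul_sum]
    refine Finset.sum_congr rfl fun b hb => ?_
    rw [mul_smul_comm, map_smul, h3 b hb, smul_mul_assoc, map_smul, smul_eq_mul, smul_eq_mul]
    ring
  rw [step1, step2, step3, τ_X P.z hp]
  ring

theorem bi_self {P : Par k} {p : ℕ} (hG : Good P p) : ∃ c : k, ∀ Φ : H P.z →ₗ[k] k, ACentral P.z p Φ →
    Φ (X P.z p * R P.z p) - Φ (X P.z p * Ri P.z p) = c * Φ (X P.z p * sh P.z p (X P.z p)) := by
  obtain ⟨ζ, hζ, h, hh, hR⟩ := bi_cross hG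
  obtain ⟨lam, F, hF, hZ⟩ := ZJ hG
  refine ⟨-((-P.zi) ^ (p - 1) * lam ζ), fun Φ hΦ => ?_⟩
  have hX := X_mem P.z p
  have hX2 := bi_mem2 P.z hX
  have e1 : Φ (X P.z p * (ζ * Gam P.z p)) = (-P.zi) ^ (p - 1) * lam ζ * Φ (X P.z p * sh P.z p (X P.z p)) := by
    have h1 := bi_gam hG hF hZ hζ hΦ
    have h2 : (-P.zi) ^ (p - 1) * (-P.z) ^ (p - 1) = 1 := by
      rw [← mul_pow, neg_mul_neg, mul_comm P.zi, P.z_mul_zi, one_pow]
    rw [mul_assoc, ← h1, ← mul_assoc ((-P.zi) ^ (p - 1)), h2, one_mul]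
  have e2 : Φ (X P.z p * ∑ a ∈ W0 p, ∑ b ∈ W0 p,
      T P.z a * sh P.z p (T P.z b) * h * (T P.z b⁻¹ * sh P.z p (T P.z a⁻¹))) = 0 := by
    have : ∀ a ∈ W0 p, ∀ b ∈ W0 p, Φ (X P.z p *
        (T P.z a * sh P.z p (T P.z b) * h * (T P.z b⁻¹ * sh P.z p (T P.z a⁻¹)))) =
        Φ (T P.z b⁻¹ * X P.z p * T P.z a * (sh P.z p (T P.z a⁻¹ * T P.z b) * h)) := by
      intro a ha b hb
      have h1 := T_mem_HW P.z ha
      have h2 := T_mem_HW P.z (inv_mem_W ha)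
      have h3 := T_mem_HW P.z hb
      have h4 := T_mem_HW P.z (inv_mem_W hb)
      have m1 : X P.z p * (T P.z a * sh P.z p (T P.z b) * h) ∈ HS P.z (2 * p) :=
        mul_mem_HW P.z f0_mono hX2 (mul_mem_HW P.z f0_mono
          (mul_mem_HW P.z f0_mono (bi_mem2 P.z h1) (bi_sh_mem P.z h3)) hh)
      have m2 := mul_mem_HW P.z f0_mono m1 (bi_mem2 P.z h4)
      have m3 := mul_mem_HW P.z f0_mono (bi_sh_mem P.z h2) m1
      have c1 := sh_commute P.z (le_refl p) hX (T P.z a⁻¹)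
      have c2 := sh_commute P.z (le_refl p) h1 (T P.z a⁻¹)
      calc Φ (X P.z p * (T P.z a * sh P.z p (T P.z b) * h * (T P.z b⁻¹ * sh P.z p (T P.z a⁻¹))))
          = Φ ((X P.z p * (T P.z a * sh P.z p (T P.z b) * h) * T P.z b⁻¹) *
              sh P.z p (T P.z a⁻¹)) := by simp only [mul_assoc]
        _ = Φ ((sh P.z p (T P.z a⁻¹) * (X P.z p * (T P.z a * sh P.z p (T P.z b) * h))) * T P.z b⁻¹) := by
            rw [← (hΦ _ h2 _ m2).2]
            simp only [mul_assoc]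
        _ = Φ (T P.z b⁻¹ * (sh P.z p (T P.z a⁻¹) * X P.z p) * T P.z a * sh P.z p (T P.z b) * h) := by
            rw [← (hΦ _ h4 _ m3).1]
            simp only [mul_assoc]
        _ = Φ (T P.z b⁻¹ * X P.z p * (sh P.z p (T P.z a⁻¹) * T P.z a) * sh P.z p (T P.z b) * h) := by
            rw [← c1]
            simp only [mul_assoc]
        _ = _ := by
            rw [← c2, map_mul (sh P.z p)]
            simp only [mul_assoc]
    have cas : ∀ b ∈ W0 p, ∑ a ∈ W0 p,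
        Φ (T P.z b⁻¹ * X P.z p * T P.z a * (sh P.z p (T P.z a⁻¹ * T P.z b) * h)) =
        ∑ a ∈ W0 p, Φ ((T P.z b⁻¹ * X P.z p * T P.z b) * (T P.z a * (sh P.z p (T P.z a⁻¹) * h))) := by
      intro b hb
      have h1 := casimir_left P.z f0_mono (N := p) (M := k)
        ((((LinearMap.mul k (H P.z)).compr₂ Φ) ∘ₗ (LinearMap.mulLeft k (T P.z b⁻¹ * X P.z p))).compl₂
          ((LinearMap.mulRight k h) ∘ₗ (sh P.z p).toLinearMap)) (T_mem_HW P.z hb)
      simp only [LinearMap.comp_apply, LinearMap.compl₂_apply, LinearMap.compr₂_apply,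
        LinearMap.mul_apply', LinearMap.mulLeft_apply, LinearMap.mulRight_apply,
        AlgHom.toLinearMap_apply] at h1
      rw [← h1]
      refine Finset.sum_congr rfl fun a _ => ?_
      simp only [mul_assoc]
    rw [Finset.mul_sum, map_sum]
    simp only [Finset.mul_sum, map_sum]
    rw [Finset.sum_congr rfl (fun a ha => Finset.sum_congr rfl (fun b hb => this a ha b hb)), Finset.sum_comm,
      Finset.sum_congr rfl cas, Finset.sum_comm]
    refine Finset.sum_eq_zero fun a _ => ?_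
    rw [← map_sum, ← Finset.sum_mul, Tr_inv P.z f0 p (X P.z p)]
    have h5 := Tr_X_zero hG
    rw [TrS] at h5
    rw [h5, zero_mul, map_zero]
  rw [hR, mul_add, mul_add, map_add, map_add, e1, e2]
  ring

end Pool.Agent.HL
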