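import Mathlib

/-!
# MP_21a901_gt: statement-level definitions

Framed oriented links are represented by braid words (closed braids with blackboard framing).
-/

namespace Pool.Agent.HL

open Finset

/-- A signed letter: `(i, true)` is the positive crossing `σ_i` of the strands `i`, `i+1`, and
`(i, false)` is the negative crossing `σ_i⁻¹`. -/
abbrev Letter := ℕ × Bool

/-- Braid words. -/
abbrev Word := List Letter

/-- `w` is a braid word on the strands `0, …, n-1`. -/
def Valid (n : ℕ) (w : Word) : Prop := ∀ l ∈ w, l.1 + 1 < n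

/-- The permutation of a word. -/
def perm (w : Word) : Equiv.Perm ℕ := (w.map (fun l => Equiv.swap l.1 (l.1 + 1))).prod

/-- `i` is the least element of its cycle. -/
def IsRep (π : Equiv.Perm ℕ) (i : ℕ) : Prop := ∀ j, π.SameCycle i j → i ≤ j

open Classical in
/-- The components of the closure of `w` on `n` strands, each represented by its least strand. -/
noncomputable def reps (n : ℕ) (w : Word) : List ℕ :=
  (List.range n).filter (fun i => IsRep (perm w) i)

/-- Number of components of the closure of `w` on `n` strands. -/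
noncomputable def ncomp (n : ℕ) (w : Word) : ℕ := (reps n w).length

/-- Shift of a word by `m` strands. -/
def shW (m : ℕ) (w : Word) : Word := w.map (fun l => (m + l.1, l.2))

/-- The inverse word. -/
def invW (w : Word) : Word := (w.reverse).map (fun l => (l.1, !l.2))

/-- The positive crossing of two bundles of `p` parallel strands. -/
def blk (p : ℕ) : Word :=
  (List.range p).flatMap (fun i => ((List.range p).reverse).map (fun j => (i + j, true)))

/-- The `p`-cable of a letter. -/
def cabL (p : ℕ) (l : Letter) : Word := shW (p * l.1) (if l.2 then blk p else invW (blk p))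

/-- The `p`-cable of a word. -/
def cab (p : ℕ) (w : Word) : Word := w.flatMap (cabL p)

open Classical in
/-- The sum of the framings of the components of the closure of `w` with its blackboard framing:
the sum of the signs of all self-crossings, i.e. of the crossings whose two strands lie on the
same component. -/
noncomputable def selfWr (w : Word) : ℤ :=
  ∑ j : Fin w.length, if (perm (w.rotate j)).SameCycle (w.get j).1 ((w.get j).1 + 1)
    then (if (w.get j).2 then 1 else -1) else 0

/-- `P n w` is the framed HOMFLY-PT invariant of the closure of the braid word `w` on `n` strands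
(with blackboard framing). -/
structure IsHomfly {K : Type*} [Field K] (q a : K) (P : ℕ → Word → K) : Prop where
  empty : P 0 [] = 1
  unknot : ∀ n w, Valid n w → P (n+1) w = (a - a⁻¹) / (q - q⁻¹) * P n w
  curl_pos : ∀ n w, Valid (n+1) w → P (n+2) (w ++ [(n, true)]) = a * P (n+1) w
  curl_neg : ∀ n w, Valid (n+1) w → P (n+2) (w ++ [(n, false)]) = a⁻¹ * P (n+1) w
  conj : ∀ n u v, Valid n (u ++ v) → P n (u ++ v) = P n (v ++ u)
  cancel : ∀ n u v i b, i + 1 < n → Valid n (u ++ v) →
    P n (u ++ [(i, b), (i, !b)] ++ v) = P n (u ++ v)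
  comm : ∀ n u v i j b c, i + 1 < j → j + 1 < n → Valid n (u ++ v) →
    P n (u ++ [(i, b), (j, c)] ++ v) = P n (u ++ [(j, c), (i, b)] ++ v)
  braid : ∀ n u v i, i + 2 < n → Valid n (u ++ v) →
    P n (u ++ [(i, true), (i+1, true), (i, true)] ++ v) =
      P n (u ++ [(i+1, true), (i, true), (i+1, true)] ++ v)
  skein : ∀ n u v i, i + 1 < n → Valid n (u ++ v) →
    P n (u ++ [(i, true)] ++ v) - P n (u ++ [(i, false)] ++ v) = (q - q⁻¹) * P n (u ++ v)

section decorations

variable {K : Type*} [Field K]

/-- Formal linear combinations of braid words, with the product by juxtaposition. -/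
abbrev Skein (K : Type*) [Field K] := MonoidAlgebra K (FreeMonoid Letter)

/-- A word as a formal combination. -/
noncomputable def wd (w : Word) : Skein K := MonoidAlgebra.of K (FreeMonoid Letter) (FreeMonoid.ofList w)

/-- Shift by `m` strands. -/
noncomputable def shA (m : ℕ) : Skein K →ₐ[K] Skein K :=
  MonoidAlgebra.lift K (Skein K) (FreeMonoid Letter)
    ((MonoidAlgebra.of K (FreeMonoid Letter)).comp (FreeMonoid.map (fun l : Letter => (m + l.1, l.2))))

/-- The linear extension of `P n` to formal combinations. -/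
noncomputable def lin (P : ℕ → Word → K) (n : ℕ) (x : Skein K) : K :=
  x.coeff.sum (fun w c => c * P n w.toList)

/-- Quantum integers `[n] = ∑_{i<n} q^{n-1-2i}`. -/
def qnum (q : K) (n : ℕ) : K := ∑ i ∈ range n, q ^ (n - 1 - i) * q⁻¹ ^ i

/-- The idempotent of the row partition `(n)` (the normalised symmetriser
`(q^{n(n-1)/2} [n]!)⁻¹ ∑_w q^{ℓ(w)} T_w`), in factorised form; its closure is `Q_{(n)}`, i.e. `h_n`. -/
noncomputable def hh (q : K) : ℕ → Skein K
  | 0 => 1
  | (n+1) => (q ^ n * qnum q (n+1))⁻¹ •
      (hh q n * ∑ j ∈ range (n+1), q ^ j • wd ((List.range j).map (fun i => (n - 1 - i, true))))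

/-- The power sum `P_{(n)}`, by Newton's identities `p_n = n h_n - ∑_{0<j<n} p_j h_{n-j}`. -/
noncomputable def PP (q : K) (n : ℕ) : Skein K :=
  (n : K) • hh q n - ∑ j : Fin n, if (j : ℕ) = 0 then 0 else PP q j * shA j (hh q (n - j))
termination_by n
decreasing_by exact j.2

/-- `Ž_d = {d}^L H(L ⋆ ⊗ P_{(d)})`. -/
noncomputable def Zch (q : K) (P : ℕ → Word → K) (d n : ℕ) (w : Word) : K :=
  (q ^ d - q⁻¹ ^ d) ^ ncomp n w *
    lin P (d * n) (wd (cab d w) * ((reps n w).map (fun i => shA (d * i) (PP q d))).prod)

end decorations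

/-- The field `ℚ(q, a)`. -/
abbrev K0 := FractionRing (MvPolynomial (Fin 2) ℚ)

/-- The variable `q`. -/
noncomputable def q0 : K0 := algebraMap (MvPolynomial (Fin 2) ℚ) K0 (MvPolynomial.X 0)

/-- The variable `a`. -/
noncomputable def a0 : K0 := algebraMap (MvPolynomial (Fin 2) ℚ) K0 (MvPolynomial.X 1)

/-- The Adams operator `f(q,a) ↦ f(q^p,a^p)` on `ℚ(q,a)`. -/
noncomputable def adams (p : ℕ) (hp : 0 < p) : K0 →+* K0 :=
  IsFractionRing.map (A := MvPolynomial (Fin 2) ℚ) (B := MvPolynomial (Fin 2) ℚ)
    (j := (MvPolynomial.expand p : MvPolynomial (Fin 2) ℚ →ₐ[ℚ] MvPolynomial (Fin 2) ℚ).toRingHom)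
    (MvPolynomial.expand_injective hp)

/-- The final statement. -/
def FinalStatement : Prop :=
  (∃ P, IsHomfly q0 a0 P) ∧
  ∀ P, IsHomfly q0 a0 P → ∀ (p : ℕ) (hp : p.Prime) (n : ℕ) (w : Word), Valid n w →
    ∃ r ∈ Algebra.adjoin ℤ ({(q0 - q0⁻¹) ^ 2, a0, a0⁻¹} : Set K0),
      Zch q0 P p n w - (-1) ^ (((p : ℤ) - 1) * selfWr w) * adams p hp.pos (Zch q0 P 1 n w) =
        (qnum q0 p) ^ 2 * r

end Pool.Agent.HL
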