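import Pool.Agent.Lib.HL21.Core
import Pool.Agent.Lib.HL21.Stmt

/-!
# MP_21a901_gt: definitions used by all modules
-/

namespace Pool.Agent.HL

open Finset

variable {k : Type*} [CommRing k]

/-! ### Traces -/

/-- `∑_{w ∈ A} T_w x T_{w⁻¹}`. -/
noncomputable def Tr (z : k) (A : Finset S) : H z →ₗ[k] H z :=
  ∑ w ∈ A, (LinearMap.mulLeft k (T z w)) ∘ₗ (LinearMap.mulRight k (T z w⁻¹))

theorem Tr_apply (z : k) (A : Finset S) (x : H z) : Tr z A x = ∑ w ∈ A, T z w * x * T z w⁻¹ := by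
  simp only [Tr, LinearMap.sum_apply, LinearMap.comp_apply, LinearMap.mulLeft_apply,
    LinearMap.mulRight_apply, mul_assoc]

/-- All permutations of `[0,n)`. -/
noncomputable abbrev W0 (n : ℕ) : Finset S := W f0 n

/-- `Tr_n`. -/
noncomputable abbrev TrS (z : k) (n : ℕ) : H z →ₗ[k] H z := Tr z (W0 n)

open Classical in
/-- Minimal left coset representatives: permutations of `[0,N)` increasing on the fibres of `f`. -/
noncomputable def D (f : ℕ → ℕ) (N : ℕ) : Finset S :=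
  (W0 N).filter (fun d => ∀ i j, i < j → j < N → f i = f j → d.1 i < d.1 j)

/-- The projection of `H z` onto the span of `T_w`, `w ∈ W f N`. -/
noncomputable def E (z : k) (f : ℕ → ℕ) (N : ℕ) : H z →ₗ[k] H z :=
  ∑ w ∈ W f N, ((τ z) ∘ₗ (LinearMap.mulLeft k (T z w⁻¹))).smulRight (T z w)

theorem E_apply (z : k) (f : ℕ → ℕ) (N : ℕ) (x : H z) :
    E z f N x = ∑ w ∈ W f N, τ z (T z w⁻¹ * x) • T z w := by
  simp only [E, LinearMap.sum_apply, LinearMap.smulRight_apply, LinearMap.comp_apply,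
    LinearMap.mulLeft_apply]

/-- The centre of `H_n`. -/
def Zc (z : k) (n : ℕ) : Submodule k (H z) where
  carrier := {x | x ∈ HS z n ∧ ∀ i, i + 1 < n → g z i * x = x * g z i}
  zero_mem' := ⟨Submodule.zero_mem _, fun i _ => by rw [mul_zero, zero_mul]⟩
  add_mem' := by
    rintro a b ⟨ha, ha'⟩ ⟨hb, hb'⟩
    exact ⟨Submodule.add_mem _ ha hb, fun i hi => by rw [mul_add, add_mul, ha' i hi, hb' i hi]⟩
  smul_mem' := by
    rintro c x ⟨hx, hx'⟩
    exact ⟨Submodule.smul_mem _ _ hx, fun i hi => by rw [mul_smul_comm, smul_mul_assoc, hx' i hi]⟩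

/-! ### Words -/

/-- Evaluation of a letter in the Hecke algebra. -/
noncomputable def evl (z : k) (l : Letter) : H z := if l.2 then g z l.1 else gi z l.1

/-- Evaluation of a word in the Hecke algebra. -/
noncomputable def ev (z : k) (w : Word) : H z := (w.map (evl z)).prod

/-- The descending word `σ_{n-2} ⋯ σ_0` on `n` strands in which the letters of index `< m` are
negative and the letters of index `≥ m` are positive. -/
def cWord (n m : ℕ) : Word := ((List.range (n - 1)).reverse).map (fun i => (i, decide (m ≤ i)))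

/-- `κ_n = σ_{n-2} ⋯ σ_0`. -/
noncomputable def kap (z : k) (n : ℕ) : H z := ev z (cWord n 0)

/-- `κ̄_n = σ_{n-2}⁻¹ ⋯ σ_0⁻¹`. -/
noncomputable def kapb (z : k) (n : ℕ) : H z := ev z (cWord n n)

/-- The Aiston-Morton element `X_n = ∑_{m<n} σ_{n-2} ⋯ σ_m σ_{m-1}⁻¹ ⋯ σ_0⁻¹`. -/
noncomputable def X (z : k) (n : ℕ) : H z := ∑ m ∈ range n, ev z (cWord n m)

/-- The positive bundle crossing. -/
noncomputable def R (z : k) (p : ℕ) : H z := ev z (blk p)

/-- The negative bundle crossing. -/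
noncomputable def Ri (z : k) (p : ℕ) : H z := ev z (invW (blk p))

/-- The full twist. -/
noncomputable def FT (z : k) (n : ℕ) : H z := (kap z n) ^ n

/-- The inverse full twist. -/
noncomputable def FTi (z : k) (n : ℕ) : H z := (ev z (invW (cWord n 0))) ^ n

/-- The twisted Casimir element `∑_{a ∈ S_p} T_a ⊗ T_{a⁻¹}` in `H_p ⊗ H_p ⊂ H_{2p}`. -/
noncomputable def Gam (z : k) (p : ℕ) : H z := ∑ a ∈ W0 p, T z a * sh z p (T z a⁻¹)

/-! ### Parameters -/

/-- Parameters `q`, `a` (units) with `z = q - q⁻¹` invertible (inverse `zi`). -/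
structure Par (k : Type*) [CommRing k] where
  q : kˣ
  a : kˣ
  zi : k
  hz : ((q : k) - ((q⁻¹ : kˣ) : k)) * zi = 1

namespace Par
variable (P : Par k)
/-- `z = q - q⁻¹`. -/
def z : k := (P.q : k) - ((P.q⁻¹ : kˣ) : k)
/-- `δ = (a - a⁻¹)/z`. -/
def δ : k := ((P.a : k) - ((P.a⁻¹ : kˣ) : k)) * P.zi
/-- The quantum integer `[n] = ∑_{i<n} q^{n-1-2i}`. -/
def qn (n : ℕ) : k := ∑ i ∈ range n, (P.q : k) ^ (n - 1 - i) * ((P.q⁻¹ : kˣ) : k) ^ i
theorem z_mul_zi : P.z * P.zi = 1 := P.hz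
end Par

/-! ### Jucys-Murphy elements and the Ocneanu trace -/

/-- Jucys-Murphy elements `L_0 = 1`, `L_{i+1} = σ_i L_i σ_i`. -/
noncomputable def JM (z : k) : ℕ → H z
  | 0 => 1
  | (i+1) => g z i * JM z i * g z i

/-- `∏_{i<n} (α L_i + β)`. -/
noncomputable def OP (z α β : k) : ℕ → H z
  | 0 => 1
  | (n+1) => OP z α β n * (α • JM z n + β • 1)

/-- The (framed, unnormalised) Ocneanu trace on `n` strands:
`tr_n(h) = z^{-n} τ(h ∏_{i<n} (a L_i - a⁻¹))`. -/
noncomputable def tr (P : Par k) (n : ℕ) : H P.z →ₗ[k] k :=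
  (P.zi ^ n) • ((τ P.z) ∘ₗ (LinearMap.mulRight k (OP P.z P.a (-((P.a⁻¹ : kˣ) : k)) n)))

theorem tr_apply (P : Par k) (n : ℕ) (x : H P.z) :
    tr P n x = P.zi ^ n * τ P.z (x * OP P.z P.a (-((P.a⁻¹ : kˣ) : k)) n) := by
  simp only [tr, LinearMap.smul_apply, LinearMap.comp_apply, LinearMap.mulRight_apply, smul_eq_mul]

/-! ### Permutations of words and cabling -/

/-- The product of the `X_p` inserted at the bundles of a list. -/
noncomputable def XL (z : k) (p : ℕ) (l : List ℕ) : H z := (l.map (fun i => sh z (p * i) (X z p))).prod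

/-- `Ž_p` computed in the Hecke algebra. -/
noncomputable def Zp (P : Par k) (p n : ℕ) (w : Word) : k :=
  P.z ^ ncomp n w * tr P (p * n) (ev P.z (cab p w) * XL P.z p (reps n w))

end Pool.Agent.HL
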