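import Pool.Agent.Lib.HL21.Cyc
import Pool.Agent.Lib.HL21.Defs

/-! # Module Comp: components of the cable with a `p`-cycle inserted on each component -/

namespace Pool.Agent.HL

open Finset

/-! ### validity -/

theorem comp_mem_blk {p : ℕ} {l : Letter} (hl : l ∈ blk p) : l.1 + 1 < 2 * p := by
  simp only [blk, List.mem_flatMap, List.mem_map, List.mem_reverse, List.mem_range] at hl
  obtain ⟨i, hi, j, hj, rfl⟩ := hl
  show i + j + 1 < 2 * p
  omega

theorem comp_mem_crossing {p : ℕ} {b : Bool} {l : Letter}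
    (hl : l ∈ (if b then blk p else invW (blk p))) : l.1 + 1 < 2 * p := by
  cases b
  · have h : l ∈ invW (blk p) := hl
    simp only [invW, List.mem_map, List.mem_reverse] at h
    obtain ⟨l', hl', rfl⟩ := h
    exact (comp_mem_blk (p := p) (l := l') hl' : l'.1 + 1 < 2 * p)
  · exact comp_mem_blk hl

theorem comp_valid_shW {N m : ℕ} {w : Word} (h : ∀ l ∈ w, m + l.1 + 1 < N) : Valid N (shW m w) := by
  intro l hl
  simp only [shW, List.mem_map] at hl
  obtain ⟨l', hl', rfl⟩ := hl
  exact h l' hl'

theorem cab_valid {p n : ℕ} (hp : 0 < p) {w : Word} (hw : Valid n w) : Valid (p * n) (cab p w) := by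
  intro l hl
  simp only [cab, List.mem_flatMap] at hl
  obtain ⟨l', hl', hl⟩ := hl
  have h1 : l'.1 + 2 ≤ n := hw l' hl'
  refine comp_valid_shW (N := p * n) (m := p * l'.1) (fun x hx => ?_) l hl
  have h2 := comp_mem_crossing hx
  calc p * l'.1 + x.1 + 1 < p * l'.1 + 2 * p := by omega
    _ = p * (l'.1 + 2) := by ring
    _ ≤ p * n := Nat.mul_le_mul_left p h1

theorem comp_mem_cWord {p m : ℕ} {l : Letter} (hl : l ∈ cWord p m) : l.1 + 1 < p := by
  simp only [cWord, List.mem_map, List.mem_reverse, List.mem_range] at hl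
  obtain ⟨i, hi, rfl⟩ := hl
  show i + 1 < p
  omega

theorem comp_valid {p n : ℕ} (hp : 0 < p) {w : Word} (hw : Valid n w) (m : ℕ → ℕ) :
    Valid (p * n) (cab p w ++ (reps n w).flatMap (fun i => shW (p * i) (cWord p (m i)))) := by
  intro l hl
  rcases List.mem_append.mp hl with hl | hl
  · exact cab_valid hp hw l hl
  · simp only [List.mem_flatMap] at hl
    obtain ⟨i, hi, hl⟩ := hl
    have hin : i + 1 ≤ n := (cyc_mem_reps.mp hi).1
    refine comp_valid_shW (N := p * n) (m := p * i) (fun x hx => ?_) l hl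
    have h2 := comp_mem_cWord hx
    calc p * i + x.1 + 1 < p * i + p := by omega
      _ = p * (i + 1) := by ring
      _ ≤ p * n := Nat.mul_le_mul_left p hin

/-! ### permutations of the words -/

theorem comp_perm_shW (m : ℕ) (w : Word) (x : ℕ) :
    perm (shW m w) x = if x < m then x else m + perm w (x - m) := by
  induction w generalizing x with
  | nil =>
    have : shW m [] = [] := rfl
    rw [this, perm_nil, Equiv.Perm.one_apply, Equiv.Perm.one_apply]
    split_ifs <;> omega
  | cons l v ih =>
    have : shW m (l :: v) = (m + l.1, l.2) :: shW m v := rfl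
    rw [this, perm_cons, perm_cons, Equiv.Perm.mul_apply, Equiv.Perm.mul_apply, ih]
    simp only
    by_cases hx : x < m
    · rw [if_pos hx, if_pos hx, Equiv.swap_apply_of_ne_of_ne (by omega) (by omega)]
    · rw [if_neg hx, if_neg hx, Equiv.swap_apply_def, Equiv.swap_apply_def]
      split_ifs <;> omega

/-- the permutation of a descending word -/
theorem comp_perm_row (i p : ℕ) (sg : ℕ → Bool) (x : ℕ) :
    perm (((List.range p).reverse).map (fun j => (i + j, sg j))) x =
      if x = i then i + p else if i < x ∧ x ≤ i + p then x - 1 else x := by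
  induction p with
  | zero =>
    simp only [List.range_zero, List.reverse_nil, List.map_nil, perm_nil, Equiv.Perm.one_apply]
    split_ifs <;> omega
  | succ p ih =>
    rw [List.range_succ, List.reverse_append, List.reverse_singleton, List.singleton_append,
      List.map_cons, perm_cons, Equiv.Perm.mul_apply, ih, Equiv.swap_apply_def]
    split_ifs <;> omega

theorem comp_perm_rows (p K : ℕ) (x : ℕ) :
    perm ((List.range K).flatMap (fun i => ((List.range p).reverse).map (fun j => (i + j, true)))) x =
      if x < K then x + p else if x < K + p then x - K else x := by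
  induction K generalizing x with
  | zero =>
    simp only [List.range_zero, List.flatMap_nil, perm_nil, Equiv.Perm.one_apply]
    split_ifs <;> omega
  | succ K ih =>
    rw [List.range_succ, List.flatMap_append, perm_append, Equiv.Perm.mul_apply, List.flatMap_singleton,
      comp_perm_row K p (fun _ => true), ih]
    split_ifs <;> omega

theorem comp_perm_blk (p x : ℕ) :
    perm (blk p) x = if x < p then x + p else if x < p + p then x - p else x :=
  comp_perm_rows p p x

theorem comp_perm_invW (w : Word) : perm (invW w) = (perm w)⁻¹ := by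
  induction w with
  | nil => rfl
  | cons l v ih =>
    have : invW (l :: v) = invW v ++ [(l.1, !l.2)] := by
      simp [invW]
    rw [this, perm_append, ih, perm_cons l v, mul_inv_rev, Equiv.swap_inv, cyc_perm_single]

theorem comp_perm_blk_inv (p : ℕ) : (perm (blk p))⁻¹ = perm (blk p) := by
  rw [inv_eq_iff_mul_eq_one]
  ext x
  rw [Equiv.Perm.mul_apply, comp_perm_blk, comp_perm_blk, Equiv.Perm.one_apply]
  split_ifs <;> omega

theorem comp_perm_crossing (p : ℕ) (b : Bool) (x : ℕ) :
    perm (if b then blk p else invW (blk p)) x = if x < p then x + p else if x < p + p then x - p else x := by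
  cases b
  · have : perm (if false = true then blk p else invW (blk p)) = perm (blk p) := by
      rw [if_neg (by simp), comp_perm_invW, comp_perm_blk_inv]
    rw [this, comp_perm_blk]
  · exact comp_perm_blk p x

theorem comp_perm_cabL {p : ℕ} (l : Letter) (c r : ℕ) (hr : r < p) :
    perm (cabL p l) (p * c + r) = p * (Equiv.swap l.1 (l.1+1) c) + r := by
  obtain ⟨j, b⟩ := l
  unfold cabL
  rw [comp_perm_shW, comp_perm_crossing]
  simp only
  rcases lt_trichotomy c j with h | h | h
  · obtain ⟨d, rfl⟩ := Nat.exists_eq_add_of_le (show c + 1 ≤ j from h)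
    have e : p * (c + 1 + d) = p * c + p + p * d := by ring
    rw [Equiv.swap_apply_of_ne_of_ne (by omega) (by omega), e, if_pos (by omega)]
  · subst h
    rw [Equiv.swap_apply_left, if_neg (by omega), Nat.add_sub_cancel_left, if_pos hr]
    ring
  · obtain ⟨d, rfl⟩ := Nat.exists_eq_add_of_le (show j + 1 ≤ c from h)
    have e : p * (j + 1 + d) = p * j + p + p * d := by ring
    by_cases h' : d = 0
    · subst h'
      rw [add_zero, Equiv.swap_apply_right, mul_add, mul_one, if_neg (by omega)]
      rw [if_neg (by omega), if_pos (by omega)]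
      omega
    · obtain ⟨d', rfl⟩ := Nat.exists_eq_add_of_le (show 1 ≤ d by omega)
      have e' : p * (1 + d') = p + p * d' := by ring
      rw [Equiv.swap_apply_of_ne_of_ne (by omega) (by omega), e, e', if_neg (by omega),
        if_neg (by omega), if_neg (by omega)]
      omega

theorem comp_perm_cab {p : ℕ} (w : Word) (c r : ℕ) (hr : r < p) :
    perm (cab p w) (p * c + r) = p * (perm w c) + r := by
  induction w generalizing c with
  | nil =>
    have : cab p [] = [] := rfl
    rw [this, perm_nil]; rfl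
  | cons l v ih =>
    have : cab p (l :: v) = cabL p l ++ cab p v := by simp only [cab, List.flatMap_cons]
    rw [this, perm_append, perm_cons, Equiv.Perm.mul_apply, Equiv.Perm.mul_apply, ih,
      comp_perm_cabL l _ _ hr]

/-- the rotation of `[0,p)` -/
def rot (p r : ℕ) : ℕ := if r = 0 then p - 1 else r - 1

theorem rot_lt {p r : ℕ} (hr : r < p) : rot p r < p := by
  unfold rot; split_ifs <;> omega

theorem comp_perm_cWord {p : ℕ} (m x : ℕ) :
    perm (cWord p m) x = if x = 0 then p - 1 else if x ≤ p - 1 then x - 1 else x := by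
  have h := comp_perm_row 0 (p - 1) (fun i => decide (m ≤ i)) x
  simp only [Nat.zero_add] at h
  unfold cWord
  rw [h]
  split_ifs <;> omega

theorem comp_perm_bundle {p : ℕ} (i m c r : ℕ) (hr : r < p) :
    perm (shW (p * i) (cWord p m)) (p * c + r) = p * c + (if c = i then rot p r else r) := by
  rw [comp_perm_shW, comp_perm_cWord]
  rcases lt_trichotomy c i with h | h | h
  · obtain ⟨d, rfl⟩ := Nat.exists_eq_add_of_le (show c + 1 ≤ i from h)
    have e : p * (c + 1 + d) = p * c + p + p * d := by ring
    rw [e, if_pos (by omega), if_neg (by omega)]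
  · subst h
    rw [if_neg (by omega), Nat.add_sub_cancel_left, if_pos rfl]
    unfold rot
    split_ifs <;> omega
  · obtain ⟨d, rfl⟩ := Nat.exists_eq_add_of_le (show i + 1 ≤ c from h)
    have e : p * (i + 1 + d) = p * i + p + p * d := by ring
    rw [e, if_neg (by omega), if_neg (by omega), if_neg (by omega), if_neg (by omega)]
    omega

theorem comp_perm_bundles {p : ℕ} (m : ℕ → ℕ) (L : List ℕ) (hL : L.Nodup) (c r : ℕ) (hr : r < p) :
    perm (L.flatMap (fun i => shW (p * i) (cWord p (m i)))) (p * c + r) =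
      p * c + (if c ∈ L then rot p r else r) := by
  induction L with
  | nil =>
    simp only [List.flatMap_nil, perm_nil, Equiv.Perm.one_apply, List.not_mem_nil, if_false]
  | cons i L ih =>
    rw [List.nodup_cons] at hL
    rw [List.flatMap_cons, perm_append, Equiv.Perm.mul_apply, ih hL.2]
    by_cases hc : c ∈ L
    · have hci : c ≠ i := fun h => hL.1 (h ▸ hc)
      rw [if_pos hc, comp_perm_bundle i (m i) c _ (rot_lt hr), if_neg hci,
        if_pos (List.mem_cons_of_mem _ hc)]
    · rw [if_neg hc, comp_perm_bundle i (m i) c _ hr]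
      by_cases hci : c = i
      · rw [if_pos hci, if_pos (by rw [hci]; exact List.mem_cons_self)]
      · rw [if_neg hci, if_neg (by rw [List.mem_cons]; tauto)]

/-! ### cycles -/

section cycles

variable {p n : ℕ} {w : Word} {π ρ : Equiv.Perm ℕ}

/-- the block structure of `ρ` over `π` with rotations at the points of `L` -/
def Blk (p : ℕ) (L : List ℕ) (π ρ : Equiv.Perm ℕ) : Prop :=
  ∀ c r, r < p → ρ (p * c + r) = p * π c + (if c ∈ L then rot p r else r)

theorem comp_div {p c r : ℕ} (hr : r < p) : (p * c + r) / p = c := by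
  rw [Nat.mul_add_div (by omega), Nat.div_eq_of_lt hr, add_zero]

theorem comp_fwd {L : List ℕ} (hp : 0 < p) (hB : Blk p L π ρ) {x y : ℕ} (h : ρ.SameCycle x y) :
    π.SameCycle (x / p) (y / p) := by
  have hstep : ∀ x, π.SameCycle (x / p) (ρ x / p) := by
    intro x
    have hr : x % p < p := Nat.mod_lt x hp
    have h1 := hB (x / p) (x % p) hr
    rw [Nat.div_add_mod] at h1
    have h2 : ρ x / p = π (x / p) := by
      rw [h1]
      split_ifs
      · exact comp_div (rot_lt hr)
      · exact comp_div hr
    rw [h2]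
    exact ⟨1, by rw [zpow_one]⟩
  refine cyc_sameCycle_le (R := fun x y => π.SameCycle (x / p) (y / p)) ?_ hstep h
  exact ⟨fun _ => Equiv.Perm.SameCycle.refl _ _, fun h => h.symm, fun h h' => h.trans h'⟩

/-- going around: from the bundle of a point, we return -/
theorem comp_iter {L : List ℕ} (hB : Blk p L π ρ) (i : ℕ) {r : ℕ} (hr : r < p) (hi : i ∈ L)
    (m : ℕ) (hm : ∀ j, 0 < j → j < m + 1 → (π ^ j) i ∉ L) :
    (ρ ^ (m + 1)) (p * i + r) = p * ((π ^ (m + 1)) i) + rot p r := by
  induction m with
  | zero => rw [zero_add, pow_one, pow_one, hB i r hr, if_pos hi]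
  | succ m ih =>
    rw [pow_succ', Equiv.Perm.mul_apply, ih (fun j h0 h1 => hm j h0 (by omega)),
      hB _ _ (rot_lt hr), if_neg (hm (m+1) (by omega) (by omega)), ← Equiv.Perm.mul_apply, ← pow_succ']

theorem comp_iter2 {L : List ℕ} (hB : Blk p L π ρ) (c : ℕ) {r : ℕ} (hr : r < p) (m : ℕ) :
    ∃ r' < p, (ρ ^ m) (p * c + r) = p * ((π ^ m) c) + r' := by
  induction m with
  | zero => exact ⟨r, hr, by rw [pow_zero, pow_zero]; rfl⟩
  | succ m ih =>
    obtain ⟨r', hr', h⟩ := ih
    rw [pow_succ', Equiv.Perm.mul_apply, h, hB _ _ hr', pow_succ', Equiv.Perm.mul_apply]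
    split_ifs
    · exact ⟨_, rot_lt hr', rfl⟩
    · exact ⟨_, hr', rfl⟩

theorem comp_bundle {L : List ℕ} (hB : Blk p L π ρ) {i : ℕ} (hi : i ∈ L) (m : ℕ)
    (hm : ∀ j, 0 < j → j < m + 1 → (π ^ j) i ∉ L) (hret : (π ^ (m + 1)) i = i) {r : ℕ} (hr : r < p) :
    ρ.SameCycle (p * i) (p * i + r) := by
  induction r with
  | zero => exact Equiv.Perm.SameCycle.refl _ _
  | succ r ih =>
    refine (ih (by omega)).trans ?_
    have h := comp_iter hB i hr hi m hm
    rw [hret] at h
    have hrot : rot p (r + 1) = r := by unfold rot; rw [if_neg (by omega)]; omega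
    rw [hrot] at h
    refine Equiv.Perm.SameCycle.symm ⟨((m + 1 : ℕ) : ℤ), ?_⟩
    rw [zpow_natCast, h]

end cycles

theorem comp_periodic {n : ℕ} {π : Equiv.Perm ℕ} (h : Fx n π) {x : ℕ} (hx : x < n) :
    ∃ k, 0 < k ∧ (π ^ k) x = x := by
  have hlt : ∀ m : ℕ, (π ^ m) x < n := fun m =>
    Fx_sameCycle_lt h hx ⟨(m : ℤ), by rw [zpow_natCast]⟩
  obtain ⟨a, b, hab, he⟩ := Finite.exists_ne_map_eq_of_infinite
    (fun m : ℕ => (⟨(π ^ m) x, hlt m⟩ : Fin n))
  have key : ∀ a b : ℕ, a < b → (π ^ a) x = (π ^ b) x → ∃ k, 0 < k ∧ (π ^ k) x = x := by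
    intro a b hab he
    refine ⟨b - a, by omega, ?_⟩
    have h1 : π ^ b = π ^ a * π ^ (b - a) := by rw [← pow_add]; congr 1; omega
    rw [h1, Equiv.Perm.mul_apply] at he
    exact ((π ^ a).injective he).symm
  have he' : (π ^ a) x = (π ^ b) x := congrArg Fin.val he
  rcases lt_or_gt_of_ne hab with h | h
  · exact key a b h he'
  · exact key b a h he'.symm

theorem comp_ncomp {p n : ℕ} (hp : 0 < p) {w : Word} (hw : Valid n w) (m : ℕ → ℕ) :
    ncomp (p * n) (cab p w ++ (reps n w).flatMap (fun i => shW (p * i) (cWord p (m i)))) = ncomp n w := by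
  classical
  set W := cab p w ++ (reps n w).flatMap (fun i => shW (p * i) (cWord p (m i))) with hW
  have hWv : Valid (p * n) W := comp_valid hp hw m
  have hf : Fx n (perm w) := perm_fx hw
  have hB : Blk p (reps n w) (perm w) (perm W) := by
    intro c r hr
    rw [hW, perm_append, Equiv.Perm.mul_apply, comp_perm_bundles m _ (reps_nodup n w) c r hr]
    split_ifs
    · exact comp_perm_cab w c _ (rot_lt hr)
    · exact comp_perm_cab w c _ hr
  have hT := isTr_reps hw
  -- every point is in the cycle of the representative bundle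
  have hmain : ∀ x, x < p * n → ∀ i, i ∈ reps n w → (perm w).SameCycle i (x / p) →
      (perm W).SameCycle (p * i) x := by
    intro x hx i hi hix
    have hin : i < n := (cyc_mem_reps.mp hi).1
    have hex := comp_periodic hf hin
    -- first return
    set K := Nat.find hex with hK
    have hK0 : 0 < K := (Nat.find_spec hex).1
    have hKi : ((perm w) ^ K) i = i := (Nat.find_spec hex).2
    have hmin : ∀ j, 0 < j → j < K → ((perm w) ^ j) i ≠ i := fun j h0 hj hE =>
      Nat.find_min hex hj ⟨h0, hE⟩
    have hnot : ∀ j, 0 < j → j < K → ((perm w) ^ j) i ∉ reps n w := by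
      intro j h0 hj hmem
      obtain ⟨t, _, hu⟩ := hT.2 i hin
      have h1 := hu i ⟨List.mem_toFinset.mpr hi, Equiv.Perm.SameCycle.refl _ _⟩
      have h2 := hu _ ⟨List.mem_toFinset.mpr hmem,
        (Equiv.Perm.SameCycle.symm ⟨(j : ℤ), by rw [zpow_natCast]⟩ : (perm w).SameCycle (((perm w) ^ j) i) i)⟩
      exact hmin j h0 hj (h2.trans h1.symm)
    have hbund : ∀ r, r < p → (perm W).SameCycle (p * i) (p * i + r) := by
      intro r hr
      refine comp_bundle hB hi (K - 1) ?_ ?_ hr
      · intro j h0 hj; exact hnot j h0 (by omega)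
      · rw [Nat.sub_add_cancel hK0]; exact hKi
    -- go from the bundle of `x` to the bundle of `i`
    have hxn : x / p < n := Nat.div_lt_of_lt_mul hx
    obtain ⟨t, ht⟩ := hix.symm
    obtain ⟨q, hq0, hq⟩ := comp_periodic hf hxn
    have hper : ∀ N : ℕ, (((perm w) ^ q) ^ N) (x / p) = x / p := by
      intro N
      induction N with
      | zero => rw [pow_zero, Equiv.Perm.one_apply]
      | succ N ih => rw [pow_succ, Equiv.Perm.mul_apply, hq, ih]
    have hge : 0 ≤ t + (q : ℤ) * t.natAbs := by
      have h1 : -(t.natAbs : ℤ) ≤ t := by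
        rw [Int.natCast_natAbs]; exact neg_abs_le t
      have h2 : (t.natAbs : ℤ) ≤ (q : ℤ) * t.natAbs := by
        have : (1 : ℤ) ≤ q := by exact_mod_cast hq0
        nlinarith [Int.natCast_nonneg t.natAbs]
      linarith
    have hnat : ((perm w) ^ (t + (q : ℤ) * t.natAbs).toNat) (x / p) = i := by
      rw [← zpow_natCast, Int.toNat_of_nonneg hge, zpow_add, Equiv.Perm.mul_apply]
      have h3 : ((perm w) ^ ((q : ℤ) * t.natAbs)) (x / p) = x / p := by
        have h4 := hper t.natAbs
        rw [← pow_mul, ← zpow_natCast, Nat.cast_mul] at h4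
        exact h4
      rw [h3, ht]
    obtain ⟨r', hr', hgo⟩ := comp_iter2 hB (x / p) (Nat.mod_lt x hp) (t + (q : ℤ) * t.natAbs).toNat
    rw [Nat.div_add_mod, hnat] at hgo
    refine (hbund r' hr').trans ?_
    rw [← hgo]
    exact Equiv.Perm.SameCycle.symm ⟨((t + (q : ℤ) * t.natAbs).toNat : ℤ), by rw [zpow_natCast]⟩
  have hTr : IsTr (perm W) (p * n) ((reps n w).toFinset.image (fun i => p * i)) := by
    refine ⟨?_, ?_⟩
    · intro x hx
      obtain ⟨i, hi, rfl⟩ := Finset.mem_image.mp hx
      have hin : i < n := (cyc_mem_reps.mp (List.mem_toFinset.mp hi)).1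
      exact Finset.mem_range.mpr (Nat.mul_lt_mul_of_pos_left hin hp)
    · intro x hx
      have hxn : x / p < n := Nat.div_lt_of_lt_mul hx
      obtain ⟨i, ⟨hi, hix⟩, hu⟩ := hT.2 (x / p) hxn
      refine ⟨p * i, ⟨Finset.mem_image.mpr ⟨i, hi, rfl⟩, hmain x hx i (List.mem_toFinset.mp hi) hix⟩, ?_⟩
      rintro y ⟨hy, hyx⟩
      obtain ⟨i', hi', rfl⟩ := Finset.mem_image.mp hy
      have h1 := comp_fwd hp hB hyx
      have h2 : p * i' / p = i' := Nat.mul_div_cancel_left i' hp
      rw [h2] at h1
      rw [hu i' ⟨hi', h1⟩]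
  rw [ncomp_eq_card hWv hTr, Finset.card_image_of_injective _ (fun a b h => Nat.eq_of_mul_eq_mul_left hp h),
    List.toFinset_card_of_nodup (reps_nodup n w)]
  rfl

end Pool.Agent.HL
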