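import Pool.Agent.Lib.HL21.Stmt

/-! # Module Cyc: cycles, transversals, number of components -/

namespace Pool.Agent.HL

open Finset

/-- `π` fixes every `i ≥ n`. -/
def Fx (n : ℕ) (π : Equiv.Perm ℕ) : Prop := ∀ i, n ≤ i → π i = i

/-- `I` is a transversal of the cycles of `π` on `[0,n)`. -/
def IsTr (π : Equiv.Perm ℕ) (n : ℕ) (I : Finset ℕ) : Prop :=
  I ⊆ range n ∧ ∀ x < n, ∃! i, i ∈ I ∧ π.SameCycle i x

theorem perm_append (u v : Word) : perm (u ++ v) = perm u * perm v := by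
  unfold perm; rw [List.map_append, List.prod_append]

theorem perm_nil : perm [] = 1 := by
  unfold perm; rfl

theorem perm_cons (l : Letter) (v : Word) : perm (l :: v) = Equiv.swap l.1 (l.1 + 1) * perm v := by
  unfold perm; rw [List.map_cons, List.prod_cons]

theorem perm_fx {n : ℕ} {w : Word} (hw : Valid n w) : Fx n (perm w) := by
  induction w with
  | nil => intro i _; rw [perm_nil]; rfl
  | cons l v ih =>
    intro i hi
    have h1 : l.1 + 1 < n := hw l (List.mem_cons_self ..)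
    have h2 : Valid n v := fun l' hl' => hw l' (List.mem_cons_of_mem _ hl')
    rw [perm_cons, Equiv.Perm.mul_apply, ih h2 i hi, Equiv.swap_apply_of_ne_of_ne (by omega) (by omega)]

private theorem Fx.mono {n m : ℕ} {π : Equiv.Perm ℕ} (h : Fx n π) (hm : n ≤ m) : Fx m π :=
  fun i hi => h i (hm.trans hi)

private theorem Fx.pow_lt {n : ℕ} {π : Equiv.Perm ℕ} (h : Fx n π) {x : ℕ} (hx : x < n) : π x < n := by
  by_contra hc
  rw [not_lt] at hc
  have h1 := h (π x) hc
  have h2 := π.injective h1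
  omega

private theorem Fx.iter_lt {n : ℕ} {π : Equiv.Perm ℕ} (h : Fx n π) {x : ℕ} (hx : x < n) (m : ℕ) :
    (π ^ m) x < n := by
  induction m with
  | zero => simpa using hx
  | succ m ih => rw [pow_succ', Equiv.Perm.mul_apply]; exact h.pow_lt ih

/-- every point is periodic -/
private theorem Fx.periodic {n : ℕ} {π : Equiv.Perm ℕ} (h : Fx n π) (x : ℕ) : ∃ k, 0 < k ∧ (π ^ k) x = x := by
  by_cases hx : x < n
  · obtain ⟨a, b, hab, he⟩ := Finite.exists_ne_map_eq_of_infinite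
      (fun m : ℕ => (⟨(π ^ m) x, h.iter_lt hx m⟩ : Fin n))
    have key : ∀ a b : ℕ, a < b → (π ^ a) x = (π ^ b) x → ∃ k, 0 < k ∧ (π ^ k) x = x := by
      intro a b hab he
      refine ⟨b - a, by omega, ?_⟩
      have h1 : π ^ b = π ^ a * π ^ (b - a) := by rw [← pow_add]; congr 1; omega
      rw [h1, Equiv.Perm.mul_apply] at he
      exact ((π ^ a).injective he).symm
    have he' : (π ^ a) x = (π ^ b) x := by
      have := congrArg Fin.val he
      exact this
    rcases lt_or_gt_of_ne hab with h1 | h1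
    · exact key a b h1 he'
    · exact key b a h1 he'.symm
  · refine ⟨1, Nat.one_pos, ?_⟩
    rw [pow_one]
    exact h x (not_lt.1 hx)

/-- points of the same cycle are joined by a positive power -/
private theorem Fx.exists_pow {n : ℕ} {π : Equiv.Perm ℕ} (h : Fx n π) {x y : ℕ} (hxy : π.SameCycle x y) :
    ∃ m, 0 < m ∧ (π ^ m) x = y := by
  obtain ⟨z, hz⟩ := hxy
  obtain ⟨k, hk, hkx⟩ := h.periodic x
  have hper : ∀ s : ℕ, (π ^ (k * s)) x = x := by
    intro s
    induction s with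
    | zero => simp
    | succ s ih => rw [Nat.mul_succ, pow_add, Equiv.Perm.mul_apply, hkx, ih]
  -- choose s large
  set s : ℕ := z.natAbs + 1 with hs
  have hpos : 0 < z + (k * s : ℕ) := by
    have h1 : (z.natAbs : ℤ) < (k * s : ℕ) := by
      have : z.natAbs < k * s := by
        calc z.natAbs < s := by omega
          _ ≤ k * s := Nat.le_mul_of_pos_left _ hk
      exact_mod_cast this
    omega
  refine ⟨(z + (k * s : ℕ)).toNat, by omega, ?_⟩
  have h2 : π ^ (z + (k * s : ℕ)).toNat = π ^ z * π ^ (k * s) := by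
    rw [← zpow_natCast, Int.toNat_of_nonneg hpos.le, zpow_add, zpow_natCast]
  rw [h2, Equiv.Perm.mul_apply, hper, hz]

theorem Fx_sameCycle_lt {n : ℕ} {π : Equiv.Perm ℕ} (h : Fx n π) {x y : ℕ} (hx : x < n)
    (hxy : π.SameCycle x y) : y < n := by
  obtain ⟨m, _, rfl⟩ := h.exists_pow hxy
  exact h.iter_lt hx m

/-- an equivalence relation containing all pairs `(x, π x)` contains `SameCycle` -/
theorem cyc_sameCycle_le {π : Equiv.Perm ℕ} {R : ℕ → ℕ → Prop} (hR : Equivalence R)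
    (h : ∀ x, R x (π x)) {x y : ℕ} (hxy : π.SameCycle x y) : R x y := by
  have hn : ∀ (m : ℕ) (x : ℕ), R x ((π ^ m) x) := by
    intro m
    induction m with
    | zero => intro x; exact hR.refl x
    | succ m ih =>
      intro x
      rw [pow_succ', Equiv.Perm.mul_apply]
      exact hR.trans (ih x) (h _)
  obtain ⟨z, rfl⟩ := hxy
  rcases Int.eq_nat_or_neg z with ⟨m, rfl | rfl⟩
  · rw [zpow_natCast]; exact hn m x
  · have h1 := hn m ((π ^ (-(m : ℤ))) x)
    have h2 : (π ^ m) ((π ^ (-(m : ℤ))) x) = x := by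
      rw [← zpow_natCast, ← Equiv.Perm.mul_apply, ← zpow_add]
      simp
    rw [h2] at h1
    exact hR.symm h1

section swap

variable {n : ℕ} {π : Equiv.Perm ℕ} {i j : ℕ}

theorem cyc_mul_swap_left (π : Equiv.Perm ℕ) (i j : ℕ) : (π * Equiv.swap i j) i = π j := by
  rw [Equiv.Perm.mul_apply, Equiv.swap_apply_left]

theorem cyc_mul_swap_right (π : Equiv.Perm ℕ) (i j : ℕ) : (π * Equiv.swap i j) j = π i := by
  rw [Equiv.Perm.mul_apply, Equiv.swap_apply_right]

theorem cyc_mul_swap_other (π : Equiv.Perm ℕ) {i j x : ℕ} (h1 : x ≠ i) (h2 : x ≠ j) :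
    (π * Equiv.swap i j) x = π x := by
  rw [Equiv.Perm.mul_apply, Equiv.swap_apply_of_ne_of_ne h1 h2]

/-- following the orbit of `i` from `j` -/
theorem cyc_orbit_follow (m : ℕ) (hm : ∀ s, 0 < s → s < m → (π ^ s) i ≠ i ∧ (π ^ s) i ≠ j) :
    ∀ s, 0 < s → s ≤ m → ((π * Equiv.swap i j) ^ s) j = (π ^ s) i := by
  intro s hs hsm
  induction s with
  | zero => omega
  | succ s ih =>
    rcases Nat.eq_zero_or_pos s with rfl | hs0
    · rw [zero_add, pow_one, pow_one, cyc_mul_swap_right]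
    · have h1 := ih hs0 (by omega)
      obtain ⟨h2, h3⟩ := hm s hs0 (by omega)
      rw [pow_succ', Equiv.Perm.mul_apply, h1, cyc_mul_swap_other π h2 h3, pow_succ' π,
        Equiv.Perm.mul_apply]

theorem cyc_merge_aux (hf : Fx n π) (h : ¬ π.SameCycle i j) : (π * Equiv.swap i j).SameCycle j i := by
  classical
  have hex := hf.periodic i
  have hspec := Nat.find_spec hex
  have hmin := fun s => Nat.find_min hex (m := s)
  have h1 := cyc_orbit_follow (π := π) (i := i) (j := j) (Nat.find hex) (by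
    intro s hs0 hs
    refine ⟨fun he => hmin s hs ⟨hs0, he⟩, fun he => h ⟨s, ?_⟩⟩
    rw [zpow_natCast]; exact he) (Nat.find hex) hspec.1 le_rfl
  rw [hspec.2] at h1
  refine ⟨(Nat.find hex : ℤ), ?_⟩
  rw [zpow_natCast]
  exact h1

theorem cyc_merge_sub (hf : Fx n π) (h : ¬ π.SameCycle i j) {x y : ℕ} (hxy : π.SameCycle x y) :
    (π * Equiv.swap i j).SameCycle x y := by
  have hji := cyc_merge_aux hf h
  refine cyc_sameCycle_le (Equiv.Perm.SameCycle.equivalence (f := π * Equiv.swap i j)) ?_ hxy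
  intro x
  by_cases h1 : x = i
  · rw [h1]
    refine hji.symm.trans ?_
    rw [← cyc_mul_swap_right π i j]
    exact Equiv.Perm.sameCycle_apply_right.2 (Equiv.Perm.SameCycle.refl _ _)
  by_cases h2 : x = j
  · rw [h2]
    refine hji.trans ?_
    rw [← cyc_mul_swap_left π i j]
    exact Equiv.Perm.sameCycle_apply_right.2 (Equiv.Perm.SameCycle.refl _ _)
  rw [← cyc_mul_swap_other π h1 h2]
  exact Equiv.Perm.sameCycle_apply_right.2 (Equiv.Perm.SameCycle.refl _ _)

end swap

theorem sameCycle_mul_swap {n : ℕ} {π : Equiv.Perm ℕ} (hf : Fx n π) {i j : ℕ}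
    (h : ¬ π.SameCycle i j) (x y : ℕ) : (π * Equiv.swap i j).SameCycle x y ↔ π.SameCycle x y ∨
      (π.SameCycle x i ∧ π.SameCycle j y) ∨ (π.SameCycle x j ∧ π.SameCycle i y) := by
  constructor
  · intro hxy
    have hEq : Equivalence (fun x y => π.SameCycle x y ∨
      (π.SameCycle x i ∧ π.SameCycle j y) ∨ (π.SameCycle x j ∧ π.SameCycle i y)) := by
      refine ⟨?_, ?_, ?_⟩
      · intro x; exact Or.inl (Equiv.Perm.SameCycle.refl _ _)
      · intro x y hxy
        rcases hxy with h1 | ⟨h1, h2⟩ | ⟨h1, h2⟩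
        · exact Or.inl h1.symm
        · exact Or.inr (Or.inr ⟨h2.symm, h1.symm⟩)
        · exact Or.inr (Or.inl ⟨h2.symm, h1.symm⟩)
      · intro x y z hxy hyz
        rcases hxy with h1 | ⟨h1, h2⟩ | ⟨h1, h2⟩
        · rcases hyz with h3 | ⟨h3, h4⟩ | ⟨h3, h4⟩
          · exact Or.inl (h1.trans h3)
          · exact Or.inr (Or.inl ⟨h1.trans h3, h4⟩)
          · exact Or.inr (Or.inr ⟨h1.trans h3, h4⟩)
        · rcases hyz with h3 | ⟨h3, h4⟩ | ⟨h3, h4⟩
          · exact Or.inr (Or.inl ⟨h1, h2.trans h3⟩)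
          · exact absurd (h2.trans h3).symm h
          · exact Or.inl (h1.trans h4)
        · rcases hyz with h3 | ⟨h3, h4⟩ | ⟨h3, h4⟩
          · exact Or.inr (Or.inr ⟨h1, h2.trans h3⟩)
          · exact Or.inl (h1.trans h4)
          · exact absurd (h2.trans h3) h
    refine cyc_sameCycle_le hEq ?_ hxy
    intro x
    by_cases h1 : x = i
    · rw [h1, cyc_mul_swap_left]
      exact Or.inr (Or.inl ⟨Equiv.Perm.SameCycle.refl _ _,
        Equiv.Perm.sameCycle_apply_right.2 (Equiv.Perm.SameCycle.refl _ _)⟩)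
    by_cases h2 : x = j
    · rw [h2, cyc_mul_swap_right]
      exact Or.inr (Or.inr ⟨Equiv.Perm.SameCycle.refl _ _,
        Equiv.Perm.sameCycle_apply_right.2 (Equiv.Perm.SameCycle.refl _ _)⟩)
    rw [cyc_mul_swap_other π h1 h2]
    exact Or.inl (Equiv.Perm.sameCycle_apply_right.2 (Equiv.Perm.SameCycle.refl _ _))
  · have hji := cyc_merge_aux hf h
    rintro (h1 | ⟨h1, h2⟩ | ⟨h1, h2⟩)
    · exact cyc_merge_sub hf h h1
    · exact (cyc_merge_sub hf h h1).trans (hji.symm.trans (cyc_merge_sub hf h h2))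
    · exact (cyc_merge_sub hf h h1).trans (hji.trans (cyc_merge_sub hf h h2))

theorem not_sameCycle_mul_swap {n : ℕ} {π : Equiv.Perm ℕ} (hf : Fx n π) {i j : ℕ} (hij : i ≠ j)
    (h : π.SameCycle i j) : ¬ (π * Equiv.swap i j).SameCycle i j := by
  classical
  have hex := hf.exists_pow h
  have hspec := Nat.find_spec hex
  have hmin := fun s => Nat.find_min hex (m := s)
  set m := Nat.find hex with hm
  have hne : ∀ s, 0 < s → s ≤ m → (π ^ s) i ≠ i := by
    intro s hs0 hs he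
    rcases Nat.eq_or_lt_of_le hs with h1 | h1
    · rw [h1, hspec.2] at he
      exact hij he.symm
    · refine hmin (m - s) (by omega) ⟨by omega, ?_⟩
      have h2 : π ^ m = π ^ (m - s) * π ^ s := by rw [← pow_add]; congr 1; omega
      have h3 := hspec.2
      rw [h2, Equiv.Perm.mul_apply, he] at h3
      exact h3
  have hfol := cyc_orbit_follow (π := π) (i := i) (j := j) m (by
    intro s hs0 hs
    exact ⟨hne s hs0 hs.le, fun he => hmin s hs ⟨hs0, he⟩⟩)
  set σ := π * Equiv.swap i j with hσ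
  have hper : (σ ^ m) j = j := by
    rw [hfol m hspec.1 le_rfl, hspec.2]
  have hall : ∀ s, ∃ t, 0 < t ∧ t ≤ m ∧ (σ ^ s) j = (σ ^ t) j := by
    intro s
    induction s with
    | zero => exact ⟨m, hspec.1, le_rfl, by rw [hper]; rfl⟩
    | succ s ih =>
      obtain ⟨t, ht0, htm, ht⟩ := ih
      rcases Nat.eq_or_lt_of_le htm with h1 | h1
      · refine ⟨1, Nat.one_pos, by omega, ?_⟩
        have e1 : (σ ^ (s + 1)) j = σ ((σ ^ s) j) := by rw [pow_succ']; rfl
        rw [e1, ht, h1, hper, pow_one]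
      · refine ⟨t + 1, by omega, by omega, ?_⟩
        have e1 : (σ ^ (s + 1)) j = σ ((σ ^ s) j) := by rw [pow_succ']; rfl
        have e2 : (σ ^ (t + 1)) j = σ ((σ ^ t) j) := by rw [pow_succ']; rfl
        rw [e1, ht, e2]
  intro hc
  obtain ⟨z, hz⟩ := hc.symm
  have hperk : ∀ s : ℕ, (σ ^ (m * s)) j = j := by
    intro s
    induction s with
    | zero => simp
    | succ s ih => rw [Nat.mul_succ, pow_add, Equiv.Perm.mul_apply, hper, ih]
  set s : ℕ := z.natAbs + 1 with hs
  have hpos : 0 < z + (m * s : ℕ) := by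
    have h1 : (z.natAbs : ℤ) < (m * s : ℕ) := by
      have : z.natAbs < m * s := by
        calc z.natAbs < s := by omega
          _ ≤ m * s := Nat.le_mul_of_pos_left _ hspec.1
      exact_mod_cast this
    omega
  have h2 : σ ^ (z + (m * s : ℕ)).toNat = σ ^ z * σ ^ (m * s) := by
    rw [← zpow_natCast, Int.toNat_of_nonneg hpos.le, zpow_add, zpow_natCast]
  have h3 : (σ ^ (z + (m * s : ℕ)).toNat) j = i := by
    rw [h2, Equiv.Perm.mul_apply, hperk, hz]
  obtain ⟨t, ht0, htm, ht⟩ := hall (z + (m * s : ℕ)).toNat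
  rw [h3, hfol t ht0 htm] at ht
  exact hne t ht0 htm ht.symm

theorem reps_nodup (n : ℕ) (w : Word) : (reps n w).Nodup := by
  unfold reps
  exact List.nodup_range.filter _

theorem cyc_mem_reps {n : ℕ} {w : Word} {i : ℕ} : i ∈ reps n w ↔ i < n ∧ IsRep (perm w) i := by
  simp only [reps, List.mem_filter, List.mem_range, decide_eq_true_eq]

/-- every cycle has a least element -/
theorem cyc_exists_isRep (π : Equiv.Perm ℕ) (x : ℕ) : ∃ y, y ≤ x ∧ π.SameCycle y x ∧ IsRep π y := by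
  classical
  have hex : ∃ y, π.SameCycle y x := ⟨x, Equiv.Perm.SameCycle.refl _ _⟩
  refine ⟨Nat.find hex, Nat.find_min' hex (Equiv.Perm.SameCycle.refl _ _), Nat.find_spec hex, ?_⟩
  intro j hj
  exact Nat.find_min' hex (hj.symm.trans (Nat.find_spec hex))

private theorem IsRep.eq {π : Equiv.Perm ℕ} {x y : ℕ} (hx : IsRep π x) (hy : IsRep π y)
    (h : π.SameCycle x y) : x = y := le_antisymm (hx y h) (hy x h.symm)

theorem isTr_reps {n : ℕ} {w : Word} (hw : Valid n w) : IsTr (perm w) n (reps n w).toFinset := by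
  refine ⟨?_, ?_⟩
  · intro i hi
    rw [List.mem_toFinset, cyc_mem_reps] at hi
    exact mem_range.2 hi.1
  · intro x hx
    obtain ⟨y, hyx, hy1, hy2⟩ := cyc_exists_isRep (perm w) x
    refine ⟨y, ⟨?_, hy1⟩, ?_⟩
    · rw [List.mem_toFinset, cyc_mem_reps]
      exact ⟨by omega, hy2⟩
    · rintro y' ⟨hy', hy'x⟩
      rw [List.mem_toFinset, cyc_mem_reps] at hy'
      exact hy'.2.eq hy2 (hy'x.trans hy1.symm)

/-- elements of a transversal in the same cycle are equal -/
private theorem IsTr.eq {π : Equiv.Perm ℕ} {n : ℕ} {I : Finset ℕ} (hI : IsTr π n I) {x y : ℕ}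
    (hx : x ∈ I) (hy : y ∈ I) (h : π.SameCycle x y) : x = y := by
  have hyn := mem_range.1 (hI.1 hy)
  exact (hI.2 y hyn).unique ⟨hx, h⟩ ⟨hy, Equiv.Perm.SameCycle.refl _ _⟩

/-- constructor for transversals -/
theorem cyc_isTr_of {π : Equiv.Perm ℕ} {n : ℕ} {I : Finset ℕ} (h1 : I ⊆ range n)
    (h2 : ∀ x < n, ∃ i ∈ I, π.SameCycle i x)
    (h3 : ∀ x ∈ I, ∀ y ∈ I, π.SameCycle x y → x = y) : IsTr π n I := by
  refine ⟨h1, ?_⟩
  intro x hx
  obtain ⟨i, hi, hix⟩ := h2 x hx
  refine ⟨i, ⟨hi, hix⟩, ?_⟩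
  rintro i' ⟨hi', hi'x⟩
  exact h3 i' hi' i hi (hi'x.trans hix.symm)

private theorem IsTr.exists {π : Equiv.Perm ℕ} {n : ℕ} {I : Finset ℕ} (hI : IsTr π n I) {x : ℕ}
    (hx : x < n) : ∃ i ∈ I, π.SameCycle i x := by
  obtain ⟨i, ⟨hi, hix⟩, _⟩ := hI.2 x hx
  exact ⟨i, hi, hix⟩

theorem cyc_card_isTr_le {π : Equiv.Perm ℕ} {n : ℕ} {I J : Finset ℕ} (hI : IsTr π n I)
    (hJ : IsTr π n J) : I.card ≤ J.card := by
  classical
  have h : ∀ x : ℕ, ∃ i, x ∈ I → i ∈ J ∧ π.SameCycle i x := by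
    intro x
    by_cases hx : x ∈ I
    · obtain ⟨i, hi, hix⟩ := hJ.exists (mem_range.1 (hI.1 hx))
      exact ⟨i, fun _ => ⟨hi, hix⟩⟩
    · exact ⟨0, fun h => absurd h hx⟩
  choose f hf using h
  refine card_le_card_of_injOn f (fun x hx => (hf x hx).1) ?_
  intro x hx y hy hxy
  refine hI.eq hx hy ?_
  have h1 := (hf x hx).2
  have h2 := (hf y hy).2
  rw [hxy] at h1
  exact h1.symm.trans h2

theorem card_isTr {π : Equiv.Perm ℕ} {n : ℕ} {I J : Finset ℕ} (hf : Fx n π) (hI : IsTr π n I)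
    (hJ : IsTr π n J) : I.card = J.card :=
  le_antisymm (cyc_card_isTr_le hI hJ) (cyc_card_isTr_le hJ hI)

theorem ncomp_eq_card {n : ℕ} {w : Word} (hw : Valid n w) {I : Finset ℕ} (hI : IsTr (perm w) n I) :
    ncomp n w = I.card := by
  unfold ncomp
  rw [← List.toFinset_card_of_nodup (reps_nodup n w)]
  exact card_isTr (perm_fx hw) (isTr_reps hw) hI

theorem exists_isTr_mem {π : Equiv.Perm ℕ} {n x : ℕ} (hf : Fx n π) (hx : x < n) :
    ∃ I, IsTr π n I ∧ x ∈ I := by
  classical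
  refine ⟨(range n).filter (fun i => i = x ∨ (IsRep π i ∧ ¬ π.SameCycle x i)), cyc_isTr_of
    (filter_subset _ _) ?_ ?_, mem_filter.2 ⟨mem_range.2 hx, Or.inl rfl⟩⟩
  · intro y hy
    by_cases hxy : π.SameCycle x y
    · exact ⟨x, mem_filter.2 ⟨mem_range.2 hx, Or.inl rfl⟩, hxy⟩
    · obtain ⟨y', h1, h2, h3⟩ := cyc_exists_isRep π y
      exact ⟨y', mem_filter.2 ⟨mem_range.2 (by omega), Or.inr ⟨h3, fun h => hxy (h.trans h2)⟩⟩, h2⟩
  · intro a ha b hb hab
    rcases (mem_filter.1 ha).2 with rfl | ⟨h1, h2⟩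
    · rcases (mem_filter.1 hb).2 with rfl | ⟨h3, h4⟩
      · rfl
      · exact absurd hab h4
    · rcases (mem_filter.1 hb).2 with rfl | ⟨h3, h4⟩
      · exact absurd hab.symm h2
      · exact h1.eq h3 hab

theorem exists_isTr_mem2 {π : Equiv.Perm ℕ} {n x y : ℕ} (hf : Fx n π) (hx : x < n) (hy : y < n)
    (h : ¬ π.SameCycle x y) : ∃ I, IsTr π n I ∧ x ∈ I ∧ y ∈ I := by
  classical
  refine ⟨(range n).filter (fun i => i = x ∨ i = y ∨
    (IsRep π i ∧ ¬ π.SameCycle x i ∧ ¬ π.SameCycle y i)), cyc_isTr_of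
    (filter_subset _ _) ?_ ?_, mem_filter.2 ⟨mem_range.2 hx, Or.inl rfl⟩,
    mem_filter.2 ⟨mem_range.2 hy, Or.inr (Or.inl rfl)⟩⟩
  · intro a ha
    by_cases hxa : π.SameCycle x a
    · exact ⟨x, mem_filter.2 ⟨mem_range.2 hx, Or.inl rfl⟩, hxa⟩
    by_cases hya : π.SameCycle y a
    · exact ⟨y, mem_filter.2 ⟨mem_range.2 hy, Or.inr (Or.inl rfl)⟩, hya⟩
    obtain ⟨a', h1, h2, h3⟩ := cyc_exists_isRep π a
    exact ⟨a', mem_filter.2 ⟨mem_range.2 (by omega), Or.inr (Or.inr ⟨h3, fun h => hxa (h.trans h2),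
      fun h => hya (h.trans h2)⟩)⟩, h2⟩
  · intro a ha b hb hab
    rcases (mem_filter.1 ha).2 with h1 | h1 | ⟨h1, h2, h2'⟩
    · rcases (mem_filter.1 hb).2 with h3 | h3 | ⟨h3, h4, h4'⟩
      · rw [h1, h3]
      · rw [h1, h3] at hab; exact absurd hab h
      · rw [h1] at hab; exact absurd hab h4
    · rcases (mem_filter.1 hb).2 with h3 | h3 | ⟨h3, h4, h4'⟩
      · rw [h1, h3] at hab; exact absurd hab.symm h
      · rw [h1, h3]
      · rw [h1] at hab; exact absurd hab h4'
    · rcases (mem_filter.1 hb).2 with h3 | h3 | ⟨h3, h4, h4'⟩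
      · rw [h3] at hab; exact absurd hab.symm h2
      · rw [h3] at hab; exact absurd hab.symm h2'
      · exact h1.eq h3 hab

/-- merging two cycles -/
theorem isTr_merge {π : Equiv.Perm ℕ} {n i j : ℕ} (hf : Fx n π) (hi : i < n) (hj : j < n)
    (h : ¬ π.SameCycle i j) {I : Finset ℕ} (hI : IsTr π n I) (hiI : i ∈ I) (hjI : j ∈ I) :
    IsTr (π * Equiv.swap i j) n (I.erase j) := by
  have hij : i ≠ j := fun he => h (he ▸ Equiv.Perm.SameCycle.refl _ _)
  refine cyc_isTr_of ((erase_subset _ _).trans hI.1) ?_ ?_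
  · intro x hx
    obtain ⟨k, hk, hkx⟩ := hI.exists hx
    by_cases hkj : k = j
    · refine ⟨i, mem_erase.2 ⟨hij, hiI⟩, (sameCycle_mul_swap hf h i x).2 (Or.inr (Or.inl
        ⟨Equiv.Perm.SameCycle.refl _ _, hkj ▸ hkx⟩))⟩
    · exact ⟨k, mem_erase.2 ⟨hkj, hk⟩, (sameCycle_mul_swap hf h k x).2 (Or.inl hkx)⟩
  · intro a ha b hb hab
    obtain ⟨ha1, ha2⟩ := mem_erase.1 ha
    obtain ⟨hb1, hb2⟩ := mem_erase.1 hb
    rcases (sameCycle_mul_swap hf h a b).1 hab with h1 | ⟨h1, h2⟩ | ⟨h1, h2⟩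
    · exact hI.eq ha2 hb2 h1
    · exact absurd (hI.eq hjI hb2 h2).symm hb1
    · exact absurd (hI.eq ha2 hjI h1) ha1

private theorem Fx.mul_swap {π : Equiv.Perm ℕ} {n i j : ℕ} (hf : Fx n π) (hi : i < n) (hj : j < n) :
    Fx n (π * Equiv.swap i j) := by
  intro x hx
  rw [cyc_mul_swap_other π (by omega) (by omega)]
  exact hf x hx

/-- splitting a cycle -/
theorem isTr_split {π : Equiv.Perm ℕ} {n i j : ℕ} (hf : Fx n π) (hi : i < n) (hj : j < n) (hij : i ≠ j)
    (h : π.SameCycle i j) {I : Finset ℕ} (hI : IsTr π n I) (hiI : i ∈ I) :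
    IsTr (π * Equiv.swap i j) n (insert j I) := by
  have hns := not_sameCycle_mul_swap hf hij h
  have hfσ := hf.mul_swap hi hj
  have hback : (π * Equiv.swap i j) * Equiv.swap i j = π := by
    rw [mul_assoc, Equiv.swap_mul_self, mul_one]
  have hiff := sameCycle_mul_swap hfσ hns
  rw [hback] at hiff
  refine cyc_isTr_of ?_ ?_ ?_
  · intro x hx
    rcases mem_insert.1 hx with rfl | hx
    · exact mem_range.2 hj
    · exact hI.1 hx
  · intro x hx
    obtain ⟨k, hk, hkx⟩ := hI.exists hx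
    rcases (hiff k x).1 hkx with h1 | ⟨h1, h2⟩ | ⟨h1, h2⟩
    · exact ⟨k, mem_insert_of_mem hk, h1⟩
    · exact ⟨j, mem_insert_self _ _, h2⟩
    · have h3 : π.SameCycle k j := (hiff k j).2 (Or.inl h1)
      have h4 := hI.eq hk hiI (h3.trans h.symm)
      rw [h4] at h1
      exact absurd h1 hns
  · have key : ∀ b ∈ I, ¬ (π * Equiv.swap i j).SameCycle j b := by
      intro b hb hc
      have h3 : π.SameCycle j b := (hiff j b).2 (Or.inl hc)
      have h4 := hI.eq hiI hb (h.trans h3)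
      rw [← h4] at hc
      exact hns hc.symm
    intro a ha b hb hab
    rcases mem_insert.1 ha with ha' | ha'
    · rcases mem_insert.1 hb with hb' | hb'
      · rw [ha', hb']
      · rw [ha'] at hab
        exact absurd hab (key b hb')
    · rcases mem_insert.1 hb with hb' | hb'
      · rw [hb'] at hab
        exact absurd hab.symm (key a ha')
      · exact hI.eq ha' hb' ((hiff a b).2 (Or.inl hab))

/-- conjugation -/
theorem isTr_conj {π ρ : Equiv.Perm ℕ} {n : ℕ} (hρ : Fx n ρ) {I : Finset ℕ} (hI : IsTr π n I) :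
    IsTr (ρ⁻¹ * π * ρ) n (I.image ⇑ρ⁻¹) := by
  have hconj : ∀ x y, (ρ⁻¹ * π * ρ).SameCycle x y ↔ π.SameCycle (ρ x) (ρ y) := by
    intro x y
    have := Equiv.Perm.sameCycle_conj (f := π) (g := ρ⁻¹) (x := x) (y := y)
    rw [inv_inv] at this
    exact this
  have hinv : ∀ x, ρ (ρ⁻¹ x) = x := fun x => by
    rw [← Equiv.Perm.mul_apply, mul_inv_cancel]; rfl
  refine cyc_isTr_of ?_ ?_ ?_
  · intro x hx
    obtain ⟨y, hy, rfl⟩ := mem_image.1 hx
    rw [mem_range]
    by_contra hc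
    rw [not_lt] at hc
    have h1 := hρ _ hc
    rw [hinv] at h1
    have h2 := mem_range.1 (hI.1 hy)
    omega
  · intro x hx
    obtain ⟨i, hi, hix⟩ := hI.exists (hρ.pow_lt hx)
    refine ⟨ρ⁻¹ i, mem_image_of_mem _ hi, ?_⟩
    rw [hconj, hinv]
    exact hix
  · intro a ha b hb hab
    obtain ⟨a', ha', rfl⟩ := mem_image.1 ha
    obtain ⟨b', hb', rfl⟩ := mem_image.1 hb
    rw [hconj, hinv, hinv] at hab
    rw [hI.eq ha' hb' hab]

theorem isTr_free {π : Equiv.Perm ℕ} {n : ℕ} (hf : Fx n π) {I : Finset ℕ} (hI : IsTr π n I) :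
    IsTr π (n+1) (insert n I) := by
  have hfix : ∀ y, π.SameCycle n y → n = y := fun y hy => hy.eq_of_left (hf n le_rfl)
  refine cyc_isTr_of ?_ ?_ ?_
  · intro x hx
    rcases mem_insert.1 hx with rfl | hx
    · exact mem_range.2 (Nat.lt_succ_self _)
    · have := mem_range.1 (hI.1 hx)
      exact mem_range.2 (by omega)
  · intro x hx
    rcases Nat.lt_succ_iff_lt_or_eq.1 hx with h1 | rfl
    · obtain ⟨i, hi, hix⟩ := hI.exists h1
      exact ⟨i, mem_insert_of_mem hi, hix⟩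
    · exact ⟨x, mem_insert_self _ _, Equiv.Perm.SameCycle.refl _ _⟩
  · intro a ha b hb hab
    rcases mem_insert.1 ha with rfl | ha
    · exact hfix b hab
    · rcases mem_insert.1 hb with rfl | hb
      · exact (hfix a hab.symm).symm
      · exact hI.eq ha hb hab

theorem isTr_markov {π : Equiv.Perm ℕ} {n : ℕ} (hf : Fx (n+1) π) {I : Finset ℕ} (hI : IsTr π (n+1) I) :
    IsTr (π * Equiv.swap n (n+1)) (n+2) I := by
  have hfix : ∀ y, π.SameCycle (n+1) y → n+1 = y := fun y hy => hy.eq_of_left (hf (n+1) le_rfl)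
  have hns : ¬ π.SameCycle n (n+1) := fun h => by have := hfix n h.symm; omega
  have hiff := sameCycle_mul_swap hf hns
  refine cyc_isTr_of ?_ ?_ ?_
  · intro x hx
    have := mem_range.1 (hI.1 hx)
    exact mem_range.2 (by omega)
  · intro x hx
    rcases Nat.lt_succ_iff_lt_or_eq.1 hx with h1 | rfl
    · obtain ⟨i, hi, hix⟩ := hI.exists h1
      exact ⟨i, hi, (hiff i x).2 (Or.inl hix)⟩
    · obtain ⟨i, hi, hix⟩ := hI.exists (Nat.lt_succ_self n)
      exact ⟨i, hi, (hiff i _).2 (Or.inr (Or.inl ⟨hix, Equiv.Perm.SameCycle.refl _ _⟩))⟩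
  · intro a ha b hb hab
    have ha' := mem_range.1 (hI.1 ha)
    have hb' := mem_range.1 (hI.1 hb)
    rcases (hiff a b).1 hab with h1 | ⟨h1, h2⟩ | ⟨h1, h2⟩
    · exact hI.eq ha hb h1
    · have := hfix b h2; omega
    · have := hfix a h1.symm; omega

theorem ncomp_zero : ncomp 0 [] = 0 := by
  unfold ncomp reps
  simp

private theorem Valid.mono {n m : ℕ} {w : Word} (hw : Valid n w) (h : n ≤ m) : Valid m w :=
  fun l hl => lt_of_lt_of_le (hw l hl) h

private theorem Valid.append {n : ℕ} {u v : Word} (hu : Valid n u) (hv : Valid n v) : Valid n (u ++ v) := by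
  intro l hl
  rcases List.mem_append.1 hl with h | h
  · exact hu l h
  · exact hv l h

private theorem Valid.left {n : ℕ} {u v : Word} (h : Valid n (u ++ v)) : Valid n u :=
  fun l hl => h l (List.mem_append_left _ hl)

private theorem Valid.right {n : ℕ} {u v : Word} (h : Valid n (u ++ v)) : Valid n v :=
  fun l hl => h l (List.mem_append_right _ hl)

theorem cyc_valid_single {n i : ℕ} {b : Bool} (h : i + 1 < n) : Valid n [(i, b)] := by
  intro l hl
  rw [List.mem_singleton] at hl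
  rw [hl]
  exact h

theorem cyc_perm_single (i : ℕ) (b : Bool) : perm [(i, b)] = Equiv.swap i (i+1) := by
  rw [perm_cons, perm_nil, mul_one]

theorem ncomp_free {n : ℕ} {w : Word} (hw : Valid n w) : ncomp (n+1) w = ncomp n w + 1 := by
  have h1 := isTr_reps hw
  have h2 := isTr_free (perm_fx hw) h1
  rw [ncomp_eq_card (hw.mono (Nat.le_succ n)) h2, ncomp_eq_card hw h1, card_insert_of_notMem]
  intro h
  have := mem_range.1 (h1.1 h)
  omega

theorem ncomp_markov {n : ℕ} {w : Word} (b : Bool) (hw : Valid (n+1) w) :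
    ncomp (n+2) (w ++ [(n, b)]) = ncomp (n+1) w := by
  have h1 := isTr_reps hw
  have h2 := isTr_markov (perm_fx hw) h1
  have hv : Valid (n+2) (w ++ [(n, b)]) :=
    (hw.mono (Nat.le_succ _)).append (cyc_valid_single (by omega))
  rw [← cyc_perm_single n b, ← perm_append] at h2
  rw [ncomp_eq_card hv h2, ncomp_eq_card hw h1]

theorem ncomp_conj {n : ℕ} {u v : Word} (hw : Valid n (u ++ v)) : ncomp n (u ++ v) = ncomp n (v ++ u) := by
  have h1 := isTr_reps hw
  have h2 := isTr_conj (perm_fx hw.left) h1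
  have h3 : (perm u)⁻¹ * perm (u ++ v) * perm u = perm (v ++ u) := by
    rw [perm_append, perm_append]; group
  rw [h3] at h2
  rw [ncomp_eq_card hw h1, ncomp_eq_card (hw.right.append hw.left) h2,
    card_image_of_injective _ (Equiv.injective _)]

theorem ncomp_congr {n : ℕ} {u v : Word} (h : perm u = perm v) : ncomp n u = ncomp n v := by
  unfold ncomp reps
  rw [h]

theorem ncomp_split {n : ℕ} {u v : Word} {i : ℕ} (b : Bool) (hi : i + 1 < n) (hw : Valid n (u ++ v))
    (h : (perm (v ++ u)).SameCycle i (i+1)) : ncomp n (u ++ [(i, b)] ++ v) = ncomp n (u ++ v) + 1 := by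
  have hv : Valid n (v ++ u) := hw.right.append hw.left
  have hs : Valid n [(i, b)] := cyc_valid_single hi
  have hf := perm_fx hv
  obtain ⟨I, hI, hiI⟩ := exists_isTr_mem hf (x := i) (by omega)
  have h2 := isTr_split hf (by omega) hi (by omega) h hI hiI
  rw [← cyc_perm_single i b, ← perm_append] at h2
  rw [ncomp_conj ((hw.left.append hs).append hw.right), ← List.append_assoc,
    ncomp_conj hw, ncomp_eq_card (hv.append hs) h2, ncomp_eq_card hv hI, card_insert_of_notMem]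
  intro hc
  have := hI.eq hiI hc h
  omega

theorem ncomp_merge {n : ℕ} {u v : Word} {i : ℕ} (b : Bool) (hi : i + 1 < n) (hw : Valid n (u ++ v))
    (h : ¬ (perm (v ++ u)).SameCycle i (i+1)) : ncomp n (u ++ [(i, b)] ++ v) + 1 = ncomp n (u ++ v) := by
  have hv : Valid n (v ++ u) := hw.right.append hw.left
  have hs : Valid n [(i, b)] := cyc_valid_single hi
  have hf := perm_fx hv
  obtain ⟨I, hI, hiI, hjI⟩ := exists_isTr_mem2 hf (x := i) (y := i + 1) (by omega) hi h
  have h2 := isTr_merge hf (by omega) hi h hI hiI hjI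
  rw [← cyc_perm_single i b, ← perm_append] at h2
  rw [ncomp_conj ((hw.left.append hs).append hw.right), ← List.append_assoc,
    ncomp_conj hw, ncomp_eq_card (hv.append hs) h2, ncomp_eq_card hv hI, card_erase_of_mem hjI]
  have : 0 < I.card := card_pos.2 ⟨i, hiI⟩
  omega

end Pool.Agent.HL
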