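import Pool.Agent.Lib.HL21.Defs

/-! # Module Rel: the bundle crossing `R` -/

namespace Pool.Agent.HL

open Finset

variable {k : Type*} [CommRing k]

/-! ### Explicit permutations -/

/-- the crossing of `m` strands over `p` strands -/
def bsm (p m : ℕ) : S := ⟨
  { toFun := fun x => if x < m then x + p else if x < m + p then x - m else x
    invFun := fun x => if x < p then x + m else if x < m + p then x - p else x
    left_inv := by
      intro x
      dsimp only
      split_ifs <;> omega
    right_inv := by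
      intro x
      dsimp only
      split_ifs <;> omega },
  ⟨m + p, fun x hx => by
    simp only [Equiv.coe_fn_mk]
    rw [if_neg (by omega), if_neg (by omega)]⟩⟩

theorem bsm_apply (p m x : ℕ) : (bsm p m).1 x = if x < m then x + p else if x < m + p then x - m else x :=
  rfl

theorem bsm_symm (p m x : ℕ) : (bsm p m).1.symm x = if x < p then x + m else if x < m + p then x - p else x :=
  rfl

/-- the cycle moving the strand `i` over the next `p` strands -/
def cyc (i p : ℕ) : S := ⟨
  { toFun := fun x => if x = i then i + p else if i < x ∧ x ≤ i + p then x - 1 else x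
    invFun := fun x => if x = i + p then i else if i ≤ x ∧ x < i + p then x + 1 else x
    left_inv := by
      intro x
      dsimp only
      split_ifs <;> omega
    right_inv := by
      intro x
      dsimp only
      split_ifs <;> omega },
  ⟨i + p + 1, fun x hx => by
    simp only [Equiv.coe_fn_mk]
    rw [if_neg (by omega), if_neg (by omega)]⟩⟩

theorem cyc_apply (i p x : ℕ) : (cyc i p).1 x = if x = i then i + p else if i < x ∧ x ≤ i + p then x - 1 else x :=
  rfl

theorem cyc_symm (i p x : ℕ) : (cyc i p).1.symm x = if x = i + p then i else if i ≤ x ∧ x < i + p then x + 1 else x :=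
  rfl



theorem S_mul_apply (u v : S) (x : ℕ) : (u * v).1 x = u.1 (v.1 x) := rfl

theorem cyc_zero (i : ℕ) : cyc i 0 = 1 := by
  apply S_ext
  intro x
  rw [cyc_apply]
  change _ = x
  split_ifs <;> omega

theorem cyc_succ (i p : ℕ) : cyc i (p+1) = s (i+p) * cyc i p := by
  apply S_ext
  intro x
  rw [S_mul_apply, cyc_apply, cyc_apply, s_apply]
  split_ifs <;> omega

theorem bsm_zero (p : ℕ) : bsm p 0 = 1 := by
  apply S_ext
  intro x
  rw [bsm_apply]
  change _ = x
  split_ifs <;> omega

theorem bsm_succ (p m : ℕ) : bsm p (m+1) = bsm p m * cyc m p := by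
  apply S_ext
  intro x
  rw [S_mul_apply, bsm_apply, cyc_apply, bsm_apply]
  split_ifs <;> omega

/-- the block swap permutation exchanging `[0,p)` and `[p,2p)` -/
theorem exists_bs (p : ℕ) : ∃ b : S, ∀ x, b.1 x = if x < p then x + p else if x < 2 * p then x - p else x := by
  refine ⟨bsm p p, fun x => ?_⟩
  rw [bsm_apply]
  split_ifs <;> omega

noncomputable def bs (p : ℕ) : S := (exists_bs p).choose

theorem bs_apply (p x : ℕ) : (bs p).1 x = if x < p then x + p else if x < 2 * p then x - p else x :=
  (exists_bs p).choose_spec x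

theorem bs_eq_bsm (p : ℕ) : bs p = bsm p p := by
  apply S_ext
  intro x
  rw [bs_apply, bsm_apply]
  split_ifs <;> omega

theorem bs_symm (p x : ℕ) : (bs p).1.symm x = if x < p then x + p else if x < 2 * p then x - p else x := by
  rw [bs_eq_bsm, bsm_symm]
  split_ifs <;> omega

theorem bs_mul_self (p : ℕ) : bs p * bs p = 1 := by
  apply S_ext
  intro x
  rw [S_mul_apply, bs_apply, bs_apply]
  change _ = x
  split_ifs <;> omega

/-! ### Words -/

theorem ev_append (z : k) (u v : Word) : ev z (u ++ v) = ev z u * ev z v := by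
  simp only [ev, List.map_append, List.prod_append]

theorem ev_nil (z : k) : ev z [] = 1 := rfl

theorem ev_cons (z : k) (l : Letter) (v : Word) : ev z (l :: v) = evl z l * ev z v := by
  simp only [ev, List.map_cons, List.prod_cons]

theorem evl_mul_inv (z : k) (l : Letter) : evl z l * evl z (l.1, !l.2) = 1 := by
  obtain ⟨i, b⟩ := l
  cases b
  · simp only [evl, Bool.not_false, if_true, Bool.false_eq_true, if_false]
    exact gi_g z i
  · simp only [evl, Bool.not_true, if_true, Bool.false_eq_true, if_false]
    exact g_gi z i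

theorem evl_inv_mul (z : k) (l : Letter) : evl z (l.1, !l.2) * evl z l = 1 := by
  obtain ⟨i, b⟩ := l
  cases b
  · simp only [evl, Bool.not_false, if_true, Bool.false_eq_true, if_false]
    exact g_gi z i
  · simp only [evl, Bool.not_true, if_true, Bool.false_eq_true, if_false]
    exact gi_g z i

theorem invW_cons (l : Letter) (v : Word) : invW (l :: v) = invW v ++ [(l.1, !l.2)] := by
  simp [invW]

theorem ev_singleton (z : k) (l : Letter) : ev z [l] = evl z l := by
  rw [ev_cons, ev_nil, mul_one]

theorem ev_invW (z : k) (w : Word) : ev z w * ev z (invW w) = 1 := by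
  induction w with
  | nil => simp [invW, ev_nil]
  | cons l v ih =>
    rw [invW_cons, ev_append, ev_singleton, ev_cons]
    calc evl z l * ev z v * (ev z (invW v) * evl z (l.1, !l.2))
        = evl z l * (ev z v * ev z (invW v)) * evl z (l.1, !l.2) := by simp only [mul_assoc]
      _ = 1 := by rw [ih, mul_one, evl_mul_inv]

theorem ev_invW' (z : k) (w : Word) : ev z (invW w) * ev z w = 1 := by
  induction w with
  | nil => simp [invW, ev_nil]
  | cons l v ih =>
    rw [invW_cons, ev_append, ev_singleton, ev_cons]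
    calc ev z (invW v) * evl z (l.1, !l.2) * (evl z l * ev z v)
        = ev z (invW v) * (evl z (l.1, !l.2) * evl z l) * ev z v := by simp only [mul_assoc]
      _ = 1 := by rw [evl_inv_mul, mul_one, ih]

theorem evl_shift (z : k) (m : ℕ) (l : Letter) : evl z (m + l.1, l.2) = sh z m (evl z l) := by
  obtain ⟨i, b⟩ := l
  cases b
  · simp only [evl, Bool.false_eq_true, if_false]
    exact (sh_gi z m i).symm
  · simp only [evl, if_true]
    exact (sh_g z m i).symm

theorem ev_shW (z : k) (m : ℕ) (w : Word) : ev z (shW m w) = sh z m (ev z w) := by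
  induction w with
  | nil => simp [shW, ev_nil]
  | cons l v ih =>
    have h : shW m (l :: v) = (m + l.1, l.2) :: shW m v := rfl
    rw [h, ev_cons, ih, ev_cons, map_mul, evl_shift]



theorem ev_mem (z : k) {n : ℕ} {w : Word} (hw : Valid n w) : ev z w ∈ HS z n := by
  induction w with
  | nil => exact one_mem_HW z f0 n
  | cons l v ih =>
    rw [ev_cons]
    have hl : l.1 + 1 < n := hw l (List.mem_cons_self ..)
    refine mul_mem_HW z f0_mono ?_ (ih fun x hx => hw x (List.mem_cons_of_mem _ hx))
    unfold evl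
    split_ifs
    · exact g_mem_HW z hl rfl
    · exact gi_mem_HW z hl rfl

theorem invW_valid {n : ℕ} {w : Word} (hw : Valid n w) : Valid n (invW w) := by
  intro l hl
  simp only [invW, List.mem_map, List.mem_reverse] at hl
  obtain ⟨x, hx, rfl⟩ := hl
  exact hw x hx

theorem blk_valid (p : ℕ) : Valid (2 * p) (blk p) := by
  intro l hl
  simp only [blk, List.mem_flatMap, List.mem_range, List.mem_map, List.mem_reverse] at hl
  obtain ⟨i, hi, j, hj, rfl⟩ := hl
  simp only
  omega

theorem cWord_valid (p m : ℕ) : Valid p (cWord p m) := by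
  intro l hl
  simp only [cWord, List.mem_map, List.mem_reverse, List.mem_range] at hl
  obtain ⟨i, hi, rfl⟩ := hl
  simp only
  omega

/-! ### The crossing as a basis element -/

theorem ev_cyc (z : k) (i p : ℕ) :
    ev z (((List.range p).reverse).map (fun j => (i + j, true))) = T z (cyc i p) := by
  induction p with
  | zero =>
    rw [cyc_zero, T_one]
    rfl
  | succ p ih =>
    have h : ((List.range (p+1)).reverse).map (fun j => (i + j, true)) =
        ((i + p, true) : Letter) :: ((List.range p).reverse).map (fun j => (i + j, true)) := by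
      rw [List.range_succ, List.reverse_append]
      rfl
    rw [h, ev_cons, ih, cyc_succ]
    change g z (i+p) * T z (cyc i p) = _
    apply sT_lt
    rw [cyc_symm, cyc_symm]
    split_ifs <;> omega

theorem ev_bsm (z : k) (p m : ℕ) :
    ev z ((List.range m).flatMap (fun i => ((List.range p).reverse).map (fun j => (i + j, true)))) =
      T z (bsm p m) := by
  induction m with
  | zero =>
    rw [bsm_zero, T_one]
    rfl
  | succ m ih =>
    rw [List.range_succ, List.flatMap_append, ev_append, ih, List.flatMap_singleton, ev_cyc,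
      bsm_succ]
    apply TT
    intro i j hij h
    rw [cyc_apply, cyc_apply] at h
    rw [cyc_apply, cyc_apply, bsm_apply, bsm_apply]
    split_ifs at h ⊢ <;> omega

theorem R_eq_T (z : k) (p : ℕ) : R z p = T z (bs p) := by
  rw [bs_eq_bsm, ← ev_bsm]
  rfl

theorem R_mem (z : k) (p : ℕ) : R z p ∈ HS z (2 * p) := ev_mem z (blk_valid p)

theorem Ri_mem (z : k) (p : ℕ) : Ri z p ∈ HS z (2 * p) := ev_mem z (invW_valid (blk_valid p))

theorem R_Ri (z : k) (p : ℕ) : R z p * Ri z p = 1 := ev_invW z (blk p)

theorem Ri_R (z : k) (p : ℕ) : Ri z p * R z p = 1 := ev_invW' z (blk p)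

theorem R_g1 (z : k) {p i : ℕ} (hi : i + 1 < p) : R z p * g z i = g z (p + i) * R z p := by
  rw [R_eq_T]
  have h1 : T z (bs p) * g z i = T z (bs p * s i) := by
    apply Ts_lt
    rw [bs_apply, bs_apply]
    split_ifs <;> omega
  have h2 : g z (p + i) * T z (bs p) = T z (s (p + i) * bs p) := by
    apply sT_lt
    rw [bs_symm, bs_symm]
    split_ifs <;> omega
  rw [h1, h2]
  congr 1
  apply S_ext
  intro x
  rw [S_mul_apply, S_mul_apply, bs_apply, bs_apply, s_apply, s_apply]
  split_ifs <;> omega

theorem R_g2 (z : k) {p i : ℕ} (hi : i + 1 < p) : R z p * g z (p + i) = g z i * R z p := by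
  rw [R_eq_T]
  have h1 : T z (bs p) * g z (p + i) = T z (bs p * s (p + i)) := by
    apply Ts_lt
    rw [bs_apply, bs_apply]
    split_ifs <;> omega
  have h2 : g z i * T z (bs p) = T z (s i * bs p) := by
    apply sT_lt
    rw [bs_symm, bs_symm]
    split_ifs <;> omega
  rw [h1, h2]
  congr 1
  apply S_ext
  intro x
  rw [S_mul_apply, S_mul_apply, bs_apply, bs_apply, s_apply, s_apply]
  split_ifs <;> omega

theorem R_slide1 (z : k) (p : ℕ) {x : H z} (hx : x ∈ HS z p) : R z p * x = sh z p x * R z p := by
  refine HW_ind z f0_mono (P := fun x => R z p * x = sh z p x * R z p) ?_ ?_ ?_ ?_ x hx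
  · rw [map_one, mul_one, one_mul]
  · intro x y h1 h2
    rw [mul_add, map_add, add_mul, h1, h2]
  · intro c x h
    rw [mul_smul_comm, map_smul, smul_mul_assoc, h]
  · intro i x hi _ h
    rw [map_mul, sh_g, ← mul_assoc, R_g1 z hi, mul_assoc, h, mul_assoc]

theorem R_slide2 (z : k) (p : ℕ) {x : H z} (hx : x ∈ HS z p) : R z p * sh z p x = x * R z p := by
  refine HW_ind z f0_mono (P := fun x => R z p * sh z p x = x * R z p) ?_ ?_ ?_ ?_ x hx
  · rw [map_one, mul_one, one_mul]
  · intro x y h1 h2
    rw [map_add, mul_add, add_mul, h1, h2]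
  · intro c x h
    rw [map_smul, mul_smul_comm, smul_mul_assoc, h]
  · intro i x hi _ h
    rw [map_mul, sh_g, ← mul_assoc, R_g2 z hi, mul_assoc, h, mul_assoc]

theorem Ri_slide1 (z : k) (p : ℕ) {x : H z} (hx : x ∈ HS z p) : Ri z p * x = sh z p x * Ri z p := by
  have h := R_slide2 z p hx
  calc Ri z p * x = Ri z p * (x * R z p) * Ri z p := by
        rw [mul_assoc, mul_assoc, R_Ri, mul_one]
    _ = sh z p x * Ri z p := by rw [← h, ← mul_assoc, Ri_R, one_mul]

theorem Ri_slide2 (z : k) (p : ℕ) {x : H z} (hx : x ∈ HS z p) : Ri z p * sh z p x = x * Ri z p := by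
  have h := R_slide1 z p hx
  calc Ri z p * sh z p x = Ri z p * (sh z p x * R z p) * Ri z p := by
        rw [mul_assoc, mul_assoc, R_Ri, mul_one]
    _ = x * Ri z p := by rw [← h, ← mul_assoc, Ri_R, one_mul]

theorem bs_spec (p x : ℕ) : (x < p → (bs p).1 x = x + p) ∧
    (p ≤ x → x < 2 * p → (bs p).1 x + p = x) ∧ (2 * p ≤ x → (bs p).1 x = x) := by
  rw [bs_apply]
  split_ifs <;> omega

theorem shbs_spec (p x : ℕ) : (x < p → (shS p (bs p)).1 x = x) ∧
    (p ≤ x → x < 2 * p → (shS p (bs p)).1 x = x + p) ∧
    (2 * p ≤ x → x < 3 * p → (shS p (bs p)).1 x + p = x) ∧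
    (3 * p ≤ x → (shS p (bs p)).1 x = x) := by
  rw [shS_apply, bs_apply]
  split_ifs <;> omega

theorem bs_shbs_spec (p x : ℕ) : (x < p → (bs p * shS p (bs p)).1 x = x + p) ∧
    (p ≤ x → x < 2 * p → (bs p * shS p (bs p)).1 x = x + p) ∧
    (2 * p ≤ x → x < 3 * p → (bs p * shS p (bs p)).1 x + 2 * p = x) ∧
    (3 * p ≤ x → (bs p * shS p (bs p)).1 x = x) := by
  have h1 := shbs_spec p x
  have h2 := bs_spec p ((shS p (bs p)).1 x)
  rw [S_mul_apply]
  generalize (shS p (bs p)).1 x = y at h1 h2 ⊢
  generalize (bs p).1 y = t at h2 ⊢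
  omega

theorem shbs_bs_spec (p x : ℕ) : (x < p → (shS p (bs p) * bs p).1 x = x + 2 * p) ∧
    (p ≤ x → x < 2 * p → (shS p (bs p) * bs p).1 x + p = x) ∧
    (2 * p ≤ x → x < 3 * p → (shS p (bs p) * bs p).1 x + p = x) ∧
    (3 * p ≤ x → (shS p (bs p) * bs p).1 x = x) := by
  have h1 := bs_spec p x
  have h2 := shbs_spec p ((bs p).1 x)
  rw [S_mul_apply]
  generalize (bs p).1 x = y at h1 h2 ⊢
  generalize (shS p (bs p)).1 y = t at h2 ⊢
  omega

theorem R_braid (z : k) (p : ℕ) :
    R z p * sh z p (R z p) * R z p = sh z p (R z p) * R z p * sh z p (R z p) := by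
  rw [R_eq_T, sh_T]
  have h1 : T z (bs p) * T z (shS p (bs p)) = T z (bs p * shS p (bs p)) := by
    apply TT
    intro i j hij h
    have a1 := shbs_spec p i
    have a2 := shbs_spec p j
    have a3 := bs_spec p ((shS p (bs p)).1 i)
    have a4 := bs_spec p ((shS p (bs p)).1 j)
    omega
  have h2 : T z (shS p (bs p)) * T z (bs p) = T z (shS p (bs p) * bs p) := by
    apply TT
    intro i j hij h
    have a1 := bs_spec p i
    have a2 := bs_spec p j
    have a3 := shbs_spec p ((bs p).1 i)
    have a4 := shbs_spec p ((bs p).1 j)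
    omega
  have h3 : T z (bs p * shS p (bs p)) * T z (bs p) = T z (bs p * shS p (bs p) * bs p) := by
    apply TT
    intro i j hij h
    have a1 := bs_spec p i
    have a2 := bs_spec p j
    have a3 := bs_shbs_spec p ((bs p).1 i)
    have a4 := bs_shbs_spec p ((bs p).1 j)
    omega
  have h4 : T z (shS p (bs p) * bs p) * T z (shS p (bs p)) =
      T z (shS p (bs p) * bs p * shS p (bs p)) := by
    apply TT
    intro i j hij h
    have a1 := shbs_spec p i
    have a2 := shbs_spec p j
    have a3 := shbs_bs_spec p ((shS p (bs p)).1 i)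
    have a4 := shbs_bs_spec p ((shS p (bs p)).1 j)
    omega
  rw [h1, h2, h3, h4]
  congr 1
  apply S_ext
  intro x
  rw [S_mul_apply (bs p * shS p (bs p)), S_mul_apply (shS p (bs p) * bs p)]
  have a1 := bs_spec p x
  have a2 := bs_shbs_spec p ((bs p).1 x)
  have a3 := shbs_spec p x
  have a4 := shbs_bs_spec p ((shS p (bs p)).1 x)
  omega

end Pool.Agent.HL
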