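import Pool.Agent.Lib.HL21.Kink
import Pool.Agent.Lib.HL21.Cyc
import Pool.Agent.Lib.HL21.Comp
import Pool.Agent.Lib.HL21.Rel

/-! # Module Cab: slides, transversals, and the general rules of the cabled invariant `Zp` -/

namespace Pool.Agent.HL

open Finset

variable {k : Type*} [CommRing k]

/-! ### evaluation of cables -/

theorem cab_nil (p : ℕ) : cab p [] = [] := rfl

theorem cab_cons (p : ℕ) (l : Letter) (v : Word) : cab p (l :: v) = cabL p l ++ cab p v := by
  simp only [cab, List.flatMap_cons]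

theorem cab_append (p : ℕ) (u v : Word) : cab p (u ++ v) = cab p u ++ cab p v := by
  simp only [cab, List.flatMap_append]

theorem ev_cab_append (z : k) (p : ℕ) (u v : Word) :
    ev z (cab p (u ++ v)) = ev z (cab p u) * ev z (cab p v) := by
  rw [cab_append, ev_append]

theorem ev_cabL (z : k) (p : ℕ) (l : Letter) :
    ev z (cabL p l) = sh z (p * l.1) (if l.2 then R z p else Ri z p) := by
  rw [cabL, ev_shW]
  cases l.2 <;> rfl

theorem ev_cab_cons (z : k) (p : ℕ) (l : Letter) (v : Word) :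
    ev z (cab p (l :: v)) = ev z (cabL p l) * ev z (cab p v) := by
  rw [cab_cons, ev_append]

theorem ev_cab_nil (z : k) (p : ℕ) : ev z (cab p []) = 1 := by
  rw [cab_nil, ev_nil]

theorem crossing_mem (z : k) (p : ℕ) (b : Bool) : (if b then R z p else Ri z p) ∈ HS z (2 * p) := by
  cases b
  · exact Ri_mem z p
  · exact R_mem z p

theorem cabL_slide (z : k) {p : ℕ} (l : Letter) {x : H z} (hx : x ∈ HS z p) (i : ℕ) :
    ev z (cabL p l) * sh z (p * i) x =
      sh z (p * (Equiv.swap l.1 (l.1 + 1) i)) x * ev z (cabL p l) := by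
  rw [ev_cabL]
  obtain ⟨j, b⟩ := l
  simp only
  rcases lt_trichotomy i j with h | h | h
  · rw [Equiv.swap_apply_of_ne_of_ne (by omega) (by omega)]
    obtain ⟨d, rfl⟩ := Nat.exists_eq_add_of_le h.le
    have hd : 0 < d := by omega
    rw [mul_add, ← sh_sh, ← map_mul, ← map_mul]
    congr 1
    exact (sh_commute z (Nat.le_mul_of_pos_right p hd) hx _).symm
  · subst h
    rw [Equiv.swap_apply_left, mul_add, mul_one, ← sh_sh, ← map_mul, ← map_mul]
    congr 1
    cases b
    · exact Ri_slide1 z p hx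
    · exact R_slide1 z p hx
  · by_cases h' : i = j + 1
    · subst h'
      rw [Equiv.swap_apply_right, mul_add, mul_one, ← sh_sh, ← map_mul, ← map_mul]
      congr 1
      cases b
      · exact Ri_slide2 z p hx
      · exact R_slide2 z p hx
    · rw [Equiv.swap_apply_of_ne_of_ne (by omega) (by omega)]
      obtain ⟨d, rfl⟩ := Nat.exists_eq_add_of_le h.le
      have hd : 2 ≤ d := by omega
      rw [mul_add, ← sh_sh, ← map_mul, ← map_mul]
      congr 1
      refine sh_commute z ?_ (crossing_mem z p b) _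
      calc 2 * p ≤ d * p := Nat.mul_le_mul_right p hd
        _ = p * d := mul_comm _ _

/-- sliding an element of `H_p` placed on bundle `i` through a cabled word -/
theorem cab_slide (z : k) {p n : ℕ} (hp : 0 < p) {w : Word} (hw : Valid n w) {x : H z} (hx : x ∈ HS z p) (i : ℕ) :
    ev z (cab p w) * sh z (p * i) x = sh z (p * (perm w i)) x * ev z (cab p w) := by
  clear hw
  induction w generalizing i with
  | nil => rw [ev_cab_nil, perm_nil, one_mul, mul_one]; rfl
  | cons l v ih =>
    rw [ev_cab_cons, perm_cons, mul_assoc, ih, ← mul_assoc, cabL_slide z l hx, mul_assoc,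
      Equiv.Perm.mul_apply]

theorem ev_cab_mem (z : k) {p n : ℕ} (hp : 0 < p) {w : Word} (hw : Valid n w) :
    ev z (cab p w) ∈ HS z (p * n) := ev_mem z (cab_valid hp hw)

/-! ### products over bundles -/

theorem sh_bundle_comm (z : k) {p : ℕ} {x y : H z} (hx : x ∈ HS z p) (hy : y ∈ HS z p) {i j : ℕ}
    (h : i ≠ j) : sh z (p * i) x * sh z (p * j) y = sh z (p * j) y * sh z (p * i) x := by
  rcases lt_or_gt_of_ne h with h | h
  · obtain ⟨d, rfl⟩ := Nat.exists_eq_add_of_le h.le
    have hd : 0 < d := by omega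
    rw [mul_add, ← sh_sh, ← map_mul, ← map_mul]
    congr 1
    exact sh_commute z (Nat.le_mul_of_pos_right p hd) hx _
  · obtain ⟨d, rfl⟩ := Nat.exists_eq_add_of_le h.le
    have hd : 0 < d := by omega
    rw [mul_add, ← sh_sh, ← map_mul, ← map_mul]
    congr 1
    exact (sh_commute z (Nat.le_mul_of_pos_right p hd) hy _).symm

theorem sh_bundle_mem (z : k) {p n : ℕ} {x : H z} (hx : x ∈ HS z p) {i : ℕ} (hi : i < n) :
    sh z (p * i) x ∈ HS z (p * n) := by
  refine HW_mono z ?_ (fun x y h => h) (sh_mem z (p * i) hx)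
  calc p * i + p = p * (i + 1) := by ring
    _ ≤ p * n := Nat.mul_le_mul_left p hi

/-- product of elements `h i` placed on the bundles `i ∈ I` -/
noncomputable def HF (z : k) (p : ℕ) (h : ℕ → H z) (I : Finset ℕ) : H z :=
  ((I.sort (· ≤ ·)).map (fun i => sh z (p * i) (h i))).prod

theorem HF_insert (z : k) {p : ℕ} {h : ℕ → H z} (hh : ∀ i, h i ∈ HS z p) {I : Finset ℕ} {i : ℕ}
    (hi : i ∉ I) : HF z p h (insert i I) = sh z (p * i) (h i) * HF z p h I := by
  classical
  unfold HF
  rw [← List.prod_cons, ← List.map_cons (f := fun i => sh z (p * i) (h i)) (a := i)]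
  refine List.Perm.prod_eq' ?_ ?_
  · refine List.Perm.map _ ?_
    rw [← Multiset.coe_eq_coe, ← Multiset.cons_coe, Finset.sort_eq, Finset.sort_eq]
    exact Finset.insert_val_of_notMem hi
  · rw [List.pairwise_map]
    have hnd : (Finset.sort (insert i I) (· ≤ ·)).Pairwise (· ≠ ·) := Finset.sort_nodup _ _
    exact hnd.imp (fun {a b} hab => sh_bundle_comm z (hh a) (hh b) hab)

theorem HF_empty (z : k) (p : ℕ) (h : ℕ → H z) : HF z p h ∅ = 1 := by
  simp only [HF, Finset.sort_empty, List.map_nil, List.prod_nil]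

theorem HF_congr (z : k) {p : ℕ} {h h' : ℕ → H z} {I : Finset ℕ} (hh : ∀ i ∈ I, h i = h' i) :
    HF z p h I = HF z p h' I := by
  unfold HF
  congr 1
  refine List.map_congr_left (fun i hi => ?_)
  rw [hh i ((Finset.mem_sort _).mp hi)]

theorem HF_mem (z : k) {p n : ℕ} {h : ℕ → H z} (hh : ∀ i, h i ∈ HS z p) {I : Finset ℕ}
    (hI : I ⊆ range n) : HF z p h I ∈ HS z (p * n) := by
  classical
  induction I using Finset.induction_on with
  | empty => rw [HF_empty]; exact one_mem_HW z _ _
  | insert i I hi ih =>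
    rw [HF_insert z hh hi]
    refine mul_mem_HW z (fun _ _ _ => le_rfl) (sh_bundle_mem z (hh i) ?_)
      (ih ((Finset.subset_insert i I).trans hI))
    exact Finset.mem_range.mp (hI (Finset.mem_insert_self i I))

/-- elements on different bundles commute -/
theorem HF_comm (z : k) {p : ℕ} {h : ℕ → H z} (hh : ∀ i, h i ∈ HS z p) {I : Finset ℕ} {i : ℕ}
    (hi : i ∉ I) {x : H z} (hx : x ∈ HS z p) : sh z (p * i) x * HF z p h I = HF z p h I * sh z (p * i) x := by
  classical
  induction I using Finset.induction_on with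
  | empty => rw [HF_empty, one_mul, mul_one]
  | insert j I hj ih =>
    rw [Finset.mem_insert, not_or] at hi
    rw [HF_insert z hh hj, ← mul_assoc, sh_bundle_comm z hx (hh j) hi.1, mul_assoc, ih hi.2,
      mul_assoc]

theorem reps_pairwise (n : ℕ) (w : Word) : (reps n w).Pairwise (· ≤ ·) := by
  unfold reps
  refine List.Pairwise.filter _ ?_
  exact (List.pairwise_lt_range (n := n)).imp (fun {a b} h => le_of_lt h)

/-- a product over a list of representatives is a product over the finite set -/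
theorem HF_reps (z : k) (p n : ℕ) (w : Word) (h : ℕ → H z) :
    ((reps n w).map (fun i => sh z (p * i) (h i))).prod = HF z p h (reps n w).toFinset := by
  unfold HF
  rw [(List.toFinset_sort (r := (· ≤ ·)) (reps_nodup n w)).mpr (reps_pairwise n w)]

/-! ### traces -/

theorem fx_sameCycle_iff {n : ℕ} {π : Equiv.Perm ℕ} (hf : Fx n π) {x y : ℕ} (hx : x < n)
    (hxy : π.SameCycle x y) : y < n := Fx_sameCycle_lt hf hx hxy

/-- In a finitary permutation every point returns: some positive power of the inverse fixes it. -/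
theorem exists_pow_inv_fix {n : ℕ} {π : Equiv.Perm ℕ} (hf : Fx n π) (i : ℕ) :
    ∃ m : ℕ, 0 < m ∧ (π⁻¹ ^ m) i = i := by
  classical
  by_cases hi : i < n
  · -- pigeonhole on the powers
    have hlt : ∀ m : ℕ, (π⁻¹ ^ m) i < n := by
      intro m
      refine Fx_sameCycle_lt hf hi ⟨-(m : ℤ), ?_⟩
      rw [zpow_neg, zpow_natCast, ← inv_pow]
    obtain ⟨a, ha, b, hb, hab, he⟩ := Finset.exists_ne_map_eq_of_card_lt_of_maps_to
      (s := Finset.range (n+1)) (t := Finset.range n) (f := fun m => (π⁻¹ ^ m) i)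
      (by simp) (fun m _ => Finset.mem_coe.mpr (Finset.mem_range.mpr (hlt m)))
    have key : ∀ a b : ℕ, a < b → (π⁻¹ ^ a) i = (π⁻¹ ^ b) i → ∃ m : ℕ, 0 < m ∧ (π⁻¹ ^ m) i = i := by
      intro a b hab he
      refine ⟨b - a, by omega, ?_⟩
      have h1 : (π⁻¹ ^ a) ((π⁻¹ ^ (b - a)) i) = (π⁻¹ ^ a) i := by
        rw [← Equiv.Perm.mul_apply, ← pow_add, Nat.add_sub_cancel' hab.le, ← he]
      exact (π⁻¹ ^ a).injective h1
    rcases lt_or_gt_of_ne hab with h | h
    · exact key a b h he
    · exact key b a h he.symm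
  · refine ⟨1, one_pos, ?_⟩
    rw [pow_one, Equiv.Perm.inv_eq_iff_eq]
    exact (hf i (not_lt.mp hi)).symm

theorem pow_inv_sameCycle (π : Equiv.Perm ℕ) (m i : ℕ) : π.SameCycle i ((π⁻¹ ^ m) i) := by
  refine ⟨-(m : ℤ), ?_⟩
  rw [zpow_neg, zpow_natCast, ← inv_pow]

/-- in a transversal, a point of the cycle of `i` other than `i` is not in the transversal -/
theorem isTr_not_mem {π : Equiv.Perm ℕ} {n : ℕ} {I : Finset ℕ} (hI : IsTr π n I) {i j : ℕ}
    (hi : i ∈ I) (hij : π.SameCycle i j) (hne : j ≠ i) : j ∉ I := by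
  intro hj
  have hin : i < n := Finset.mem_range.mp (hI.1 hi)
  obtain ⟨r, hr, hu⟩ := hI.2 i hin
  have h1 := hu i ⟨hi, Equiv.Perm.SameCycle.refl _ _⟩
  have h2 := hu j ⟨hj, hij.symm⟩
  exact hne (h2.trans h1.symm)

theorem perm_apply_inv (π : Equiv.Perm ℕ) (j : ℕ) : π (π⁻¹ j) = j := by
  rw [← Equiv.Perm.mul_apply, mul_inv_cancel, Equiv.Perm.one_apply]

/-- one step of sliding around a component -/
theorem slide_step (P : Par k) {p n : ℕ} (hp : 0 < p) {w : Word} (hw : Valid n w) {c y : H P.z}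
    (hy : y ∈ HS P.z p) {j : ℕ} (hj : j < n) :
    tr P (p * n) (ev P.z (cab p w) * c * sh P.z (p * j) y) =
      tr P (p * n) (ev P.z (cab p w) * (sh P.z (p * ((perm w)⁻¹ j)) y * c)) := by
  rw [← tr_comm P (sh_bundle_mem P.z hy hj), ← mul_assoc (sh P.z (p * j) y),
    ← mul_assoc (ev P.z (cab p w)), cab_slide P.z hp hw hy, perm_apply_inv]

/-- the functional in the slot of a representative is a trace -/
theorem slot (P : Par k) {p n : ℕ} (hp : 0 < p) {w : Word} (hw : Valid n w) {I : Finset ℕ} {i : ℕ}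
    (hi : i ∉ I) (hI : IsTr (perm w) n (insert i I)) {h : ℕ → H P.z} (hh : ∀ i, h i ∈ HS P.z p)
    {x y : H P.z} (hx : x ∈ HS P.z p) (hy : y ∈ HS P.z p) :
    tr P (p * n) (ev P.z (cab p w) * HF P.z p h I * sh P.z (p * i) (x * y)) =
      tr P (p * n) (ev P.z (cab p w) * HF P.z p h I * sh P.z (p * i) (y * x)) := by
  classical
  have hf : Fx n (perm w) := perm_fx hw
  have hin : i < n := Finset.mem_range.mp (hI.1 (Finset.mem_insert_self i I))
  set π := perm w with hπ
  have hex := exists_pow_inv_fix hf i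
  set m := Nat.find hex with hm
  have hm0 : 0 < m := (Nat.find_spec hex).1
  have hmi : (π⁻¹ ^ m) i = i := (Nat.find_spec hex).2
  have hmin : ∀ j, 0 < j → j < m → (π⁻¹ ^ j) i ≠ i := fun j h0 hj hE =>
    Nat.find_min hex hj ⟨h0, hE⟩
  have hlt : ∀ j : ℕ, (π⁻¹ ^ j) i < n := fun j => Fx_sameCycle_lt hf hin (pow_inv_sameCycle π j i)
  -- `c = HF * sh_i x`
  have step : ∀ j : ℕ, j < m →
      tr P (p * n) (ev P.z (cab p w) * (HF P.z p h I * sh P.z (p * i) x) *
        sh P.z (p * ((π⁻¹ ^ j) i)) y) =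
      tr P (p * n) (ev P.z (cab p w) * (HF P.z p h I * sh P.z (p * i) x) * sh P.z (p * i) y) := by
    intro j
    induction j with
    | zero => intro _; rw [pow_zero, Equiv.Perm.one_apply]
    | succ j ih =>
      intro hj
      rw [← ih (by omega), slide_step P hp hw hy (hlt j), ← hπ]
      have e : π⁻¹ ((π⁻¹ ^ j) i) = (π⁻¹ ^ (j+1)) i := by
        rw [pow_succ', Equiv.Perm.mul_apply]
      rw [e]
      have hne : (π⁻¹ ^ (j+1)) i ≠ i := hmin (j+1) (by omega) hj
      have hnI : (π⁻¹ ^ (j+1)) i ∉ I := by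
        intro hmem
        exact isTr_not_mem hI (Finset.mem_insert_self i I) (pow_inv_sameCycle π (j+1) i) hne
          (Finset.mem_insert_of_mem hmem)
      rw [← mul_assoc (sh P.z (p * (π⁻¹ ^ (j+1)) i) y), HF_comm P.z hh hnI hy,
        mul_assoc (HF P.z p h I), sh_bundle_comm P.z hy hx hne, mul_assoc (ev P.z (cab p w)),
        mul_assoc (HF P.z p h I)]
  have h1 := step (m - 1) (by omega)
  rw [slide_step P hp hw hy (hlt (m-1)), ← hπ] at h1
  have e : π⁻¹ ((π⁻¹ ^ (m-1)) i) = i := by
    rw [← Equiv.Perm.mul_apply, ← pow_succ', Nat.sub_add_cancel hm0, hmi]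
  rw [e, ← mul_assoc (sh P.z (p * i) y), HF_comm P.z hh hi hy, mul_assoc (HF P.z p h I),
    ← map_mul] at h1
  rw [map_mul (sh P.z (p * i)) x y, ← mul_assoc, mul_assoc (ev P.z (cab p w)) (HF P.z p h I), ← h1,
    mul_assoc]

/-- product of the `X_p` over a finite set of bundles -/
noncomputable abbrev XF (z : k) (p : ℕ) (I : Finset ℕ) : H z := HF z p (fun _ => X z p) I

theorem sameCycle_inv_pow {n : ℕ} {π : Equiv.Perm ℕ} (hf : Fx n π) {i j : ℕ}
    (h : π.SameCycle i j) : ∃ m : ℕ, (π⁻¹ ^ m) i = j := by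
  obtain ⟨t, ht⟩ := h
  obtain ⟨m, hm0, hm⟩ := exists_pow_inv_fix hf i
  -- `j = π^t i`, choose `N` with `N m - t ≥ 0`
  have hper : ∀ N : ℕ, ((π⁻¹ ^ m) ^ N) i = i := by
    intro N
    induction N with
    | zero => rw [pow_zero, Equiv.Perm.one_apply]
    | succ N ih => rw [pow_succ, Equiv.Perm.mul_apply, hm, ih]
  refine ⟨(((m : ℤ) * t.natAbs) - t).toNat, ?_⟩
  have hge : 0 ≤ (m : ℤ) * t.natAbs - t := by
    have h1 : t ≤ (t.natAbs : ℤ) := by
      rw [Int.natCast_natAbs]; exact le_abs_self t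
    have h2 : (t.natAbs : ℤ) ≤ (m : ℤ) * t.natAbs := by
      have : (1 : ℤ) ≤ m := by exact_mod_cast hm0
      nlinarith [Int.natCast_nonneg t.natAbs]
    linarith
  rw [← zpow_natCast, Int.toNat_of_nonneg hge, inv_zpow', neg_sub, sub_eq_add_neg, zpow_add,
    Equiv.Perm.mul_apply]
  have h3 : (π ^ (-((m : ℤ) * t.natAbs))) i = i := by
    have h4 := hper t.natAbs
    rw [← pow_mul, ← zpow_natCast, inv_zpow', Nat.cast_mul] at h4
    exact h4
  rw [h3, ht]

/-- moving the `X_p` of one component along the component -/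
theorem move_one (P : Par k) {p n : ℕ} (hp : 0 < p) {w : Word} (hw : Valid n w) {I : Finset ℕ}
    {i j : ℕ} (hin : i < n) (hI : ∀ x, (perm w).SameCycle i x → x ∉ I) (hij : (perm w).SameCycle i j)
    {h : ℕ → H P.z} (hh : ∀ i, h i ∈ HS P.z p) {y : H P.z} (hy : y ∈ HS P.z p) :
    tr P (p * n) (ev P.z (cab p w) * HF P.z p h I * sh P.z (p * i) y) =
      tr P (p * n) (ev P.z (cab p w) * HF P.z p h I * sh P.z (p * j) y) := by
  have hf : Fx n (perm w) := perm_fx hw
  obtain ⟨m, rfl⟩ := sameCycle_inv_pow hf hij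
  clear hij
  induction m with
  | zero => rw [pow_zero, Equiv.Perm.one_apply]
  | succ m ih =>
    rw [ih, slide_step P hp hw hy (Fx_sameCycle_lt hf hin (pow_inv_sameCycle _ m i)),
      ← Equiv.Perm.mul_apply, ← pow_succ', HF_comm P.z hh (hI _ (pow_inv_sameCycle _ (m+1) i)) hy,
      mul_assoc]

/-- independence of the transversal -/
theorem tr_XF (P : Par k) {p n : ℕ} (hp : 0 < p) {w : Word} (hw : Valid n w) {I J : Finset ℕ}
    (hI : IsTr (perm w) n I) (hJ : IsTr (perm w) n J) :
    tr P (p * n) (ev P.z (cab p w) * XF P.z p I) = tr P (p * n) (ev P.z (cab p w) * XF P.z p J) := by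
  classical
  have hf : Fx n (perm w) := perm_fx hw
  have hX : ∀ _i : ℕ, X P.z p ∈ HS P.z p := fun _ => X_mem P.z p
  obtain ⟨N, hN⟩ : ∃ N, (I \ J).card = N := ⟨_, rfl⟩
  induction N using Nat.strong_induction_on generalizing I with
  | _ N ih =>
    by_cases h0 : I \ J = ∅
    · have hsub : I ⊆ J := Finset.sdiff_eq_empty_iff_subset.mp h0
      have := Finset.eq_of_subset_of_card_le hsub (card_isTr hf hJ hI).le
      rw [this]
    · obtain ⟨i, hi⟩ := Finset.nonempty_iff_ne_empty.mpr h0
      rw [Finset.mem_sdiff] at hi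
      have hin : i < n := Finset.mem_range.mp (hI.1 hi.1)
      obtain ⟨j, ⟨hjJ, hji⟩, huj⟩ := hJ.2 i hin
      have hij : (perm w).SameCycle i j := hji.symm
      have hne : j ≠ i := fun h => hi.2 (h ▸ hjJ)
      have hjI : j ∉ I := isTr_not_mem hI hi.1 hij hne
      have hjn : j < n := Finset.mem_range.mp (hJ.1 hjJ)
      have hdis : ∀ x, (perm w).SameCycle i x → x ∉ I.erase i := by
        intro x hx hmem
        rw [Finset.mem_erase] at hmem
        exact isTr_not_mem hI hi.1 hx hmem.1 hmem.2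
      have hI' : IsTr (perm w) n (insert j (I.erase i)) := by
        refine ⟨?_, ?_⟩
        · intro x hx
          rcases Finset.mem_insert.mp hx with rfl | hx
          · exact Finset.mem_range.mpr hjn
          · exact hI.1 (Finset.mem_of_mem_erase hx)
        · intro x hx
          obtain ⟨r, ⟨hrI, hrx⟩, hu⟩ := hI.2 x hx
          by_cases hri : r = i
          · subst hri
            refine ⟨j, ⟨Finset.mem_insert_self _ _, hji.trans hrx⟩, ?_⟩
            rintro r' ⟨hr', hr'x⟩
            rcases Finset.mem_insert.mp hr' with h | h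
            · exact h
            · exact absurd h (hdis r' (hrx.trans hr'x.symm))
          · refine ⟨r, ⟨Finset.mem_insert_of_mem (Finset.mem_erase.mpr ⟨hri, hrI⟩), hrx⟩, ?_⟩
            rintro r' ⟨hr', hr'x⟩
            rcases Finset.mem_insert.mp hr' with h | h
            · subst h
              exact absurd (hu i ⟨hi.1, hij.trans hr'x⟩) (fun h => hri h.symm)
            · exact hu r' ⟨Finset.mem_of_mem_erase h, hr'x⟩
      have hcard : ((insert j (I.erase i)) \ J).card < N := by
        rw [← hN]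
        refine Finset.card_lt_card ?_
        rw [Finset.ssubset_iff_of_subset]
        · refine ⟨i, Finset.mem_sdiff.mpr hi, ?_⟩
          rw [Finset.mem_sdiff, not_and_or]
          left
          rw [Finset.mem_insert, not_or]
          exact ⟨hne.symm, fun h => (Finset.mem_erase.mp h).1 rfl⟩
        · intro x hx
          rw [Finset.mem_sdiff, Finset.mem_insert] at hx
          rcases hx.1 with h | h
          · exact absurd (h ▸ hjJ) hx.2
          · exact Finset.mem_sdiff.mpr ⟨Finset.mem_of_mem_erase h, hx.2⟩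
      rw [← ih _ hcard hI' rfl]
      have e1 : XF P.z p I = XF P.z p (I.erase i) * sh P.z (p * i) (X P.z p) := by
        conv_lhs => rw [← Finset.insert_erase hi.1]
        unfold XF
        rw [HF_insert P.z hX (Finset.notMem_erase i I), HF_comm P.z hX (Finset.notMem_erase i I)
          (X_mem P.z p)]
      have hj' : j ∉ I.erase i := hdis j hij
      have e2 : XF P.z p (insert j (I.erase i)) = XF P.z p (I.erase i) * sh P.z (p * j) (X P.z p) := by
        unfold XF
        rw [HF_insert P.z hX hj', HF_comm P.z hX hj' (X_mem P.z p)]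
      rw [e1, e2, ← mul_assoc, ← mul_assoc]
      exact move_one P hp hw hin hdis hij hX (X_mem P.z p)

theorem Zp_eq (P : Par k) {p n : ℕ} (hp : 0 < p) {w : Word} (hw : Valid n w) {I : Finset ℕ}
    (hI : IsTr (perm w) n I) :
    Zp P p n w = P.z ^ I.card * tr P (p * n) (ev P.z (cab p w) * XF P.z p I) := by
  unfold Zp XL
  rw [HF_reps P.z p n w (fun _ => X P.z p), ncomp_eq_card hw hI, tr_XF P hp hw hI (isTr_reps hw)]

theorem Zp_zero (P : Par k) (p : ℕ) : Zp P p 0 [] = 1 := by
  have hr : reps 0 [] = [] := by simp [reps]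
  unfold Zp XL
  rw [hr, ncomp_zero, pow_zero, one_mul, ev_cab_nil, List.map_nil, List.prod_nil, mul_one, mul_zero,
    tr_zero]

theorem Zp_free (P : Par k) {p n : ℕ} (hp : 0 < p) {w : Word} (hw : Valid n w) :
    Zp P p (n+1) w = ((P.a : k) ^ p - ((P.a⁻¹ : kˣ) : k) ^ p) * Zp P p n w := by
  classical
  have hw' : Valid (n+1) w := fun l hl => (hw l hl).trans (Nat.lt_succ_self n)
  have hI := isTr_reps hw
  have hf : Fx n (perm w) := perm_fx hw
  have hX : ∀ _i : ℕ, X P.z p ∈ HS P.z p := fun _ => X_mem P.z p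
  set I := (reps n w).toFinset with hIdef
  have hnI : n ∉ I := fun h => (lt_irrefl n) (Finset.mem_range.mp (hI.1 h))
  have hI' := isTr_free hf hI
  rw [Zp_eq P hp hw hI, Zp_eq P hp hw' hI', Finset.card_insert_of_notMem hnI]
  have e1 : XF P.z p (insert n I) = XF P.z p I * sh P.z (p * n) (X P.z p) := by
    unfold XF
    rw [HF_insert P.z hX hnI, HF_comm P.z hX hnI (X_mem P.z p)]
  have hmem : ev P.z (cab p w) * XF P.z p I ∈ HS P.z (p * n) :=
    mul_mem_HW P.z (fun _ _ _ => le_rfl) (ev_cab_mem P.z hp hw) (HF_mem P.z hX hI.1)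
  rw [e1, ← mul_assoc, mul_add, mul_one, tr_X P hmem, pow_succ]
  have := P.z_mul_zi
  calc P.z ^ I.card * P.z * (((P.a : k) ^ p - ((P.a⁻¹ : kˣ) : k) ^ p) * P.zi *
        tr P (p * n) (ev P.z (cab p w) * XF P.z p I))
      = (P.z * P.zi) * (((P.a : k) ^ p - ((P.a⁻¹ : kˣ) : k) ^ p) * (P.z ^ I.card *
        tr P (p * n) (ev P.z (cab p w) * XF P.z p I))) := by ring
    _ = _ := by rw [this, one_mul]

/-- sliding a product over a set of bundles -/
theorem HF_slide (z : k) {p n : ℕ} (hp : 0 < p) {u : Word} (hu : Valid n u) {y : H z}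
    (hy : y ∈ HS z p) (I : Finset ℕ) :
    ev z (cab p u) * HF z p (fun _ => y) (I.image ⇑(perm u)⁻¹) =
      HF z p (fun _ => y) I * ev z (cab p u) := by
  classical
  have hY : ∀ _i : ℕ, y ∈ HS z p := fun _ => hy
  induction I using Finset.induction_on with
  | empty => rw [Finset.image_empty, HF_empty, one_mul, mul_one]
  | insert i I hi ih =>
    have hni : (perm u)⁻¹ i ∉ I.image ⇑(perm u)⁻¹ := by
      intro h
      obtain ⟨j, hj, he⟩ := Finset.mem_image.mp h
      exact hi ((perm u)⁻¹.injective he ▸ hj)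
    rw [Finset.image_insert, HF_insert z hY hni, HF_insert z hY hi, ← mul_assoc,
      cab_slide z hp hu hy, perm_apply_inv, mul_assoc, ih, mul_assoc]

theorem Zp_conj (P : Par k) {p n : ℕ} (hp : 0 < p) {u v : Word} (hw : Valid n (u ++ v)) :
    Zp P p n (u ++ v) = Zp P p n (v ++ u) := by
  classical
  have hu : Valid n u := fun l hl => hw l (List.mem_append_left _ hl)
  have hv : Valid n v := fun l hl => hw l (List.mem_append_right _ hl)
  have hw' : Valid n (v ++ u) := by
    intro l hl
    rcases List.mem_append.mp hl with h | h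
    · exact hv l h
    · exact hu l h
  have hI := isTr_reps hw
  set I := (reps n (u ++ v)).toFinset with hIdef
  have hJ : IsTr (perm (v ++ u)) n (I.image ⇑(perm u)⁻¹) := by
    have h1 := isTr_conj (perm_fx hu) hI
    have h2 : (perm u)⁻¹ * perm (u ++ v) * perm u = perm (v ++ u) := by
      rw [perm_append, perm_append, inv_mul_cancel_left]
    rw [h2] at h1
    exact h1
  have hc : (I.image ⇑(perm u)⁻¹).card = I.card := Finset.card_image_of_injective _ (perm u)⁻¹.injective
  rw [Zp_eq P hp hw hI, Zp_eq P hp hw' hJ, hc, ev_cab_append, ev_cab_append]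
  congr 1
  unfold XF
  rw [mul_assoc (ev P.z (cab p v)), HF_slide P.z hp hu (X_mem P.z p), ← mul_assoc,
    ← tr_comm P (ev_cab_mem P.z hp hu), ← mul_assoc]

theorem Zp_congr (P : Par k) {p n : ℕ} {u v : Word} (h : perm u = perm v)
    (h' : ev P.z (cab p u) = ev P.z (cab p v)) : Zp P p n u = Zp P p n v := by
  have hr : reps n u = reps n v := by unfold reps; rw [h]
  unfold Zp
  rw [ncomp_congr h, h', hr]

theorem ev_cab_single (z : k) (p : ℕ) (i : ℕ) (b : Bool) :
    ev z (cab p [(i, b)]) = sh z (p * i) (if b then R z p else Ri z p) := by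
  rw [ev_cab_cons, ev_cab_nil, mul_one, ev_cabL]

theorem ev_cab_braid (z : k) (p i : ℕ) : ev z (cab p [(i, true), (i+1, true), (i, true)]) =
    ev z (cab p [(i+1, true), (i, true), (i+1, true)]) := by
  have e : ∀ x : H z, sh z (p * (i+1)) x = sh z (p * i) (sh z p x) := fun x => by
    rw [sh_sh, mul_add, mul_one]
  simp only [ev_cab_cons, ev_cab_nil, ev_cabL, mul_one, if_true, e]
  rw [← map_mul, ← map_mul, ← map_mul, ← map_mul, ← mul_assoc, ← mul_assoc, R_braid]

theorem ev_cab_comm (z : k) {p i j : ℕ} (hp : 0 < p) (h : i + 1 < j) :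
    ev z (cab p [(i, true), (j, true)]) = ev z (cab p [(j, true), (i, true)]) := by
  obtain ⟨d, rfl⟩ := Nat.exists_eq_add_of_le (show i ≤ j by omega)
  have hd : 2 ≤ d := by omega
  have e : ∀ x : H z, sh z (p * (i+d)) x = sh z (p * i) (sh z (p * d) x) := fun x => by
    rw [sh_sh, mul_add]
  simp only [ev_cab_cons, ev_cab_nil, ev_cabL, mul_one, if_true, e]
  rw [← map_mul, ← map_mul]
  congr 1
  refine sh_commute z ?_ (R_mem z p) _
  calc 2 * p ≤ d * p := Nat.mul_le_mul_right p hd
    _ = p * d := mul_comm _ _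

theorem ev_cab_cancel (z : k) (p i : ℕ) : ev z (cab p [(i, true), (i, false)]) = 1 := by
  simp only [ev_cab_cons, ev_cab_nil, ev_cabL, mul_one, if_true]
  rw [← map_mul]
  have : (if false = true then R z p else Ri z p) = Ri z p := if_neg (by simp)
  rw [this, R_Ri, map_one]

end Pool.Agent.HL
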