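import Pool.Agent.Lib.HL21.Bi
import Pool.Agent.Lib.HL21.Cab

/-! # Module CabG: the rules of `Zp` in the good case -/

namespace Pool.Agent.HL

open Finset

variable {k : Type*} [CommRing k]

namespace CabG

/-! ### words -/

theorem cg_valid_append {n : ℕ} {u v : Word} : Valid n (u ++ v) ↔ Valid n u ∧ Valid n v := by
  simp only [Valid, List.mem_append, or_imp, forall_and]

theorem cg_valid_shW {n m : ℕ} {w : Word} (hw : Valid n w) : Valid (m + n) (shW m w) := by
  intro l hl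
  unfold shW at hl
  rw [List.mem_map] at hl
  obtain ⟨l', h1, rfl⟩ := hl
  have := hw l' h1
  show m + l'.1 + 1 < m + n
  omega

theorem cg_valid_invW {n : ℕ} {w : Word} (hw : Valid n w) : Valid n (invW w) := by
  intro l hl
  unfold invW at hl
  rw [List.mem_map] at hl
  obtain ⟨l', h1, rfl⟩ := hl
  exact hw l' (List.mem_reverse.1 h1)

theorem cg_le_mul {p a n : ℕ} (h : a + 1 < n) : p * a + 2 * p ≤ p * n := by
  have : p * (a + 2) ≤ p * n := Nat.mul_le_mul_left p h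
  nlinarith

theorem cg_valid_cab {p n : ℕ} {w : Word} (hw : Valid n w) : Valid (p * n) (cab p w) := by
  intro l hl
  unfold cab at hl
  rw [List.mem_flatMap] at hl
  obtain ⟨a, ha, hl⟩ := hl
  have h1 := hw a ha
  have h2 : Valid (p * a.1 + 2 * p) (cabL p a) := by
    unfold cabL
    apply cg_valid_shW
    split_ifs
    · exact blk_valid p
    · exact cg_valid_invW (blk_valid p)
  have h3 := h2 l hl
  have := cg_le_mul (p := p) h1
  omega

theorem cg_ev_cab_single (z : k) (p i : ℕ) (b : Bool) :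
    ev z (cab p [(i, b)]) = sh z (p * i) (if b then R z p else Ri z p) := by
  have : cab p [(i, b)] = shW (p * i) (if b then blk p else invW (blk p)) := by
    simp [cab, cabL]
  rw [this, ev_shW]
  cases b <;> rfl

theorem cg_perm_single (i : ℕ) (b : Bool) : perm [(i, b)] = Equiv.swap i (i + 1) := by
  simp [perm]

theorem cg_perm_snoc (w : Word) (i : ℕ) (b : Bool) :
    perm (w ++ [(i, b)]) = perm w * Equiv.swap i (i + 1) := by
  rw [perm_append, cg_perm_single]

/-! ### membership and commutation -/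

theorem cg_HS_mono (z : k) {m n : ℕ} (h : m ≤ n) {x : H z} (hx : x ∈ HS z m) : x ∈ HS z n :=
  HW_mono z h (fun _ _ h => h) hx

theorem cg_sh_mem1 (z : k) {p i n : ℕ} {x : H z} (hx : x ∈ HS z p) (hi : i < n) :
    sh z (p * i) x ∈ HS z (p * n) := by
  refine cg_HS_mono z ?_ (sh_mem z (p * i) hx)
  have : p * (i + 1) ≤ p * n := Nat.mul_le_mul_left p hi
  nlinarith

theorem cg_sh_mem2 (z : k) {p i n : ℕ} {x : H z} (hx : x ∈ HS z (2 * p)) (hi : i + 1 < n) :
    sh z (p * i) x ∈ HS z (p * n) :=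
  cg_HS_mono z (cg_le_mul hi) (sh_mem z (p * i) hx)

theorem cg_sh_far (z : k) {p i j : ℕ} {x y : H z} (hx : x ∈ HS z p) (hy : y ∈ HS z (2 * p))
    (h : j ≠ i) (h' : j ≠ i + 1) :
    sh z (p * j) x * sh z (p * i) y = sh z (p * i) y * sh z (p * j) x := by
  rcases Nat.lt_or_ge j i with hlt | hge
  · obtain ⟨e, rfl⟩ : ∃ e, i = j + (e + 1) := ⟨i - j - 1, by omega⟩
    have h1 : p * (j + (e + 1)) = p * j + (p * e + p) := by ring
    rw [h1, ← sh_sh, ← map_mul, ← map_mul, sh_commute z (n := p) (by omega) hx]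
  · obtain ⟨e, rfl⟩ : ∃ e, j = i + (e + 2) := ⟨j - i - 2, by omega⟩
    have h1 : p * (i + (e + 2)) = p * i + (p * e + 2 * p) := by ring
    rw [h1, ← sh_sh, ← map_mul, ← map_mul, sh_commute z (n := 2 * p) (by omega) hy]

theorem cg_HF_comm2 (z : k) {p : ℕ} {h : ℕ → H z} (hh : ∀ i, h i ∈ HS z p) {a : ℕ} {y : H z}
    (hy : y ∈ HS z (2 * p)) {J : Finset ℕ} (h1 : a ∉ J) (h2 : a + 1 ∉ J) :
    sh z (p * a) y * HF z p h J = HF z p h J * sh z (p * a) y := by
  induction J using Finset.induction_on with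
  | empty => rw [HF_empty, mul_one, one_mul]
  | insert i J hi ih =>
    rw [Finset.mem_insert, not_or] at h1 h2
    rw [HF_insert z hh hi, ← mul_assoc,
      ← cg_sh_far z (hh i) hy (Ne.symm h1.1) (Ne.symm h2.1), mul_assoc, ih h1.2 h2.2, mul_assoc]

theorem cg_XF_insert (z : k) {p : ℕ} {I : Finset ℕ} {i : ℕ} (hi : i ∉ I) :
    XF z p (insert i I) = sh z (p * i) (X z p) * XF z p I :=
  HF_insert z (fun _ => X_mem z p) hi

theorem cg_XF_comm (z : k) {p : ℕ} {I : Finset ℕ} {i : ℕ} (hi : i ∉ I) {x : H z} (hx : x ∈ HS z p) :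
    sh z (p * i) x * XF z p I = XF z p I * sh z (p * i) x :=
  HF_comm z (fun _ => X_mem z p) hi hx

theorem cg_XF_comm2 (z : k) {p a : ℕ} {y : H z} (hy : y ∈ HS z (2 * p)) {J : Finset ℕ} (h1 : a ∉ J)
    (h2 : a + 1 ∉ J) : sh z (p * a) y * XF z p J = XF z p J * sh z (p * a) y :=
  cg_HF_comm2 z (fun _ => X_mem z p) hy h1 h2

/-! ### sliding around a cycle -/

theorem cg_slide_step (P : Par k) {p n : ℕ} (hp : 0 < p) {w : Word} (hw : Valid n w) {h : ℕ → H P.z}
    (hh : ∀ i, h i ∈ HS P.z p) {J : Finset ℕ} {i j : ℕ} (hi : i < n) (hij : perm w j = i)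
    (hj : j ∉ J) {x : H P.z} (hx : x ∈ HS P.z p) (y : H P.z) :
    tr P (p * n) (ev P.z (cab p w) * HF P.z p h J * y * sh P.z (p * i) x) =
      tr P (p * n) (ev P.z (cab p w) * HF P.z p h J * sh P.z (p * j) x * y) := by
  rw [← tr_comm P (cg_sh_mem1 P.z hx hi), ← hij]
  congr 1
  have h1 := cab_slide P.z hp hw hx j
  have h2 := HF_comm P.z hh hj hx
  calc sh P.z (p * perm w j) x * (ev P.z (cab p w) * HF P.z p h J * y)
      = (sh P.z (p * perm w j) x * ev P.z (cab p w)) * (HF P.z p h J * y) := by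
        simp only [mul_assoc]
    _ = ev P.z (cab p w) * (sh P.z (p * j) x * HF P.z p h J) * y := by
        rw [← h1]; simp only [mul_assoc]
    _ = ev P.z (cab p w) * HF P.z p h J * sh P.z (p * j) x * y := by
        rw [h2]; simp only [mul_assoc]

theorem cg_inv_pow_lt {n : ℕ} {π : Equiv.Perm ℕ} (hf : Fx n π) {i : ℕ} (hi : i < n) (t : ℕ) :
    ((π⁻¹) ^ t) i < n := by
  apply Fx_sameCycle_lt hf hi
  exact ⟨-(t : ℤ), by rw [zpow_neg, zpow_natCast, ← inv_pow]⟩

theorem cg_slide_many (P : Par k) {p n : ℕ} (hp : 0 < p) {w : Word} (hw : Valid n w) {h : ℕ → H P.z}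
    (hh : ∀ i, h i ∈ HS P.z p) {J : Finset ℕ} {i a : ℕ} (hi : i < n)
    {x : H P.z} (hx : x ∈ HS P.z p) {y : H P.z} (hy : y ∈ HS P.z (2 * p)) (t : ℕ)
    (hJ : ∀ s, 0 < s → ((perm w)⁻¹ ^ s) i ∉ J)
    (hK : ∀ s, 0 < s → s < t + 1 → ((perm w)⁻¹ ^ s) i ≠ a ∧ ((perm w)⁻¹ ^ s) i ≠ a + 1) :
    tr P (p * n) (ev P.z (cab p w) * HF P.z p h J * sh P.z (p * a) y * sh P.z (p * i) x) =
      tr P (p * n) (ev P.z (cab p w) * HF P.z p h J *
        sh P.z (p * (((perm w)⁻¹ ^ (t + 1)) i)) x * sh P.z (p * a) y) := by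
  induction t with
  | zero =>
    refine cg_slide_step P hp hw hh hi ?_ (hJ 1 (by omega)) hx _
    simp
  | succ t ih =>
    rw [ih (fun s h1 h2 => hK s h1 (by omega))]
    obtain ⟨h1, h2⟩ := hK (t + 1) (by omega) (by omega)
    rw [mul_assoc (ev P.z (cab p w) * HF P.z p h J), cg_sh_far P.z hx hy h1 h2,
      ← mul_assoc (ev P.z (cab p w) * HF P.z p h J)]
    refine cg_slide_step P hp hw hh (cg_inv_pow_lt (perm_fx hw) hi _) ?_ (hJ _ (by omega)) hx _
    rw [pow_succ', Equiv.Perm.mul_apply]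
    exact (perm w).apply_symm_apply _

theorem cg_exists_period {n : ℕ} {π : Equiv.Perm ℕ} (hf : Fx n π) {i : ℕ} (hi : i < n) :
    ∃ t, 0 < t ∧ ((π⁻¹) ^ t) i = i := by
  obtain ⟨s, t, hne, hst⟩ := Finite.exists_ne_map_eq_of_infinite
    (fun t : ℕ => (⟨((π⁻¹) ^ t) i, cg_inv_pow_lt hf hi t⟩ : Fin n))
  have hst' : ((π⁻¹) ^ s) i = ((π⁻¹) ^ t) i := by
    have := congrArg Fin.val hst
    exact this
  have key : ∀ s t : ℕ, s < t → ((π⁻¹) ^ s) i = ((π⁻¹) ^ t) i → ((π⁻¹) ^ (t - s)) i = i := by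
    intro s t h1 h2
    have h3 : t = s + (t - s) := by omega
    rw [h3, pow_add, Equiv.Perm.mul_apply] at h2
    exact (((π⁻¹) ^ s).injective h2).symm
  rcases Nat.lt_or_gt_of_ne hne with h | h
  · exact ⟨t - s, by omega, key s t h hst'⟩
  · exact ⟨s - t, by omega, key t s h hst'.symm⟩

/-- first return to `{a, a+1}` -/
theorem cg_first_return {n : ℕ} {π : Equiv.Perm ℕ} (hf : Fx n π) {i a : ℕ} (hi : i < n)
    (hia : i = a ∨ i = a + 1) : ∃ t, (((π⁻¹) ^ (t + 1)) i = a ∨ ((π⁻¹) ^ (t + 1)) i = a + 1) ∧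
      ∀ s, 0 < s → s < t + 1 → ((π⁻¹) ^ s) i ≠ a ∧ ((π⁻¹) ^ s) i ≠ a + 1 := by
  classical
  have hex : ∃ t, (((π⁻¹) ^ (t + 1)) i = a ∨ ((π⁻¹) ^ (t + 1)) i = a + 1) := by
    obtain ⟨t, ht, h⟩ := cg_exists_period hf hi
    refine ⟨t - 1, ?_⟩
    rw [show t - 1 + 1 = t by omega, h]
    exact hia
  refine ⟨Nat.find hex, Nat.find_spec hex, fun s h1 h2 => ?_⟩
  have h3 := Nat.find_min hex (m := s - 1) (by omega)
  rw [show s - 1 + 1 = s by omega, not_or] at h3
  exact h3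

theorem cg_sameCycle_inv_pow (π : Equiv.Perm ℕ) (i t : ℕ) : π.SameCycle i (((π⁻¹) ^ t) i) :=
  ⟨-(t : ℤ), by rw [zpow_neg, zpow_natCast, ← inv_pow]⟩

theorem cg_exists_lt_of_sameCycle {π : Equiv.Perm ℕ} {i j t : ℕ} (ht : 0 < t)
    (h : ((π⁻¹) ^ t) i = i) (hij : π.SameCycle i j) : ∃ s, s < t ∧ ((π⁻¹) ^ s) i = j := by
  obtain ⟨m, hm⟩ := hij
  have h1 : ((π⁻¹) ^ (-m)) i = j := by rw [← hm]; simp
  have ht' : (0 : ℤ) < t := by exact_mod_cast ht
  refine ⟨((-m) % (t : ℤ)).toNat, ?_, ?_⟩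
  · have h2 := Int.emod_lt_of_pos (-m) ht'
    have h3 := Int.emod_nonneg (-m) ht'.ne'
    omega
  · have h3 := Int.emod_nonneg (-m) ht'.ne'
    rw [← zpow_natCast, Int.toNat_of_nonneg h3, ← h1]
    have h4 : -m = (-m) % (t : ℤ) + (t : ℤ) * ((-m) / (t : ℤ)) := (Int.emod_add_mul_ediv (-m) t).symm
    conv_rhs => rw [h4]
    rw [zpow_add, Equiv.Perm.mul_apply, zpow_mul, zpow_natCast,
      Equiv.Perm.zpow_apply_eq_self_of_apply_eq_self h]

/-! ### the functional of two neighbouring bundles -/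

/-- the functional of the bundles `a`, `a+1` -/
noncomputable def cgPhi (P : Par k) (p n : ℕ) (w : Word) (J : Finset ℕ) (a : ℕ) : H P.z →ₗ[k] k :=
  (tr P (p * n)) ∘ₗ (LinearMap.mulLeft k (ev P.z (cab p w) * XF P.z p J)) ∘ₗ
    (sh P.z (p * a)).toLinearMap

theorem cg_Phi_apply (P : Par k) (p n : ℕ) (w : Word) (J : Finset ℕ) (a : ℕ) (y : H P.z) :
    cgPhi P p n w J a y = tr P (p * n) (ev P.z (cab p w) * XF P.z p J * sh P.z (p * a) y) := rfl

theorem cg_Phi_slide (P : Par k) {p n : ℕ} (hp : 0 < p) {w : Word} (hw : Valid n w) {J : Finset ℕ}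
    {a i j : ℕ} (hi : i < n)
    (hJ : ∀ s, 0 < s → ((perm w)⁻¹ ^ s) i ∉ J) (t : ℕ) (hj : ((perm w)⁻¹ ^ (t + 1)) i = j)
    (hK : ∀ s, 0 < s → s < t + 1 → ((perm w)⁻¹ ^ s) i ≠ a ∧ ((perm w)⁻¹ ^ s) i ≠ a + 1)
    {x : H P.z} (hx : x ∈ HS P.z p) {y : H P.z} (hy : y ∈ HS P.z (2 * p)) :
    tr P (p * n) (ev P.z (cab p w) * XF P.z p J * sh P.z (p * a) y * sh P.z (p * i) x) =
      tr P (p * n) (ev P.z (cab p w) * XF P.z p J * sh P.z (p * j) x * sh P.z (p * a) y) := by
  rw [← hj]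
  exact cg_slide_many P hp hw (fun _ => X_mem P.z p) hi hx hy t hJ hK

theorem cg_acentral (P : Par k) {p n : ℕ} (hp : 0 < p) {w : Word} (hw : Valid n w) {J : Finset ℕ}
    {a : ℕ} (ha : a + 1 < n) (h : ¬ (perm w).SameCycle a (a + 1))
    (hJ1 : ∀ x, (perm w).SameCycle a x → x ∉ J) (hJ2 : ∀ x, (perm w).SameCycle (a + 1) x → x ∉ J) :
    ACentral P.z p (cgPhi P p n w J a) := by
  intro x hx y hy
  constructor
  · rw [cg_Phi_apply, cg_Phi_apply, map_mul (sh P.z (p * a)), map_mul (sh P.z (p * a)), ← mul_assoc, ← mul_assoc]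
    obtain ⟨t, ht, hK⟩ := cg_first_return (perm_fx hw) (i := a) (a := a) (by omega) (Or.inl rfl)
    rcases ht with ht | ht
    · exact (cg_Phi_slide P hp hw (by omega) (fun s _ => hJ1 _ (cg_sameCycle_inv_pow _ _ _)) t ht hK
        hx hy).symm
    · exact absurd (ht ▸ cg_sameCycle_inv_pow (perm w) a (t + 1)) h
  · rw [cg_Phi_apply, cg_Phi_apply, map_mul (sh P.z (p * a)), map_mul (sh P.z (p * a)), ← mul_assoc,
      ← mul_assoc, sh_sh,
      show p * a + p = p * (a + 1) by ring]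
    obtain ⟨t, ht, hK⟩ := cg_first_return (perm_fx hw) (i := a + 1) (a := a) (by omega) (Or.inr rfl)
    rcases ht with ht | ht
    · exact absurd (ht ▸ cg_sameCycle_inv_pow (perm w) (a + 1) (t + 1)).symm h
    · exact (cg_Phi_slide P hp hw (by omega) (fun s _ => hJ2 _ (cg_sameCycle_inv_pow _ _ _)) t ht hK
        hx hy).symm

theorem cg_atwist (P : Par k) {p n : ℕ} (hp : 0 < p) {w : Word} (hw : Valid n w) {J : Finset ℕ}
    {a : ℕ} (ha : a + 1 < n) (h : (perm w).SameCycle a (a + 1))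
    (hJ1 : ∀ x, (perm w).SameCycle a x → x ∉ J) :
    ATwist P.z p (cgPhi P p n w J a) := by
  intro x hx y hy
  have hJ2 : ∀ x, (perm w).SameCycle (a + 1) x → x ∉ J := fun x hx => hJ1 x (h.trans hx)
  constructor
  · rw [cg_Phi_apply, cg_Phi_apply, map_mul (sh P.z (p * a)), map_mul (sh P.z (p * a)), ← mul_assoc,
      ← mul_assoc, sh_sh,
      show p * a + p = p * (a + 1) by ring]
    obtain ⟨t, ht, hK⟩ := cg_first_return (perm_fx hw) (i := a + 1) (a := a) (by omega) (Or.inr rfl)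
    rcases ht with ht | ht
    · exact (cg_Phi_slide P hp hw (by omega) (fun s _ => hJ2 _ (cg_sameCycle_inv_pow _ _ _)) t ht hK
        hx hy).symm
    · exfalso
      obtain ⟨s, hs, hs'⟩ := cg_exists_lt_of_sameCycle (t := t + 1) (by omega) ht h.symm
      rcases Nat.eq_zero_or_pos s with h0 | h0
      · subst h0
        simp at hs'
      · exact (hK s h0 hs).1 hs'
  · rw [cg_Phi_apply, cg_Phi_apply, map_mul (sh P.z (p * a)), map_mul (sh P.z (p * a)), ← mul_assoc,
      ← mul_assoc, sh_sh,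
      show p * a + p = p * (a + 1) by ring]
    obtain ⟨t, ht, hK⟩ := cg_first_return (perm_fx hw) (i := a) (a := a) (by omega) (Or.inl rfl)
    rcases ht with ht | ht
    · exfalso
      obtain ⟨s, hs, hs'⟩ := cg_exists_lt_of_sameCycle (t := t + 1) (by omega) ht h
      rcases Nat.eq_zero_or_pos s with h0 | h0
      · subst h0
        simp at hs'
      · exact (hK s h0 hs).2 hs'
    · exact (cg_Phi_slide P hp hw (by omega) (fun s _ => hJ1 _ (cg_sameCycle_inv_pow _ _ _)) t ht hK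
        hx hy).symm

end CabG

open CabG

theorem Zp_markov {P : Par k} {p : ℕ} (hG : Good P p) {n : ℕ} {w : Word} (hw : Valid (n+1) w) (b : Bool) :
    Zp P p (n+2) (w ++ [(n, b)]) = (-1) ^ (p - 1) *
      (if b then (P.a : k) ^ p else ((P.a⁻¹ : kˣ) : k) ^ p) * Zp P p (n+1) w := by
  have hp : 0 < p := hG.pr.pos
  obtain ⟨I, hI, hn⟩ := exists_isTr_mem (perm_fx hw) (show n < n + 1 by omega)
  have hI' : IsTr (perm (w ++ [(n, b)])) (n+2) I := by
    rw [cg_perm_snoc]; exact isTr_markov (perm_fx hw) hI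
  have hw' : Valid (n+2) (w ++ [(n, b)]) := by
    rw [cg_valid_append]
    refine ⟨fun l hl => by have := hw l hl; omega, fun l hl => ?_⟩
    rw [List.mem_singleton] at hl
    subst hl
    show n + 1 < n + 2
    omega
  rw [Zp_eq P hp hw' hI', Zp_eq P hp hw hI]
  obtain ⟨J, hJ, rfl⟩ : ∃ J, n ∉ J ∧ I = insert n J :=
    ⟨I.erase n, Finset.notMem_erase n I, (Finset.insert_erase hn).symm⟩
  have hXm : ∀ i : ℕ, X P.z p ∈ HS P.z p := fun _ => X_mem P.z p
  have hJr : J ⊆ range (n+1) := (Finset.subset_insert n J).trans hI.1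
  -- the trace
  have key : tr P (p * (n+2)) (ev P.z (cab p (w ++ [(n, b)])) * XF P.z p (insert n J)) =
      (if b then (P.a : k) ^ p else ((P.a⁻¹ : kˣ) : k) ^ p) *
        tr P (p * (n+1)) (ev P.z (cab p w) * XF P.z p J *
          sh P.z (p * n) ((if b then FT P.z p else FTi P.z p) * X P.z p)) := by
    have hE : ev P.z (cab p w) ∈ HS P.z (p * (n+1)) := ev_mem P.z (cg_valid_cab hw)
    have hXJ : XF P.z p J ∈ HS P.z (p * (n+1)) := HF_mem P.z hXm hJr
    have hXn : sh P.z (p * n) (X P.z p) ∈ HS P.z (p * (n+1)) :=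
      cg_sh_mem1 P.z (X_mem P.z p) (by omega)
    have hB : ev P.z (cab p (w ++ [(n, b)])) * XF P.z p (insert n J) =
        (ev P.z (cab p w) * sh P.z (p * n) (if b then R P.z p else Ri P.z p)) *
          (sh P.z (p * n) (X P.z p) * XF P.z p J) := by
      rw [ev_cab_append, cg_ev_cab_single, cg_XF_insert P.z hJ]
    have hY : sh P.z (p * n) (X P.z p) * XF P.z p J ∈ HS P.z (p * (n+1)) :=
      mul_mem_HW P.z monotone_const hXn hXJ
    have hle : p * (n+1) ≤ p * (n+2) := Nat.mul_le_mul_left p (by omega)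
    rw [hB, ← tr_comm P (cg_HS_mono P.z hle hY), ← mul_assoc]
    have h2 : p * (n + 2) = p * n + 2 * p := by ring
    have h1 : p * (n + 1) = p * n + p := by ring
    have hyy : sh P.z (p * n) (X P.z p) * XF P.z p J * ev P.z (cab p w) ∈ HS P.z (p * n + p) := by
      rw [← h1]; exact mul_mem_HW P.z monotone_const hY hE
    have hfin : ∀ x ∈ HS P.z p, tr P (p * (n+1))
        (sh P.z (p * n) (X P.z p) * XF P.z p J * ev P.z (cab p w) * sh P.z (p * n) x) =
        tr P (p * (n+1)) (ev P.z (cab p w) * XF P.z p J * sh P.z (p * n) (x * X P.z p)) := by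
      intro x hx
      rw [mul_assoc (sh P.z (p * n) (X P.z p) * XF P.z p J), tr_comm P hY]
      congr 1
      have h3 := cg_XF_comm P.z hJ (mul_mem_HW P.z monotone_const hx (X_mem P.z p))
      calc ev P.z (cab p w) * sh P.z (p * n) x * (sh P.z (p * n) (X P.z p) * XF P.z p J)
          = ev P.z (cab p w) * (sh P.z (p * n) (x * X P.z p) * XF P.z p J) := by
            rw [map_mul (sh P.z (p * n))]; simp only [mul_assoc]
        _ = ev P.z (cab p w) * XF P.z p J * sh P.z (p * n) (x * X P.z p) := by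
            rw [h3, mul_assoc]
    cases b with
    | true =>
      simp only [if_true]
      rw [h2, kink_pos P hp hyy, ← h1, hfin _ (FT_mem P.z p)]
    | false =>
      simp only [Bool.false_eq_true, if_false]
      rw [h2, kink_neg P hp hyy, ← h1, hfin _ (FTi_mem P.z p)]
  rw [key]
  -- the functional in the slot
  let φ : H P.z →ₗ[k] k := (tr P (p * (n+1))) ∘ₗ
    (LinearMap.mulLeft k (ev P.z (cab p w) * XF P.z p J)) ∘ₗ (sh P.z (p * n)).toLinearMap
  have hφ : ∀ x ∈ HS P.z p, ∀ y ∈ HS P.z p, φ (x * y) = φ (y * x) := fun x hx y hy =>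
    slot P hp hw hJ hI hXm hx hy
  obtain ⟨hft, hfti⟩ := bi_ft hG hφ
  have hφX : φ (X P.z p) = tr P (p * (n+1)) (ev P.z (cab p w) * XF P.z p (insert n J)) := by
    show tr P (p * (n+1)) (ev P.z (cab p w) * XF P.z p J * sh P.z (p * n) (X P.z p)) = _
    rw [cg_XF_insert P.z hJ, cg_XF_comm P.z hJ (X_mem P.z p), mul_assoc]
  have hφF : tr P (p * (n+1)) (ev P.z (cab p w) * XF P.z p J *
      sh P.z (p * n) ((if b then FT P.z p else FTi P.z p) * X P.z p)) =
      (-1) ^ (p - 1) * φ (X P.z p) := by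
    cases b with
    | true =>
      simp only [if_true]
      rw [← hft, hφ _ (X_mem P.z p) _ (FT_mem P.z p)]
      rfl
    | false =>
      simp only [Bool.false_eq_true, if_false]
      rw [← hfti, hφ _ (X_mem P.z p) _ (FTi_mem P.z p)]
      rfl
  rw [hφF, hφX]
  ring

namespace CabG

theorem cg_disj_of_isTr {π : Equiv.Perm ℕ} {n a : ℕ} {I J : Finset ℕ} (hI : IsTr π n I)
    (ha : a ∈ I) (hJ : J ⊆ I.erase a) : ∀ x, π.SameCycle a x → x ∉ J := by
  intro x hx hxJ
  have h1 := hJ hxJ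
  rw [Finset.mem_erase] at h1
  have han : a < n := Finset.mem_range.1 (hI.1 ha)
  have hxn : x < n := Finset.mem_range.1 (hI.1 h1.2)
  obtain ⟨i, _, hi⟩ := hI.2 x hxn
  have h2 := hi a ⟨ha, hx⟩
  have h3 := hi x ⟨h1.2, Equiv.Perm.SameCycle.refl _ _⟩
  exact h1.1 (h3.trans h2.symm)

theorem cg_self_core {P : Par k} {p : ℕ} (hp : 0 < p) {c : k}
    (hc : ∀ Φ : H P.z →ₗ[k] k, ACentral P.z p Φ →
      Φ (X P.z p * R P.z p) - Φ (X P.z p * Ri P.z p) = c * Φ (X P.z p * sh P.z p (X P.z p)))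
    {n : ℕ} {w : Word} {a : ℕ} (ha : a + 1 < n) (hw : Valid n w)
    (h : ¬ (perm w).SameCycle a (a + 1)) :
    Zp P p n (w ++ [(a, true)]) - Zp P p n (w ++ [(a, false)]) = c * P.zi * Zp P p n w := by
  obtain ⟨I, hI, ha1, ha2⟩ := exists_isTr_mem2 (perm_fx hw) (show a < n by omega) ha h
  have hXm : ∀ i : ℕ, X P.z p ∈ HS P.z p := fun _ => X_mem P.z p
  have hne : a ≠ a + 1 := by omega
  obtain ⟨J, hJ1, hJ2, hJI, hJa, hJb⟩ : ∃ J : Finset ℕ, a ∉ J ∧ a + 1 ∉ J ∧
      I = insert a (insert (a + 1) J) ∧ J ⊆ I.erase a ∧ J ⊆ I.erase (a + 1) := by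
    refine ⟨(I.erase (a + 1)).erase a, Finset.notMem_erase _ _, ?_, ?_, ?_, ?_⟩
    · intro h1
      exact Finset.notMem_erase _ _ (Finset.mem_of_mem_erase h1)
    · rw [Finset.erase_right_comm, Finset.insert_erase, Finset.insert_erase ha1]
      exact Finset.mem_erase.2 ⟨hne.symm, ha2⟩
    · exact Finset.erase_subset_erase _ (Finset.erase_subset _ _)
    · exact Finset.erase_subset _ _
  have hIe : I.erase (a + 1) = insert a J := by
    rw [hJI, Finset.erase_insert_of_ne hne, Finset.erase_insert hJ2]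
  have hval : ∀ b, Valid n (w ++ [(a, b)]) := fun b => by
    rw [cg_valid_append]
    refine ⟨hw, fun l hl => ?_⟩
    rw [List.mem_singleton] at hl
    subst hl
    exact ha
  have hIb : ∀ b, IsTr (perm (w ++ [(a, b)])) n (insert a J) := fun b => by
    rw [cg_perm_snoc, ← hIe]
    exact isTr_merge (perm_fx hw) (by omega) ha h hI ha1 ha2
  have hAC : ACentral P.z p (cgPhi P p n w J a) := cg_acentral P hp hw ha h
    (cg_disj_of_isTr hI ha1 hJa) (cg_disj_of_isTr hI ha2 hJb)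
  have hXa : sh P.z (p * a) (X P.z p) ∈ HS P.z (p * n) := cg_sh_mem1 P.z (X_mem P.z p) (by omega)
  have hX2 : X P.z p ∈ HS P.z (2 * p) := cg_HS_mono P.z (by omega) (X_mem P.z p)
  have hRm : ∀ b : Bool, (if b then R P.z p else Ri P.z p) ∈ HS P.z (2 * p) := fun b => by
    cases b
    · exact Ri_mem P.z p
    · exact R_mem P.z p
  have hZ : ∀ b, Zp P p n (w ++ [(a, b)]) =
      P.z ^ (J.card + 1) * cgPhi P p n w J a (X P.z p * (if b then R P.z p else Ri P.z p)) := fun b => by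
    rw [Zp_eq P hp (hval b) (hIb b), Finset.card_insert_of_notMem hJ1]
    congr 1
    rw [(hAC _ (X_mem P.z p) _ (hRm b)).1, cg_Phi_apply]
    congr 1
    have h3 := cg_XF_comm2 P.z (mul_mem_HW P.z monotone_const (hRm b) hX2) hJ1 hJ2
    rw [ev_cab_append, cg_ev_cab_single, cg_XF_insert P.z hJ1, mul_assoc (ev P.z (cab p w)) (XF P.z p J),
      ← h3, map_mul (sh P.z (p * a))]
    simp only [mul_assoc]
  have hZw : Zp P p n w = P.z ^ (J.card + 2) * cgPhi P p n w J a (X P.z p * sh P.z p (X P.z p)) := by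
    have hJ1' : a ∉ insert (a + 1) J := by
      rw [Finset.mem_insert, not_or]; exact ⟨hne, hJ1⟩
    rw [Zp_eq P hp hw hI, hJI, Finset.card_insert_of_notMem hJ1', Finset.card_insert_of_notMem hJ2]
    congr 1
    rw [cg_Phi_apply]
    congr 1
    have hXX : X P.z p * sh P.z p (X P.z p) ∈ HS P.z (2 * p) := by
      refine mul_mem_HW P.z monotone_const hX2 ?_
      rw [two_mul]; exact sh_mem P.z p (X_mem P.z p)
    rw [cg_XF_insert P.z hJ1', cg_XF_insert P.z hJ2, mul_assoc (ev P.z (cab p w)),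
      ← cg_XF_comm2 P.z hXX hJ1 hJ2, map_mul (sh P.z (p * a)), sh_sh, show p * a + p = p * (a + 1) by ring]
    simp only [mul_assoc]
  rw [hZ true, hZ false, hZw, ← mul_sub]
  simp only [if_true, Bool.false_eq_true, if_false]
  rw [hc _ hAC]
  have hzz := P.z_mul_zi
  calc P.z ^ (J.card + 1) * (c * cgPhi P p n w J a (X P.z p * sh P.z p (X P.z p)))
      = (P.z * P.zi) * (P.z ^ (J.card + 1) * (c * cgPhi P p n w J a (X P.z p * sh P.z p (X P.z p)))) := by
        rw [hzz, one_mul]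
    _ = c * P.zi * (P.z ^ (J.card + 2) * cgPhi P p n w J a (X P.z p * sh P.z p (X P.z p))) := by ring

theorem cg_const_eq {P : Par k} {p : ℕ} (hG : Good P p) {c : k}
    (hc : ∀ Φ : H P.z →ₗ[k] k, ACentral P.z p Φ →
      Φ (X P.z p * R P.z p) - Φ (X P.z p * Ri P.z p) = c * Φ (X P.z p * sh P.z p (X P.z p))) :
    c * P.zi = (-1) ^ (p - 1) := by
  have hp : 0 < p := hG.pr.pos
  have hv0 : ∀ n, Valid n [] := fun n l hl => absurd hl (by simp)
  have h1 := cg_self_core hp hc (n := 2) (w := []) (a := 0) (by omega) (hv0 _) (by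
    rw [perm_nil]
    intro h
    obtain ⟨m, hm⟩ := h
    simp at hm)
  have h2 := Zp_markov hG (n := 0) (w := []) (hv0 _) true
  have h3 := Zp_markov hG (n := 0) (w := []) (hv0 _) false
  have h4 := Zp_free P hp (n := 0) (w := []) (hv0 _)
  have h5 := Zp_free P hp (n := 1) (w := []) (hv0 _)
  rw [Zp_zero, mul_one] at h4
  rw [h4] at h5
  simp only [if_true, Bool.false_eq_true, if_false] at h2 h3
  simp only [zero_add] at h2 h3 h4 h5
  rw [h2, h3, h4, h5] at h1
  have hu := hG.ap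
  have h6 : ((P.a : k) ^ p - ((P.a⁻¹ : kˣ) : k) ^ p) * (((P.a : k) ^ p - ((P.a⁻¹ : kˣ) : k) ^ p) *
      (c * P.zi)) = ((P.a : k) ^ p - ((P.a⁻¹ : kˣ) : k) ^ p) *
      (((P.a : k) ^ p - ((P.a⁻¹ : kˣ) : k) ^ p) * (-1) ^ (p - 1)) := by
    linear_combination -h1
  exact hu.mul_left_cancel (hu.mul_left_cancel h6)

end CabG

theorem Zp_inter {P : Par k} {p : ℕ} (hG : Good P p) {n : ℕ} {u v : Word} {i : ℕ} (hi : i + 1 < n)
    (hw : Valid n (u ++ v)) (h : (perm (v ++ u)).SameCycle i (i+1)) :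
    Zp P p n (u ++ [(i, true)] ++ v) = Zp P p n (u ++ [(i, false)] ++ v) := by
  have hp : 0 < p := hG.pr.pos
  have hw' : Valid n (v ++ u) := by
    rw [cg_valid_append] at hw ⊢; exact ⟨hw.2, hw.1⟩
  have hvi : ∀ b, Valid n [(i, b)] := fun b l hl => by
    rw [List.mem_singleton] at hl
    subst hl
    exact hi
  have hval : ∀ b, Valid n (v ++ u ++ [(i, b)]) := fun b => by
    rw [cg_valid_append]; exact ⟨hw', hvi b⟩
  have hconj : ∀ b, Zp P p n (u ++ [(i, b)] ++ v) = Zp P p n (v ++ u ++ [(i, b)]) := fun b => by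
    rw [Zp_conj P hp (n := n) (u := u ++ [(i, b)]) (v := v), List.append_assoc]
    rw [cg_valid_append] at hw
    rw [cg_valid_append, cg_valid_append]
    exact ⟨⟨hw.1, hvi b⟩, hw.2⟩
  rw [hconj true, hconj false]
  generalize hwd : v ++ u = w at *
  obtain ⟨I, hI, hiI⟩ := exists_isTr_mem (perm_fx hw') (show i < n by omega)
  have hXm : ∀ i : ℕ, X P.z p ∈ HS P.z p := fun _ => X_mem P.z p
  obtain ⟨J, hJ1, hJI, hJa⟩ : ∃ J : Finset ℕ, i ∉ J ∧ I = insert i J ∧ J ⊆ I.erase i :=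
    ⟨I.erase i, Finset.notMem_erase _ _, (Finset.insert_erase hiI).symm, le_rfl⟩
  have hdis := cg_disj_of_isTr hI hiI hJa
  have hJ2 : i + 1 ∉ J := hdis _ h
  have hIb : ∀ b, IsTr (perm (w ++ [(i, b)])) n (insert (i + 1) (insert i J)) := fun b => by
    rw [cg_perm_snoc, ← hJI]
    exact isTr_split (perm_fx hw') (by omega) hi (by omega) h hI hiI
  have hAT : ATwist P.z p (cgPhi P p n w J i) := cg_atwist P hp hw' hi h hdis
  have hRm : ∀ b : Bool, (if b then R P.z p else Ri P.z p) ∈ HS P.z (2 * p) := fun b => by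
    cases b
    · exact Ri_mem P.z p
    · exact R_mem P.z p
  have hX2 : X P.z p ∈ HS P.z (2 * p) := cg_HS_mono P.z (by omega) (X_mem P.z p)
  have hX2' : sh P.z p (X P.z p) ∈ HS P.z (2 * p) := by
    rw [two_mul]; exact sh_mem P.z p (X_mem P.z p)
  have hsl : ∀ b : Bool, (if b then R P.z p else Ri P.z p) * (X P.z p * sh P.z p (X P.z p)) =
      X P.z p * sh P.z p (X P.z p) * (if b then R P.z p else Ri P.z p) := fun b => by
    have hcm : X P.z p * sh P.z p (X P.z p) = sh P.z p (X P.z p) * X P.z p :=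
      sh_commute P.z le_rfl (X_mem P.z p) _
    cases b with
    | true =>
      simp only [if_true]
      rw [← mul_assoc, R_slide1 P.z p (X_mem P.z p), mul_assoc, R_slide2 P.z p (X_mem P.z p),
        ← mul_assoc, hcm]
    | false =>
      simp only [Bool.false_eq_true, if_false]
      rw [← mul_assoc, Ri_slide1 P.z p (X_mem P.z p), mul_assoc, Ri_slide2 P.z p (X_mem P.z p),
        ← mul_assoc, hcm]
  have hZ : ∀ b, Zp P p n (w ++ [(i, b)]) = P.z ^ (J.card + 2) *
      cgPhi P p n w J i (X P.z p * sh P.z p (X P.z p) * (if b then R P.z p else Ri P.z p)) := fun b => by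
    have hJ2' : i + 1 ∉ insert i J := by
      rw [Finset.mem_insert, not_or]; exact ⟨by omega, hJ2⟩
    rw [Zp_eq P hp (hval b) (hIb b), Finset.card_insert_of_notMem hJ2',
      Finset.card_insert_of_notMem hJ1]
    congr 1
    rw [cg_Phi_apply, ← hsl b]
    congr 1
    have hm : (if b then R P.z p else Ri P.z p) * (X P.z p * sh P.z p (X P.z p)) ∈ HS P.z (2 * p) :=
      mul_mem_HW P.z monotone_const (hRm b) (mul_mem_HW P.z monotone_const hX2 hX2')
    have hcm : X P.z p * sh P.z p (X P.z p) = sh P.z p (X P.z p) * X P.z p :=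
      sh_commute P.z le_rfl (X_mem P.z p) _
    rw [ev_cab_append, cg_ev_cab_single, cg_XF_insert P.z hJ2', cg_XF_insert P.z hJ1,
      mul_assoc (ev P.z (cab p w)) (XF P.z p J), ← cg_XF_comm2 P.z hm hJ1 hJ2,
      map_mul (sh P.z (p * i)), hcm, map_mul (sh P.z (p * i)), sh_sh,
      show p * i + p = p * (i + 1) by ring]
    simp only [mul_assoc]
  rw [hZ true, hZ false]
  simp only [if_true, Bool.false_eq_true, if_false]
  rw [bi_inter hG hAT]

theorem Zp_self {P : Par k} {p : ℕ} (hG : Good P p) {n : ℕ} {u v : Word} {i : ℕ} (hi : i + 1 < n)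
    (hw : Valid n (u ++ v)) (h : ¬ (perm (v ++ u)).SameCycle i (i+1)) :
    Zp P p n (u ++ [(i, true)] ++ v) - Zp P p n (u ++ [(i, false)] ++ v) =
      (-1) ^ (p - 1) * Zp P p n (u ++ v) := by
  have hp : 0 < p := hG.pr.pos
  have hw' : Valid n (v ++ u) := by
    rw [cg_valid_append] at hw ⊢; exact ⟨hw.2, hw.1⟩
  have hvi : ∀ b, Valid n [(i, b)] := fun b l hl => by
    rw [List.mem_singleton] at hl
    subst hl
    exact hi
  have hconj : ∀ b, Zp P p n (u ++ [(i, b)] ++ v) = Zp P p n (v ++ u ++ [(i, b)]) := fun b => by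
    rw [Zp_conj P hp (n := n) (u := u ++ [(i, b)]) (v := v), List.append_assoc]
    rw [cg_valid_append] at hw
    rw [cg_valid_append, cg_valid_append]
    exact ⟨⟨hw.1, hvi b⟩, hw.2⟩
  obtain ⟨c, hc⟩ := bi_self hG
  rw [hconj true, hconj false, Zp_conj P hp hw, cg_self_core hp hc hi hw' h, cg_const_eq hG hc]

end Pool.Agent.HL
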