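import Pool.Agent.Lib.HL21.Defs

/-! # Module Cas: Casimir elements, relative traces, coset decomposition, conditional expectation -/

namespace Pool.Agent.HL

open Finset

variable {k : Type*} [CommRing k]

/-! ### auxiliary facts on permutations -/

theorem symm_eq_inv (w : S) (x : ℕ) : w.1.symm x = (w⁻¹).1 x := rfl



theorem mul_val_apply (u v : S) (x : ℕ) : (u * v).1 x = u.1 (v.1 x) := rfl

theorem W_lt {f : ℕ → ℕ} {N : ℕ} {w : S} (hw : w ∈ W f N) {i : ℕ} (hi : i < N) : w.1 i < N := by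
  by_contra hc
  have h1 := (mem_W.1 hw).1 (w.1 i) (by omega)
  have h2 := w.1.injective h1
  omega

theorem W_le_W0 {f : ℕ → ℕ} {N : ℕ} {w : S} (hw : w ∈ W f N) : w ∈ W0 N :=
  mem_W.2 ⟨(mem_W.1 hw).1, fun _ => rfl⟩





/-! ### Casimir -/

theorem casimir_gen (z : k) {f : ℕ → ℕ} {N : ℕ} {M : Type*} [AddCommGroup M] [Module k M]
    (F : H z →ₗ[k] H z →ₗ[k] M) {i : ℕ} (hs : s i ∈ W f N) :
    ∑ w ∈ W f N, F (g z i * T z w) (T z w⁻¹) = ∑ w ∈ W f N, F (T z w) (T z w⁻¹ * g z i) := by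
  classical
  have h1 : ∀ w ∈ W f N, F (g z i * T z w) (T z w⁻¹) = F (T z (s i * w)) (T z w⁻¹) +
      (if w.1.symm (i+1) < w.1.symm i then z • F (T z w) (T z w⁻¹) else 0) := by
    intro w _
    by_cases h : w.1.symm i < w.1.symm (i+1)
    · rw [sT_lt z h, if_neg (by omega), add_zero]
    · have hne : w.1.symm i ≠ w.1.symm (i+1) := fun h' => by
        have := w.1.symm.injective h'
        omega
      have h' : w.1.symm (i+1) < w.1.symm i := by omega
      rw [sT_gt z h', if_pos h', map_add, LinearMap.add_apply, map_smul, LinearMap.smul_apply]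
  have h2 : ∀ w ∈ W f N, F (T z w) (T z w⁻¹ * g z i) = F (T z w) (T z (w⁻¹ * s i)) +
      (if w.1.symm (i+1) < w.1.symm i then z • F (T z w) (T z w⁻¹) else 0) := by
    intro w _
    by_cases h : w.1.symm i < w.1.symm (i+1)
    · rw [Ts_lt z (w := w⁻¹) (i := i) h, if_neg (by omega), add_zero]
    · have hne : w.1.symm i ≠ w.1.symm (i+1) := fun h' => by
        have := w.1.symm.injective h'
        omega
      have h' : w.1.symm (i+1) < w.1.symm i := by omega
      rw [Ts_gt z (w := w⁻¹) (i := i) h', if_pos h', map_add, map_smul]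
  rw [Finset.sum_congr rfl h1, Finset.sum_congr rfl h2, Finset.sum_add_distrib, Finset.sum_add_distrib,
    add_left_inj]
  refine Finset.sum_nbij' (fun w => s i * w) (fun w => s i * w) ?_ ?_ ?_ ?_ ?_
  · intro w hw; exact mul_mem_W hs hw
  · intro w hw; exact mul_mem_W hs hw
  · intro w _; rw [← mul_assoc, s_mul_self, one_mul]
  · intro w _; rw [← mul_assoc, s_mul_self, one_mul]
  · intro w _
    rw [mul_inv_rev, s_inv, mul_assoc, s_mul_self, mul_one]

theorem casimir_left (z : k) {f : ℕ → ℕ} (hf : Monotone f) {N : ℕ} {M : Type*} [AddCommGroup M] [Module k M]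
    (F : H z →ₗ[k] H z →ₗ[k] M) {y : H z} (hy : y ∈ HW z f N) :
    ∑ w ∈ W f N, F (y * T z w) (T z w⁻¹) = ∑ w ∈ W f N, F (T z w) (T z w⁻¹ * y) := by
  have key : ∀ y ∈ HW z f N, ∀ (F : H z →ₗ[k] H z →ₗ[k] M),
      ∑ w ∈ W f N, F (y * T z w) (T z w⁻¹) = ∑ w ∈ W f N, F (T z w) (T z w⁻¹ * y) := by
    refine HW_ind z hf (P := fun y => ∀ (F : H z →ₗ[k] H z →ₗ[k] M),
      ∑ w ∈ W f N, F (y * T z w) (T z w⁻¹) = ∑ w ∈ W f N, F (T z w) (T z w⁻¹ * y)) ?_ ?_ ?_ ?_
    · intro F
      simp only [one_mul, mul_one]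
    · intro x y hx hy F
      simp only [add_mul, mul_add, map_add, LinearMap.add_apply, Finset.sum_add_distrib, hx F, hy F]
    · intro c x hx F
      simp only [smul_mul_assoc, mul_smul_comm, map_smul, LinearMap.smul_apply, ← Finset.smul_sum, hx F]
    · intro i x hi hfi hx F
      have e1 := hx (F ∘ₗ LinearMap.mulLeft k (g z i))
      have e2 := casimir_gen z (N := N) (F.compl₂ (LinearMap.mulRight k x)) (s_mem_W hi hfi)
      simp only [LinearMap.comp_apply, LinearMap.mulLeft_apply] at e1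
      simp only [LinearMap.compl₂_apply, LinearMap.mulRight_apply] at e2
      simp only [mul_assoc] at e1 e2 ⊢
      rw [e1, e2]
  exact key y hy F

theorem casimir_right (z : k) {f : ℕ → ℕ} (hf : Monotone f) {N : ℕ} {M : Type*} [AddCommGroup M] [Module k M]
    (F : H z →ₗ[k] H z →ₗ[k] M) {y : H z} (hy : y ∈ HW z f N) :
    ∑ w ∈ W f N, F (T z w * y) (T z w⁻¹) = ∑ w ∈ W f N, F (T z w) (y * T z w⁻¹) := by
  have h := casimir_left z hf F.flip hy
  simp only [LinearMap.flip_apply] at h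
  have r : ∀ G : S → M, ∑ w ∈ W f N, G w = ∑ w ∈ W f N, G w⁻¹ := by
    intro G
    refine Finset.sum_nbij' (fun w => w⁻¹) (fun w => w⁻¹) ?_ ?_ ?_ ?_ ?_
    · intro w hw; exact inv_mem_W hw
    · intro w hw; exact inv_mem_W hw
    · intro w _; exact inv_inv w
    · intro w _; exact inv_inv w
    · intro w _; rw [inv_inv]
  rw [r, r (fun w => F (T z w) (y * T z w⁻¹))]
  simp only [inv_inv]
  exact h.symm

theorem Tr_central (z : k) {f : ℕ → ℕ} (hf : Monotone f) {N : ℕ} (x : H z) {y : H z} (hy : y ∈ HW z f N) :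
    y * Tr z (W f N) x = Tr z (W f N) x * y := by
  rw [Tr_apply]
  have h := casimir_left z hf (M := H z) ((LinearMap.mul k (H z)) ∘ₗ (LinearMap.mulRight k x)) hy
  simp only [LinearMap.comp_apply, LinearMap.mulRight_apply, LinearMap.mul_apply'] at h
  rw [Finset.mul_sum, Finset.sum_mul]
  simp only [mul_assoc] at h ⊢
  exact h

theorem Tr_cyc (z : k) {f : ℕ → ℕ} (hf : Monotone f) {N : ℕ} (x : H z) {y : H z} (hy : y ∈ HW z f N) :
    Tr z (W f N) (x * y) = Tr z (W f N) (y * x) := by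
  rw [Tr_apply, Tr_apply]
  have h := casimir_right z hf (M := H z) ((LinearMap.mul k (H z)) ∘ₗ (LinearMap.mulRight k x)) hy
  simp only [LinearMap.comp_apply, LinearMap.mulRight_apply, LinearMap.mul_apply'] at h
  simp only [mul_assoc] at h ⊢
  exact h.symm

theorem sum_W_inv {f : ℕ → ℕ} {N : ℕ} {M : Type*} [AddCommMonoid M] (G : S → M) :
    ∑ w ∈ W f N, G w = ∑ w ∈ W f N, G w⁻¹ := by
  refine Finset.sum_nbij' (fun w => w⁻¹) (fun w => w⁻¹) ?_ ?_ ?_ ?_ ?_
  · intro w hw; exact inv_mem_W hw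
  · intro w hw; exact inv_mem_W hw
  · intro w _; exact inv_inv w
  · intro w _; exact inv_inv w
  · intro w _; rw [inv_inv]

/-- `∑_w T_{w⁻¹} x T_w = Tr x` -/
theorem Tr_inv (z : k) (f : ℕ → ℕ) (N : ℕ) (x : H z) :
    ∑ w ∈ W f N, T z w⁻¹ * x * T z w = Tr z (W f N) x := by
  rw [Tr_apply, sum_W_inv]
  simp only [inv_inv]

theorem τ_Tr (z : k) (f : ℕ → ℕ) (N : ℕ) (x y : H z) :
    τ z (Tr z (W f N) x * y) = τ z (x * Tr z (W f N) y) := by
  rw [← Tr_inv z f N y, Tr_apply, Finset.sum_mul, Finset.mul_sum, map_sum, map_sum]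
  refine Finset.sum_congr rfl fun w _ => ?_
  rw [mul_assoc, mul_assoc, τ_comm]
  simp only [mul_assoc]

theorem Tr_mul_left (z : k) (f : ℕ → ℕ) (N : ℕ) {c : H z} (hc : ∀ w ∈ W f N, c * T z w = T z w * c)
    (x : H z) : Tr z (W f N) (c * x) = c * Tr z (W f N) x := by
  rw [Tr_apply, Tr_apply, Finset.mul_sum]
  refine Finset.sum_congr rfl fun w hw => ?_
  rw [← mul_assoc (T z w), ← hc w hw]
  simp only [mul_assoc]

theorem Tr_mem (z : k) {f : ℕ → ℕ} (hf : Monotone f) {N : ℕ} {x : H z} (hx : x ∈ HW z f N) :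
    Tr z (W f N) x ∈ HW z f N := by
  rw [Tr_apply]
  refine Submodule.sum_mem _ fun w hw => ?_
  exact mul_mem_HW z hf (mul_mem_HW z hf (T_mem_HW z hw) hx) (T_mem_HW z (inv_mem_W hw))

theorem TrS_mem_Zc (z : k) {n : ℕ} {x : H z} (hx : x ∈ HS z n) : TrS z n x ∈ Zc z n :=
  ⟨Tr_mem z f0_mono hx, fun _ hi => Tr_central z f0_mono x (g_mem_HW z hi rfl)⟩

/-- commuting with generators implies commuting with the whole Young subalgebra -/
theorem commute_HW (z : k) {f : ℕ → ℕ} (hf : Monotone f) {N : ℕ} {c : H z}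
    (hc : ∀ i, i + 1 < N → f i = f (i+1) → g z i * c = c * g z i) {y : H z} (hy : y ∈ HW z f N) :
    y * c = c * y := by
  refine HW_ind z hf (P := fun y => y * c = c * y) ?_ ?_ ?_ ?_ y hy
  · rw [one_mul, mul_one]
  · intro x y hx hy
    rw [add_mul, mul_add, hx, hy]
  · intro a x hx
    rw [smul_mul_assoc, mul_smul_comm, hx]
  · intro i x hi hfi hx
    rw [mul_assoc, hx, ← mul_assoc, hc i hi hfi, mul_assoc]

/-! ### cosets -/

theorem mem_D {f : ℕ → ℕ} {N : ℕ} {d : S} :
    d ∈ D f N ↔ d ∈ W0 N ∧ ∀ i j, i < j → j < N → f i = f j → d.1 i < d.1 j := by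
  simp only [D, Finset.mem_filter]

theorem one_mem_D (f : ℕ → ℕ) (N : ℕ) : (1 : S) ∈ D f N :=
  mem_D.2 ⟨one_mem_W _ _, fun _ _ h _ _ => h⟩

theorem exists_coset_aux {f : ℕ → ℕ} (hf : Monotone f) {N : ℕ} : ∀ (m : ℕ) (w : S), len w ≤ m → w ∈ W0 N →
    ∃ d ∈ D f N, ∃ u ∈ W f N, w = d * u := by
  intro m
  induction m with
  | zero =>
    intro w hm hw
    by_cases hinc : ∀ i, i + 1 < N → f i = f (i+1) → w.1 i < w.1 (i+1)
    · refine ⟨w, mem_D.2 ⟨hw, ?_⟩, 1, one_mem_W _ _, (mul_one w).symm⟩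
      intro i j hij hj hfij
      have key : ∀ t, i + 1 + t < N → f (i + 1 + t) = f i → w.1 i < w.1 (i + 1 + t) := by
        intro t
        induction t with
        | zero => intro h1 h2; exact hinc i h1 h2.symm
        | succ t ih =>
          intro h1 h2
          have h3 : f (i + 1 + t) = f i := le_antisymm (h2 ▸ hf (by omega)) (hf (by omega))
          exact lt_trans (ih (by omega) h3) (hinc (i+1+t) h1 (h3.trans h2.symm))
      have := key (j - i - 1) (by omega) (by rw [show i + 1 + (j - i - 1) = j by omega]; exact hfij.symm)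
      rwa [show i + 1 + (j - i - 1) = j by omega] at this
    · push Not at hinc
      obtain ⟨i, hi, hfi, hle⟩ := hinc
      have hne : w.1 i ≠ w.1 (i+1) := fun h' => by
        have := w.1.injective h'
        omega
      have := len_s_gt (w := w⁻¹) (i := i) (show w.1 (i+1) < w.1 i by omega)
      rw [len_inv] at this
      omega
  | succ m ih =>
    intro w hm hw
    by_cases hinc : ∀ i, i + 1 < N → f i = f (i+1) → w.1 i < w.1 (i+1)
    · refine ⟨w, mem_D.2 ⟨hw, ?_⟩, 1, one_mem_W _ _, (mul_one w).symm⟩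
      intro i j hij hj hfij
      have key : ∀ t, i + 1 + t < N → f (i + 1 + t) = f i → w.1 i < w.1 (i + 1 + t) := by
        intro t
        induction t with
        | zero => intro h1 h2; exact hinc i h1 h2.symm
        | succ t ih =>
          intro h1 h2
          have h3 : f (i + 1 + t) = f i := le_antisymm (h2 ▸ hf (by omega)) (hf (by omega))
          exact lt_trans (ih (by omega) h3) (hinc (i+1+t) h1 (h3.trans h2.symm))
      have := key (j - i - 1) (by omega) (by rw [show i + 1 + (j - i - 1) = j by omega]; exact hfij.symm)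
      rwa [show i + 1 + (j - i - 1) = j by omega] at this
    · push Not at hinc
      obtain ⟨i, hi, hfi, hle⟩ := hinc
      have hne : w.1 i ≠ w.1 (i+1) := fun h' => by
        have := w.1.injective h'
        omega
      have hl := len_s_gt (w := w⁻¹) (i := i) (show w.1 (i+1) < w.1 i by omega)
      rw [len_inv, ← len_inv (s i * w⁻¹), mul_inv_rev, inv_inv, s_inv] at hl
      obtain ⟨d, hd, u, hu, hwu⟩ := ih (w * s i) (by omega) (mul_mem_W hw (s_mem_W hi rfl))
      refine ⟨d, hd, u * s i, mul_mem_W hu (s_mem_W hi hfi), ?_⟩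
      rw [← mul_assoc, ← hwu, mul_assoc, s_mul_self, mul_one]

theorem exists_coset {f : ℕ → ℕ} (hf : Monotone f) {N : ℕ} {w : S} (hw : w ∈ W0 N) :
    ∃ d ∈ D f N, ∃ u ∈ W f N, w = d * u := exists_coset_aux hf (len w) w le_rfl hw

theorem coset_unique {f : ℕ → ℕ} (hf : Monotone f) {N : ℕ} {d d' u u' : S} (hd : d ∈ D f N)
    (hd' : d' ∈ D f N) (hu : u ∈ W f N) (hu' : u' ∈ W f N) (h : d * u = d' * u') : d = d' ∧ u = u' := by
  have hv : u' * u⁻¹ ∈ W f N := mul_mem_W hu' (inv_mem_W hu)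
  have hdv : d = d' * (u' * u⁻¹) := by
    rw [← mul_assoc, ← h, mul_assoc, mul_inv_cancel, mul_one]
  obtain ⟨v, hvdef⟩ : ∃ v, v = u' * u⁻¹ := ⟨_, rfl⟩
  rw [← hvdef] at hv hdv
  have hfix : ∀ i, v.1 i = i := by
    intro i
    induction i using Nat.strong_induction_on with
    | _ i ih =>
      by_cases hiN : N ≤ i
      · exact (mem_W.1 hv).1 i hiN
      by_contra hne
      have h1 : i ≤ v.1 i := by
        by_contra hlt
        have h2 := ih (v.1 i) (by omega)
        exact hne (v.1.injective h2)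
      have hj : v.1 (v.1.symm i) = i := v.1.apply_symm_apply i
      have hji : i ≤ v.1.symm i := by
        by_contra hlt
        have h2 := ih (v.1.symm i) (by omega)
        rw [hj] at h2
        omega
      have hjne : v.1.symm i ≠ i := by
        intro h2
        rw [h2] at hj
        exact hne hj
      have hjN : v.1.symm i < N := by
        by_contra hge
        have h2 := (mem_W.1 hv).1 (v.1.symm i) (by omega)
        rw [hj] at h2
        omega
      have hfj : f i = f (v.1.symm i) := by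
        have := (mem_W.1 hv).2 (v.1.symm i)
        rw [hj] at this
        exact this
      have h3 := (mem_D.1 hd).2 i (v.1.symm i) (by omega) hjN hfj
      rw [hdv, mul_val_apply, mul_val_apply, hj] at h3
      have h4 := (mem_D.1 hd').2 i (v.1 i) (by omega) (W_lt hv (by omega)) ((mem_W.1 hv).2 i).symm
      omega
  have hv1 : v = 1 := by
    apply Subtype.ext
    apply Equiv.ext
    intro i
    rw [hfix i]
    rfl
  constructor
  · rw [hdv, hv1, mul_one]
  · have := hvdef
    rw [hv1] at this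
    exact (mul_inv_eq_one.1 this.symm).symm

theorem T_coset (z : k) {f : ℕ → ℕ} (hf : Monotone f) {N : ℕ} {d u : S} (hd : d ∈ D f N) (hu : u ∈ W f N) :
    T z d * T z u = T z (d * u) := by
  apply TT
  intro i j hij huj
  have hiN : i < N := by
    by_contra hge
    have h1 := (mem_W.1 hu).1 i (by omega)
    have h2 := (mem_W.1 hu).1 j (by omega)
    omega
  have e1 := (mem_W.1 hu).2 i
  have e2 := (mem_W.1 hu).2 j
  have h3 : f (u.1 j) ≤ f (u.1 i) := hf huj.le
  have h4 : f i ≤ f j := hf hij.le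
  exact (mem_D.1 hd).2 _ _ huj (W_lt hu hiN) (by omega)

theorem T_coset_inv (z : k) {f : ℕ → ℕ} (hf : Monotone f) {N : ℕ} {d u : S} (hd : d ∈ D f N) (hu : u ∈ W f N) :
    T z u * T z d⁻¹ = T z (u * d⁻¹) := by
  apply TT
  intro i j hij hji
  have ei : d.1 ((d⁻¹).1 i) = i := d.1.apply_symm_apply i
  have ej : d.1 ((d⁻¹).1 j) = j := d.1.apply_symm_apply j
  set a := (d⁻¹).1 j with ha
  set b := (d⁻¹).1 i with hb
  have hbN : b < N := by
    by_contra hge
    have h1 := (mem_W.1 (mem_D.1 hd).1).1 b (by omega)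
    have h2 : N ≤ j := by omega
    have h3 := (mem_W.1 (mem_D.1 hd).1).1 j h2
    have h4 : a = j := d.1.injective (by rw [ej, h3])
    omega
  have hne : f a ≠ f b := by
    intro h
    have := (mem_D.1 hd).2 a b hji hbN h
    omega
  have hlt : f a < f b := lt_of_le_of_ne (hf hji.le) hne
  have e1 := (mem_W.1 hu).2 a
  have e2 := (mem_W.1 hu).2 b
  by_contra hge
  have := hf (not_lt.1 hge)
  omega

theorem mem_W_of_coset {f f' : ℕ → ℕ} (hff : ∀ x y, f' x = f' y → f x = f y) {N : ℕ} {u : S}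
    (hu : u ∈ W f' N) : u ∈ W f N :=
  mem_W.2 ⟨(mem_W.1 hu).1, fun i => hff _ _ ((mem_W.1 hu).2 i)⟩

/-- relative version: `f'` refines `f` -/
theorem sum_coset_rel {f f' : ℕ → ℕ} (hf' : Monotone f') (hff : ∀ x y, f' x = f' y → f x = f y) {N : ℕ}
    {M : Type*} [AddCommMonoid M] (F : S → M) :
    ∑ w ∈ W f N, F w = ∑ d ∈ D f' N with d ∈ W f N, ∑ u ∈ W f' N, F (d * u) := by
  classical
  rw [← Finset.sum_product']
  symm
  refine Finset.sum_bij (fun x _ => x.1 * x.2) ?_ ?_ ?_ ?_
  · intro x hx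
    rw [Finset.mem_product, Finset.mem_filter] at hx
    exact mul_mem_W hx.1.2 (mem_W_of_coset hff hx.2)
  · intro x hx y hy hxy
    rw [Finset.mem_product, Finset.mem_filter] at hx hy
    have := coset_unique hf' hx.1.1 hy.1.1 hx.2 hy.2 hxy
    exact Prod.ext this.1 this.2
  · intro w hw
    obtain ⟨d, hd, u, hu, hwu⟩ := exists_coset hf' (W_le_W0 hw)
    refine ⟨(d, u), ?_, hwu.symm⟩
    rw [Finset.mem_product, Finset.mem_filter]
    refine ⟨⟨hd, ?_⟩, hu⟩
    have : d = w * u⁻¹ := by rw [hwu, mul_assoc, mul_inv_cancel, mul_one]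
    rw [this]
    exact mul_mem_W hw (inv_mem_W (mem_W_of_coset hff hu))
  · intro x _
    rfl

theorem sum_coset {f : ℕ → ℕ} (hf : Monotone f) {N : ℕ} {M : Type*} [AddCommMonoid M] (F : S → M) :
    ∑ w ∈ W0 N, F w = ∑ d ∈ D f N, ∑ u ∈ W f N, F (d * u) := by
  classical
  rw [sum_coset_rel hf (f := f0) (fun _ _ _ => rfl) F, Finset.filter_true_of_mem]
  intro d hd
  exact (mem_D.1 hd).1

theorem Tr_trans (z : k) {f : ℕ → ℕ} (hf : Monotone f) {N : ℕ} (x : H z) :
    TrS z N x = ∑ d ∈ D f N, T z d * Tr z (W f N) x * T z d⁻¹ := by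
  rw [TrS, Tr_apply, sum_coset hf]
  refine Finset.sum_congr rfl fun d hd => ?_
  rw [Tr_apply, Finset.mul_sum, Finset.sum_mul]
  refine Finset.sum_congr rfl fun u hu => ?_
  rw [← T_coset z hf hd hu, mul_inv_rev, ← T_coset_inv z hf hd (inv_mem_W hu)]
  simp only [mul_assoc]

/-! ### conditional expectation -/

theorem E_T (z : k) (f : ℕ → ℕ) (N : ℕ) (w : S) : E z f N (T z w) = if w ∈ W f N then T z w else 0 := by
  classical
  rw [E_apply]
  have h : ∀ v ∈ W f N, τ z (T z v⁻¹ * T z w) • T z v = if v = w then T z w else 0 := by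
    intro v _
    rw [τ_TT]
    by_cases hvw : v = w
    · rw [if_pos hvw, hvw, inv_mul_cancel, if_pos rfl, one_smul]
    · rw [if_neg hvw, if_neg, zero_smul]
      intro h
      exact hvw (inv_mul_eq_one.1 h)
  rw [Finset.sum_congr rfl h, Finset.sum_ite_eq']

theorem E_of_mem (z : k) {f : ℕ → ℕ} {N : ℕ} {x : H z} (hx : x ∈ HW z f N) : E z f N x = x := by
  rw [E_apply]
  exact (HW_expand z hx).symm

theorem E_mem (z : k) (f : ℕ → ℕ) (N : ℕ) (x : H z) : E z f N x ∈ HW z f N := by
  rw [E_apply]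
  exact Submodule.sum_mem _ fun w hw => Submodule.smul_mem _ _ (T_mem_HW z hw)

theorem s_mul_mem_W_iff {f : ℕ → ℕ} {N i : ℕ} {w : S} (hs : s i ∈ W f N) : s i * w ∈ W f N ↔ w ∈ W f N := by
  constructor
  · intro h
    have := mul_mem_W hs h
    rwa [← mul_assoc, s_mul_self, one_mul] at this
  · intro h
    exact mul_mem_W hs h

theorem mul_s_mem_W_iff {f : ℕ → ℕ} {N i : ℕ} {w : S} (hs : s i ∈ W f N) : w * s i ∈ W f N ↔ w ∈ W f N := by
  constructor
  · intro h
    have := mul_mem_W h hs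
    rwa [mul_assoc, s_mul_self, mul_one] at this
  · intro h
    exact mul_mem_W h hs

theorem E_g_mul (z : k) {f : ℕ → ℕ} {N i : ℕ} (hs : s i ∈ W f N) (x : H z) :
    E z f N (g z i * x) = g z i * E z f N x := by
  have h : (E z f N) ∘ₗ (LinearMap.mulLeft k (g z i)) = (LinearMap.mulLeft k (g z i)) ∘ₗ (E z f N) := by
    apply ext_T
    intro w
    simp only [LinearMap.comp_apply, LinearMap.mulLeft_apply]
    by_cases h : w.1.symm i < w.1.symm (i+1)
    · rw [sT_lt z h, E_T, E_T]
      by_cases hw : w ∈ W f N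
      · rw [if_pos hw, if_pos ((s_mul_mem_W_iff hs).2 hw), sT_lt z h]
      · rw [if_neg hw, if_neg (fun h' => hw ((s_mul_mem_W_iff hs).1 h')), mul_zero]
    · have hne : w.1.symm i ≠ w.1.symm (i+1) := fun h' => by
        have := w.1.symm.injective h'
        omega
      have h' : w.1.symm (i+1) < w.1.symm i := by omega
      rw [sT_gt z h', map_add, map_smul, E_T, E_T]
      by_cases hw : w ∈ W f N
      · rw [if_pos hw, if_pos ((s_mul_mem_W_iff hs).2 hw), sT_gt z h']
      · rw [if_neg hw, if_neg (fun h' => hw ((s_mul_mem_W_iff hs).1 h')), mul_zero, smul_zero, add_zero]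
  exact LinearMap.congr_fun h x

theorem E_mul_g (z : k) {f : ℕ → ℕ} {N i : ℕ} (hs : s i ∈ W f N) (x : H z) :
    E z f N (x * g z i) = E z f N x * g z i := by
  have h : (E z f N) ∘ₗ (LinearMap.mulRight k (g z i)) = (LinearMap.mulRight k (g z i)) ∘ₗ (E z f N) := by
    apply ext_T
    intro w
    simp only [LinearMap.comp_apply, LinearMap.mulRight_apply]
    by_cases h : w.1 i < w.1 (i+1)
    · rw [Ts_lt z h, E_T, E_T]
      by_cases hw : w ∈ W f N
      · rw [if_pos hw, if_pos ((mul_s_mem_W_iff hs).2 hw), Ts_lt z h]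
      · rw [if_neg hw, if_neg (fun h' => hw ((mul_s_mem_W_iff hs).1 h')), zero_mul]
    · have hne : w.1 i ≠ w.1 (i+1) := fun h' => by
        have := w.1.injective h'
        omega
      have h' : w.1 (i+1) < w.1 i := by omega
      rw [Ts_gt z h', map_add, map_smul, E_T, E_T]
      by_cases hw : w ∈ W f N
      · rw [if_pos hw, if_pos ((mul_s_mem_W_iff hs).2 hw), Ts_gt z h']
      · rw [if_neg hw, if_neg (fun h' => hw ((mul_s_mem_W_iff hs).1 h')), zero_mul, smul_zero, add_zero]
  exact LinearMap.congr_fun h x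

theorem E_mul_left (z : k) {f : ℕ → ℕ} (hf : Monotone f) {N : ℕ} {y : H z} (hy : y ∈ HW z f N) (x : H z) :
    E z f N (y * x) = y * E z f N x := by
  have key : ∀ y ∈ HW z f N, ∀ x, E z f N (y * x) = y * E z f N x := by
    refine HW_ind z hf (P := fun y => ∀ x, E z f N (y * x) = y * E z f N x) ?_ ?_ ?_ ?_
    · intro x
      rw [one_mul, one_mul]
    · intro a b ha hb x
      rw [add_mul, map_add, ha, hb, add_mul]
    · intro c a ha x
      rw [smul_mul_assoc, map_smul, ha, smul_mul_assoc]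
    · intro i a hi hfi ha x
      rw [mul_assoc, E_g_mul z (s_mem_W hi hfi), ha, mul_assoc]
  exact key y hy x

theorem E_mul_right (z : k) {f : ℕ → ℕ} (hf : Monotone f) {N : ℕ} {y : H z} (hy : y ∈ HW z f N) (x : H z) :
    E z f N (x * y) = E z f N x * y := by
  have key : ∀ y ∈ HW z f N, ∀ x, E z f N (x * y) = E z f N x * y := by
    refine HW_ind z hf (P := fun y => ∀ x, E z f N (x * y) = E z f N x * y) ?_ ?_ ?_ ?_
    · intro x
      rw [mul_one, mul_one]
    · intro a b ha hb x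
      rw [mul_add, map_add, ha, hb, mul_add]
    · intro c a ha x
      rw [mul_smul_comm, map_smul, ha, mul_smul_comm]
    · intro i a hi hfi ha x
      rw [← mul_assoc, ha, E_mul_g z (s_mem_W hi hfi), mul_assoc]
  exact key y hy x

theorem τ_E (z : k) (f : ℕ → ℕ) (N : ℕ) (x : H z) : τ z (E z f N x) = τ z x := by
  have h : (τ z) ∘ₗ (E z f N) = τ z := by
    apply ext_T
    intro w
    rw [LinearMap.comp_apply, E_T]
    by_cases hw : w ∈ W f N
    · rw [if_pos hw]
    · rw [if_neg hw, map_zero, τ_T, if_neg]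
      intro h1
      rw [h1] at hw
      exact hw (one_mem_W _ _)
  exact LinearMap.congr_fun h x

theorem τ_E_mul (z : k) {f : ℕ → ℕ} (hf : Monotone f) {N : ℕ} {y : H z} (hy : y ∈ HW z f N) (x : H z) :
    τ z (E z f N x * y) = τ z (x * y) := by
  rw [← E_mul_right z hf hy, τ_E]

theorem E_TdTd (z : k) {f : ℕ → ℕ} (hf : Monotone f) {N : ℕ} {d d' : S} (hd : d ∈ D f N) (hd' : d' ∈ D f N) :
    E z f N (T z d⁻¹ * T z d') = if d = d' then 1 else 0 := by
  classical
  rw [E_apply]
  have h : ∀ u ∈ W f N, τ z (T z u⁻¹ * (T z d⁻¹ * T z d')) • T z u =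
      if u = 1 then (if d = d' then 1 else 0) else 0 := by
    intro u hu
    rw [← mul_assoc, T_coset_inv z hf hd (inv_mem_W hu), τ_TT]
    by_cases h1 : u⁻¹ * d⁻¹ * d' = 1
    · rw [if_pos h1]
      have h2 : d * u = d' * 1 := by
        rw [mul_one]
        have := mul_eq_one_iff_eq_inv.1 h1
        rw [← mul_inv_rev] at this
        exact inv_injective this
      obtain ⟨h3, h4⟩ := coset_unique hf hd hd' hu (one_mem_W _ _) h2
      rw [if_pos h4, if_pos h3, h4, one_smul, T_one]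
    · rw [if_neg h1, zero_smul]
      by_cases h2 : u = 1
      · rw [if_pos h2, if_neg]
        intro h3
        apply h1
        rw [h2, h3, inv_one, one_mul, inv_mul_cancel]
      · rw [if_neg h2]
  rw [Finset.sum_congr rfl h, Finset.sum_ite_eq', if_pos (one_mem_W _ _)]

theorem expand_coset (z : k) {f : ℕ → ℕ} (hf : Monotone f) {N : ℕ} {x : H z} (hx : x ∈ HS z N) :
    x = ∑ d ∈ D f N, T z d * E z f N (T z d⁻¹ * x) := by
  classical
  refine Submodule.span_induction (p := fun x _ => x = ∑ d ∈ D f N, T z d * E z f N (T z d⁻¹ * x)) ?_ ?_ ?_ ?_ hx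
  · rintro x ⟨w, hw, rfl⟩
    obtain ⟨d0, hd0, u, hu, hwu⟩ := exists_coset hf (Finset.mem_coe.1 hw)
    have h : ∀ d ∈ D f N, T z d * E z f N (T z d⁻¹ * T z w) = if d = d0 then T z w else 0 := by
      intro d hd
      rw [hwu, ← T_coset z hf hd0 hu, ← mul_assoc (T z d⁻¹), E_mul_right z hf (T_mem_HW z hu),
        E_TdTd z hf hd hd0]
      by_cases h1 : d = d0
      · rw [if_pos h1, if_pos h1, one_mul, h1]
      · rw [if_neg h1, if_neg h1, zero_mul, mul_zero]
    rw [Finset.sum_congr rfl h, Finset.sum_ite_eq', if_pos hd0]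
  · simp only [mul_zero, map_zero, Finset.sum_const_zero]
  · intro x y _ _ hx hy
    simp only [mul_add, map_add, Finset.sum_add_distrib]
    rw [← hx, ← hy]
  · intro c x _ hx
    simp only [mul_smul_comm, map_smul]
    rw [← Finset.smul_sum, ← hx]

theorem expand_coset' (z : k) {f : ℕ → ℕ} (hf : Monotone f) {N : ℕ} {x : H z} (hx : x ∈ HS z N) :
    x = ∑ d ∈ D f N, E z f N (x * T z d) * T z d⁻¹ := by
  classical
  refine Submodule.span_induction (p := fun x _ => x = ∑ d ∈ D f N, E z f N (x * T z d) * T z d⁻¹) ?_ ?_ ?_ ?_ hx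
  · rintro x ⟨w, hw, rfl⟩
    obtain ⟨d0, hd0, u, hu, hwu⟩ := exists_coset hf (inv_mem_W (Finset.mem_coe.1 hw))
    have hw' : w = u⁻¹ * d0⁻¹ := by
      rw [← mul_inv_rev, ← hwu, inv_inv]
    have h : ∀ d ∈ D f N, E z f N (T z w * T z d) * T z d⁻¹ = if d0 = d then T z w else 0 := by
      intro d hd
      rw [hw', ← T_coset_inv z hf hd0 (inv_mem_W hu), mul_assoc (T z u⁻¹),
        E_mul_left z hf (T_mem_HW z (inv_mem_W hu)), E_TdTd z hf hd0 hd]
      by_cases h1 : d0 = d
      · rw [if_pos h1, if_pos h1, mul_one, h1]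
      · rw [if_neg h1, if_neg h1, mul_zero, zero_mul]
    rw [Finset.sum_congr rfl h, Finset.sum_ite_eq, if_pos hd0]
  · simp only [zero_mul, map_zero, Finset.sum_const_zero]
  · intro x y _ _ hx hy
    simp only [add_mul, map_add, Finset.sum_add_distrib]
    rw [← hx, ← hy]
  · intro c x _ hx
    simp only [smul_mul_assoc, map_smul]
    rw [← Finset.smul_sum, ← hx]

theorem E_central (z : k) {f : ℕ → ℕ} (hf : Monotone f) {N : ℕ} {ζ : H z} (hζ : ζ ∈ Zc z N) {y : H z}
    (hy : y ∈ HW z f N) : y * E z f N ζ = E z f N ζ * y := by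
  rw [← E_mul_left z hf hy, ← E_mul_right z hf hy, commute_HW z hf (fun i hi _ => hζ.2 i hi) hy]

/-- the relative trace of a central element of the Young subalgebra is central -/
theorem relTr_central (z : k) {f : ℕ → ℕ} (hf : Monotone f) {N : ℕ} {b : H z} (hb : b ∈ HW z f N)
    (hbc : ∀ y ∈ HW z f N, y * b = b * y) : (∑ d ∈ D f N, T z d * b * T z d⁻¹) ∈ Zc z N := by
  refine ⟨?_, ?_⟩
  · refine Submodule.sum_mem _ fun d hd => ?_
    exact mul_mem_HW z f0_mono (mul_mem_HW z f0_mono (T_mem_HW z (mem_D.1 hd).1) (HW_le_HS z f N hb))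
      (T_mem_HW z (inv_mem_W (mem_D.1 hd).1))
  · intro i hi
    have hg : g z i ∈ HS z N := g_mem_HW z hi rfl
    rw [Finset.mul_sum, Finset.sum_mul]
    have e1 : ∀ d ∈ D f N, g z i * (T z d * b * T z d⁻¹) =
        ∑ d' ∈ D f N, T z d' * b * (E z f N (T z d'⁻¹ * g z i * T z d) * T z d⁻¹) := by
      intro d hd
      have h1 := expand_coset z hf (mul_mem_HW z f0_mono hg (T_mem_HW z (mem_D.1 hd).1))
      rw [← mul_assoc, ← mul_assoc]
      conv_lhs => rw [h1]
      rw [Finset.sum_mul, Finset.sum_mul]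
      refine Finset.sum_congr rfl fun d' _ => ?_
      rw [mul_assoc (T z d'), hbc _ (E_mem z f N _)]
      simp only [mul_assoc]
    have e2 : ∀ d' ∈ D f N, T z d' * b * T z d'⁻¹ * g z i =
        ∑ d ∈ D f N, T z d' * b * (E z f N (T z d'⁻¹ * g z i * T z d) * T z d⁻¹) := by
      intro d' hd'
      have h1 := expand_coset' z hf (mul_mem_HW z f0_mono (T_mem_HW z (inv_mem_W (mem_D.1 hd').1)) hg)
      rw [← Finset.mul_sum, ← h1]
      simp only [mul_assoc]
    rw [Finset.sum_congr rfl e1, Finset.sum_congr rfl e2, Finset.sum_comm]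

end Pool.Agent.HL
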