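import Pool.Agent.Lib.HL21.Path

/-! # Module Chi: primitivity of `X_n` -/

namespace Pool.Agent.HL

open Finset

variable {k : Type*} [CommRing k]

namespace Chi

/-! ### recursions for the words -/

theorem cWord_succ (n m : ℕ) : cWord (n + 2) m = (n, decide (m ≤ n)) :: cWord (n + 1) m := by
  unfold cWord
  rw [show n + 2 - 1 = n + 1 from rfl, show n + 1 - 1 = n from rfl, List.range_succ,
    List.reverse_append]
  rfl

theorem cWord_one (m : ℕ) : cWord 1 m = [] := rfl

theorem mem_cWord {n m : ℕ} {l : Letter} (h : l ∈ cWord n m) :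
    l.1 + 1 < n ∧ l.2 = decide (m ≤ l.1) := by
  unfold cWord at h
  rw [List.mem_map] at h
  obtain ⟨i, hi, rfl⟩ := h
  rw [List.mem_reverse, List.mem_range] at hi
  exact ⟨by simp only; omega, rfl⟩

/-- all letters negative -/
theorem cWord_congr {n m m' : ℕ} (h : n ≤ m + 1) (h' : n ≤ m' + 1) : cWord n m = cWord n m' := by
  unfold cWord
  refine List.map_congr_left ?_
  intro i hi
  rw [List.mem_reverse, List.mem_range] at hi
  have h1 : decide (m ≤ i) = false := by rw [decide_eq_false_iff_not]; omega
  have h2 : decide (m' ≤ i) = false := by rw [decide_eq_false_iff_not]; omega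
  rw [h1, h2]

theorem kapb_one (z : k) : kapb z 1 = 1 := rfl

theorem kapb_succ (z : k) (n : ℕ) : kapb z (n + 2) = gi z n * kapb z (n + 1) := by
  unfold kapb
  rw [cWord_succ, ev_cons, cWord_congr (n := n + 1) (m := n + 2) (m' := n + 1) (by omega) (by omega)]
  congr 1
  unfold evl
  have h : decide (n + 2 ≤ n) = false := by rw [decide_eq_false_iff_not]; omega
  rw [h]
  rfl

theorem X_one (z : k) : X z 1 = 1 := by
  unfold X
  rw [sum_range_one, cWord_one, ev_nil]

theorem X_succ (z : k) (n : ℕ) : X z (n + 2) = g z n * X z (n + 1) + kapb z (n + 2) := by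
  unfold X
  rw [sum_range_succ, mul_sum]
  congr 1
  · refine sum_congr rfl ?_
    intro m hm
    rw [mem_range] at hm
    rw [cWord_succ, ev_cons]
    congr 1
    unfold evl
    have h : decide (m ≤ n) = true := by rw [decide_eq_true_iff]; omega
    rw [h]
    rfl
  · unfold kapb
    rw [cWord_congr (n := n + 2) (m := n + 1) (m' := n + 2) (by omega) (by omega)]

/-! ### the coefficients -/

theorem delA_congr (z : k) (j : ℕ) {A B : Finset ℕ} {l : Letter}
    (h : ∀ x, x ≤ l.1 + 1 → (x ∈ A ↔ x ∈ B)) : delA z j A l = delA z j B l := by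
  have h1 := h l.1 (by omega)
  have h2 := h (l.1 + 1) le_rfl
  have h3 : A.filter (· < l.1) = B.filter (· < l.1) := by
    ext x
    rw [mem_filter, mem_filter]
    constructor
    · rintro ⟨a, b⟩
      exact ⟨(h x (by omega)).1 a, b⟩
    · rintro ⟨a, b⟩
      exact ⟨(h x (by omega)).2 a, b⟩
  have h4 : rk j A l.1 = rk j B l.1 := by
    unfold rk
    rw [h3]
    by_cases hA : l.1 ∈ A
    · rw [if_pos hA, if_pos (h1.1 hA)]
    · rw [if_neg hA, if_neg (fun hB => hA (h1.2 hB))]
  unfold delA
  rw [h4]
  simp only [h1, h2]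

/-- product of the coefficients, all letters negative -/
noncomputable def VV (z : k) (j n : ℕ) (A : Finset ℕ) : H z :=
  ((cWord n n).map (delA z j A)).prod

/-- sum over the words of `X_n` of the product of the coefficients -/
noncomputable def UU (z : k) (j n : ℕ) (A : Finset ℕ) : H z :=
  ∑ m ∈ range n, ((cWord n m).map (delA z j A)).prod

theorem prod_congr_A (z : k) (j n m : ℕ) {A B : Finset ℕ} (h : ∀ x, x < n → (x ∈ A ↔ x ∈ B)) :
    ((cWord n m).map (delA z j A)).prod = ((cWord n m).map (delA z j B)).prod := by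
  congr 1
  refine List.map_congr_left ?_
  intro l hl
  refine delA_congr z j ?_
  intro x hx
  exact h x (lt_of_le_of_lt hx (mem_cWord hl).1)

theorem VV_congr (z : k) (j n : ℕ) {A B : Finset ℕ} (h : ∀ x, x < n → (x ∈ A ↔ x ∈ B)) :
    VV z j n A = VV z j n B := prod_congr_A z j n n h

theorem UU_congr (z : k) (j n : ℕ) {A B : Finset ℕ} (h : ∀ x, x < n → (x ∈ A ↔ x ∈ B)) :
    UU z j n A = UU z j n B := by
  unfold UU
  exact sum_congr rfl (fun m _ => prod_congr_A z j n m h)

theorem VV_succ (z : k) (j n : ℕ) (A : Finset ℕ) :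
    VV z j (n + 2) A = delA z j A (n, false) * VV z j (n + 1) A := by
  unfold VV
  have h : decide (n + 2 ≤ n) = false := by rw [decide_eq_false_iff_not]; omega
  rw [cWord_succ, List.map_cons, List.prod_cons, h,
    cWord_congr (n := n + 1) (m := n + 2) (m' := n + 1) (by omega) (by omega)]

theorem UU_succ (z : k) (j n : ℕ) (A : Finset ℕ) :
    UU z j (n + 2) A = delA z j A (n, true) * UU z j (n + 1) A + VV z j (n + 2) A := by
  unfold UU
  rw [sum_range_succ, mul_sum]
  congr 1
  · refine sum_congr rfl ?_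
    intro m hm
    rw [mem_range] at hm
    have h : decide (m ≤ n) = true := by rw [decide_eq_true_iff]; omega
    rw [cWord_succ, List.map_cons, List.prod_cons, h]
  · unfold VV
    rw [cWord_congr (n := n + 2) (m := n + 1) (m' := n + 2) (by omega) (by omega)]

/-! values of `delA` at the top position, `B ⊆ range n` -/

theorem filt_eq {n : ℕ} {B : Finset ℕ} (hB : B ⊆ range n) : B.filter (· < n) = B := by
  refine filter_true_of_mem ?_
  intro x hx
  exact mem_range.1 (hB hx)

theorem filt_ins {n : ℕ} {B : Finset ℕ} (hB : B ⊆ range n) :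
    (insert n B).filter (· < n) = B := by
  rw [filter_insert, if_neg (lt_irrefl n), filt_eq hB]

theorem filt_ins1 {n : ℕ} {B : Finset ℕ} (hB : B ⊆ range n) :
    (insert (n + 1) B).filter (· < n) = B := by
  rw [filter_insert, if_neg (by omega), filt_eq hB]

theorem filt_ins2 {n : ℕ} {B : Finset ℕ} (hB : B ⊆ range n) :
    (insert (n + 1) (insert n B)).filter (· < n) = B := by
  rw [filter_insert, if_neg (by omega), filt_ins hB]

theorem nmem {n : ℕ} {B : Finset ℕ} (hB : B ⊆ range n) {x : ℕ} (hx : n ≤ x) : x ∉ B := by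
  intro h
  have := mem_range.1 (hB h)
  omega

/-- colours `false, false` -/
theorem delA_ff (z : k) (j : ℕ) {n : ℕ} {B : Finset ℕ} (hB : B ⊆ range n) (b : Bool) :
    delA z j B (n, b) = evl z (n - B.card, b) := by
  have h1 : n ∉ B := nmem hB le_rfl
  have h2 : n + 1 ∉ B := nmem hB (by omega)
  unfold delA
  rw [if_pos (by simp only [h1, h2])]
  unfold rk
  rw [if_neg h1, filt_eq hB]

/-- colours `true, false` -/
theorem delA_tf (z : k) (j : ℕ) {n : ℕ} {B : Finset ℕ} (hB : B ⊆ range n) (b : Bool) :
    delA z j (insert n B) (n, b) = if b then z • 1 else 0 := by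
  have h1 : n ∈ insert n B := mem_insert_self _ _
  have h2 : n + 1 ∉ insert n B := by
    rw [mem_insert, not_or]
    exact ⟨by omega, nmem hB (by omega)⟩
  unfold delA
  rw [if_neg (by simp only [h1, h2]; simp)]
  cases b <;> simp [h1]

/-- colours `false, true` -/
theorem delA_ft (z : k) (j : ℕ) {n : ℕ} {B : Finset ℕ} (hB : B ⊆ range n) (b : Bool) :
    delA z j (insert (n + 1) B) (n, b) = if b then 0 else (-z) • 1 := by
  have h1 : n ∉ insert (n + 1) B := by
    rw [mem_insert, not_or]
    exact ⟨by omega, nmem hB le_rfl⟩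
  have h2 : n + 1 ∈ insert (n + 1) B := mem_insert_self _ _
  unfold delA
  rw [if_neg (by simp only [h1, h2]; simp)]
  cases b <;> simp [h1]

/-- colours `true, true` -/
theorem delA_tt (z : k) (j : ℕ) {n : ℕ} {B : Finset ℕ} (hB : B ⊆ range n) (b : Bool) :
    delA z j (insert (n + 1) (insert n B)) (n, b) = evl z (j + B.card, b) := by
  have h1 : n ∈ insert (n + 1) (insert n B) := by simp
  have h2 : n + 1 ∈ insert (n + 1) (insert n B) := by simp
  unfold delA
  rw [if_pos (by simp only [h1, h2])]
  unfold rk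
  rw [if_pos h1, filt_ins2 hB]

/-! ### splitting the sum over the subsets according to the last position -/

theorem split {M : Type*} [AddCommMonoid M] (n c : ℕ) (F : Finset ℕ → M) :
    ∑ A ∈ powersetCard (c + 1) (range (n + 1)), F A =
      ∑ A ∈ powersetCard (c + 1) (range n), F A +
        ∑ A ∈ powersetCard c (range n), F (insert n A) := by
  rw [range_add_one, powersetCard_succ_insert (by simp : n ∉ range n), sum_union, sum_image]
  · intro a ha b hb h
    have ha' : a ⊆ range n := (mem_powersetCard.1 ha).1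
    have hb' : b ⊆ range n := (mem_powersetCard.1 hb).1
    have h2 : (insert n a).erase n = (insert n b).erase n := by rw [h]
    rwa [erase_insert (nmem ha' le_rfl), erase_insert (nmem hb' le_rfl)] at h2
  · rw [disjoint_left]
    intro a ha hb
    rw [mem_image] at hb
    obtain ⟨b, hb, rfl⟩ := hb
    exact nmem (mem_powersetCard.1 ha).1 le_rfl (mem_insert_self n b)

/-- sum over the sets with last position of colour `false` (`n+1` positions, `c` of colour `true`) -/
noncomputable def S0 (z : k) (F : ℕ → Finset ℕ → H z) (n c : ℕ) : H z :=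
  ∑ A ∈ powersetCard c (range n), F (n + 1) A

/-- last position of colour `true` (`n+1` positions, `c+1` of colour `true`) -/
noncomputable def S1 (z : k) (F : ℕ → Finset ℕ → H z) (n c : ℕ) : H z :=
  ∑ A ∈ powersetCard c (range n), F (n + 1) (insert n A)

/-- general recursions -/
theorem S0_rec (z : k) (j : ℕ) (F F' : ℕ → Finset ℕ → H z) (b : Bool)
    (hF : ∀ n A, F (n + 2) A = delA z j A (n, b) * F (n + 1) A + F' (n + 2) A) (n c : ℕ) :
    S0 z F (n + 1) (c + 1) = evl z (n - (c + 1), b) * S0 z F n (c + 1) +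
      (if b then z else 0) • S1 z F n c + S0 z F' (n + 1) (c + 1) := by
  unfold S0 S1
  rw [sum_congr rfl (fun A _ => hF n A), sum_add_distrib]
  congr 1
  rw [split, mul_sum, smul_sum]
  congr 1
  · refine sum_congr rfl ?_
    intro A hA
    rw [mem_powersetCard] at hA
    rw [delA_ff z j hA.1, hA.2]
  · refine sum_congr rfl ?_
    intro A hA
    rw [mem_powersetCard] at hA
    rw [delA_tf z j hA.1]
    cases b <;> simp

theorem S0_rec0 (z : k) (j : ℕ) (F F' : ℕ → Finset ℕ → H z) (b : Bool)
    (hF : ∀ n A, F (n + 2) A = delA z j A (n, b) * F (n + 1) A + F' (n + 2) A) (n : ℕ) :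
    S0 z F (n + 1) 0 = evl z (n, b) * S0 z F n 0 + S0 z F' (n + 1) 0 := by
  unfold S0
  rw [powersetCard_zero, powersetCard_zero, sum_singleton, sum_singleton, sum_singleton, hF,
    delA_ff z j (empty_subset _), card_empty, Nat.sub_zero]

theorem S1_rec (z : k) (j : ℕ) (F F' : ℕ → Finset ℕ → H z) (b : Bool)
    (hc : ∀ n A B, (∀ x, x < n → (x ∈ A ↔ x ∈ B)) → F n A = F n B)
    (hF : ∀ n A, F (n + 2) A = delA z j A (n, b) * F (n + 1) A + F' (n + 2) A) (n c : ℕ) :
    S1 z F (n + 1) (c + 1) = (if b then 0 else -z) • S0 z F n (c + 1) +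
      evl z (j + c, b) * S1 z F n c + S1 z F' (n + 1) (c + 1) := by
  have hcc : ∀ A : Finset ℕ, F (n + 1) (insert (n + 1) A) = F (n + 1) A := by
    intro A
    refine hc _ _ _ ?_
    intro x hx
    rw [mem_insert]
    constructor
    · rintro (h | h)
      · omega
      · exact h
    · exact Or.inr
  unfold S0 S1
  rw [sum_congr rfl (fun A _ => hF n (insert (n + 1) A)), sum_add_distrib]
  congr 1
  rw [split, mul_sum, smul_sum]
  congr 1
  · refine sum_congr rfl ?_
    intro A hA
    rw [mem_powersetCard] at hA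
    rw [hcc, delA_ft z j hA.1]
    cases b <;> simp
  · refine sum_congr rfl ?_
    intro A hA
    rw [mem_powersetCard] at hA
    rw [hcc, delA_tt z j hA.1, hA.2]

theorem S1_rec0 (z : k) (j : ℕ) (F F' : ℕ → Finset ℕ → H z) (b : Bool)
    (hc : ∀ n A B, (∀ x, x < n → (x ∈ A ↔ x ∈ B)) → F n A = F n B)
    (hF : ∀ n A, F (n + 2) A = delA z j A (n, b) * F (n + 1) A + F' (n + 2) A) (n : ℕ) :
    S1 z F (n + 1) 0 = (if b then 0 else -z) • S0 z F n 0 + S1 z F' (n + 1) 0 := by
  have hcc : ∀ A : Finset ℕ, F (n + 1) (insert (n + 1) A) = F (n + 1) A := by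
    intro A
    refine hc _ _ _ ?_
    intro x hx
    rw [mem_insert]
    constructor
    · rintro (h | h)
      · omega
      · exact h
    · exact Or.inr
  unfold S0 S1
  rw [powersetCard_zero, powersetCard_zero, sum_singleton, sum_singleton, sum_singleton, hF,
    delA_ft z j (empty_subset _), hcc]
  cases b <;> simp

/-- the zero function -/
noncomputable def Z0 (z : k) : ℕ → Finset ℕ → H z := fun _ _ => 0

theorem VV_rec (z : k) (j n : ℕ) (A : Finset ℕ) :
    VV z j (n + 2) A = delA z j A (n, false) * VV z j (n + 1) A + Z0 z (n + 2) A := by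
  rw [VV_succ]; simp [Z0]

theorem S0_Z0 (z : k) (n c : ℕ) : S0 z (Z0 z) n c = 0 := by simp [S0, Z0]
theorem S1_Z0 (z : k) (n c : ℕ) : S1 z (Z0 z) n c = 0 := by simp [S1, Z0]

/-! ### evaluation of the sums -/

theorem V0 (z : k) (j n : ℕ) :
    S0 z (VV z j) n 0 = kapb z (n + 1) ∧ ∀ c, S0 z (VV z j) n (c + 1) = 0 := by
  induction n with
  | zero =>
    refine ⟨?_, ?_⟩
    · simp [S0, VV, cWord_one, kapb_one]
    · intro c
      unfold S0
      rw [range_zero, powersetCard_eq_empty.2 (by simp), sum_empty]
  | succ n ih =>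
    refine ⟨?_, ?_⟩
    · rw [S0_rec0 z j (VV z j) (Z0 z) false (VV_rec z j), ih.1, S0_Z0, add_zero, kapb_succ]
      rfl
    · intro c
      rw [S0_rec z j (VV z j) (Z0 z) false (VV_rec z j), ih.2, S0_Z0]
      simp

theorem V1 (z : k) (j n : ℕ) : ∀ c,
    (c < n → S1 z (VV z j) n c = (-z) • (sh z j (kapb z (c + 1)) * kapb z (n - c))) ∧
      (c = n → S1 z (VV z j) n c = sh z j (kapb z (n + 1))) := by
  induction n with
  | zero =>
    intro c
    refine ⟨fun h => absurd h (by omega), ?_⟩
    rintro rfl
    simp [S1, VV, cWord_one, kapb_one]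
  | succ n ih =>
    intro c
    rcases c with _ | c
    · refine ⟨fun _ => ?_, fun h => absurd h (by omega)⟩
      rw [S1_rec0 z j (VV z j) (Z0 z) false (fun n A B => VV_congr z j n) (VV_rec z j), S1_Z0,
        (V0 z j n).1, kapb_one, map_one]
      simp
    · rw [S1_rec z j (VV z j) (Z0 z) false (fun n A B => VV_congr z j n) (VV_rec z j), S1_Z0,
        (V0 z j n).2]
      have he : evl z (j + c, false) = sh z j (gi z c) := by rw [sh_gi]; rfl
      refine ⟨fun h => ?_, fun h => ?_⟩
      · rw [(ih c).1 (by omega), he, kapb_succ, map_mul, show n + 1 - (c + 1) = n - c by omega]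
        simp [mul_assoc]
      · rw [(ih c).2 (by omega), he, ← map_mul, show n = c by omega, ← kapb_succ]
        simp

theorem U1 (z : k) (j n : ℕ) : ∀ c,
    (c < n → S1 z (UU z j) n c = (-z) • (sh z j (X z (c + 1)) * kapb z (n - c))) ∧
      (c = n → S1 z (UU z j) n c = sh z j (X z (n + 1))) := by
  induction n with
  | zero =>
    intro c
    refine ⟨fun h => absurd h (by omega), ?_⟩
    rintro rfl
    simp [S1, UU, cWord_one, X_one]
  | succ n ih =>
    intro c
    rcases c with _ | c
    · refine ⟨fun _ => ?_, fun h => absurd h (by omega)⟩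
      rw [S1_rec0 z j (UU z j) (VV z j) true (fun n A B => UU_congr z j n) (UU_succ z j),
        (V1 z j (n + 1) 0).1 (by omega), kapb_one, X_one]
      simp
    · rw [S1_rec z j (UU z j) (VV z j) true (fun n A B => UU_congr z j n) (UU_succ z j)]
      have he : evl z (j + c, true) = sh z j (g z c) := by rw [sh_g]; rfl
      refine ⟨fun h => ?_, fun h => ?_⟩
      · rw [(V1 z j (n + 1) (c + 1)).1 h, (ih c).1 (by omega), he, X_succ, map_add, map_mul,
          show n + 1 - (c + 1) = n - c by omega]
        simp [mul_assoc, add_mul]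
      · rw [(V1 z j (n + 1) (c + 1)).2 h, (ih c).2 (by omega), he, X_succ, map_add, map_mul]
        have hc : c = n := by omega
        subst hc
        simp

theorem U0 (z : k) (j n : ℕ) : S0 z (UU z j) n 0 = X z (n + 1) ∧
    ∀ c, c + 1 ≤ n → n ≤ c + j →
      S0 z (UU z j) n (c + 1) = z • (sh z j (X z (c + 1)) * kapb z (n - c)) := by
  induction n with
  | zero =>
    refine ⟨?_, ?_⟩
    · simp [S0, UU, cWord_one, X_one]
    · intro c h; omega
  | succ n ih =>
    refine ⟨?_, ?_⟩
    · rw [S0_rec0 z j (UU z j) (VV z j) true (UU_succ z j), ih.1, (V0 z j (n + 1)).1, X_succ]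
      rfl
    · intro c hc1 hc2
      rw [S0_rec z j (UU z j) (VV z j) true (UU_succ z j),
        (V0 z j (n + 1)).2]
      rcases Nat.lt_or_ge c n with hc | hc
      · rw [ih.2 c (by omega) (by omega), (U1 z j n c).1 hc]
        obtain ⟨r, hr⟩ : ∃ r, n = c + 1 + r := ⟨n - (c + 1), by omega⟩
        have e1 : n - (c + 1) = r := by omega
        have e2 : n - c = r + 1 := by omega
        have e3 : n + 1 - c = r + 2 := by omega
        rw [e1, e2, e3, kapb_succ]
        have hcomm : evl z (r, true) * sh z j (X z (c + 1)) = sh z j (X z (c + 1)) * g z r := by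
          show g z r * sh z j (X z (c + 1)) = _
          exact sh_commute z (m := j) (n := r + 2) (by omega)
            (g_mem_HW z (f := f0) (N := r + 2) (by omega) rfl) _
        rw [mul_smul_comm, ← mul_assoc, hcomm]
        unfold gi
        simp only [if_true, add_zero, sub_mul, mul_sub, smul_sub, smul_mul_assoc, mul_smul_comm,
          one_mul, neg_smul, smul_neg, mul_assoc]
        abel
      · have hcn : c = n := by omega
        subst hcn
        have e0 : S0 z (UU z j) c (c + 1) = 0 := by
          unfold S0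
          rw [powersetCard_eq_empty.2 (by simp), sum_empty]
        rw [e0, (U1 z j c c).2 rfl, show c + 1 - c = 1 by omega, kapb_one]
        simp

end Chi

/-- the sum over all two-colourings with `j` positions of colour `false` vanishes exactly -/
theorem chi_sum (z : k) {n j : ℕ} (h0 : 0 < j) (hj : j < n) :
    ∑ A ∈ powersetCard (n - j) (range n), ∑ m ∈ range n, ((cWord n m).map (delA z j A)).prod = 0 := by
  obtain ⟨n, rfl⟩ : ∃ r, n = r + 1 := ⟨n - 1, by omega⟩
  obtain ⟨c, hc⟩ : ∃ c, n = c + j := ⟨n - j, by omega⟩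
  rw [show n + 1 - j = c + 1 by omega, Chi.split]
  have h1 := (Chi.U0 z j n).2 c (by omega) (by omega)
  have h2 := (Chi.U1 z j n c).1 (by omega)
  unfold Chi.S0 Chi.UU at h1
  unfold Chi.S1 Chi.UU at h2
  rw [h1, h2]
  simp

/-- `X_n` is primitive: it is orthogonal to all relative traces. -/
theorem chi_X (z : k) {n j : ℕ} (h0 : 0 < j) (hj : j < n) {y : H z} (hy : y ∈ HW z (fj j) n) :
    τ z (X z n * TrS z n y) = 0 := by
  rw [Tr_trans z (fj_mono j) y]
  set b := Tr z (W (fj j) n) y with hb
  have hbm : b ∈ HW z (fj j) n := Tr_mem z (fj_mono j) hy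
  rw [mul_sum, map_sum]
  have key : ∀ d ∈ D (fj j) n, τ z (X z n * (T z d * b * T z d⁻¹)) =
      (fun A => τ z (b * ∑ m ∈ range n, ((cWord n m).map (delA z j A)).prod)) (colset j n d) := by
    intro d hd
    show _ = τ z (b * ∑ m ∈ range n, ((cWord n m).map (delA z j (colset j n d))).prod)
    rw [mul_sum, map_sum]
    unfold X
    rw [sum_mul, map_sum]
    refine sum_congr rfl ?_
    intro m _
    have hdec : ((cWord n m).map Prod.fst).Pairwise (· > ·) := by
      unfold cWord
      rw [List.map_map]
      have : (Prod.fst ∘ fun i : ℕ => (i, decide (m ≤ i))) = id := by funext i; rfl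
      rw [this, List.map_id, List.pairwise_reverse]
      exact List.pairwise_lt_range
    have hp := path z hj.le hd (cWord_valid n m) hdec hbm
    have e1 : ((cWord n m).map (del z j d)) = ((cWord n m).map (delA z j (colset j n d))) := by
      refine List.map_congr_left ?_
      intro l hl
      exact del_eq_delA z hj.le hd (Chi.mem_cWord hl).1
    rw [← e1, ← hp, mul_assoc (T z d), ← mul_assoc (ev z _), τ_comm]
    simp only [mul_assoc]
  rw [sum_congr rfl key, sum_D hj.le
    (fun A => τ z (b * ∑ m ∈ range n, ((cWord n m).map (delA z j A)).prod)), ← map_sum, ← mul_sum,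
    chi_sum z h0 hj, mul_zero, map_zero]

end Pool.Agent.HL
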