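import Mathlib

/-!
# MP_21a901_gt: the Hecke algebra of the finitary permutations of ℕ
-/


namespace Pool.Agent.HL

open Finset

/-- The group of finitary permutations of `ℕ`. -/
def Sf : Subgroup (Equiv.Perm ℕ) where
  carrier := {w | ∃ N, ∀ i, N ≤ i → w i = i}
  one_mem' := ⟨0, fun _ _ => rfl⟩
  mul_mem' := by
    rintro a b ⟨N, hN⟩ ⟨M, hM⟩
    refine ⟨max N M, fun i hi => ?_⟩
    rw [Equiv.Perm.mul_apply, hM i (le_trans (le_max_right _ _) hi), hN i (le_trans (le_max_left _ _) hi)]
  inv_mem' := by
    rintro a ⟨N, hN⟩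
    refine ⟨N, fun i hi => ?_⟩
    rw [Equiv.Perm.inv_eq_iff_eq]
    exact (hN i hi).symm

/-- The type of finitary permutations. -/
abbrev S := ↥Sf

noncomputable instance : DecidableEq S := Classical.decEq _

/-- The simple transposition exchanging `i` and `i+1`. -/
def s (i : ℕ) : S := ⟨Equiv.swap i (i+1), ⟨i+2, fun j hj => Equiv.swap_apply_of_ne_of_ne (by omega) (by omega)⟩⟩

theorem s_apply (i x : ℕ) : (s i).1 x = if x = i then i+1 else if x = i+1 then i else x := by
  simp only [s]
  rw [Equiv.swap_apply_def]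

theorem s_mul_self (i : ℕ) : s i * s i = 1 := by
  ext x
  simp [s]

theorem s_inv (i : ℕ) : (s i)⁻¹ = s i := by
  rw [inv_eq_iff_mul_eq_one, s_mul_self]

theorem inv_apply_eq_symm (w : S) (x : ℕ) : (w⁻¹).1 x = w.1.symm x := rfl

theorem inv_symm_apply (w : S) (x : ℕ) : (w⁻¹).1.symm x = w.1 x := rfl

theorem mul_app (u v : S) (x : ℕ) : (u * v).1 x = u.1 (v.1 x) := rfl

theorem mul_symm_app (u v : S) (x : ℕ) : (u * v).1.symm x = v.1.symm (u.1.symm x) := rfl

theorem one_app (x : ℕ) : (1 : S).1 x = x := rfl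

theorem one_symm_app (x : ℕ) : (1 : S).1.symm x = x := rfl

theorem s_symm (i x : ℕ) : (s i).1.symm x = (s i).1 x := by
  rw [← inv_apply_eq_symm, s_inv]

theorem s_self (i : ℕ) : (s i).1 i = i + 1 := by simp [s_apply]

theorem s_succ (i : ℕ) : (s i).1 (i+1) = i := by simp [s_apply]

theorem s_other {i x : ℕ} (h1 : x ≠ i) (h2 : x ≠ i+1) : (s i).1 x = x := by simp [s_apply, h1, h2]

theorem s_s_mul (i : ℕ) (w : S) : s i * (s i * w) = w := by rw [← mul_assoc, s_mul_self, one_mul]

theorem mul_s_s (i : ℕ) (w : S) : w * s i * s i = w := by rw [mul_assoc, s_mul_self, mul_one]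

theorem S_ext {u v : S} (h : ∀ x, u.1 x = v.1 x) : u = v := Subtype.ext (Equiv.ext h)

theorem s_lt_iff {i x y : ℕ} (h : ¬ (x = i ∧ y = i+1)) (h' : ¬ (x = i+1 ∧ y = i)) :
    (s i).1 x < (s i).1 y ↔ x < y := by
  rw [s_apply, s_apply]
  split_ifs <;> omega

/-! ### Length -/

/-- The length: number of inversions. -/
noncomputable def len (w : S) : ℕ := Set.ncard {x : ℕ × ℕ | x.1 < x.2 ∧ w.1 x.2 < w.1 x.1}

theorem app_lt {w : S} {N : ℕ} (h : ∀ i, N ≤ i → w.1 i = i) {i : ℕ} (hi : i < N) : w.1 i < N := by
  by_contra hc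
  rw [not_lt] at hc
  have := h _ hc
  have := w.1.injective this
  omega

theorem symm_fix {w : S} {N : ℕ} (h : ∀ i, N ≤ i → w.1 i = i) {i : ℕ} (hi : N ≤ i) : w.1.symm i = i := by
  rw [Equiv.symm_apply_eq]
  exact (h i hi).symm

theorem symm_lt {w : S} {N : ℕ} (h : ∀ i, N ≤ i → w.1 i = i) {i : ℕ} (hi : i < N) : w.1.symm i < N := by
  by_contra hc
  rw [not_lt] at hc
  have := h _ hc
  rw [Equiv.apply_symm_apply] at this
  omega

theorem inv_finite (w : S) : {x : ℕ × ℕ | x.1 < x.2 ∧ w.1 x.2 < w.1 x.1}.Finite := by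
  obtain ⟨N, hN⟩ := w.2
  refine Set.Finite.subset (Finset.finite_toSet (range N ×ˢ range N)) ?_
  rintro ⟨a, b⟩ ⟨h1, h2⟩
  simp only at h1 h2
  rw [Finset.mem_coe, Finset.mem_product, mem_range, mem_range]
  simp only
  have hb : b < N := by
    by_contra hc
    rw [not_lt] at hc
    have hwb := hN b hc
    rcases lt_or_ge a N with ha | ha
    · have := app_lt (w := w) hN ha
      omega
    · have := hN a ha
      omega
  omega

theorem len_one : len 1 = 0 := by
  rw [len]
  have : {x : ℕ × ℕ | x.1 < x.2 ∧ (1 : S).1 x.2 < (1 : S).1 x.1} = ∅ := by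
    ext ⟨a, b⟩
    simp only [Set.mem_ofPred_eq, one_app, Set.mem_empty_iff_false, iff_false]
    omega
  rw [this, Set.ncard_empty]

theorem len_s_lt {w : S} {i : ℕ} (h : w.1.symm i < w.1.symm (i+1)) : len (s i * w) = len w + 1 := by
  have : {x : ℕ × ℕ | x.1 < x.2 ∧ (s i * w).1 x.2 < (s i * w).1 x.1} =
      insert (w.1.symm i, w.1.symm (i+1)) {x : ℕ × ℕ | x.1 < x.2 ∧ w.1 x.2 < w.1 x.1} := by
    ext ⟨a, b⟩
    simp only [Set.mem_ofPred_eq, mul_app, Set.mem_insert_iff, Prod.mk.injEq]
    by_cases h1 : w.1 b = i ∧ w.1 a = i + 1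
    · have hb : b = w.1.symm i := by rw [← h1.1, Equiv.symm_apply_apply]
      have ha : a = w.1.symm (i+1) := by rw [← h1.2, Equiv.symm_apply_apply]
      constructor
      · rintro ⟨hab, -⟩
        omega
      · rintro (⟨h3, h4⟩ | ⟨hab, -⟩)
        · rw [← ha] at h4
          rw [← hb] at h3
          omega
        · omega
    by_cases h2 : w.1 b = i + 1 ∧ w.1 a = i
    · have hb : b = w.1.symm (i+1) := by rw [← h2.1, Equiv.symm_apply_apply]
      have ha : a = w.1.symm i := by rw [← h2.2, Equiv.symm_apply_apply]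
      constructor
      · intro _
        left
        exact ⟨ha, hb⟩
      · intro _
        rw [h2.1, h2.2, s_self, s_succ]
        omega
    · rw [s_lt_iff h1 h2]
      constructor
      · intro hh
        right
        exact hh
      · rintro (⟨h3, h4⟩ | hh)
        · exfalso
          apply h2
          rw [h3, h4, Equiv.apply_symm_apply, Equiv.apply_symm_apply]
          exact ⟨rfl, rfl⟩
        · exact hh
  rw [len, this, Set.ncard_insert_of_notMem _ (inv_finite w), len]
  rintro ⟨_, h2⟩
  simp only [Equiv.apply_symm_apply] at h2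
  omega

theorem len_s_gt {w : S} {i : ℕ} (h : w.1.symm (i+1) < w.1.symm i) : len (s i * w) + 1 = len w := by
  have := len_s_lt (w := s i * w) (i := i) (by
    rw [mul_symm_app, mul_symm_app, s_symm, s_symm, s_self, s_succ]
    exact h)
  rw [s_s_mul] at this
  exact this.symm

theorem exists_descent {w : S} (hw : w ≠ 1) : ∃ i, w.1.symm (i+1) < w.1.symm i := by
  by_contra hc
  push Not at hc
  apply hw
  have hm : StrictMono w.1.symm := strictMono_nat_of_lt_succ (fun i => by
    refine lt_of_le_of_ne (hc i) (fun h => ?_)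
    have := w.1.symm.injective h
    omega)
  have hm' : StrictMono w.1 := by
    intro a b hab
    rw [← hm.lt_iff_lt, Equiv.symm_apply_apply, Equiv.symm_apply_apply]
    exact hab
  apply S_ext
  intro x
  have h1 := hm.le_apply (x := w.1 x)
  have h2 := hm'.le_apply (x := x)
  rw [Equiv.symm_apply_apply] at h1
  rw [one_app]
  omega

/-- Induction on finitary permutations through left multiplication by ascents. -/
theorem S_ind {P : S → Prop} (h1 : P 1)
    (h : ∀ (i : ℕ) (w : S), w.1.symm i < w.1.symm (i+1) → P w → P (s i * w)) : ∀ w, P w := by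
  intro w
  induction hn : len w using Nat.strong_induction_on generalizing w with
  | _ n ih =>
    by_cases hw : w = 1
    · rw [hw]; exact h1
    obtain ⟨i, hi⟩ := exists_descent hw
    have hl := len_s_gt hi
    have := h i (s i * w) (by
      rw [mul_symm_app, mul_symm_app, s_symm, s_symm, s_self, s_succ]
      exact hi) (ih (len (s i * w)) (by omega) _ rfl)
    rw [s_s_mul] at this
    exact this

/-- Induction on finitary permutations through right multiplication by ascents. -/
theorem S_ind_right {P : S → Prop} (h1 : P 1)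
    (h : ∀ (i : ℕ) (w : S), w.1 i < w.1 (i+1) → P w → P (w * s i)) : ∀ w, P w := by
  intro w
  have := S_ind (P := fun w => P w⁻¹) (by simpa using h1) (fun i w hw hP => by
    have := h i w⁻¹ hw hP
    rw [mul_inv_rev, s_inv]
    exact this) w⁻¹
  simpa using this

variable {k : Type*} [CommRing k]

/-- Left multiplication operator. -/
noncomputable def Lop (z : k) (i : ℕ) : (S →₀ k) →ₗ[k] (S →₀ k) :=
  Finsupp.linearCombination k (fun w : S =>
    if w.1.symm i < w.1.symm (i+1) then Finsupp.single (s i * w) (1:k)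
    else Finsupp.single (s i * w) 1 + Finsupp.single w z)

/-- Right multiplication operator. -/
noncomputable def Rop (z : k) (j : ℕ) : (S →₀ k) →ₗ[k] (S →₀ k) :=
  Finsupp.linearCombination k (fun w : S =>
    if w.1 j < w.1 (j+1) then Finsupp.single (w * s j) (1:k)
    else Finsupp.single (w * s j) 1 + Finsupp.single w z)

/-- `f` commutes with all right operators. -/
def Cen (z : k) (f : (S →₀ k) →ₗ[k] (S →₀ k)) : Prop := ∀ j x, f (Rop z j x) = Rop z j (f x)

theorem Lop_single (z : k) (i : ℕ) (w : S) : Lop z i (Finsupp.single w 1) =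
    if w.1.symm i < w.1.symm (i+1) then Finsupp.single (s i * w) (1:k)
    else Finsupp.single (s i * w) 1 + z • Finsupp.single w 1 := by
  rw [Lop, Finsupp.linearCombination_single, one_smul, Finsupp.smul_single, smul_eq_mul, mul_one]

theorem Rop_single (z : k) (j : ℕ) (w : S) : Rop z j (Finsupp.single w 1) =
    if w.1 j < w.1 (j+1) then Finsupp.single (w * s j) (1:k)
    else Finsupp.single (w * s j) 1 + z • Finsupp.single w 1 := by
  rw [Rop, Finsupp.linearCombination_single, one_smul, Finsupp.smul_single, smul_eq_mul, mul_one]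

theorem lin_ext {M : Type*} [AddCommGroup M] [Module k M] {f g : (S →₀ k) →ₗ[k] M}
    (h : ∀ w, f (Finsupp.single w 1) = g (Finsupp.single w 1)) : f = g := by
  refine Finsupp.lhom_ext (fun w b => ?_)
  have : Finsupp.single w b = b • Finsupp.single w (1:k) := by
    rw [Finsupp.smul_single, smul_eq_mul, mul_one]
  rw [this, map_smul, map_smul, h]

theorem Cen_of_single {z : k} {f : (S →₀ k) →ₗ[k] (S →₀ k)}
    (h : ∀ j w, f (Rop z j (Finsupp.single w 1)) = Rop z j (f (Finsupp.single w 1))) : Cen z f := by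
  intro j x
  have : f ∘ₗ Rop z j = Rop z j ∘ₗ f := lin_ext (fun w => h j w)
  exact LinearMap.congr_fun this x

theorem Cen_Lop (z : k) (i : ℕ) : Cen z (Lop z i) := by
  apply Cen_of_single
  intro j w
  rw [Rop_single, Lop_single]
  by_cases hE : w.1 j = i ∧ w.1 (j+1) = i+1
  · -- exceptional ascent
    have h1 : w.1.symm i = j := by rw [← hE.1, Equiv.symm_apply_apply]
    have h2 : w.1.symm (i+1) = j+1 := by rw [← hE.2, Equiv.symm_apply_apply]
    have hsw : s i * w = w * s j := by
      apply S_ext
      intro x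
      rw [mul_app, mul_app]
      by_cases hx : x = j
      · rw [hx, s_self, hE.1, hE.2, s_self]
      by_cases hx' : x = j+1
      · rw [hx', s_succ, hE.1, hE.2, s_succ]
      · rw [s_other hx hx', s_other]
        · intro h; apply hx; rw [← h1, ← h, Equiv.symm_apply_apply]
        · intro h; apply hx'; rw [← h2, ← h, Equiv.symm_apply_apply]
    rw [if_pos (by omega), if_pos (by omega), hsw, Lop_single, Rop_single, mul_symm_app, mul_symm_app,
      h1, h2, s_symm, s_symm, s_self, s_succ, if_neg (by omega), mul_app, mul_app, s_self, s_succ,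
      if_neg (by omega), ← mul_assoc, hsw]
  by_cases hE' : w.1 j = i+1 ∧ w.1 (j+1) = i
  · have h1 : w.1.symm i = j+1 := by rw [← hE'.2, Equiv.symm_apply_apply]
    have h2 : w.1.symm (i+1) = j := by rw [← hE'.1, Equiv.symm_apply_apply]
    have hsw : s i * w = w * s j := by
      apply S_ext
      intro x
      rw [mul_app, mul_app]
      by_cases hx : x = j
      · rw [hx, s_self, hE'.1, hE'.2, s_succ]
      by_cases hx' : x = j+1
      · rw [hx', s_succ, hE'.1, hE'.2, s_self]
      · rw [s_other hx hx', s_other]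
        · intro h; apply hx'; rw [← h1, ← h, Equiv.symm_apply_apply]
        · intro h; apply hx; rw [← h2, ← h, Equiv.symm_apply_apply]
    have e1 : Lop z i (Finsupp.single (w * s j) 1) = Finsupp.single w (1:k) := by
      rw [Lop_single, mul_symm_app, mul_symm_app, h1, h2, s_symm, s_symm, s_self, s_succ,
        if_pos (by omega), ← mul_assoc, hsw, mul_s_s]
    have e2 : Lop z i (Finsupp.single w 1) = Finsupp.single (w * s j) (1:k) + z • Finsupp.single w 1 := by
      rw [Lop_single, h1, h2, if_neg (by omega), hsw]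
    have e3 : Rop z j (Finsupp.single (w * s j) 1) = Finsupp.single w (1:k) := by
      rw [Rop_single, mul_app, mul_app, s_self, s_succ, hE'.1, hE'.2, if_pos (by omega), mul_s_s]
    have e4 : Rop z j (Finsupp.single w 1) = Finsupp.single (w * s j) (1:k) + z • Finsupp.single w 1 := by
      rw [Rop_single, hE'.1, hE'.2, if_neg (by omega)]
    rw [h1, h2, hE'.1, hE'.2, if_neg (by omega), if_neg (by omega), hsw, map_add, map_add, map_smul,
      map_smul, e1, e2, e3, e4]
  · -- generic case
    have hA : ((w * s j).1.symm i < (w * s j).1.symm (i+1)) ↔ (w.1.symm i < w.1.symm (i+1)) := by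
      rw [mul_symm_app, mul_symm_app, s_symm, s_symm]
      apply s_lt_iff
      · rintro ⟨h1, h2⟩
        apply hE
        rw [Equiv.symm_apply_eq] at h1 h2
        exact ⟨h1.symm, h2.symm⟩
      · rintro ⟨h1, h2⟩
        apply hE'
        rw [Equiv.symm_apply_eq] at h1 h2
        exact ⟨h2.symm, h1.symm⟩
    have hB : ((s i * w).1 j < (s i * w).1 (j+1)) ↔ (w.1 j < w.1 (j+1)) := by
      rw [mul_app, mul_app]
      exact s_lt_iff hE hE'
    by_cases hb : w.1 j < w.1 (j+1)
    · by_cases ha : w.1.symm i < w.1.symm (i+1)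
      · rw [if_pos hb, if_pos ha, Lop_single, if_pos (hA.2 ha), Rop_single, if_pos (hB.2 hb), mul_assoc]
      · rw [if_pos hb, if_neg ha, Lop_single, if_neg (fun h => ha (hA.1 h)), map_add, map_smul,
          Rop_single, Rop_single, if_pos (hB.2 hb), if_pos hb, mul_assoc]
    · by_cases ha : w.1.symm i < w.1.symm (i+1)
      · rw [if_neg hb, if_pos ha, map_add, map_smul, Lop_single, Lop_single, if_pos (hA.2 ha), if_pos ha,
          Rop_single, if_neg (fun h => hb (hB.1 h)), mul_assoc]
      · rw [if_neg hb, if_neg ha, map_add, map_smul, Lop_single, Lop_single,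
          if_neg (fun h => ha (hA.1 h)), if_neg ha, map_add, map_smul,
          Rop_single, Rop_single, if_neg (fun h => hb (hB.1 h)), if_neg hb, mul_assoc]
        module

theorem exists_op (z : k) (w : S) : ∃ f : (S →₀ k) →ₗ[k] (S →₀ k), Cen z f ∧
    f (Finsupp.single 1 1) = Finsupp.single w 1 := by
  induction w using S_ind with
  | h1 => exact ⟨LinearMap.id, fun _ _ => rfl, rfl⟩
  | h i w hw ih =>
    obtain ⟨f, hf, hf1⟩ := ih
    refine ⟨Lop z i ∘ₗ f, fun j x => ?_, ?_⟩
    · rw [LinearMap.comp_apply, LinearMap.comp_apply, hf, Cen_Lop]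
    · rw [LinearMap.comp_apply, hf1, Lop_single, if_pos hw]

theorem Cen_ext {z : k} {f g : (S →₀ k) →ₗ[k] (S →₀ k)} (hf : Cen z f) (hg : Cen z g)
    (h : f (Finsupp.single 1 1) = g (Finsupp.single 1 1)) : f = g := by
  refine lin_ext (fun w => ?_)
  induction w using S_ind_right with
  | h1 => exact h
  | h i w hw ih =>
    have : Finsupp.single (w * s i) (1:k) = Rop z i (Finsupp.single w 1) := by
      rw [Rop_single, if_pos hw]
    rw [this, hf, hg, ih]

/-- The operator of left multiplication by the basis element `T_w`. -/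
noncomputable def op (z : k) (w : S) : (S →₀ k) →ₗ[k] (S →₀ k) := (exists_op z w).choose

theorem op_cen (z : k) (w : S) : Cen z (op z w) := (exists_op z w).choose_spec.1

theorem op_one (z : k) (w : S) : op z w (Finsupp.single 1 1) = Finsupp.single w 1 :=
  (exists_op z w).choose_spec.2

/-- Left multiplication operators, extended linearly. -/
noncomputable def Op (z : k) : (S →₀ k) →ₗ[k] ((S →₀ k) →ₗ[k] (S →₀ k)) :=
  Finsupp.linearCombination k (op z)

theorem Op_single (z : k) (w : S) : Op z (Finsupp.single w 1) = op z w := by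
  rw [Op, Finsupp.linearCombination_single, one_smul]

theorem Op_cen (z : k) (x : S →₀ k) : Cen z (Op z x) := by
  intro j y
  induction x using Finsupp.induction_linear with
  | zero => simp only [map_zero, LinearMap.zero_apply]
  | add x x' hx hx' => rw [map_add, LinearMap.add_apply, LinearMap.add_apply, hx, hx', map_add]
  | single w c =>
    have : Finsupp.single w c = c • Finsupp.single w (1:k) := by
      rw [Finsupp.smul_single, smul_eq_mul, mul_one]
    rw [this, map_smul, LinearMap.smul_apply, LinearMap.smul_apply, Op_single, op_cen, map_smul]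

theorem Op_one (z : k) (x : S →₀ k) : Op z x (Finsupp.single 1 1) = x := by
  induction x using Finsupp.induction_linear with
  | zero => simp only [map_zero, LinearMap.zero_apply]
  | add x x' hx hx' => rw [map_add, LinearMap.add_apply, hx, hx']
  | single w c =>
    have : Finsupp.single w c = c • Finsupp.single w (1:k) := by
      rw [Finsupp.smul_single, smul_eq_mul, mul_one]
    rw [this, map_smul, LinearMap.smul_apply, Op_single, op_one]

theorem Op_mul (z : k) (x y : S →₀ k) : Op z (Op z x y) = Op z x ∘ₗ Op z y := by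
  refine Cen_ext (Op_cen z _) ?_ ?_
  · intro j t
    rw [LinearMap.comp_apply, LinearMap.comp_apply, Op_cen, Op_cen]
  · rw [Op_one, LinearMap.comp_apply, Op_one]

theorem Op_id (z : k) : Op z (Finsupp.single 1 1) = LinearMap.id := by
  refine Cen_ext (Op_cen z _) (fun _ _ => rfl) ?_
  rw [Op_one, LinearMap.id_apply]


/-- The Hecke algebra of the finitary permutations of `ℕ`, with `T_i ^ 2 = 1 + z T_i`:
the free module with basis `T_w`. -/
def H (_z : k) : Type _ := S →₀ k

noncomputable instance (z : k) : AddCommGroup (H z) := inferInstanceAs (AddCommGroup (S →₀ k))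
noncomputable instance (z : k) : Module k (H z) := inferInstanceAs (Module k (S →₀ k))

/-- The linear identification of `H z` with the free module. -/
noncomputable def toF (z : k) : H z ≃ₗ[k] (S →₀ k) := LinearEquiv.refl k (S →₀ k)

noncomputable instance (z : k) : Mul (H z) := ⟨fun x y => (toF z).symm (Op z (toF z x) (toF z y))⟩
noncomputable instance (z : k) : One (H z) := ⟨(toF z).symm (Finsupp.single 1 1)⟩

theorem mul_def' (z : k) (x y : H z) : x * y = (toF z).symm (Op z (toF z x) (toF z y)) := rfl
theorem one_def' (z : k) : (1 : H z) = (toF z).symm (Finsupp.single 1 1) := rfl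

noncomputable instance (z : k) : Ring (H z) :=
  { (inferInstance : AddCommGroup (H z)) with
    mul := (· * ·)
    one := 1
    left_distrib := fun a b c => by
      simp only [mul_def', map_add]
    right_distrib := fun a b c => by
      simp only [mul_def', map_add, LinearMap.add_apply]
    zero_mul := fun a => by
      simp only [mul_def', map_zero, LinearMap.zero_apply]
    mul_zero := fun a => by
      simp only [mul_def', map_zero]
    mul_assoc := fun a b c => by
      simp only [mul_def', LinearEquiv.apply_symm_apply, Op_mul, LinearMap.comp_apply]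
    one_mul := fun a => by
      simp only [mul_def', one_def', LinearEquiv.apply_symm_apply, Op_id, LinearMap.id_apply,
        LinearEquiv.symm_apply_apply]
    mul_one := fun a => by
      simp only [mul_def', one_def', LinearEquiv.apply_symm_apply, Op_one,
        LinearEquiv.symm_apply_apply] }

noncomputable instance (z : k) : Algebra k (H z) :=
  Algebra.ofModule
    (fun r x y => by simp only [mul_def', map_smul, LinearMap.smul_apply])
    (fun r x y => by simp only [mul_def', map_smul])

/-- The standard basis element `T_w`. -/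
noncomputable def T (z : k) (w : S) : H z := (toF z).symm (Finsupp.single w 1)

/-- The generator `T_{s_i}`. -/
noncomputable def g (z : k) (i : ℕ) : H z := T z (s i)

/-- The inverse of the generator. -/
noncomputable def gi (z : k) (i : ℕ) : H z := g z i - z • 1

/-- The symmetrising trace: coefficient of `T_1`. -/
noncomputable def τ (z : k) : H z →ₗ[k] k := (Finsupp.lapply (1 : S)) ∘ₗ (toF z).toLinearMap

theorem T_one (z : k) : T z 1 = 1 := rfl

theorem op_s (z : k) (i : ℕ) : op z (s i) = Lop z i := by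
  refine Cen_ext (op_cen z _) (Cen_Lop z i) ?_
  rw [op_one, Lop_single, one_symm_app, one_symm_app, if_pos (by omega), mul_one]

theorem g_mul_T (z : k) (i : ℕ) (w : S) : g z i * T z w = (toF z).symm (Lop z i (Finsupp.single w 1)) := by
  rw [g, mul_def', T, T, LinearEquiv.apply_symm_apply, LinearEquiv.apply_symm_apply, Op_single, op_s]

theorem T_mul_g (z : k) (i : ℕ) (w : S) : T z w * g z i = (toF z).symm (Rop z i (Finsupp.single w 1)) := by
  have : Finsupp.single (s i) (1:k) = Rop z i (Finsupp.single 1 1) := by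
    rw [Rop_single, one_app, one_app, if_pos (by omega), one_mul]
  rw [g, mul_def', T, T, LinearEquiv.apply_symm_apply, LinearEquiv.apply_symm_apply, Op_single, this,
    op_cen, op_one]

theorem sT_lt (z : k) {w : S} {i : ℕ} (h : w.1.symm i < w.1.symm (i+1)) :
    g z i * T z w = T z (s i * w) := by
  rw [g_mul_T, Lop_single, if_pos h, T]

theorem sT_gt (z : k) {w : S} {i : ℕ} (h : w.1.symm (i+1) < w.1.symm i) :
    g z i * T z w = T z (s i * w) + z • T z w := by
  rw [g_mul_T, Lop_single, if_neg (by omega), T, T, map_add, map_smul]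

theorem Ts_lt (z : k) {w : S} {i : ℕ} (h : w.1 i < w.1 (i+1)) :
    T z w * g z i = T z (w * s i) := by
  rw [T_mul_g, Rop_single, if_pos h, T]

theorem Ts_gt (z : k) {w : S} {i : ℕ} (h : w.1 (i+1) < w.1 i) :
    T z w * g z i = T z (w * s i) + z • T z w := by
  rw [T_mul_g, Rop_single, if_neg (by omega), T, T, map_add, map_smul]

/-- Length additivity criterion: no inversion of `v` is undone by `u`. -/
theorem TT (z : k) {u v : S} (h : ∀ i j, i < j → v.1 j < v.1 i → u.1 (v.1 j) < u.1 (v.1 i)) :
    T z u * T z v = T z (u * v) := by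
  induction u using S_ind with
  | h1 => rw [T_one, one_mul, one_mul]
  | h i u hu ih =>
    have hu' : ∀ a b, a < b → v.1 b < v.1 a → u.1 (v.1 b) < u.1 (v.1 a) := by
      intro a b hab hv
      have h1 := h a b hab hv
      rw [mul_app, mul_app] at h1
      by_contra hc
      rw [s_apply, s_apply] at h1
      have hne : u.1 (v.1 a) ≠ u.1 (v.1 b) := fun h => by
        have := v.1.injective (u.1.injective h)
        omega
      have h2 : u.1 (v.1 a) = i ∧ u.1 (v.1 b) = i+1 := by
        split_ifs at h1 <;> omega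
      have h3 : v.1 a = u.1.symm i := by rw [← h2.1, Equiv.symm_apply_apply]
      have h4 : v.1 b = u.1.symm (i+1) := by rw [← h2.2, Equiv.symm_apply_apply]
      rw [h3, h4] at hv
      omega
    rw [← sT_lt z hu, mul_assoc, ih hu', mul_assoc]
    apply sT_lt
    rw [mul_symm_app, mul_symm_app]
    by_contra hc
    have hne : v.1.symm (u.1.symm i) ≠ v.1.symm (u.1.symm (i+1)) := fun h => by
      have := u.1.symm.injective (v.1.symm.injective h)
      omega
    have h1 := h (v.1.symm (u.1.symm (i+1))) (v.1.symm (u.1.symm i)) (by omega) (by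
      rw [Equiv.apply_symm_apply, Equiv.apply_symm_apply]
      exact hu)
    rw [Equiv.apply_symm_apply, Equiv.apply_symm_apply, mul_app, mul_app, Equiv.apply_symm_apply,
      Equiv.apply_symm_apply, s_self, s_succ] at h1
    omega

theorem len_mul {u v : S} (h : ∀ i j, i < j → v.1 j < v.1 i → u.1 (v.1 j) < u.1 (v.1 i)) :
    len (u * v) = len u + len v := by
  induction u using S_ind with
  | h1 => rw [len_one, one_mul, zero_add]
  | h i u hu ih =>
    have hu' : ∀ a b, a < b → v.1 b < v.1 a → u.1 (v.1 b) < u.1 (v.1 a) := by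
      intro a b hab hv
      have h1 := h a b hab hv
      rw [mul_app, mul_app] at h1
      by_contra hc
      rw [s_apply, s_apply] at h1
      have hne : u.1 (v.1 a) ≠ u.1 (v.1 b) := fun h => by
        have := v.1.injective (u.1.injective h)
        omega
      have h2 : u.1 (v.1 a) = i ∧ u.1 (v.1 b) = i+1 := by
        split_ifs at h1 <;> omega
      have h3 : v.1 a = u.1.symm i := by rw [← h2.1, Equiv.symm_apply_apply]
      have h4 : v.1 b = u.1.symm (i+1) := by rw [← h2.2, Equiv.symm_apply_apply]
      rw [h3, h4] at hv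
      omega
    rw [mul_assoc, len_s_lt hu, len_s_lt, ih hu']
    · omega
    rw [mul_symm_app, mul_symm_app]
    by_contra hc
    have hne : v.1.symm (u.1.symm i) ≠ v.1.symm (u.1.symm (i+1)) := fun h => by
      have := u.1.symm.injective (v.1.symm.injective h)
      omega
    have h1 := h (v.1.symm (u.1.symm (i+1))) (v.1.symm (u.1.symm i)) (by omega) (by
      rw [Equiv.apply_symm_apply, Equiv.apply_symm_apply]
      exact hu)
    rw [Equiv.apply_symm_apply, Equiv.apply_symm_apply, mul_app, mul_app, Equiv.apply_symm_apply,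
      Equiv.apply_symm_apply, s_self, s_succ] at h1
    omega

theorem len_s_le (i : ℕ) (w : S) : len (s i * w) ≤ len w + 1 := by
  rcases lt_trichotomy (w.1.symm i) (w.1.symm (i+1)) with h | h | h
  · rw [len_s_lt h]
  · have := w.1.symm.injective h
    omega
  · have := len_s_gt h
    omega

theorem len_mul_le (u v : S) : len (u * v) ≤ len u + len v := by
  induction u using S_ind with
  | h1 => rw [len_one, one_mul, zero_add]
  | h i u hu ih =>
    rw [mul_assoc, len_s_lt hu]
    have := len_s_le i (u * v)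
    omega

theorem len_s (i : ℕ) : len (s i) = 1 := by
  have := len_s_lt (w := 1) (i := i) (by rw [one_symm_app, one_symm_app]; omega)
  rw [mul_one, len_one] at this
  exact this

theorem len_inv_le (w : S) : len w⁻¹ ≤ len w := by
  induction w using S_ind with
  | h1 => rw [inv_one]
  | h i w hw ih =>
    rw [mul_inv_rev, s_inv, len_s_lt hw]
    have := len_mul_le w⁻¹ (s i)
    rw [len_s] at this
    omega

theorem len_inv (w : S) : len w⁻¹ = len w := by
  have h1 := len_inv_le w
  have h2 := len_inv_le w⁻¹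
  rw [inv_inv] at h2
  omega

theorem eq_one_of_len {w : S} (h : len w = 0) : w = 1 := by
  by_contra hc
  obtain ⟨i, hi⟩ := exists_descent hc
  have := len_s_gt hi
  omega

theorem ext_T {z : k} {M : Type*} [AddCommGroup M] [Module k M] {F G : H z →ₗ[k] M}
    (h : ∀ w, F (T z w) = G (T z w)) : F = G := by
  have : F ∘ₗ (toF z).symm.toLinearMap = G ∘ₗ (toF z).symm.toLinearMap := lin_ext (fun w => h w)
  refine LinearMap.ext (fun x => ?_)
  have h2 := LinearMap.congr_fun this (toF z x)
  simpa only [LinearMap.comp_apply, LinearEquiv.coe_coe, LinearEquiv.symm_apply_apply] using h2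

/-- linear induction on the Hecke algebra -/
theorem H_ind {z : k} {P : H z → Prop} (hT : ∀ w, P (T z w)) (h0 : P 0) (hadd : ∀ x y, P x → P y → P (x + y))
    (hsmul : ∀ (c : k) x, P x → P (c • x)) : ∀ x, P x := by
  intro x
  have key : ∀ y : S →₀ k, P ((toF z).symm y) := by
    intro y
    induction y using Finsupp.induction_linear with
    | zero => rw [map_zero]; exact h0
    | add a b ha hb => rw [map_add]; exact hadd _ _ ha hb
    | single w c =>
      have : Finsupp.single w c = c • Finsupp.single w (1:k) := by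
        rw [Finsupp.smul_single, smul_eq_mul, mul_one]
      rw [this, map_smul]
      exact hsmul _ _ (hT w)
  have := key (toF z x)
  rwa [LinearEquiv.symm_apply_apply] at this

theorem τ_T (z : k) (w : S) : τ z (T z w) = if w = 1 then 1 else 0 := by
  rw [τ, T, LinearMap.comp_apply, LinearEquiv.coe_coe, LinearEquiv.apply_symm_apply,
    Finsupp.lapply_apply, Finsupp.single_apply]

theorem τ_TT (z : k) (u v : S) : τ z (T z u * T z v) = if u * v = 1 then 1 else 0 := by
  induction u using S_ind_right generalizing v with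
  | h1 => rw [T_one, one_mul, one_mul, τ_T]
  | h i u hu ih =>
    rw [← Ts_lt z hu, mul_assoc]
    rcases lt_trichotomy (v.1.symm i) (v.1.symm (i+1)) with h | h | h
    · rw [sT_lt z h, ih, mul_assoc]
    · have := v.1.symm.injective h
      omega
    · rw [sT_gt z h, mul_add, mul_smul_comm, map_add, map_smul, ih, ih, mul_assoc]
      have : u * v ≠ 1 := by
        intro h1
        have h2 : v⁻¹ = u := by
          rw [inv_eq_iff_mul_eq_one]
          have := mul_eq_one_iff_eq_inv.1 h1
          rw [this]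
          simp
        have h3 : v.1.symm (i+1) = u.1 (i+1) := by rw [← h2]; rfl
        have h4 : v.1.symm i = u.1 i := by rw [← h2]; rfl
        omega
      rw [if_neg this, smul_zero, add_zero]

theorem τ_comm (z : k) (x y : H z) : τ z (x * y) = τ z (y * x) := by
  have h1 : ∀ u v, τ z (T z u * T z v) = τ z (T z v * T z u) := by
    intro u v
    rw [τ_TT, τ_TT]
    have : u * v = 1 ↔ v * u = 1 := mul_eq_one_comm
    simp only [this]
  have h2 : ∀ u y, τ z (T z u * y) = τ z (y * T z u) := by
    intro u y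
    refine H_ind (P := fun y => τ z (T z u * y) = τ z (y * T z u)) (fun v => h1 u v) ?_ ?_ ?_ y
    · rw [mul_zero, zero_mul]
    · intro a b ha hb
      rw [mul_add, add_mul, map_add, map_add, ha, hb]
    · intro c a ha
      rw [mul_smul_comm, smul_mul_assoc, map_smul, map_smul, ha]
  refine H_ind (P := fun x => τ z (x * y) = τ z (y * x)) (fun u => h2 u y) ?_ ?_ ?_ x
  · rw [mul_zero, zero_mul]
  · intro a b ha hb
    rw [mul_add, add_mul, map_add, map_add, ha, hb]
  · intro c a ha
    rw [mul_smul_comm, smul_mul_assoc, map_smul, map_smul, ha]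

/-- coefficients through the trace form -/
theorem coeff_eq (z : k) (x : H z) (w : S) : τ z (T z w⁻¹ * x) = toF z x w := by
  refine H_ind (P := fun x => τ z (T z w⁻¹ * x) = toF z x w) ?_ ?_ ?_ ?_ x
  · intro v
    rw [τ_TT, T, LinearEquiv.apply_symm_apply, Finsupp.single_apply]
    have : w⁻¹ * v = 1 ↔ v = w := by
      rw [inv_mul_eq_one]
      exact eq_comm
    simp only [this]
  · rw [mul_zero, map_zero, map_zero, Finsupp.zero_apply]
  · intro a b ha hb
    rw [mul_add, map_add, map_add, Finsupp.add_apply, ha, hb]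
  · intro c a ha
    rw [mul_smul_comm, map_smul, map_smul, Finsupp.smul_apply, ha]

theorem g_sq (z : k) (i : ℕ) : g z i * g z i = 1 + z • g z i := by
  have := sT_gt z (w := s i) (i := i) (by rw [s_symm, s_symm, s_self, s_succ]; omega)
  rw [s_mul_self, T_one] at this
  exact this

theorem g_gi (z : k) (i : ℕ) : g z i * gi z i = 1 := by
  rw [gi, mul_sub, g_sq, mul_smul_comm, mul_one, add_sub_cancel_right]

theorem gi_g (z : k) (i : ℕ) : gi z i * g z i = 1 := by
  rw [gi, sub_mul, g_sq, smul_mul_assoc, one_mul, add_sub_cancel_right]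

theorem s_braid (i : ℕ) : s i * s (i+1) * s i = s (i+1) * s i * s (i+1) := by
  apply S_ext
  intro x
  simp only [mul_app, s_apply]
  split_ifs <;> omega

theorem s_comm {i j : ℕ} (h : i + 1 < j) : s i * s j = s j * s i := by
  apply S_ext
  intro x
  simp only [mul_app, s_apply]
  split_ifs <;> omega

theorem braid (z : k) (i : ℕ) : g z i * g z (i+1) * g z i = g z (i+1) * g z i * g z (i+1) := by
  have h1 : g z (i+1) * g z i = T z (s (i+1) * s i) := sT_lt z (w := s i) (by
    rw [s_symm, s_symm]; simp only [s_apply]; split_ifs <;> omega)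
  have h2 : g z i * g z (i+1) = T z (s i * s (i+1)) := sT_lt z (w := s (i+1)) (by
    rw [s_symm, s_symm]; simp only [s_apply]; split_ifs <;> omega)
  have h3 : g z i * (g z (i+1) * g z i) = T z (s i * (s (i+1) * s i)) := by
    rw [h1]
    apply sT_lt
    rw [mul_symm_app, mul_symm_app, s_symm, s_symm, s_symm, s_symm]; simp only [s_apply]; split_ifs <;> omega
  have h4 : g z (i+1) * (g z i * g z (i+1)) = T z (s (i+1) * (s i * s (i+1))) := by
    rw [h2]
    apply sT_lt
    rw [mul_symm_app, mul_symm_app, s_symm, s_symm, s_symm, s_symm]; simp only [s_apply]; split_ifs <;> omega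
  rw [mul_assoc, h3, mul_assoc, h4, ← mul_assoc, s_braid, mul_assoc]

theorem g_comm (z : k) {i j : ℕ} (h : i + 1 < j) : g z i * g z j = g z j * g z i := by
  have h1 : g z i * g z j = T z (s i * s j) := sT_lt z (w := s j) (by
    rw [s_symm, s_symm]; simp only [s_apply]; split_ifs <;> omega)
  have h2 : g z j * g z i = T z (s j * s i) := sT_lt z (w := s i) (by
    rw [s_symm, s_symm]; simp only [s_apply]; split_ifs <;> omega)
  rw [h1, h2, s_comm h]


/-! ### Finite Young subgroups -/

theorem W_finite (f : ℕ → ℕ) (N : ℕ) :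
    {w : S | (∀ i, N ≤ i → w.1 i = i) ∧ ∀ i, f (w.1 i) = f i}.Finite := by
  have : Finite {w : S | (∀ i, N ≤ i → w.1 i = i) ∧ ∀ i, f (w.1 i) = f i} := by
    refine Finite.of_injective
      (β := Fin N → Fin N) (fun w i => ⟨w.1.1 i, app_lt w.2.1 i.2⟩) ?_
    intro u v huv
    apply Subtype.ext
    apply S_ext
    intro x
    rcases lt_or_ge x N with hx | hx
    · have := congrFun huv ⟨x, hx⟩
      simpa using this
    · rw [u.2.1 x hx, v.2.1 x hx]
  exact Set.toFinite _

/-- The finite set of permutations `w` fixing every `i ≥ N` and preserving the function `f`. -/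
noncomputable def W (f : ℕ → ℕ) (N : ℕ) : Finset S :=
  Set.Finite.toFinset (W_finite f N)

theorem mem_W {f : ℕ → ℕ} {N : ℕ} {w : S} :
    w ∈ W f N ↔ (∀ i, N ≤ i → w.1 i = i) ∧ ∀ i, f (w.1 i) = f i := by
  simp [W]

theorem one_mem_W (f : ℕ → ℕ) (N : ℕ) : (1 : S) ∈ W f N := by
  rw [mem_W]
  exact ⟨fun _ _ => rfl, fun _ => rfl⟩

theorem mul_mem_W {f : ℕ → ℕ} {N : ℕ} {u v : S} (hu : u ∈ W f N) (hv : v ∈ W f N) : u * v ∈ W f N := by
  rw [mem_W] at *
  refine ⟨fun i hi => ?_, fun i => ?_⟩
  · rw [mul_app, hv.1 i hi, hu.1 i hi]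
  · rw [mul_app, hu.2, hv.2]

theorem inv_mem_W {f : ℕ → ℕ} {N : ℕ} {u : S} (hu : u ∈ W f N) : u⁻¹ ∈ W f N := by
  rw [mem_W] at *
  refine ⟨fun i hi => ?_, fun i => ?_⟩
  · rw [inv_apply_eq_symm, symm_fix hu.1 hi]
  · rw [inv_apply_eq_symm]
    have := hu.2 (u.1.symm i)
    rw [Equiv.apply_symm_apply] at this
    exact this.symm

theorem s_mem_W {f : ℕ → ℕ} {N i : ℕ} (hi : i + 1 < N) (hf : f i = f (i+1)) : s i ∈ W f N := by
  rw [mem_W]
  refine ⟨fun j hj => s_other (by omega) (by omega), fun j => ?_⟩
  by_cases h1 : j = i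
  · rw [h1, s_self, hf]
  by_cases h2 : j = i+1
  · rw [h2, s_succ, hf]
  · rw [s_other h1 h2]

/-- Induction for Young subgroups with monotone block function: left multiplication by ascents
inside the subgroup. -/
theorem W_ind {f : ℕ → ℕ} (hf : Monotone f) {N : ℕ} {P : S → Prop} (h1 : P 1)
    (h : ∀ (i : ℕ) (w : S), w ∈ W f N → i + 1 < N → f i = f (i+1) → w.1.symm i < w.1.symm (i+1) →
      P w → P (s i * w)) : ∀ w ∈ W f N, P w := by
  intro w
  induction hn : len w using Nat.strong_induction_on generalizing w with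
  | _ n ih =>
    intro hw
    by_cases hw1 : w = 1
    · rw [hw1]; exact h1
    obtain ⟨i, hi⟩ := exists_descent hw1
    have hl := len_s_gt hi
    have hw' := mem_W.1 hw
    have hwi := mem_W.1 (inv_mem_W hw)
    have hiN : i + 1 < N := by
      by_contra hc
      rw [not_lt] at hc
      rw [symm_fix hw'.1 hc] at hi
      rcases lt_or_ge i N with h2 | h2
      · have := symm_lt hw'.1 h2
        omega
      · rw [symm_fix hw'.1 h2] at hi
        omega
    have hfi : f i = f (i+1) := by
      have e1 := hwi.2 i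
      have e2 := hwi.2 (i+1)
      rw [inv_apply_eq_symm] at e1 e2
      have e3 := hf (le_of_lt hi)
      have e4 := hf (Nat.le_succ i)
      rw [e1, e2] at e3
      exact le_antisymm e4 e3
    have hs := s_mem_W hiN hfi
    have := h i (s i * w) (mul_mem_W hs hw) hiN hfi (by
      rw [mul_symm_app, mul_symm_app, s_symm, s_symm, s_self, s_succ]
      exact hi) (ih (len (s i * w)) (by omega) _ rfl (mul_mem_W hs hw))
    rw [s_s_mul] at this
    exact this

/-- The trivial block function: `W f0 N` is the full symmetric group on `[0,N)`. -/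
def f0 : ℕ → ℕ := fun _ => 0

theorem f0_mono : Monotone f0 := fun _ _ _ => le_refl _

/-- Two blocks `[0,j)` and `[j,∞)`. -/
def fj (j : ℕ) : ℕ → ℕ := fun i => if i < j then 0 else 1

/-- The span of `T_w`, `w ∈ W f N`. -/
noncomputable def HW (z : k) (f : ℕ → ℕ) (N : ℕ) : Submodule k (H z) :=
  Submodule.span k (T z '' (W f N : Set S))

/-- The Hecke algebra of `S_N` inside `H z`. -/
noncomputable abbrev HS (z : k) (N : ℕ) : Submodule k (H z) := HW z f0 N

theorem T_mem_HW (z : k) {f : ℕ → ℕ} {N : ℕ} {w : S} (h : w ∈ W f N) : T z w ∈ HW z f N :=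
  Submodule.subset_span ⟨w, h, rfl⟩

theorem one_mem_HW (z : k) (f : ℕ → ℕ) (N : ℕ) : (1 : H z) ∈ HW z f N := by
  rw [← T_one]
  exact T_mem_HW z (one_mem_W f N)

theorem g_mem_HW (z : k) {f : ℕ → ℕ} {N i : ℕ} (hi : i + 1 < N) (hf : f i = f (i+1)) : g z i ∈ HW z f N :=
  T_mem_HW z (s_mem_W hi hf)

theorem gi_mem_HW (z : k) {f : ℕ → ℕ} {N i : ℕ} (hi : i + 1 < N) (hf : f i = f (i+1)) : gi z i ∈ HW z f N :=
  Submodule.sub_mem _ (g_mem_HW z hi hf) (Submodule.smul_mem _ _ (one_mem_HW z f N))

/-- linear induction on `HW` -/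
theorem HW_lin_ind (z : k) {f : ℕ → ℕ} {N : ℕ} {P : H z → Prop} (hT : ∀ w ∈ W f N, P (T z w)) (h0 : P 0)
    (hadd : ∀ x y, P x → P y → P (x + y)) (hsmul : ∀ (c : k) x, P x → P (c • x)) :
    ∀ x ∈ HW z f N, P x := by
  intro x hx
  refine Submodule.span_induction (p := fun x _ => P x) ?_ h0 ?_ ?_ hx
  · rintro _ ⟨w, hw, rfl⟩
    exact hT w hw
  · intro a b _ _ ha hb
    exact hadd a b ha hb
  · intro c a _ ha
    exact hsmul c a ha

theorem g_mul_mem_HW (z : k) {f : ℕ → ℕ} {N i : ℕ} (hi : i + 1 < N) (hfi : f i = f (i+1)) {y : H z}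
    (hy : y ∈ HW z f N) : g z i * y ∈ HW z f N := by
  refine HW_lin_ind z (P := fun y => g z i * y ∈ HW z f N) ?_ ?_ ?_ ?_ y hy
  · intro w hw
    have hs := s_mem_W hi hfi
    rcases lt_trichotomy (w.1.symm i) (w.1.symm (i+1)) with h | h | h
    · rw [sT_lt z h]
      exact T_mem_HW z (mul_mem_W hs hw)
    · have := w.1.symm.injective h
      omega
    · rw [sT_gt z h]
      exact Submodule.add_mem _ (T_mem_HW z (mul_mem_W hs hw)) (Submodule.smul_mem _ _ (T_mem_HW z hw))
  · rw [mul_zero]; exact Submodule.zero_mem _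
  · intro a b ha hb
    rw [mul_add]; exact Submodule.add_mem _ ha hb
  · intro c a ha
    rw [mul_smul_comm]; exact Submodule.smul_mem _ _ ha

theorem mul_mem_HW (z : k) {f : ℕ → ℕ} (hf : Monotone f) {N : ℕ} {x y : H z}
    (hx : x ∈ HW z f N) (hy : y ∈ HW z f N) : x * y ∈ HW z f N := by
  refine HW_lin_ind z (P := fun x => x * y ∈ HW z f N) ?_ ?_ ?_ ?_ x hx
  · intro w hw
    refine W_ind hf (P := fun w => T z w * y ∈ HW z f N) ?_ ?_ w hw
    · rw [T_one, one_mul]; exact hy
    · intro i w _ hi hfi hlt ih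
      rw [← sT_lt z hlt, mul_assoc]
      exact g_mul_mem_HW z hi hfi ih
  · rw [zero_mul]; exact Submodule.zero_mem _
  · intro a b ha hb
    rw [add_mul]; exact Submodule.add_mem _ ha hb
  · intro c a ha
    rw [smul_mul_assoc]; exact Submodule.smul_mem _ _ ha

theorem HW_mono (z : k) {f f' : ℕ → ℕ} {N N' : ℕ} (hN : N ≤ N') (hf : ∀ x y, f x = f y → f' x = f' y) :
    HW z f N ≤ HW z f' N' := by
  refine Submodule.span_mono (Set.image_mono ?_)
  intro w hw
  rw [Finset.mem_coe, mem_W] at *
  exact ⟨fun i hi => hw.1 i (by omega), fun i => hf _ _ (hw.2 i)⟩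

theorem HS_mono (z : k) {N N' : ℕ} (hN : N ≤ N') : HS z N ≤ HS z N' :=
  HW_mono z hN (fun _ _ _ => rfl)

theorem HW_le_HS (z : k) (f : ℕ → ℕ) (N : ℕ) : HW z f N ≤ HS z N :=
  HW_mono z (le_refl _) (fun _ _ _ => rfl)

/-- Induction principle for `HW`: it is generated by the `g i`, `s i ∈ W f N`. -/
theorem HW_ind (z : k) {f : ℕ → ℕ} (hf : Monotone f) {N : ℕ} {P : H z → Prop} (h1 : P 1)
    (hadd : ∀ x y, P x → P y → P (x + y)) (hsmul : ∀ (c : k) x, P x → P (c • x))
    (hg : ∀ i x, i + 1 < N → f i = f (i+1) → P x → P (g z i * x)) : ∀ x ∈ HW z f N, P x := by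
  refine HW_lin_ind z ?_ ?_ hadd hsmul
  · intro w hw
    refine W_ind hf (P := fun w => P (T z w)) (by rw [T_one]; exact h1) ?_ w hw
    intro i w _ hi hfi hlt ih
    rw [← sT_lt z hlt]
    exact hg i _ hi hfi ih
  · have := hsmul 0 1 h1
    rwa [zero_smul] at this

/-- Membership through vanishing of coefficients. -/
theorem mem_HW_iff (z : k) {f : ℕ → ℕ} {N : ℕ} {x : H z} :
    x ∈ HW z f N ↔ ∀ w, w ∉ W f N → τ z (T z w⁻¹ * x) = 0 := by
  constructor
  · intro hx w hw
    refine HW_lin_ind z (P := fun x => τ z (T z w⁻¹ * x) = 0) ?_ ?_ ?_ ?_ x hx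
    · intro v hv
      rw [τ_TT, if_neg]
      intro h
      rw [inv_mul_eq_one] at h
      rw [h] at hw
      exact hw hv
    · rw [mul_zero, map_zero]
    · intro a b ha hb
      rw [mul_add, map_add, ha, hb, add_zero]
    · intro c a ha
      rw [mul_smul_comm, map_smul, ha, smul_zero]
  · intro h
    have hx : x = ∑ w ∈ (toF z x).support, (toF z x w) • T z w := by
      have h1 : x = (toF z).symm (toF z x) := by rw [LinearEquiv.symm_apply_apply]
      have h2 : toF z x = ∑ w ∈ (toF z x).support, (toF z x w) • Finsupp.single w (1:k) := by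
        have h3 := (Finsupp.sum_single (toF z x)).symm
        rw [Finsupp.sum] at h3
        refine h3.trans (Finset.sum_congr rfl (fun w _ => ?_))
        rw [Finsupp.smul_single, smul_eq_mul, mul_one]
      have h4 : (toF z).symm (toF z x) = (toF z).symm (∑ w ∈ (toF z x).support,
          (toF z x w) • Finsupp.single w (1:k)) := congrArg _ h2
      rw [map_sum] at h4
      rw [← h1] at h4
      refine h4.trans (Finset.sum_congr rfl (fun w _ => ?_))
      rw [map_smul, T]
    rw [hx]
    refine Submodule.sum_mem _ (fun w hw => ?_)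
    by_cases hwW : w ∈ W f N
    · exact Submodule.smul_mem _ _ (T_mem_HW z hwW)
    · have := h w hwW
      rw [coeff_eq] at this
      rw [this, zero_smul]
      exact Submodule.zero_mem _

/-- Expansion of an element of `HW`. -/
theorem HW_expand (z : k) {f : ℕ → ℕ} {N : ℕ} {x : H z} (hx : x ∈ HW z f N) :
    x = ∑ w ∈ W f N, τ z (T z w⁻¹ * x) • T z w := by
  refine HW_lin_ind z (P := fun x => x = ∑ w ∈ W f N, τ z (T z w⁻¹ * x) • T z w) ?_ ?_ ?_ ?_ x hx
  · intro v hv
    rw [Finset.sum_eq_single_of_mem v hv]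
    · rw [τ_TT, inv_mul_cancel, if_pos rfl, one_smul]
    · intro w _ hwv
      rw [τ_TT, if_neg, zero_smul]
      rw [inv_mul_eq_one]
      exact hwv
  · simp only [mul_zero, map_zero, zero_smul, Finset.sum_const_zero]
  · intro a b ha hb
    simp only [mul_add, map_add, add_smul, Finset.sum_add_distrib]
    rw [← ha, ← hb]
  · intro c a ha
    simp only [mul_smul_comm, map_smul, smul_assoc]
    rw [← Finset.smul_sum, ← ha]

/-- nondegeneracy -/
theorem τ_nondeg (z : k) {f : ℕ → ℕ} {N : ℕ} {x : H z} (hx : x ∈ HW z f N)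
    (h : ∀ y ∈ HW z f N, τ z (x * y) = 0) : x = 0 := by
  rw [HW_expand z hx]
  refine Finset.sum_eq_zero (fun w hw => ?_)
  rw [τ_comm, h _ (T_mem_HW z (inv_mem_W hw)), zero_smul]

/-! ### Shift -/

/-- The underlying function of the shift. -/
def shF (m : ℕ) (f : ℕ → ℕ) (i : ℕ) : ℕ := if i < m then i else f (i - m) + m

theorem shF_shF (m : ℕ) {f f' : ℕ → ℕ} (h : ∀ x, f (f' x) = x) (i : ℕ) : shF m f (shF m f' i) = i := by
  unfold shF
  by_cases hi : i < m
  · rw [if_pos hi, if_pos hi]
  · rw [if_neg hi, if_neg (by omega), Nat.add_sub_cancel, h]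
    omega

/-- Shift of a permutation by `m`. -/
def shS (m : ℕ) : S →* S where
  toFun w := ⟨⟨shF m w.1, shF m w.1.symm, shF_shF m w.1.symm_apply_apply, shF_shF m w.1.apply_symm_apply⟩, by
    obtain ⟨N, hN⟩ := w.2
    refine ⟨N + m, fun i hi => ?_⟩
    change shF m w.1 i = i
    unfold shF
    rw [if_neg (by omega), hN _ (by omega)]
    omega⟩
  map_one' := by
    apply S_ext
    intro x
    change shF m (1 : S).1 x = x
    unfold shF
    split_ifs
    · rfl
    · rw [one_app]; omega
  map_mul' u v := by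
    apply S_ext
    intro x
    change shF m (u * v).1 x = shF m u.1 (shF m v.1 x)
    unfold shF
    by_cases hx : x < m
    · rw [if_pos hx, if_pos hx, if_pos hx]
    · rw [if_neg hx, if_neg hx, if_neg (by omega), mul_app, Nat.add_sub_cancel]

theorem shS_apply (m : ℕ) (w : S) (i : ℕ) : (shS m w).1 i = if i < m then i else w.1 (i - m) + m := rfl

theorem shS_symm_apply (m : ℕ) (w : S) (i : ℕ) :
    (shS m w).1.symm i = if i < m then i else w.1.symm (i - m) + m := rfl

theorem shS_s (m i : ℕ) : shS m (s i) = s (m + i) := by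
  apply S_ext
  intro x
  rw [shS_apply]
  simp only [s_apply]
  split_ifs <;> omega

theorem shS_injective (m : ℕ) : Function.Injective (shS m) := by
  intro u v h
  apply S_ext
  intro x
  have h1 := shS_apply m u (x + m)
  have h2 := shS_apply m v (x + m)
  rw [if_neg (by omega), Nat.add_sub_cancel] at h1 h2
  rw [h] at h1
  omega

theorem shS_eq_one {m : ℕ} {w : S} : shS m w = 1 ↔ w = 1 := by
  constructor
  · intro h
    apply shS_injective m
    rw [h, map_one]
  · intro h
    rw [h, map_one]

/-- The shift as a linear map. -/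
noncomputable def shL (z : k) (m : ℕ) : H z →ₗ[k] H z :=
  (toF z).symm.toLinearMap ∘ₗ (Finsupp.lmapDomain k k (shS m)) ∘ₗ (toF z).toLinearMap

theorem shL_T (z : k) (m : ℕ) (w : S) : shL z m (T z w) = T z (shS m w) := by
  rw [shL, T, T, LinearMap.comp_apply, LinearMap.comp_apply, LinearEquiv.coe_coe, LinearEquiv.coe_coe,
    LinearEquiv.apply_symm_apply, Finsupp.lmapDomain_apply, Finsupp.mapDomain_single]

theorem shL_g_mul (z : k) (m i : ℕ) (x : H z) : shL z m (g z i * x) = g z (m+i) * shL z m x := by
  refine H_ind (P := fun x => shL z m (g z i * x) = g z (m+i) * shL z m x) ?_ ?_ ?_ ?_ x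
  · intro w
    have e1 : (shS m w).1.symm (m+i) = w.1.symm i + m := by
      rw [shS_symm_apply, if_neg (by omega), Nat.add_sub_cancel_left]
    have e2 : (shS m w).1.symm (m+i+1) = w.1.symm (i+1) + m := by
      rw [shS_symm_apply, if_neg (by omega), Nat.add_assoc, Nat.add_sub_cancel_left]
    rcases lt_trichotomy (w.1.symm i) (w.1.symm (i+1)) with h | h | h
    · rw [sT_lt z h, shL_T, shL_T, sT_lt z (by rw [e1, e2]; omega), map_mul, shS_s]
    · have := w.1.symm.injective h
      omega
    · rw [sT_gt z h, map_add, map_smul, shL_T, shL_T, sT_gt z (by rw [e1, e2]; omega), map_mul, shS_s]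
  · rw [mul_zero, map_zero, mul_zero]
  · intro a b ha hb
    rw [mul_add, map_add, map_add, mul_add, ha, hb]
  · intro c a ha
    rw [mul_smul_comm, map_smul, map_smul, mul_smul_comm, ha]

theorem shL_mul (z : k) (m : ℕ) (x y : H z) : shL z m (x * y) = shL z m x * shL z m y := by
  refine H_ind (P := fun x => shL z m (x * y) = shL z m x * shL z m y) ?_ ?_ ?_ ?_ x
  · intro w
    induction w using S_ind with
    | h1 => rw [T_one, one_mul, ← T_one, shL_T, map_one, T_one, one_mul]
    | h i w hw ih =>
      rw [← sT_lt z hw, mul_assoc, shL_g_mul, ih, shL_g_mul, mul_assoc]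
  · rw [zero_mul, map_zero, zero_mul]
  · intro a b ha hb
    rw [add_mul, map_add, map_add, add_mul, ha, hb]
  · intro c a ha
    rw [smul_mul_assoc, map_smul, map_smul, smul_mul_assoc, ha]

/-- The shift endomorphism of the Hecke algebra. -/
noncomputable def sh (z : k) (m : ℕ) : H z →ₐ[k] H z :=
  AlgHom.ofLinearMap (shL z m) (by rw [← T_one, shL_T, map_one, T_one]) (shL_mul z m)

theorem sh_T (z : k) (m : ℕ) (w : S) : sh z m (T z w) = T z (shS m w) := shL_T z m w

theorem sh_g (z : k) (m i : ℕ) : sh z m (g z i) = g z (m + i) := by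
  rw [g, sh_T, shS_s, g]

theorem sh_gi (z : k) (m i : ℕ) : sh z m (gi z i) = gi z (m + i) := by
  rw [gi, map_sub, map_smul, map_one, sh_g, gi]

theorem shS_zero (w : S) : shS 0 w = w := by
  apply S_ext
  intro x
  rw [shS_apply]
  simp

theorem shS_shS (m n : ℕ) (w : S) : shS m (shS n w) = shS (m + n) w := by
  apply S_ext
  intro x
  rw [shS_apply, shS_apply, shS_apply]
  have : x - m - n = x - (m + n) := by omega
  rw [this]
  split_ifs <;> omega

theorem sh_zero (z : k) (x : H z) : sh z 0 x = x := by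
  refine H_ind (P := fun x => sh z 0 x = x) (fun w => by rw [sh_T, shS_zero]) (map_zero _) ?_ ?_ x
  · intro a b ha hb
    rw [map_add, ha, hb]
  · intro c a ha
    rw [map_smul, ha]

theorem sh_sh (z : k) (m n : ℕ) (x : H z) : sh z m (sh z n x) = sh z (m + n) x := by
  refine H_ind (P := fun x => sh z m (sh z n x) = sh z (m + n) x)
    (fun w => by rw [sh_T, sh_T, sh_T, shS_shS]) (by simp only [map_zero]) ?_ ?_ x
  · intro a b ha hb
    simp only [map_add, ha, hb]
  · intro c a ha
    simp only [map_smul, ha]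

theorem τ_sh (z : k) (m : ℕ) (x : H z) : τ z (sh z m x) = τ z x := by
  refine H_ind (P := fun x => τ z (sh z m x) = τ z x)
    (fun w => by
      rw [sh_T, τ_T, τ_T]
      simp only [shS_eq_one]) (by simp only [map_zero]) ?_ ?_ x
  · intro a b ha hb
    simp only [map_add, ha, hb]
  · intro c a ha
    simp only [map_smul, ha]

theorem shS_mem_W {m N : ℕ} {w : S} (hw : w ∈ W f0 N) : shS m w ∈ W (fj m) (m + N) := by
  rw [mem_W] at *
  refine ⟨fun i hi => ?_, fun i => ?_⟩
  · rw [shS_apply, if_neg (by omega), hw.1 _ (by omega)]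
    omega
  · rw [shS_apply]
    unfold fj
    split_ifs <;> omega

theorem sh_mem_fj (z : k) (m : ℕ) {N : ℕ} {x : H z} (hx : x ∈ HS z N) : sh z m x ∈ HW z (fj m) (m + N) := by
  refine HW_lin_ind z (P := fun x => sh z m x ∈ HW z (fj m) (m + N)) ?_ ?_ ?_ ?_ x hx
  · intro w hw
    rw [sh_T]
    exact T_mem_HW z (shS_mem_W hw)
  · rw [map_zero]; exact Submodule.zero_mem _
  · intro a b ha hb
    rw [map_add]; exact Submodule.add_mem _ ha hb
  · intro c a ha
    rw [map_smul]; exact Submodule.smul_mem _ _ ha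

theorem sh_mem (z : k) (m : ℕ) {N : ℕ} {x : H z} (hx : x ∈ HS z N) : sh z m x ∈ HS z (m + N) :=
  HW_le_HS z _ _ (sh_mem_fj z m hx)

theorem g_sh_comm (z : k) {m i : ℕ} (h : i + 1 < m) (y : H z) : g z i * sh z m y = sh z m y * g z i := by
  refine H_ind (P := fun y => g z i * sh z m y = sh z m y * g z i) ?_ ?_ ?_ ?_ y
  · intro w
    induction w using S_ind with
    | h1 => rw [T_one, map_one, mul_one, one_mul]
    | h j w hw ih =>
      rw [← sT_lt z hw, map_mul, sh_g, ← mul_assoc, g_comm z (show i + 1 < m + j by omega), mul_assoc,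
        ih, mul_assoc]
  · rw [map_zero, mul_zero, zero_mul]
  · intro a b ha hb
    rw [map_add, mul_add, add_mul, ha, hb]
  · intro c a ha
    rw [map_smul, mul_smul_comm, smul_mul_assoc, ha]

theorem sh_commute (z : k) {m n : ℕ} (h : n ≤ m) {x : H z} (hx : x ∈ HS z n) (y : H z) :
    x * sh z m y = sh z m y * x := by
  refine HW_ind z f0_mono (P := fun x => x * sh z m y = sh z m y * x) ?_ ?_ ?_ ?_ x hx
  · rw [one_mul, mul_one]
  · intro a b ha hb
    rw [add_mul, mul_add, ha, hb]
  · intro c a ha
    rw [smul_mul_assoc, mul_smul_comm, ha]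
  · intro i a hi _ ha
    rw [mul_assoc, ha, ← mul_assoc, g_sh_comm z (by omega), mul_assoc]

end Pool.Agent.HL
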