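import Pool.Agent.Lib.HL21.Psi

/-! # Module Span: central elements are determined by descending words -/

namespace Pool.Agent.HL

open Finset

variable {k : Type*} [CommRing k]

private theorem sp_comm (z : k) {m i : ℕ} (h : m ≤ i) {x : H z} (hx : x ∈ HS z m) :
    x * g z i = g z i * x := by
  have h1 := sh_commute z (le_refl m) hx (g z (i - m))
  rw [sh_g, Nat.add_sub_cancel' h] at h1
  exact h1

private theorem sp_HS_one (z : k) : HS z 1 ≤ HS z 0 := by
  refine Submodule.span_mono (Set.image_mono ?_)
  intro w hw
  have hw' := mem_W.mp (show w ∈ W f0 1 from hw)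
  refine mem_W.mpr ⟨fun i _ => ?_, fun _ => rfl⟩
  by_cases hi : 1 ≤ i
  · exact hw'.1 i hi
  · have hi0 : i = 0 := by omega
    subst hi0
    by_contra hne
    have h1 : 1 ≤ w.1 0 := Nat.one_le_iff_ne_zero.mpr hne
    have h2 := hw'.1 (w.1 0) h1
    exact hne (w.1.injective h2)

private noncomputable def Nn (z : k) (m : ℕ) : Submodule k (H z) :=
  HS z (m + 1) ⊔ Submodule.span k {x | ∃ a ∈ HS z (m + 1), ∃ b ∈ HS z (m + 1), x = a * g z m * b}

private theorem Nn_left (z : k) {m : ℕ} {x : H z} (hx : x ∈ HS z (m + 1)) : x ∈ Nn z m :=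
  Submodule.mem_sup_left hx

private theorem Nn_right (z : k) {m : ℕ} {a b : H z} (ha : a ∈ HS z (m + 1)) (hb : b ∈ HS z (m + 1)) :
    a * g z m * b ∈ Nn z m :=
  Submodule.mem_sup_right (Submodule.subset_span ⟨a, ha, b, hb, rfl⟩)



/-- induction principle for `Nn` -/
private theorem Nn_ind (z : k) {m : ℕ} {P : H z → Prop} (h0 : ∀ x ∈ HS z (m + 1), P x)
    (h1 : ∀ a ∈ HS z (m + 1), ∀ b ∈ HS z (m + 1), P (a * g z m * b))
    (hadd : ∀ x y, P x → P y → P (x + y)) (hsmul : ∀ (c : k) x, P x → P (c • x)) :
    ∀ x ∈ Nn z m, P x := by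
  intro x hx
  unfold Nn at hx
  rw [Submodule.mem_sup] at hx
  obtain ⟨y, hy, w, hw, rfl⟩ := hx
  refine hadd _ _ (h0 y hy) ?_
  induction hw using Submodule.span_induction with
  | mem x h =>
    obtain ⟨a, ha, b, hb, rfl⟩ := h
    exact h1 a ha b hb
  | zero => exact h0 0 (Submodule.zero_mem _)
  | add x y _ _ hx hy => exact hadd _ _ hx hy
  | smul c x _ hx => exact hsmul _ _ hx

private theorem HS_le_Nn (z : k) (m : ℕ) : HS z (m + 2) ≤ Nn z m := by
  induction m with
  | zero =>
    intro x hx
    refine HW_ind z f0_mono (P := fun x => x ∈ Nn z 0) ?_ ?_ ?_ ?_ x hx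
    · exact Nn_left z (one_mem_HW z _ _)
    · intro x y hx hy; exact Submodule.add_mem _ hx hy
    · intro c x hx; exact Submodule.smul_mem _ _ hx
    · intro i x hi _ hx
      have hi0 : i = 0 := by omega
      subst hi0
      refine Nn_ind z (P := fun x => g z 0 * x ∈ Nn z 0) ?_ ?_ ?_ ?_ x hx
      · intro x hx
        have := Nn_right z (one_mem_HW z f0 1) hx
        rwa [one_mul] at this
      · intro a ha b hb
        have h1 : a * g z 0 = g z 0 * a := sp_comm z (le_refl 0) (sp_HS_one z ha)
        have h2 : g z 0 * (a * g z 0 * b) = a * b + z • (a * g z 0 * b) := by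
          rw [← mul_assoc, ← mul_assoc, ← h1, mul_assoc a, g_sq, mul_add, mul_one, add_mul,
            mul_smul_comm, smul_mul_assoc]
        rw [h2]
        exact Submodule.add_mem _ (Nn_left z (mul_mem_HW z f0_mono ha hb))
          (Submodule.smul_mem _ _ (Nn_right z ha hb))
      · intro x y hx hy
        rw [mul_add]; exact Submodule.add_mem _ hx hy
      · intro c x hx
        rw [mul_smul_comm]; exact Submodule.smul_mem _ _ hx
  | succ m ih =>
    intro x hx
    refine HW_ind z f0_mono (P := fun x => x ∈ Nn z (m + 1)) ?_ ?_ ?_ ?_ x hx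
    · exact Nn_left z (one_mem_HW z _ _)
    · intro x y hx hy; exact Submodule.add_mem _ hx hy
    · intro c x hx; exact Submodule.smul_mem _ _ hx
    · intro i x hi _ hx
      by_cases him : i = m + 1
      · subst him
        refine Nn_ind z (P := fun x => g z (m + 1) * x ∈ Nn z (m + 1)) ?_ ?_ ?_ ?_ x hx
        · intro x hx
          have := Nn_right z (one_mem_HW z f0 (m + 2)) hx
          rwa [one_mul] at this
        · intro a ha b hb
          have ha' := ih ha
          refine Nn_ind z (P := fun a => g z (m + 1) * (a * g z (m + 1) * b) ∈ Nn z (m + 1))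
            ?_ ?_ ?_ ?_ a ha'
          · intro a ha
            have h1 : a * g z (m + 1) = g z (m + 1) * a := sp_comm z (le_refl _) ha
            have h2 : g z (m + 1) * (a * g z (m + 1) * b) = a * b + z • (a * g z (m + 1) * b) := by
              rw [← mul_assoc, ← mul_assoc, ← h1, mul_assoc a, g_sq, mul_add, mul_one, add_mul,
                mul_smul_comm, smul_mul_assoc]
            have ha2 : a ∈ HS z (m + 2) := HW_mono z (by omega) (fun _ _ _ => rfl) ha
            rw [h2]
            exact Submodule.add_mem _ (Nn_left z (mul_mem_HW z f0_mono ha2 hb))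
              (Submodule.smul_mem _ _ (Nn_right z ha2 hb))
          · intro a ha c hc
            have h1 : a * g z (m + 1) = g z (m + 1) * a := sp_comm z (le_refl _) ha
            have h2 : c * g z (m + 1) = g z (m + 1) * c := sp_comm z (le_refl _) hc
            have h3 : g z (m + 1) * (a * g z m * c * g z (m + 1) * b) =
                (a * g z m) * g z (m + 1) * (g z m * c * b) := by
              calc g z (m + 1) * (a * g z m * c * g z (m + 1) * b)
                  = (g z (m + 1) * a) * g z m * (c * g z (m + 1)) * b := by simp only [mul_assoc]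
                _ = a * (g z (m + 1) * g z m * g z (m + 1)) * c * b := by
                    rw [← h1, h2]; simp only [mul_assoc]
                _ = a * (g z m * g z (m + 1) * g z m) * c * b := by rw [braid]
                _ = _ := by simp only [mul_assoc]
            have ha2 : a ∈ HS z (m + 2) := HW_mono z (by omega) (fun _ _ _ => rfl) ha
            have hc2 : c ∈ HS z (m + 2) := HW_mono z (by omega) (fun _ _ _ => rfl) hc
            have hg2 : g z m ∈ HS z (m + 2) := g_mem_HW z (by omega) rfl
            rw [h3]
            exact Nn_right z (mul_mem_HW z f0_mono ha2 hg2)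
              (mul_mem_HW z f0_mono (mul_mem_HW z f0_mono hg2 hc2) hb)
          · intro x y hx hy
            rw [add_mul, add_mul, mul_add]; exact Submodule.add_mem _ hx hy
          · intro c x hx
            rw [smul_mul_assoc, smul_mul_assoc, mul_smul_comm]; exact Submodule.smul_mem _ _ hx
        · intro x y hx hy
          rw [mul_add]; exact Submodule.add_mem _ hx hy
        · intro c x hx
          rw [mul_smul_comm]; exact Submodule.smul_mem _ _ hx
      · have hgi : g z i ∈ HS z (m + 2) := g_mem_HW z (by omega) rfl
        refine Nn_ind z (P := fun x => g z i * x ∈ Nn z (m + 1)) ?_ ?_ ?_ ?_ x hx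
        · intro x hx
          exact Nn_left z (mul_mem_HW z f0_mono hgi hx)
        · intro a ha b hb
          have : g z i * (a * g z (m + 1) * b) = (g z i * a) * g z (m + 1) * b := by
            simp only [mul_assoc]
          rw [this]
          exact Nn_right z (mul_mem_HW z f0_mono hgi ha) hb
        · intro x y hx hy
          rw [mul_add]; exact Submodule.add_mem _ hx hy
        · intro c x hx
          rw [mul_smul_comm]; exact Submodule.smul_mem _ _ hx

private theorem sp_ev_comm (z : k) {m : ℕ} {l : List ℕ} (hl : ∀ i ∈ l, m ≤ i) {x : H z}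
    (hx : x ∈ HS z m) : x * ev z (pw l) = ev z (pw l) * x := by
  induction l with
  | nil => simp only [pw, List.map_nil, ev_nil, mul_one, one_mul]
  | cons i l ih =>
    have h1 := sp_comm z (hl i (by simp)) hx
    have h2 := ih (fun i' hi' => hl i' (by simp [hi']))
    unfold pw at h2 ⊢
    rw [List.map_cons, ev_cons]
    have h3 : evl z (i, true) = g z i := rfl
    rw [h3, ← mul_assoc, h1, mul_assoc, h2, mul_assoc]

/-- A central element is determined by its pairings with the descending words. -/
theorem span_kill (z : k) {n : ℕ} {ζ : H z} (hζ : ζ ∈ Zc z n) (hk : ∀ l : List ℕ, l.Pairwise (· > ·) →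
    (∀ i ∈ l, i + 1 < n) → τ z (ζ * ev z (pw l)) = 0) : ζ = 0 := by
  have hcomm : ∀ y ∈ HS z n, y * ζ = ζ * y :=
    fun y hy => commute_HW z f0_mono (fun i hi _ => hζ.2 i hi) hy
  have hP : ∀ m, m + 1 ≤ n → ∀ l : List ℕ, l.Pairwise (· > ·) → (∀ i ∈ l, m ≤ i ∧ i + 1 < n) →
      ∀ y ∈ HS z (m + 1), τ z (ζ * ev z (pw l) * y) = 0 := by
    intro m
    induction m with
    | zero =>
      intro _ l hl hv y hy
      have hy0 := sp_HS_one z hy
      have h1 : ∀ y ∈ HS z 0, ∃ c : k, y = c • 1 := by
        intro y hy
        refine HW_ind z f0_mono (N := 0) (P := fun y => ∃ c : k, y = c • 1) ?_ ?_ ?_ ?_ y hy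
        · exact ⟨1, (one_smul _ _).symm⟩
        · rintro x y ⟨c, rfl⟩ ⟨c', rfl⟩
          exact ⟨c + c', (add_smul _ _ _).symm⟩
        · rintro c x ⟨c', rfl⟩
          exact ⟨c * c', smul_smul _ _ _⟩
        · intro i x hi
          exact absurd hi (by omega)
      obtain ⟨c, rfl⟩ := h1 y hy0
      rw [mul_smul_comm, mul_one, map_smul, hk l hl (fun i hi => (hv i hi).2), smul_zero]
    | succ m ih =>
      intro hmn l hl hv y hy
      have hy' := HS_le_Nn z m hy
      refine Nn_ind z (P := fun y => τ z (ζ * ev z (pw l) * y) = 0) ?_ ?_ ?_ ?_ y hy'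
      · intro y hy
        exact ih (by omega) l hl (fun i hi => ⟨by have := (hv i hi).1; omega, (hv i hi).2⟩) y hy
      · intro a ha b hb
        have han : a ∈ HS z n := HW_mono z (by omega) (fun _ _ _ => rfl) ha
        have h1 : a * ev z (pw l) = ev z (pw l) * a := sp_ev_comm z (fun i hi => (hv i hi).1) ha
        have h2 : ζ * ev z (pw l) * (a * g z m * b) = a * (ζ * ev z (pw l) * g z m * b) := by
          calc ζ * ev z (pw l) * (a * g z m * b) = ζ * (ev z (pw l) * a) * g z m * b := by
                simp only [mul_assoc]
            _ = (ζ * a) * ev z (pw l) * g z m * b := by rw [← h1]; simp only [mul_assoc]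
            _ = a * (ζ * ev z (pw l) * g z m * b) := by
                rw [← hcomm a han]; simp only [mul_assoc]
        have h3 : ev z (pw (l ++ [m])) = ev z (pw l) * g z m := by
          unfold pw
          rw [List.map_append, ev_append, List.map_singleton, ev_cons, ev_nil, mul_one]
          rfl
        have h4 : (ζ * ev z (pw l) * g z m * b) * a = ζ * ev z (pw (l ++ [m])) * (b * a) := by
          rw [h3]; simp only [mul_assoc]
        rw [h2, τ_comm, h4]
        refine ih (by omega) (l ++ [m]) ?_ ?_ (b * a) (mul_mem_HW z f0_mono hb ha)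
        · rw [List.pairwise_append]
          refine ⟨hl, by simp, ?_⟩
          intro i hi i' hi'
          have h5 := (hv i hi).1
          simp only [List.mem_singleton] at hi'
          omega
        · intro i hi
          rw [List.mem_append, List.mem_singleton] at hi
          rcases hi with hi | hi
          · have := hv i hi
            omega
          · omega
      · intro x y hx hy
        rw [mul_add, map_add, hx, hy, add_zero]
      · intro c x hx
        rw [mul_smul_comm, map_smul, hx, smul_zero]
  refine τ_nondeg z hζ.1 ?_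
  intro y hy
  rcases Nat.eq_zero_or_pos n with hn | hn
  · subst hn
    have hy1 : y ∈ HS z 1 := HW_mono z (by omega) (fun _ _ _ => rfl) hy
    have h1 : ∀ y ∈ HS z 0, ∃ c : k, y = c • 1 := by
      intro y hy
      refine HW_ind z f0_mono (N := 0) (P := fun y => ∃ c : k, y = c • 1) ?_ ?_ ?_ ?_ y hy
      · exact ⟨1, (one_smul _ _).symm⟩
      · rintro x y ⟨c, rfl⟩ ⟨c', rfl⟩
        exact ⟨c + c', (add_smul _ _ _).symm⟩
      · rintro c x ⟨c', rfl⟩
        exact ⟨c * c', smul_smul _ _ _⟩
      · intro i x hi
        exact absurd hi (by omega)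
    obtain ⟨c, rfl⟩ := h1 y hy
    have h2 := hk [] (by simp) (by simp)
    simp only [pw, List.map_nil, ev_nil, mul_one] at h2
    rw [mul_smul_comm, mul_one, map_smul, h2, smul_zero]
  · obtain ⟨m, rfl⟩ : ∃ m, n = m + 1 := ⟨n - 1, by omega⟩
    have := hP m (le_refl _) [] (by simp) (by simp) y hy
    simpa only [pw, List.map_nil, ev_nil, mul_one] using this

private theorem nodup_of_desc {l : List ℕ} (hl : l.Pairwise (· > ·)) : l.Nodup :=
  hl.imp (fun h => (ne_of_gt h))

theorem pw_length {n : ℕ} {l : List ℕ} (hl : l.Pairwise (· > ·)) (hv : ∀ i ∈ l, i + 1 < n) :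
    l.length ≤ n - 1 := by
  rw [← List.toFinset_card_of_nodup (nodup_of_desc hl), ← card_range (n - 1)]
  apply card_le_card
  intro i hi
  rw [List.mem_toFinset] at hi
  have := hv i hi
  rw [mem_range]
  omega

/-- a descending word in the letters of `H_n` with a missing letter lies in a proper Young subalgebra -/
theorem pw_mem_parabolic (z : k) {n : ℕ} {l : List ℕ} (hl : l.Pairwise (· > ·))
    (hv : ∀ i ∈ l, i + 1 < n) (hlen : l.length + 1 < n) :
    ∃ j, 0 < j ∧ j < n ∧ ev z (pw l) ∈ HW z (fj j) n := by
  have h1 : l.toFinset.card < (range (n - 1)).card := by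
    rw [List.toFinset_card_of_nodup (nodup_of_desc hl), card_range]
    omega
  obtain ⟨i, hi, hil⟩ := Finset.exists_mem_notMem_of_card_lt_card h1
  rw [mem_range] at hi
  rw [List.mem_toFinset] at hil
  refine ⟨i + 1, by omega, by omega, ?_⟩
  have key : ∀ l : List ℕ, (∀ x ∈ l, x + 1 < n ∧ x ≠ i) → ev z (pw l) ∈ HW z (fj (i + 1)) n := by
    intro l
    induction l with
    | nil =>
      intro _
      simp only [pw, List.map_nil, ev_nil]
      exact one_mem_HW z _ _
    | cons x l ih =>
      intro h
      have h2 := ih (fun y hy => h y (by simp [hy]))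
      unfold pw at h2 ⊢
      rw [List.map_cons, ev_cons]
      have h3 := h x (by simp)
      refine mul_mem_HW z (fj_mono _) ?_ h2
      change g z x ∈ _
      refine g_mem_HW z h3.1 ?_
      simp only [fj]
      split_ifs <;> omega
  exact key l (fun x hx => ⟨hv x hx, fun h => hil (h ▸ hx)⟩)

private theorem desc_full {n : ℕ} {l : List ℕ} (hl : l.Pairwise (· > ·))
    (hv : ∀ i ∈ l, i + 1 < n) (hlen : l.length = n - 1) : l = (List.range (n - 1)).reverse := by
  have h1 : l.toFinset = range (n - 1) := by
    apply Finset.eq_of_subset_of_card_le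
    · intro i hi
      rw [List.mem_toFinset] at hi
      have := hv i hi
      rw [mem_range]
      omega
    · rw [List.toFinset_card_of_nodup (nodup_of_desc hl), card_range, hlen]
  have h2 : l.Perm (List.range (n - 1)).reverse := by
    rw [List.perm_ext_iff_of_nodup (nodup_of_desc hl) (List.nodup_reverse.mpr List.nodup_range)]
    intro a
    rw [← List.mem_toFinset, h1, mem_range, List.mem_reverse, List.mem_range]
  have h3 : (List.range (n - 1)).reverse.Pairwise (· > ·) := by
    rw [List.pairwise_reverse]
    exact List.pairwise_lt_range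
  exact h2.eq_of_pairwise (fun a b _ _ h4 h5 => absurd h4 (by omega)) hl h3

/-- the only descending word with all the letters is `κ_n` -/
theorem pw_full (z : k) {n : ℕ} {l : List ℕ} (hl : l.Pairwise (· > ·))
    (hv : ∀ i ∈ l, i + 1 < n) (hlen : l.length = n - 1) : ev z (pw l) = kap z n := by
  rw [desc_full hl hv hlen]
  unfold kap cWord pw
  congr 1

/-- sign changes only add shorter descending words -/
private theorem sign_change (z : k) (w : Word) : ∃ r ∈ Submodule.span k
    {x : H z | ∃ l : List ℕ, l.Sublist (w.map Prod.fst) ∧ l.length < w.length ∧ x = ev z (pw l)},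
    ev z w = ev z (pw (w.map Prod.fst)) + r := by
  induction w with
  | nil =>
    refine ⟨0, Submodule.zero_mem _, ?_⟩
    simp [pw]
  | cons a w ih =>
    obtain ⟨r, hr, h⟩ := ih
    have hg : ∀ i, g z i * ev z (pw (w.map Prod.fst)) = ev z (pw (i :: w.map Prod.fst)) := by
      intro i
      unfold pw
      rw [List.map_cons, ev_cons]
      rfl
    have hgr : g z a.1 * r ∈ Submodule.span k {x : H z | ∃ l : List ℕ,
        l.Sublist ((a :: w).map Prod.fst) ∧ l.length < (a :: w).length ∧ x = ev z (pw l)} := by
      clear h
      induction hr using Submodule.span_induction with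
      | mem x h =>
        obtain ⟨l, hl1, hl2, rfl⟩ := h
        apply Submodule.subset_span
        refine ⟨a.1 :: l, ?_, ?_, ?_⟩
        · rw [List.map_cons]
          exact hl1.cons_cons _
        · simp only [List.length_cons]
          omega
        · unfold pw
          rw [List.map_cons, ev_cons]
          rfl
      | zero => rw [mul_zero]; exact Submodule.zero_mem _
      | add x y _ _ hx hy => rw [mul_add]; exact Submodule.add_mem _ hx hy
      | smul c x _ hx => rw [mul_smul_comm]; exact Submodule.smul_mem _ _ hx
    have hr' : r ∈ Submodule.span k {x : H z | ∃ l : List ℕ,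
        l.Sublist ((a :: w).map Prod.fst) ∧ l.length < (a :: w).length ∧ x = ev z (pw l)} := by
      refine Submodule.span_mono ?_ hr
      rintro x ⟨l, hl1, hl2, rfl⟩
      refine ⟨l, ?_, ?_, rfl⟩
      · rw [List.map_cons]
        exact hl1.cons _
      · simp only [List.length_cons]
        omega
    have hw' : ev z (pw (w.map Prod.fst)) ∈ Submodule.span k {x : H z | ∃ l : List ℕ,
        l.Sublist ((a :: w).map Prod.fst) ∧ l.length < (a :: w).length ∧ x = ev z (pw l)} := by
      apply Submodule.subset_span
      refine ⟨w.map Prod.fst, ?_, ?_, rfl⟩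
      · rw [List.map_cons]
        exact (List.Sublist.refl _).cons _
      · simp only [List.length_map, List.length_cons]
        omega
    rw [ev_cons, h, List.map_cons]
    unfold evl
    split_ifs
    · exact ⟨g z a.1 * r, hgr, by rw [mul_add, hg]⟩
    · refine ⟨g z a.1 * r - z • (ev z (pw (w.map Prod.fst)) + r), ?_, ?_⟩
      · exact Submodule.sub_mem _ hgr (Submodule.smul_mem _ _ (Submodule.add_mem _ hw' hr'))
      · unfold gi
        rw [sub_mul, smul_one_mul, mul_add, hg]
        abel

/-- `X_n = n κ_n` modulo shorter descending words: pairing with a central element which kills all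
descending words of length `< n - 1`. -/
theorem τ_mul_X (z : k) {n : ℕ} (hn : 0 < n) {ζ : H z} (hζ : ζ ∈ Zc z n) (hk : Kills z n (n-1) ζ) :
    τ z (ζ * X z n) = (n : k) * τ z (ζ * kap z n) := by
  unfold X
  rw [Finset.mul_sum, map_sum]
  have h1 : ∀ m ∈ range n, τ z (ζ * ev z (cWord n m)) = τ z (ζ * kap z n) := by
    intro m _
    have hfst : (cWord n m).map Prod.fst = (List.range (n - 1)).reverse := by
      unfold cWord
      rw [List.map_map]
      simp [Function.comp_def]
    have hlen : (cWord n m).length = n - 1 := by
      unfold cWord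
      simp
    obtain ⟨r, hr, h⟩ := sign_change z (cWord n m)
    rw [hfst, hlen] at hr
    rw [hfst] at h
    have h2 : ev z (pw (List.range (n - 1)).reverse) = kap z n := by
      unfold kap cWord pw
      congr 1
    rw [h, h2, mul_add, map_add]
    have h3 : τ z (ζ * r) = 0 := by
      have hpd : (List.range (n - 1)).reverse.Pairwise (· > ·) := by
        rw [List.pairwise_reverse]
        exact List.pairwise_lt_range
      clear h
      induction hr using Submodule.span_induction with
      | mem x h =>
        obtain ⟨l, hl1, hl2, rfl⟩ := h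
        refine hk l (hpd.sublist hl1) ?_ hl2
        intro i hi
        have := hl1.subset hi
        rw [List.mem_reverse, List.mem_range] at this
        omega
      | zero => rw [mul_zero, map_zero]
      | add x y _ _ hx hy => rw [mul_add, map_add, hx, hy, add_zero]
      | smul c x _ hx => rw [mul_smul_comm, map_smul, hx, smul_zero]
    rw [h3, add_zero]
  rw [Finset.sum_congr rfl h1, Finset.sum_const, card_range, nsmul_eq_mul]

end Pool.Agent.HL
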