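import Pool.Agent.Lib.HL21.Theta
import Pool.Agent.Lib.HL21.Span

/-! # Module Prim: separability below `p`, and `Z(H_p) = k + Tr(H_p)` when `[p]² = 0` -/

namespace Pool.Agent.HL

open Finset

variable {k : Type*} [CommRing k]

/-- The conditions under which the congruence becomes an equality. -/
structure Good (P : Par k) (p : ℕ) : Prop where
  pr : p.Prime
  sq : P.qn p ^ 2 = 0
  qn : ∀ j, 0 < j → j < p → IsUnit (P.qn j)
  nat : ∀ m : ℕ, 0 < m → IsUnit (m : k)
  ap : IsUnit ((P.a : k) ^ p - ((P.a⁻¹ : kˣ) : k) ^ p)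

theorem Tr_X_zero {P : Par k} {p : ℕ} (hG : Good P p) : TrS P.z p (X P.z p) = 0 := by
  have hp : 0 < p := hG.pr.pos
  refine span_kill P.z (TrS_mem_Zc P.z (X_mem P.z p)) ?_
  intro l hl hv
  rcases lt_or_ge (l.length + 1) p with h | h
  · obtain ⟨j, hj0, hjp, hmem⟩ := pw_mem_parabolic P.z hl hv h
    rw [τ_Tr]
    exact chi_X P.z hj0 hjp hmem
  · have h1 := pw_length hl hv
    have h2 : l.length = p - 1 := by omega
    rw [pw_full P.z hl hv h2, theta P hp hG.qn, hG.sq]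

/-! ### the extreme Young subgroups -/

private theorem pm_fj_zero_eq (x y : ℕ) : fj 0 x = fj 0 y := by simp [fj]

private theorem pm_W_fj_zero (n : ℕ) : W (fj 0) n = W0 n := by
  ext w
  rw [mem_W, mem_W]
  constructor
  · intro h; exact ⟨h.1, fun _ => rfl⟩
  · intro h; exact ⟨h.1, fun _ => pm_fj_zero_eq _ _⟩

private theorem pm_S_lt {n : ℕ} {w : S} (hw : ∀ i, n ≤ i → w.1 i = i) {i : ℕ} (hi : i < n) : w.1 i < n := by
  by_contra h
  push Not at h
  have h1 := hw _ h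
  have h2 := w.1.injective h1
  omega

private theorem pm_S_symm {n : ℕ} {w : S} (hw : ∀ i, n ≤ i → w.1 i = i) {i : ℕ} (hi : n ≤ i) :
    w.1.symm i = i := by
  rw [Equiv.symm_apply_eq]
  exact (hw i hi).symm

private theorem pm_W_fj_self (n : ℕ) : W (fj n) n = W0 n := by
  ext w
  rw [mem_W, mem_W]
  constructor
  · intro h; exact ⟨h.1, fun _ => rfl⟩
  · intro h
    refine ⟨h.1, fun i => ?_⟩
    rcases lt_or_ge i n with hi | hi
    · have := pm_S_lt h.1 hi
      simp [fj, hi, this]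
    · rw [h.1 i hi]

private theorem pm_HW_fj_zero (z : k) (n : ℕ) : HW z (fj 0) n = HS z n := by
  unfold HS HW
  rw [pm_W_fj_zero]

private theorem pm_HW_fj_self (z : k) (n : ℕ) : HW z (fj n) n = HS z n := by
  unfold HS HW
  rw [pm_W_fj_self]

private theorem pm_HW_le_HS (z : k) (f : ℕ → ℕ) (n : ℕ) : HW z f n ≤ HS z n :=
  HW_mono z le_rfl fun _ _ _ => rfl

private theorem pm_D_eq_one {f : ℕ → ℕ} (hf : Monotone f) {n : ℕ} (h : W f n = W0 n) : D f n = {1} := by
  ext d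
  rw [mem_singleton]
  constructor
  · intro hd
    have hd0 : d ∈ W f n := by
      rw [h]
      exact (mem_D.1 hd).1
    exact (coset_unique hf hd (one_mem_D f n) (one_mem_W f n) hd0 (by rw [mul_one, one_mul])).1
  · rintro rfl
    exact one_mem_D f n

private theorem pm_inv_one_S : (1 : S)⁻¹ = 1 := inv_one

/-- the extreme terms of `Ψ` are the identity -/
private theorem pm_extreme_term (z : k) {f : ℕ → ℕ} (hf : Monotone f) {n : ℕ} (h : W f n = W0 n) {ζ : H z}
    (hζ : ζ ∈ HS z n) : ∑ d ∈ D f n, T z d * E z f n ζ * T z d⁻¹ = ζ := by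
  have hm : ζ ∈ HW z f n := by
    unfold HW
    rw [h]
    exact hζ
  rw [pm_D_eq_one hf h, sum_singleton, E_of_mem z hm, pm_inv_one_S, T_one, one_mul, mul_one]

/-! ### the trace of a two-block Young subalgebra -/

/-- The restriction of a permutation preserving `[0,j)` to `[0,j)`. -/
private theorem pm_exists_restrict {j n : ℕ} (hj : j ≤ n) {u : S} (hu : u ∈ W (fj j) n) :
    ∃ v ∈ W0 j, ∃ w ∈ W0 (n - j), v * shS j w = u := by
  obtain ⟨h1, h2⟩ := mem_W.1 hu
  have hlt : ∀ i, u.1 i < j ↔ i < j := by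
    intro i
    have := h2 i
    simp only [fj] at this
    by_cases h3 : u.1 i < j <;> by_cases h4 : i < j <;> simp [h3, h4] at this ⊢
  have hlt' : ∀ i, u.1.symm i < j ↔ i < j := by
    intro i
    have := hlt (u.1.symm i)
    rw [Equiv.apply_symm_apply] at this
    exact this.symm
  let v : S := ⟨⟨fun i => if i < j then u.1 i else i, fun i => if i < j then u.1.symm i else i,
    by
      intro i
      by_cases hi : i < j
      · have := (hlt i).2 hi
        simp [hi, this]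
      · simp [hi],
    by
      intro i
      by_cases hi : i < j
      · have := (hlt' i).2 hi
        simp [hi, this]
      · simp [hi]⟩, ⟨j, fun i hi => by simp [Nat.not_lt.2 hi]⟩⟩
  let w : S := ⟨⟨fun i => u.1 (i + j) - j, fun i => u.1.symm (i + j) - j,
    by
      intro i
      have h3 : ¬ (u.1 (i + j) < j) := by rw [hlt]; omega
      simp only
      rw [Nat.sub_add_cancel (by omega), Equiv.symm_apply_apply, Nat.add_sub_cancel],
    by
      intro i
      have h3 : ¬ (u.1.symm (i + j) < j) := by rw [hlt']; omega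
      simp only
      rw [Nat.sub_add_cancel (by omega), Equiv.apply_symm_apply, Nat.add_sub_cancel]⟩,
    ⟨n - j, fun i hi => by
      change u.1 (i + j) - j = i
      rw [h1 _ (by omega), Nat.add_sub_cancel]⟩⟩
  have hv : ∀ i, v.1 i = if i < j then u.1 i else i := fun _ => rfl
  have hw : ∀ i, w.1 i = u.1 (i + j) - j := fun _ => rfl
  refine ⟨v, mem_W.2 ⟨fun i hi => ?_, fun _ => rfl⟩, w, mem_W.2 ⟨fun i hi => ?_, fun _ => rfl⟩, ?_⟩
  · rw [hv, if_neg (by omega)]
  · rw [hw, h1 _ (by omega), Nat.add_sub_cancel]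
  · apply Subtype.ext
    apply Equiv.ext
    intro i
    change v.1 ((shS j w).1 i) = u.1 i
    rw [shS_apply]
    by_cases hi : i < j
    · rw [if_pos hi, hv, if_pos hi]
    · rw [if_neg hi, hv, if_neg (by omega), hw, Nat.sub_add_cancel (by omega : j ≤ i)]
      have h3 : ¬ (u.1 i < j) := by rw [hlt]; exact hi
      omega

private theorem pm_shS_lt {j : ℕ} (w : S) {i : ℕ} (hi : i < j) : (shS j w).1 i = i := by
  rw [shS_apply, if_pos hi]

private theorem pm_shS_ge {j : ℕ} (w : S) {i : ℕ} (hi : j ≤ i) : (shS j w).1 i = w.1 (i - j) + j := by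
  rw [shS_apply, if_neg (by omega)]

private theorem pm_mul_shS_mem {j n : ℕ} (hj : j ≤ n) {v w : S} (hv : v ∈ W0 j) (hw : w ∈ W0 (n - j)) :
    v * shS j w ∈ W (fj j) n := by
  have hv1 := (mem_W.1 hv).1
  have hw1 := (mem_W.1 hw).1
  refine mem_W.2 ⟨fun i hi => ?_, fun i => ?_⟩
  · change v.1 ((shS j w).1 i) = i
    rw [pm_shS_ge w (by omega), hw1 _ (by omega), Nat.sub_add_cancel (by omega), hv1 _ (by omega)]
  · change fj j (v.1 ((shS j w).1 i)) = fj j i
    rcases lt_or_ge i j with hi | hi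
    · rw [pm_shS_lt w hi]
      have := pm_S_lt hv1 hi
      simp [fj, hi, this]
    · rw [pm_shS_ge w hi, hv1 _ (by omega)]
      have h1 : ¬ (w.1 (i - j) + j < j) := by omega
      have h2 : ¬ (i < j) := by omega
      simp [fj, h1, h2]

private theorem pm_mul_shS_inj {j : ℕ} {v w v' w' : S} (hv : v ∈ W0 j) (hv' : v' ∈ W0 j)
    (h : v * shS j w = v' * shS j w') : v = v' ∧ w = w' := by
  have hv1 := (mem_W.1 hv).1
  have hv1' := (mem_W.1 hv').1
  have hval : ∀ i, v.1 ((shS j w).1 i) = v'.1 ((shS j w').1 i) := by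
    intro i
    have := congrArg (fun x : S => x.1 i) h
    exact this
  constructor
  · apply Subtype.ext
    apply Equiv.ext
    intro i
    rcases lt_or_ge i j with hi | hi
    · have := hval i
      rw [pm_shS_lt w hi, pm_shS_lt w' hi] at this
      exact this
    · rw [hv1 i hi, hv1' i hi]
  · apply Subtype.ext
    apply Equiv.ext
    intro i
    have := hval (i + j)
    rw [pm_shS_ge w (by omega), pm_shS_ge w' (by omega), hv1 _ (by omega), hv1' _ (by omega),
      Nat.add_sub_cancel] at this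
    omega

private theorem pm_sum_two_block {j n : ℕ} (hj : j ≤ n) {M : Type*} [AddCommMonoid M] (F : S → M) :
    ∑ u ∈ W (fj j) n, F u = ∑ v ∈ W0 j, ∑ w ∈ W0 (n - j), F (v * shS j w) := by
  rw [← sum_product']
  symm
  apply sum_bij (fun (x : S × S) _ => x.1 * shS j x.2)
  · intro x hx
    rw [mem_product] at hx
    exact pm_mul_shS_mem hj hx.1 hx.2
  · intro x hx y hy hxy
    rw [mem_product] at hx hy
    obtain ⟨h1, h2⟩ := pm_mul_shS_inj hx.1 hy.1 hxy
    exact Prod.ext h1 h2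
  · intro u hu
    obtain ⟨v, hv, w, hw, h⟩ := pm_exists_restrict hj hu
    exact ⟨(v, w), mem_product.2 ⟨hv, hw⟩, h⟩
  · intro x _
    rfl

private theorem pm_T_mul_shS (z : k) {j : ℕ} {v : S} (hv : v ∈ W0 j) (w : S) :
    T z v * sh z j (T z w) = T z (v * shS j w) := by
  have hv1 := (mem_W.1 hv).1
  rw [sh_T]
  apply TT
  intro i l hil hlt
  have hi : j ≤ i := by
    by_contra hc
    push Not at hc
    rw [pm_shS_lt w hc] at hlt
    rcases lt_or_ge l j with hl | hl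
    · rw [pm_shS_lt w hl] at hlt
      omega
    · rw [pm_shS_ge w hl] at hlt
      omega
  rw [pm_shS_ge w hi, pm_shS_ge w (by omega)] at hlt ⊢
  rw [hv1 _ (by omega), hv1 _ (by omega)]
  exact hlt

private theorem pm_T_shS_mul (z : k) {j : ℕ} {v : S} (hv : v ∈ W0 j) (w : S) :
    sh z j (T z w) * T z v = T z (shS j w * v) := by
  have hv1 := (mem_W.1 hv).1
  rw [sh_T]
  apply TT
  intro i l hil hlt
  have hl : l < j := by
    by_contra hc
    push Not at hc
    rw [hv1 l hc] at hlt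
    rcases lt_or_ge i j with hi | hi
    · have := pm_S_lt hv1 hi
      omega
    · rw [hv1 i hi] at hlt
      omega
  rw [pm_shS_lt w (pm_S_lt hv1 hl), pm_shS_lt w (pm_S_lt hv1 (by omega))]
  exact hlt

private theorem pm_T_mem_HS {z : k} {j : ℕ} {v : S} (hv : v ∈ W0 j) : T z v ∈ HS z j := T_mem_HW z hv

/-- The trace of a product of elements of the two blocks. -/
private theorem pm_Tr_two_block (z : k) {j n : ℕ} (hj : j ≤ n) {x : H z} (hx : x ∈ HS z j) (y : H z) :
    Tr z (W (fj j) n) (x * sh z j y) = TrS z j x * sh z j (TrS z (n - j) y) := by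
  rw [Tr_apply, Tr_apply, Tr_apply, pm_sum_two_block hj, sum_mul]
  apply sum_congr rfl
  intro v hv
  have hvi : v⁻¹ ∈ W0 j := inv_mem_W hv
  have hcomm : ∀ y' : H z, ∀ x' ∈ HS z j, x' * sh z j y' = sh z j y' * x' :=
    fun y' x' hx' => sh_commute z le_rfl hx' y'
  have hterm : ∀ w : S, T z (v * shS j w) * (x * sh z j y) * T z (v * shS j w)⁻¹ =
      T z v * x * T z v⁻¹ * sh z j (T z w * y * T z w⁻¹) := by
    intro w
    have e1 : (v * shS j w)⁻¹ = shS j w⁻¹ * v⁻¹ := by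
      rw [mul_inv_rev, map_inv]
    rw [e1, ← pm_T_mul_shS z hv w, ← pm_T_shS_mul z hvi w⁻¹]
    have e2 := hcomm (T z w) x hx
    have e3 : T z v * x * T z v⁻¹ * sh z j (T z w * y * T z w⁻¹) =
        T z v * x * sh z j (T z w * y * T z w⁻¹) * T z v⁻¹ := by
      rw [mul_assoc (T z v * x), hcomm _ _ (pm_T_mem_HS hvi), ← mul_assoc]
    rw [e3, map_mul, map_mul]
    calc T z v * sh z j (T z w) * (x * sh z j y) * (sh z j (T z w⁻¹) * T z v⁻¹)
        = T z v * (sh z j (T z w) * x) * sh z j y * sh z j (T z w⁻¹) * T z v⁻¹ := by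
          simp only [mul_assoc]
      _ = T z v * (x * sh z j (T z w)) * sh z j y * sh z j (T z w⁻¹) * T z v⁻¹ := by rw [e2]
      _ = T z v * x * (sh z j (T z w) * sh z j y * sh z j (T z w⁻¹)) * T z v⁻¹ := by
          simp only [mul_assoc]
  rw [sum_congr rfl fun w _ => hterm w, ← mul_sum, ← map_sum]

/-! ### the operator `Ψ` modulo traces -/

/-- `Ψ ζ = 2 ζ + Tr_n (pm_GG ζ)`, given separability idempotents `c j` for `0 < j < n`. -/
private noncomputable def pm_GG (z : k) (n : ℕ) (c : ℕ → H z) : H z →ₗ[k] H z :=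
  ∑ j ∈ range (n - 1), (LinearMap.mulRight k (c (j+1) * sh z (j+1) (c (n - (j+1))))) ∘ₗ
    (E z (fj (j+1)) n)

private theorem pm_GG_apply (z : k) (n : ℕ) (c : ℕ → H z) (x : H z) :
    pm_GG z n c x = ∑ j ∈ range (n - 1), E z (fj (j+1)) n x * (c (j+1) * sh z (j+1) (c (n - (j+1)))) := by
  simp only [pm_GG, LinearMap.sum_apply, LinearMap.comp_apply, LinearMap.mulRight_apply]

private theorem pm_cB_mem (z : k) {n j : ℕ} (hj : j ≤ n) {x y : H z} (hx : x ∈ HS z j)
    (hy : y ∈ HS z (n - j)) : x * sh z j y ∈ HS z n := by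
  have h1 : x ∈ HS z n := HW_mono z hj (fun _ _ h => h) hx
  have h2 : sh z j y ∈ HS z n := by
    have := sh_mem z j hy
    rwa [Nat.add_sub_cancel' hj] at this
  exact mul_mem_HW z (fun _ _ _ => le_rfl) h1 h2

private theorem pm_GG_mem (z : k) {n : ℕ} {c : ℕ → H z}
    (hc : ∀ j, 0 < j → j < n → c j ∈ HS z j ∧ TrS z j (c j) = 1) (x : H z) :
    pm_GG z n c x ∈ HS z n := by
  rw [pm_GG_apply]
  apply Submodule.sum_mem
  intro j hj
  rw [mem_range] at hj
  apply mul_mem_HW z (fun _ _ _ => le_rfl)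
  · exact pm_HW_le_HS z _ n (E_mem z _ n x)
  · exact pm_cB_mem z (by omega) (hc (j+1) (by omega) (by omega)).1
      (hc (n - (j+1)) (by omega) (by omega)).1

private theorem pm_rel_term (z : k) {n j : ℕ} (h0 : 0 < j) (hj : j < n) {c : ℕ → H z}
    (hc : ∀ j, 0 < j → j < n → c j ∈ HS z j ∧ TrS z j (c j) = 1) {ζ : H z} (hζ : ζ ∈ Zc z n) :
    ∑ d ∈ D (fj j) n, T z d * E z (fj j) n ζ * T z d⁻¹ =
      TrS z n (E z (fj j) n ζ * (c j * sh z j (c (n - j)))) := by
  have hcB : Tr z (W (fj j) n) (c j * sh z j (c (n - j))) = 1 := by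
    rw [pm_Tr_two_block z hj.le (hc j h0 hj).1, (hc j h0 hj).2, (hc (n - j) (by omega) (by omega)).2,
      map_one, mul_one]
  rw [Tr_trans z (fj_mono j)]
  apply sum_congr rfl
  intro d _
  rw [Tr_mul_left z (fj j) n (fun w hw =>
    (E_central z (fj_mono j) hζ (T_mem_HW z hw)).symm), hcB, mul_one]

private theorem pm_Psi_split (z : k) {n : ℕ} (hn : 0 < n) {c : ℕ → H z}
    (hc : ∀ j, 0 < j → j < n → c j ∈ HS z j ∧ TrS z j (c j) = 1) {ζ : H z} (hζ : ζ ∈ Zc z n) :
    Psi z n ζ = (2 : k) • ζ + TrS z n (pm_GG z n c ζ) := by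
  obtain ⟨m, rfl⟩ : ∃ m, n = m + 1 := ⟨n - 1, by omega⟩
  rw [Psi_apply, sum_range_succ, sum_range_succ', pm_GG_apply, map_sum]
  rw [pm_extreme_term z (fj_mono 0) (pm_W_fj_zero _) hζ.1,
    pm_extreme_term z (fj_mono (m+1)) (pm_W_fj_self _) hζ.1]
  have h1 : ∀ j ∈ range m, ∑ d ∈ D (fj (j+1)) (m+1),
      T z d * E z (fj (j+1)) (m+1) ζ * T z d⁻¹ =
      TrS z (m+1) (E z (fj (j+1)) (m+1) ζ * (c (j+1) * sh z (j+1) (c (m + 1 - (j+1))))) := by
    intro j hj
    rw [mem_range] at hj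
    exact pm_rel_term z (by omega) (by omega) hc hζ
  rw [sum_congr rfl h1, two_smul, Nat.add_sub_cancel]
  abel

/-- The iterated operators `∏ (Ψ - 2^(n-i))`. -/
private noncomputable def pm_ZT (z : k) (n : ℕ) : ℕ → (H z →ₗ[k] H z)
  | 0 => LinearMap.id
  | (m+1) => (Psi z n) ∘ₗ pm_ZT z n m - ((2:k) ^ (n - m)) • pm_ZT z n m

private theorem pm_ZT_succ (z : k) (n m : ℕ) (x : H z) :
    pm_ZT z n (m+1) x = Psi z n (pm_ZT z n m x) - ((2:k) ^ (n - m)) • pm_ZT z n m x := rfl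

private theorem pm_ZT_zero (z : k) (n : ℕ) (x : H z) : pm_ZT z n 0 x = x := rfl

/-- The correction terms. -/
private noncomputable def pm_XT (z : k) (n : ℕ) (c : ℕ → H z) : ℕ → (H z →ₗ[k] H z)
  | 0 => 0
  | (m+1) => ((2:k) - (2:k) ^ (n - m)) • pm_XT z n c m + (pm_GG z n c) ∘ₗ pm_ZT z n m

private theorem pm_XT_succ (z : k) (n : ℕ) (c : ℕ → H z) (m : ℕ) (x : H z) :
    pm_XT z n c (m+1) x = ((2:k) - (2:k) ^ (n - m)) • pm_XT z n c m x + pm_GG z n c (pm_ZT z n m x) := rfl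

private theorem pm_XT_zero (z : k) (n : ℕ) (c : ℕ → H z) (x : H z) : pm_XT z n c 0 x = 0 := rfl

private theorem pm_ZT_mem (z : k) {n : ℕ} {ζ : H z} (hζ : ζ ∈ Zc z n) (m : ℕ) : pm_ZT z n m ζ ∈ Zc z n := by
  induction m with
  | zero => exact hζ
  | succ m ih =>
    rw [pm_ZT_succ]
    exact Submodule.sub_mem _ (Psi_mem z ih) (Submodule.smul_mem _ _ ih)

private theorem pm_ZT_kills (z : k) {n : ℕ} {ζ : H z} (hζ : ζ ∈ Zc z n) (m : ℕ) : Kills z n m (pm_ZT z n m ζ) := by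
  induction m with
  | zero =>
    intro l _ _ hl
    omega
  | succ m ih =>
    intro l hl hv hlt
    rw [pm_ZT_succ, sub_mul, map_sub, smul_mul_assoc, map_smul, smul_eq_mul]
    have hmem := pm_ZT_mem z hζ m
    rcases Nat.lt_or_ge l.length m with h | h
    · have hk : Kills z n l.length (pm_ZT z n m ζ) := fun l' h1 h2 h3 => ih l' h1 h2 (by omega)
      rw [Psi_tri z hmem hk hl hv rfl, ih l hl hv h]
      ring
    · have h' : l.length = m := by omega
      rw [Psi_tri z hmem ih hl hv h', sub_self]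

private theorem pm_XT_mem (z : k) {n : ℕ} {c : ℕ → H z}
    (hc : ∀ j, 0 < j → j < n → c j ∈ HS z j ∧ TrS z j (c j) = 1) (m : ℕ) (x : H z) :
    pm_XT z n c m x ∈ HS z n := by
  induction m with
  | zero => exact Submodule.zero_mem _
  | succ m ih =>
    rw [pm_XT_succ]
    exact Submodule.add_mem _ (Submodule.smul_mem _ _ ih) (pm_GG_mem z hc _)

/-- The scalar `∏_{i<m} (2 - 2^(n-i))`. -/
private noncomputable def pm_cf (k : Type*) [CommRing k] (n m : ℕ) : k := ∏ i ∈ range m, ((2:k) - (2:k) ^ (n - i))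

private theorem pm_ZT_eq (z : k) {n : ℕ} (hn : 0 < n) {c : ℕ → H z}
    (hc : ∀ j, 0 < j → j < n → c j ∈ HS z j ∧ TrS z j (c j) = 1) {ζ : H z} (hζ : ζ ∈ Zc z n)
    (m : ℕ) : pm_ZT z n m ζ = pm_cf k n m • ζ + TrS z n (pm_XT z n c m ζ) := by
  induction m with
  | zero => rw [pm_ZT_zero, pm_XT_zero, map_zero, pm_cf, range_zero, prod_empty, one_smul, add_zero]
  | succ m ih =>
    rw [pm_ZT_succ, pm_Psi_split z hn hc (pm_ZT_mem z hζ m), pm_XT_succ, map_add, map_smul]
    have h1 : pm_cf k n (m+1) = pm_cf k n m * ((2:k) - (2:k) ^ (n - m)) := by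
      rw [pm_cf, prod_range_succ]; rfl
    have h2 : TrS z n (pm_XT z n c m ζ) = pm_ZT z n m ζ - pm_cf k n m • ζ := by
      rw [ih]; abel
    rw [h1, h2]
    module

private theorem pm_isUnit_two_sub {P : Par k} {p : ℕ} (hG : Good P p) {l : ℕ} (hl : 2 ≤ l) :
    IsUnit ((2:k) - (2:k) ^ l) := by
  have h1 : 2 < 2 ^ l := by
    calc 2 < 2 ^ 2 := by norm_num
      _ ≤ 2 ^ l := Nat.pow_le_pow_right (by norm_num) hl
  have h2 : (2:k) - (2:k) ^ l = -(((2 ^ l - 2 : ℕ) : ℕ) : k) := by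
    rw [Nat.cast_sub h1.le]
    push_cast
    ring
  rw [h2, IsUnit.neg_iff]
  exact hG.nat _ (by omega)

private theorem pm_isUnit_cf {P : Par k} {p : ℕ} (hG : Good P p) (n : ℕ) : IsUnit (pm_cf k n (n - 1)) := by
  unfold pm_cf
  apply prod_induction _ IsUnit (fun _ _ h h' => h.mul h') isUnit_one
  intro i hi
  rw [mem_range] at hi
  exact pm_isUnit_two_sub hG (by omega)

private theorem pm_one_mem_Zc (z : k) (n : ℕ) : (1 : H z) ∈ Zc z n :=
  ⟨one_mem_HW z f0 n, fun i _ => by rw [mul_one, one_mul]⟩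

/-- A central element killing all short words is determined by its pairing with `κ_n`. -/
private theorem pm_kills_ext (z : k) {n : ℕ} {ζ : H z} (hζ : ζ ∈ Zc z n)
    (hk : Kills z n (n-1) ζ) (h : τ z (ζ * kap z n) = 0) : ζ = 0 := by
  refine span_kill z hζ ?_
  intro l hl hv
  rcases Nat.lt_or_ge l.length (n - 1) with h1 | h1
  · exact hk l hl hv h1
  · have h2 := pw_length hl hv
    rw [pw_full z hl hv (by omega)]
    exact h

private theorem pm_Tr_X_kills (z : k) (n : ℕ) : Kills z n (n-1) (TrS z n (X z n)) := by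
  intro l hl hv hlt
  obtain ⟨j, hj0, hjp, hmem⟩ := pw_mem_parabolic z hl hv (by omega)
  rw [τ_Tr]
  exact chi_X z hj0 hjp hmem

private theorem Kills.pmSub {z : k} {n m : ℕ} {x y : H z} (hx : Kills z n m x) (hy : Kills z n m y) :
    Kills z n m (x - y) := by
  intro l hl hv hlt
  rw [sub_mul, map_sub, hx l hl hv hlt, hy l hl hv hlt, sub_zero]

private theorem Kills.pmSmul {z : k} {n m : ℕ} {x : H z} (c : k) (hx : Kills z n m x) :
    Kills z n m (c • x) := by
  intro l hl hv hlt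
  rw [smul_mul_assoc, map_smul, hx l hl hv hlt, smul_zero]

theorem sep {P : Par k} {p : ℕ} (hG : Good P p) {n : ℕ} (hn : n < p) :
    ∃ c ∈ HS P.z n, TrS P.z n c = 1 := by
  induction n using Nat.strong_induction_on with
  | _ n ih =>
    rcases Nat.eq_zero_or_pos n with h0 | h0
    · subst h0
      refine ⟨1, one_mem_HW P.z f0 0, ?_⟩
      have hW : W0 0 = {1} := by
        ext w
        rw [mem_singleton, mem_W]
        constructor
        · intro h
          apply Subtype.ext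
          apply Equiv.ext
          intro i
          exact h.1 i (Nat.zero_le _)
        · rintro rfl
          exact ⟨fun _ _ => rfl, fun _ => rfl⟩
      rw [Tr_apply, hW, sum_singleton, pm_inv_one_S, T_one, one_mul, one_mul]
    · have hex : ∀ j, ∃ c : H P.z, 0 < j → j < n → c ∈ HS P.z j ∧ TrS P.z j c = 1 := by
        intro j
        by_cases hj : j < n
        · obtain ⟨c, h1, h2⟩ := ih j hj (by omega)
          exact ⟨c, fun _ _ => ⟨h1, h2⟩⟩
        · exact ⟨0, fun _ h => absurd h hj⟩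
      choose c hc using hex
      have h1Z := pm_one_mem_Zc P.z n
      have hq := (hG.qn n h0 hn).pow 2
      obtain ⟨u, hu⟩ := hq
      have hth := theta P h0 (fun j hj hjn => hG.qn j hj (hjn.trans hn))
      set y := pm_ZT P.z n (n-1) 1 with hy
      set r := τ P.z (y * kap P.z n) with hr
      -- `y` is a multiple of `Tr X`
      have hyX : y = (r * ((u⁻¹ : kˣ) : k)) • TrS P.z n (X P.z n) := by
        rw [← sub_eq_zero]
        apply pm_kills_ext P.z
        · exact Submodule.sub_mem _ (pm_ZT_mem P.z h1Z _) (Submodule.smul_mem _ _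
            (TrS_mem_Zc P.z (X_mem P.z n)))
        · exact (pm_ZT_kills P.z h1Z _).pmSub ((pm_Tr_X_kills P.z n).pmSmul _)
        · rw [sub_mul, map_sub, smul_mul_assoc, map_smul, hth, ← hu, smul_eq_mul, ← hr]
          rw [mul_assoc, Units.inv_mul, mul_one, sub_self]
      have hyE := pm_ZT_eq P.z h0 hc h1Z (n-1)
      rw [← hy] at hyE
      obtain ⟨v, hv⟩ := pm_isUnit_cf hG n
      refine ⟨((v⁻¹ : kˣ) : k) • ((r * ((u⁻¹ : kˣ) : k)) • X P.z n - pm_XT P.z n c (n-1) 1), ?_, ?_⟩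
      · exact Submodule.smul_mem _ _ (Submodule.sub_mem _ (Submodule.smul_mem _ _ (X_mem P.z n))
          (pm_XT_mem P.z hc _ _))
      · rw [map_smul, map_sub, map_smul, ← hyX]
        have : TrS P.z n (pm_XT P.z n c (n-1) 1) = y - pm_cf k n (n-1) • (1 : H P.z) := by
          rw [hyE]; abel
        rw [this, sub_sub_cancel, smul_smul, ← hv, Units.inv_mul, one_smul]

private theorem pm_isUnit_z (P : Par k) : IsUnit P.z := IsUnit.of_mul_eq_one _ P.z_mul_zi

theorem ZJ {P : Par k} {p : ℕ} (hG : Good P p) : ∃ (lam : H P.z →ₗ[k] k) (F : H P.z →ₗ[k] H P.z),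
    (∀ x, F x ∈ HS P.z p) ∧ ∀ ζ ∈ Zc P.z p, ζ = lam ζ • (1 : H P.z) + TrS P.z p (F ζ) := by
  have h0 : 0 < p := hG.pr.pos
  have hex : ∀ j, ∃ c : H P.z, 0 < j → j < p → c ∈ HS P.z j ∧ TrS P.z j c = 1 := by
    intro j
    by_cases hj : j < p
    · obtain ⟨c, h1, h2⟩ := sep hG hj
      exact ⟨c, fun _ _ => ⟨h1, h2⟩⟩
    · exact ⟨0, fun _ h => absurd h hj⟩
  choose c hc using hex
  have h1Z := pm_one_mem_Zc P.z p
  obtain ⟨v, hv⟩ := pm_isUnit_cf hG p
  set r : H P.z →ₗ[k] k := (τ P.z) ∘ₗ (LinearMap.mulRight k (kap P.z p)) ∘ₗ (pm_ZT P.z p (p-1)) with hr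
  have hrx : ∀ x, r x = τ P.z (pm_ZT P.z p (p-1) x * kap P.z p) := fun x => rfl
  -- `r 1` is a unit
  have hr1 : IsUnit (r 1) := by
    have e1 := τ_mul_X P.z h0 (pm_ZT_mem P.z h1Z (p-1)) (pm_ZT_kills P.z h1Z (p-1))
    rw [← hrx] at e1
    have e2 : τ P.z (pm_ZT P.z p (p-1) 1 * X P.z p) = pm_cf k p (p-1) * (-P.z) ^ (p - 1) := by
      rw [pm_ZT_eq P.z h0 hc h1Z (p-1), add_mul, map_add, smul_mul_assoc, one_mul, map_smul,
        τ_X P.z h0, τ_Tr, Tr_X_zero hG, mul_zero, map_zero, add_zero, smul_eq_mul]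
    rw [e2] at e1
    have e3 : IsUnit (pm_cf k p (p-1) * (-P.z) ^ (p - 1)) :=
      (pm_isUnit_cf hG p).mul ((IsUnit.neg_iff _).2 (pm_isUnit_z P) |>.pow _)
    rw [e1] at e3
    exact isUnit_of_mul_isUnit_right e3
  obtain ⟨u, hu⟩ := hr1
  -- the key identity
  have key : ∀ ζ ∈ Zc P.z p, pm_ZT P.z p (p-1) ζ = (((u⁻¹ : kˣ) : k) * r ζ) • pm_ZT P.z p (p-1) 1 := by
    intro ζ hζ
    rw [← sub_eq_zero]
    apply pm_kills_ext P.z
    · exact Submodule.sub_mem _ (pm_ZT_mem P.z hζ _) (Submodule.smul_mem _ _ (pm_ZT_mem P.z h1Z _))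
    · exact (pm_ZT_kills P.z hζ _).pmSub ((pm_ZT_kills P.z h1Z _).pmSmul _)
    · rw [sub_mul, map_sub, smul_mul_assoc, map_smul, ← hrx, ← hrx, ← hu, smul_eq_mul,
        mul_comm ((u⁻¹ : kˣ) : k) (r ζ), mul_assoc, Units.inv_mul, mul_one, sub_self]
  refine ⟨((u⁻¹ : kˣ) : k) • r,
    ((v⁻¹ : kˣ) : k) • ((((u⁻¹ : kˣ) : k) • r).smulRight (pm_XT P.z p c (p-1) 1) - pm_XT P.z p c (p-1)),
    ?_, ?_⟩
  · intro x
    rw [LinearMap.smul_apply, LinearMap.sub_apply, LinearMap.smulRight_apply]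
    exact Submodule.smul_mem _ _ (Submodule.sub_mem _ (Submodule.smul_mem _ _
      (pm_XT_mem P.z hc _ _)) (pm_XT_mem P.z hc _ _))
  · intro ζ hζ
    have k1 := key ζ hζ
    rw [pm_ZT_eq P.z h0 hc hζ, pm_ZT_eq P.z h0 hc h1Z] at k1
    simp only [LinearMap.smul_apply, LinearMap.sub_apply, LinearMap.smulRight_apply,
      map_smul, map_sub, smul_eq_mul]
    have hv1 : ((v⁻¹ : kˣ) : k) * pm_cf k p (p-1) = 1 := by rw [← hv, Units.inv_mul]
    have k2 : ζ = ((v⁻¹ : kˣ) : k) • (pm_cf k p (p-1) • ζ) := by rw [smul_smul, hv1, one_smul]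
    have k3 : pm_cf k p (p-1) • ζ = (((u⁻¹ : kˣ) : k) * r ζ) • (pm_cf k p (p-1) • (1 : H P.z) +
        TrS P.z p (pm_XT P.z p c (p-1) 1)) - TrS P.z p (pm_XT P.z p c (p-1) ζ) := by
      rw [← k1]; abel
    rw [k3] at k2
    have k4 : ((v⁻¹ : kˣ) : k) * ((((u⁻¹ : kˣ) : k) * r ζ) * pm_cf k p (p-1)) =
        ((u⁻¹ : kˣ) : k) * r ζ := by
      rw [mul_comm (((u⁻¹ : kˣ) : k) * r ζ), ← mul_assoc, hv1, one_mul]
    generalize ((u⁻¹ : kˣ) : k) * r ζ = a at k2 k4 ⊢
    generalize TrS P.z p (pm_XT P.z p c (p-1) 1) = w at k2 ⊢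
    generalize TrS P.z p (pm_XT P.z p c (p-1) ζ) = w' at k2 ⊢
    rw [smul_add, smul_sub, smul_add, smul_smul, smul_smul, mul_assoc, k4] at k2
    refine k2.trans ?_
    rw [smul_sub]
    abel

end Pool.Agent.HL
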