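import Pool.Agent.Lib.HL21.Intg
import Pool.Agent.Lib.HL21.Prim

/-! # Module Desc: the polynomial `[p]²` in `z²`, the special ring and descent -/

namespace Pool.Agent.HL

open Finset

/-! ### the polynomials `m_n` -/

/-- `m_n`, by the recurrence `m_{n+2} = (x+2) m_{n+1} - m_n + 2`. -/
noncomputable def mmP (R : Type) [CommRing R] : ℕ → Polynomial R
  | 0 => 0
  | 1 => 1
  | (n+2) => (Polynomial.X + 2) * mmP R (n+1) - mmP R n + 2

theorem mmP_spec (R : Type) [CommRing R] [Nontrivial R] (n : ℕ) :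
    ((mmP R n).degree < (n : ℕ)) ∧ (mmP R (n+1)).Monic ∧ (mmP R (n+1)).degree = (n : ℕ) := by
  induction n with
  | zero => simp [mmP, Polynomial.monic_one]
  | succ n ih =>
    obtain ⟨h1, h2, h3⟩ := ih
    have hlt : (mmP R (n+1)).degree < ((n+1 : ℕ) : WithBot ℕ) := by
      rw [h3]; exact_mod_cast Nat.lt_succ_self n
    have h2C : (2 : Polynomial R) = Polynomial.C 2 := (map_ofNat Polynomial.C 2).symm
    have hX : (Polynomial.X + 2 : Polynomial R) = Polynomial.X + Polynomial.C 2 := by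
      rw [h2C]
    have hm : ((Polynomial.X + 2 : Polynomial R) * mmP R (n+1)).Monic := by
      rw [hX]; exact (Polynomial.monic_X_add_C _).mul h2
    have hd : ((Polynomial.X + 2 : Polynomial R) * mmP R (n+1)).degree = ((n+1 : ℕ) : WithBot ℕ) := by
      rw [h2.degree_mul, hX, Polynomial.degree_X_add_C, h3]
      push_cast; rw [add_comm]
    have hr : (-mmP R n + 2 : Polynomial R).degree < ((n+1 : ℕ) : WithBot ℕ) := by
      refine lt_of_le_of_lt (Polynomial.degree_add_le _ _) ?_
      rw [max_lt_iff]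
      constructor
      · rw [Polynomial.degree_neg]
        refine lt_trans h1 ?_
        exact_mod_cast Nat.lt_succ_self n
      · rw [h2C]
        refine lt_of_le_of_lt Polynomial.degree_C_le ?_
        exact_mod_cast Nat.succ_pos n
    have he : mmP R (n+1+1) = (Polynomial.X + 2) * mmP R (n+1) + (-mmP R n + 2) := by
      rw [mmP]; ring
    refine ⟨hlt, ?_, ?_⟩
    · rw [he]
      exact hm.add_of_left (by rw [hd]; exact hr)
    · rw [he, Polynomial.degree_add_eq_left_of_degree_lt (by rw [hd]; exact hr), hd]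

theorem mmP_map {R R' : Type} [CommRing R] [CommRing R'] (f : R →+* R') (n : ℕ) :
    (mmP R n).map f = mmP R' n := by
  induction n using Nat.strong_induction_on with
  | _ n ih =>
    match n with
    | 0 => simp [mmP]
    | 1 => simp [mmP]
    | (n+2) =>
      simp only [mmP, Polynomial.map_add, Polynomial.map_sub, Polynomial.map_mul, Polynomial.map_X,
        Polynomial.map_ofNat, ih (n+1) (by omega), ih n (by omega)]

/-- evaluation at zero -/
theorem mmP_eval_zero (R : Type) [CommRing R] (n : ℕ) : (mmP R n).eval 0 = (n : R) ^ 2 := by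
  induction n using Nat.strong_induction_on with
  | _ n ih =>
    match n with
    | 0 => simp [mmP]
    | 1 => simp [mmP]
    | (n+2) =>
      simp only [mmP, Polynomial.eval_add, Polynomial.eval_sub, Polynomial.eval_mul, Polynomial.eval_X,
        Polynomial.eval_ofNat, ih (n+1) (by omega), ih n (by omega)]
      push_cast; ring

theorem z_mul_qn {k : Type*} [CommRing k] (P : Par k) (n : ℕ) :
    P.z * P.qn n = (P.q : k) ^ n - ((P.q⁻¹ : kˣ) : k) ^ n := by
  unfold Par.z Par.qn
  have h := Commute.geom_sum₂_mul (x := (P.q : k)) (y := ((P.q⁻¹ : kˣ) : k)) (Commute.all _ _) n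
  rw [mul_comm, ← h]
  congr 1
  rw [← Finset.sum_range_reflect]
  apply Finset.sum_congr rfl
  intro i hi
  rw [Finset.mem_range] at hi
  have : n - 1 - (n - 1 - i) = i := by omega
  rw [this]

theorem qn_eq {k : Type*} [CommRing k] (P : Par k) (n : ℕ) :
    P.qn n = P.zi * ((P.q : k) ^ n - ((P.q⁻¹ : kˣ) : k) ^ n) := by
  rw [← z_mul_qn]
  have := P.z_mul_zi
  linear_combination (-P.qn n) * this

theorem mmP_eval₂ {k : Type} [CommRing k] (P : Par k) (n : ℕ) :
    (mmP k n).eval (P.z ^ 2) = P.qn n ^ 2 := by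
  have hq : (P.q : k) * ((P.q⁻¹ : kˣ) : k) = 1 := Units.mul_inv _
  have hz : P.z = (P.q : k) - ((P.q⁻¹ : kˣ) : k) := rfl
  have hzi := P.z_mul_zi
  induction n using Nat.strong_induction_on with
  | _ n ih =>
    match n with
    | 0 => simp [mmP, Par.qn]
    | 1 => simp [mmP, Par.qn]
    | (n+2) =>
      simp only [mmP, Polynomial.eval_add, Polynomial.eval_sub, Polynomial.eval_mul, Polynomial.eval_X,
        Polynomial.eval_ofNat, ih (n+1) (by omega), ih n (by omega)]
      rw [qn_eq P (n+2), qn_eq P (n+1), qn_eq P n]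
      have hqn : (P.q : k) ^ n * ((P.q⁻¹ : kˣ) : k) ^ n = 1 := by rw [← mul_pow, hq, one_pow]
      generalize (P.q : k) = q at *
      generalize ((P.q⁻¹ : kˣ) : k) = r at *
      generalize P.zi = y at *
      rw [hz] at hzi ⊢
      have e2 : ∀ x : k, x ^ (n+2) = x ^ n * x ^ 2 := fun x => pow_add x n 2
      have e1 : ∀ x : k, x ^ (n+1) = x ^ n * x := fun x => pow_succ x n
      rw [e2, e2, e1, e1]
      generalize q ^ n = A at *
      generalize r ^ n = B at *
      have hzi2 : (q - r) ^ 2 * y ^ 2 = 1 := by rw [← mul_pow, hzi, one_pow]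
      linear_combination (-(2*y^2*(A*q-B*r)^2 - y^2*(A^2+B^2)*(q*r+1)
        + y^2*(2*(q^2+r^2) - 2*(q*r-1)))) * hq - (y^2*(-2*q^2*r^2 - 2 + 2*q*r*(q^2+r^2))) * hqn
        - 2*hzi2

theorem evG_mmP {k : Type} [CommRing k] (P : Par k) (n : ℕ) :
    evG P (mmP (LaurentPolynomial ℤ) n) = P.qn n ^ 2 := by
  unfold evG
  rw [Polynomial.coe_eval₂RingHom, Polynomial.eval₂_eq_eval_map, mmP_map, mmP_eval₂]

/-- the polynomial `m_p` with `m_p(z²) = [p]²` -/
theorem exists_mp (p : ℕ) (hp : 0 < p) : ∃ m : RR, m.Monic ∧ m.natDegree = p - 1 ∧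
    ∀ (k : Type) [CommRing k] (P : Par k), evG P m = P.qn p ^ 2 := by
  obtain ⟨n, rfl⟩ : ∃ n, p = n + 1 := ⟨p - 1, by omega⟩
  obtain ⟨h1, h2, h3⟩ := mmP_spec (LaurentPolynomial ℤ) n
  refine ⟨mmP (LaurentPolynomial ℤ) (n+1), h2, ?_, fun k _ P => evG_mmP P (n+1)⟩
  rw [Nat.add_sub_cancel]
  exact Polynomial.natDegree_eq_of_degree_eq_some h3

open Classical in
noncomputable def mp (p : ℕ) : RR := if hp : 0 < p then (exists_mp p hp).choose else 0

theorem mp_monic {p : ℕ} (hp : 0 < p) : (mp p).Monic := by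
  unfold mp; rw [dif_pos hp]; exact (exists_mp p hp).choose_spec.1
theorem mp_natDegree {p : ℕ} (hp : 0 < p) : (mp p).natDegree = p - 1 := by
  unfold mp; rw [dif_pos hp]; exact (exists_mp p hp).choose_spec.2.1
theorem evG_mp {p : ℕ} (hp : 0 < p) (k : Type) [CommRing k] (P : Par k) : evG P (mp p) = P.qn p ^ 2 := by
  unfold mp; rw [dif_pos hp]; exact (exists_mp p hp).choose_spec.2.2 k P

/-- the Adams operator on `ℤ[a^±][x]`: `a ↦ a^p`, `x ↦ x m_p(x)` -/
noncomputable def psi (p : ℕ) : RR →+* RR :=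
  Polynomial.eval₂RingHom ((Polynomial.C : LaurentPolynomial ℤ →+* RR).comp
    (LaurentPolynomial.eval₂ (LaurentPolynomial.C : ℤ →+* LaurentPolynomial ℤ)
      (⟨LaurentPolynomial.T p, LaurentPolynomial.T (-p),
        by rw [← LaurentPolynomial.T_add]; simp,
        by rw [← LaurentPolynomial.T_add]; simp⟩ : (LaurentPolynomial ℤ)ˣ))) (Polynomial.X * mp p)

/-! ### the parameters of `ℚ(q,a)` -/

/-- the polynomial ring in two variables inside `ℚ(q,a)` -/
theorem nested_inj : Function.Injective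
    (Polynomial.eval₂RingHom (Polynomial.eval₂RingHom (Int.castRingHom K0) a0) q0) := by
  have h1 : Polynomial.eval₂RingHom (Polynomial.eval₂RingHom (Int.castRingHom K0) a0) q0 =
      (algebraMap (MvPolynomial (Fin 2) ℚ) K0).comp
        (((MvPolynomial.finSuccEquiv ℚ 1).symm : Polynomial (MvPolynomial (Fin 1) ℚ) →+* _).comp
          (Polynomial.mapRingHom ((((MvPolynomial.finSuccEquiv ℚ 0).symm : Polynomial (MvPolynomial (Fin 0) ℚ) →+* _)).comp
            (Polynomial.mapRingHom (Int.castRingHom (MvPolynomial (Fin 0) ℚ)))))) := by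
    apply Polynomial.ringHom_ext'
    · apply Polynomial.ringHom_ext'
      · exact RingHom.ext_int _ _
      · have e1 : (MvPolynomial.finSuccEquiv ℚ 0).symm Polynomial.X = MvPolynomial.X 0 := by
          rw [AlgEquiv.symm_apply_eq, MvPolynomial.finSuccEquiv_X_zero]
        have e2 : (MvPolynomial.finSuccEquiv ℚ 1).symm (Polynomial.C (MvPolynomial.X 0)) =
            MvPolynomial.X 1 := by
          rw [AlgEquiv.symm_apply_eq]
          exact (MvPolynomial.finSuccEquiv_X_succ (R := ℚ) (n := 1) (j := 0)).symm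
        simp only [RingHom.comp_apply, Polynomial.coe_eval₂RingHom, Polynomial.eval₂_C,
          Polynomial.eval₂_X, Polynomial.coe_mapRingHom, Polynomial.map_C, Polynomial.map_X,
          RingHom.coe_coe, e1, e2]
        rfl
    · have e1 : (MvPolynomial.finSuccEquiv ℚ 1).symm Polynomial.X = MvPolynomial.X 0 := by
        rw [AlgEquiv.symm_apply_eq, MvPolynomial.finSuccEquiv_X_zero]
      simp only [RingHom.comp_apply, Polynomial.coe_eval₂RingHom,
          Polynomial.eval₂_X, Polynomial.coe_mapRingHom, Polynomial.map_X, RingHom.coe_coe, e1]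
      rfl
  rw [h1, RingHom.coe_comp, RingHom.coe_comp]
  refine (IsFractionRing.injective _ _).comp (Function.Injective.comp ?_ ?_)
  · exact (MvPolynomial.finSuccEquiv ℚ 1).symm.injective
  · rw [Polynomial.coe_mapRingHom]
    apply Polynomial.map_injective
    rw [RingHom.coe_comp]
    refine Function.Injective.comp ?_ ?_
    · exact (MvPolynomial.finSuccEquiv ℚ 0).symm.injective
    · rw [Polynomial.coe_mapRingHom]
      apply Polynomial.map_injective
      exact Int.cast_injective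

/-- `evG` is injective for the parameters of `ℚ(q,a)` -/
theorem exists_ParK : ∃ P : Par K0, (P.q : K0) = q0 ∧ (P.a : K0) = a0 := by
  have hq : q0 ≠ 0 := by
    unfold q0
    rw [Ne, map_eq_zero_iff _ (IsFractionRing.injective _ _)]
    exact MvPolynomial.X_ne_zero 0
  have ha : a0 ≠ 0 := by
    unfold a0
    rw [Ne, map_eq_zero_iff _ (IsFractionRing.injective _ _)]
    exact MvPolynomial.X_ne_zero 1
  have hz : q0 - q0⁻¹ ≠ 0 := by
    intro h
    have h2 : q0 ^ 2 - 1 = 0 := by
      have : q0 * (q0 - q0⁻¹) = 0 := by rw [h, mul_zero]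
      rw [mul_sub, mul_inv_cancel₀ hq] at this
      rw [← this]; ring
    have h3 : (Polynomial.X ^ 2 - 1 : Polynomial (Polynomial ℤ)) = 0 := by
      apply nested_inj
      rw [map_zero, ← h2]
      simp
    have h4 := congrArg (fun f => Polynomial.coeff f 2) h3
    simp [Polynomial.coeff_one] at h4
  exact ⟨⟨Units.mk0 q0 hq, Units.mk0 a0 ha, (q0 - q0⁻¹)⁻¹, by
    simpa using mul_inv_cancel₀ hz⟩, rfl, rfl⟩

theorem q0_ne_zero : q0 ≠ 0 := by
  unfold q0
  rw [Ne, map_eq_zero_iff _ (IsFractionRing.injective _ _)]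
  exact MvPolynomial.X_ne_zero 0

theorem homog_coeff {A : Type} [CommRing A] [Nontrivial A] (c : ℕ → A) (d : ℕ) :
    (∑ i ∈ range (d+1), Polynomial.C (c i) * ((Polynomial.X ^ 2 - 1) ^ (2 * i) *
      Polynomial.X ^ (2 * (d - i))) : Polynomial A).coeff (4 * d) = c d := by
  have hmon : (Polynomial.X ^ 2 - 1 : Polynomial A).Monic := by
    rw [← Polynomial.C_1]; exact Polynomial.monic_X_pow_sub_C _ (by norm_num)
  have hdeg : (Polynomial.X ^ 2 - 1 : Polynomial A).natDegree = 2 := by
    rw [← Polynomial.C_1]; exact Polynomial.natDegree_X_pow_sub_C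
  rw [Polynomial.finsetSum_coeff, Finset.sum_range_succ]
  rw [Finset.sum_eq_zero]
  · rw [zero_add, Polynomial.coeff_C_mul, Nat.sub_self, mul_zero, pow_zero, mul_one]
    have h1 : ((Polynomial.X ^ 2 - 1 : Polynomial A) ^ (2 * d)).natDegree = 4 * d := by
      rw [hmon.natDegree_pow, hdeg]; ring
    have h2 := (hmon.pow (2 * d)).coeff_natDegree
    rw [h1] at h2
    rw [h2, mul_one]
  · intro i hi
    rw [Finset.mem_range] at hi
    apply Polynomial.coeff_eq_zero_of_natDegree_lt
    refine lt_of_le_of_lt (Polynomial.natDegree_C_mul_le _ _) ?_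
    refine lt_of_le_of_lt Polynomial.natDegree_mul_le ?_
    rw [hmon.natDegree_pow, hdeg]
    have := Polynomial.natDegree_X_pow_le (R := A) (2 * (d - i))
    omega

theorem evG_inj (P : Par K0) (hq : (P.q : K0) = q0) (ha : (P.a : K0) = a0) :
    Function.Injective (evG P) := by
  rw [injective_iff_map_eq_zero]
  intro G hG
  have hq' : ((P.q⁻¹ : K0ˣ) : K0) = q0⁻¹ := by rw [Units.val_inv_eq_inv_val, hq]
  have hz : P.z = q0 - q0⁻¹ := by unfold Par.z; rw [hq, hq']
  set M : Submonoid (Polynomial ℤ) := Submonoid.powers (Polynomial.X : Polynomial ℤ) with hM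
  have hMle : M ≤ nonZeroDivisors (Polynomial ℤ) := by
    rw [hM, Submonoid.powers_le]
    exact mem_nonZeroDivisors_of_ne_zero Polynomial.X_ne_zero
  rw [← IsLocalization.integerNormalization_eq_zero_iff hMle]
  set G' := IsLocalization.integerNormalization M G with hG'
  have h0 : Polynomial.eval₂ ((LaurentPolynomial.eval₂ (Int.castRingHom K0) P.a).comp
      (algebraMap (Polynomial ℤ) (LaurentPolynomial ℤ))) (P.z ^ 2) G' = 0 :=
    IsLocalization.integerNormalization_eval₂_eq_zero M _ _ hG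
  have hι : (LaurentPolynomial.eval₂ (Int.castRingHom K0) P.a).comp
      (algebraMap (Polynomial ℤ) (LaurentPolynomial ℤ)) =
      Polynomial.eval₂RingHom (Int.castRingHom K0) a0 := by
    refine Polynomial.ringHom_ext' (RingHom.ext_int _ _) ?_
    rw [RingHom.comp_apply, LaurentPolynomial.algebraMap_eq_toLaurent,
      LaurentPolynomial.eval₂_toLaurent, Polynomial.coe_eval₂RingHom, Polynomial.eval₂_X,
      Polynomial.eval₂_X, ha]
  rw [hι, hz] at h0
  by_contra hne
  set d := G'.natDegree with hd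
  have hH : (∑ i ∈ range (d+1), Polynomial.C (G'.coeff i) * ((Polynomial.X ^ 2 - 1) ^ (2 * i) *
      Polynomial.X ^ (2 * (d - i))) : Polynomial (Polynomial ℤ)) = 0 := by
    apply nested_inj
    rw [map_zero, map_sum]
    have hterm : ∀ i ∈ range (d+1),
        (Polynomial.eval₂RingHom (Polynomial.eval₂RingHom (Int.castRingHom K0) a0) q0)
          (Polynomial.C (G'.coeff i) * ((Polynomial.X ^ 2 - 1) ^ (2 * i) *
            Polynomial.X ^ (2 * (d - i)))) =
        q0 ^ (2 * d) * ((Polynomial.eval₂RingHom (Int.castRingHom K0) a0) (G'.coeff i) *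
          ((q0 - q0⁻¹) ^ 2) ^ i) := by
      intro i hi
      rw [Finset.mem_range] at hi
      obtain ⟨e, he⟩ : ∃ e, d = i + e := ⟨d - i, by omega⟩
      have he' : d - i = e := by omega
      simp only [map_mul, map_pow, map_sub, map_one, Polynomial.coe_eval₂RingHom, Polynomial.eval₂_C,
        Polynomial.eval₂_X]
      rw [he', he]
      have h1 : (q0 ^ 2 - 1) = q0 * (q0 - q0⁻¹) := by
        rw [mul_sub, mul_inv_cancel₀ q0_ne_zero]; ring
      rw [h1]
      generalize q0 - q0⁻¹ = y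
      ring
    rw [Finset.sum_congr rfl hterm, ← Finset.mul_sum]
    rw [Polynomial.eval₂_eq_sum_range] at h0
    rw [h0, mul_zero]
  have h1 := homog_coeff (A := Polynomial ℤ) G'.coeff d
  rw [hH, Polynomial.coeff_zero] at h1
  exact hne (Polynomial.leadingCoeff_eq_zero.1 h1.symm)

theorem laurent_hom_ext {k : Type*} [CommRing k] {f g : LaurentPolynomial ℤ →+* k}
    (h : f (LaurentPolynomial.T 1) = g (LaurentPolynomial.T 1)) : f = g := by
  have h1 : f.comp (algebraMap (Polynomial ℤ) (LaurentPolynomial ℤ)) =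
      g.comp (algebraMap (Polynomial ℤ) (LaurentPolynomial ℤ)) := by
    refine Polynomial.ringHom_ext' (RingHom.ext_int _ _) ?_
    rw [RingHom.comp_apply, RingHom.comp_apply, LaurentPolynomial.algebraMap_eq_toLaurent,
      Polynomial.toLaurent_X, h]
  exact IsLocalization.ringHom_ext (Submonoid.powers (Polynomial.X : Polynomial ℤ)) h1

theorem RR_hom_ext {k : Type*} [CommRing k] {f g : RR →+* k}
    (h : f (Polynomial.C (LaurentPolynomial.T 1)) = g (Polynomial.C (LaurentPolynomial.T 1)))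
    (h' : f Polynomial.X = g Polynomial.X) : f = g := by
  apply Polynomial.ringHom_ext'
  · apply laurent_hom_ext
    simpa using h
  · exact h'

theorem adams_evG (P : Par K0) (hq : (P.q : K0) = q0) (ha : (P.a : K0) = a0) {p : ℕ} (hp : 0 < p) (G : RR) :
    adams p hp (evG P G) = evG P (psi p G) := by
  have hq' : ((P.q⁻¹ : K0ˣ) : K0) = q0⁻¹ := by rw [Units.val_inv_eq_inv_val, hq]
  have hz : P.z = q0 - q0⁻¹ := by unfold Par.z; rw [hq, hq']
  have hq0 : adams p hp q0 = q0 ^ p := by
    unfold adams q0 IsFractionRing.map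
    rw [IsLocalization.map_eq, ← map_pow]
    congr 1
    exact MvPolynomial.expand_X _ _
  have ha0 : adams p hp a0 = a0 ^ p := by
    unfold adams a0 IsFractionRing.map
    rw [IsLocalization.map_eq, ← map_pow]
    congr 1
    exact MvPolynomial.expand_X _ _
  have key : (adams p hp).comp (evG P) = (evG P).comp (psi p) := by
    apply RR_hom_ext
    · rw [RingHom.comp_apply, RingHom.comp_apply]
      unfold evG psi
      simp only [Polynomial.coe_eval₂RingHom, Polynomial.eval₂_C, RingHom.comp_apply,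
        LaurentPolynomial.eval₂_T, zpow_one, ha, ha0]
      rw [zpow_natCast, Units.val_pow_eq_pow_val, ha]
    · rw [RingHom.comp_apply, RingHom.comp_apply]
      unfold psi
      rw [Polynomial.coe_eval₂RingHom, Polynomial.eval₂_X, map_mul, evG_mp hp]
      have : evG P Polynomial.X = P.z ^ 2 := by unfold evG; simp
      rw [this, hz, map_pow, map_sub, map_inv₀, hq0]
      have h2 := z_mul_qn P p
      rw [hz, hq, hq'] at h2
      rw [← mul_pow, h2, inv_pow]
  exact congrArg (fun f : RR →+* K0 => f G) key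

theorem evG_mem_adjoin (P : Par K0) (hq : (P.q : K0) = q0) (ha : (P.a : K0) = a0) (G : RR) :
    evG P G ∈ Algebra.adjoin ℤ ({(q0 - q0⁻¹) ^ 2, a0, a0⁻¹} : Set K0) := by
  have hq' : ((P.q⁻¹ : K0ˣ) : K0) = q0⁻¹ := by rw [Units.val_inv_eq_inv_val, hq]
  have hz : P.z = q0 - q0⁻¹ := by unfold Par.z; rw [hq, hq']
  set A := Algebra.adjoin ℤ ({(q0 - q0⁻¹) ^ 2, a0, a0⁻¹} : Set K0) with hA
  have m1 : (q0 - q0⁻¹) ^ 2 ∈ A := Algebra.subset_adjoin (by simp)
  have m2 : a0 ∈ A := Algebra.subset_adjoin (by simp)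
  have m3 : a0⁻¹ ∈ A := Algebra.subset_adjoin (by simp)
  have mT : ∀ n : ℤ, ((P.a ^ n : K0ˣ) : K0) ∈ A := by
    intro n
    rcases Int.eq_nat_or_neg n with ⟨m, rfl | rfl⟩
    · rw [zpow_natCast, Units.val_pow_eq_pow_val, ha]; exact pow_mem m2 m
    · rw [zpow_neg, zpow_natCast, Units.val_inv_eq_inv_val, Units.val_pow_eq_pow_val, ha, ← inv_pow]
      exact pow_mem m3 m
  have mL : ∀ c : LaurentPolynomial ℤ, LaurentPolynomial.eval₂ (Int.castRingHom K0) P.a c ∈ A := by
    intro c
    induction c using LaurentPolynomial.induction_on' with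
    | add p q hp hq => rw [map_add]; exact add_mem hp hq
    | C_mul_T n a =>
      rw [map_mul, LaurentPolynomial.eval₂_C, LaurentPolynomial.eval₂_T]
      refine mul_mem ?_ (mT n)
      exact intCast_mem A a
  unfold evG
  rw [Polynomial.coe_eval₂RingHom, Polynomial.eval₂_eq_sum_range]
  refine sum_mem (fun i _ => mul_mem (mL _) (pow_mem ?_ _))
  rw [hz]; exact m1

theorem mp_eq {p : ℕ} (hp : 0 < p) : mp p = mmP (LaurentPolynomial ℤ) p := by
  obtain ⟨P, hq, ha⟩ := exists_ParK
  apply evG_inj P hq ha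
  rw [evG_mp hp, evG_mmP]

/-- `[j]` is a unit when `[p]` is nilpotent and `j` is prime to `p` -/
theorem isUnit_qn {k : Type*} [CommRing k] (P : Par k) {p j : ℕ} (h : P.qn p ^ 2 = 0)
    (hjp : Nat.Coprime j p) : IsUnit (P.qn j) := by
  by_contra hnu
  obtain ⟨m, hm, hmem⟩ := exists_max_ideal_of_mem_nonunits hnu
  have hprime := hm.isPrime
  set π := Ideal.Quotient.mk m with hπ
  have hj0 : π (P.qn j) = 0 := Ideal.Quotient.eq_zero_iff_mem.2 hmem
  have hp0 : π (P.qn p) = 0 := by
    have : π (P.qn p) ^ 2 = 0 := by rw [← map_pow, h, map_zero]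
    exact pow_eq_zero_iff (two_ne_zero) |>.1 this
  have hu : π (P.q : k) * π ((P.q⁻¹ : kˣ) : k) = 1 := by rw [← map_mul, Units.mul_inv, map_one]
  have hpow : ∀ n, π (P.qn n) = 0 → (π (P.q : k) ^ 2) ^ n = 1 := by
    intro n hn
    have h1 := congrArg π (z_mul_qn P n)
    rw [map_mul, hn, mul_zero, map_sub, map_pow, map_pow] at h1
    have h2 : π (P.q : k) ^ n = π ((P.q⁻¹ : kˣ) : k) ^ n := (sub_eq_zero.1 h1.symm)
    rw [← pow_mul, mul_comm 2 n, pow_mul, sq]
    nth_rewrite 2 [h2]
    rw [← mul_pow, hu, one_pow]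
  have h1 : π (P.q : k) ^ 2 = 1 := by
    have a1 := orderOf_dvd_of_pow_eq_one (hpow j hj0)
    have a2 := orderOf_dvd_of_pow_eq_one (hpow p hp0)
    have a3 := Nat.dvd_gcd a1 a2
    rw [hjp] at a3
    exact orderOf_eq_one_iff.1 (Nat.dvd_one.1 a3)
  have h2 : π (P.q : k) = π ((P.q⁻¹ : kˣ) : k) := by
    calc π (P.q : k) = π (P.q : k) * (π (P.q : k) * π ((P.q⁻¹ : kˣ) : k)) := by rw [hu, mul_one]
      _ = π (P.q : k) ^ 2 * π ((P.q⁻¹ : kˣ) : k) := by ring
      _ = _ := by rw [h1, one_mul]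
  have h3 : π P.z = 0 := by
    unfold Par.z
    rw [map_sub, h2, sub_self]
  have h4 := congrArg π P.z_mul_zi
  rw [map_mul, h3, zero_mul, map_one] at h4
  exact zero_ne_one h4

/-- the special ring: descent of divisibility -/
theorem exists_special (p : ℕ) (hp : p.Prime) : ∃ (k : Type) (_ : CommRing k) (P : Par k), Good P p ∧
    ∀ G : RR, evG P G = 0 → mp p ∣ G := by
  obtain ⟨P0, hq0, ha0⟩ := exists_ParK
  obtain ⟨n, hn⟩ : ∃ n, p = n + 1 := ⟨p - 1, by have := hp.pos; omega⟩
  -- the first extension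
  let B := AdjoinRoot (mmP K0 p)
  let x : B := AdjoinRoot.root (mmP K0 p)
  have hdegM : (mmP K0 p).degree = (n : ℕ) := by rw [hn]; exact (mmP_spec K0 n).2.2
  have hn1 : 1 ≤ n := by have := hp.two_le; omega
  have hBnt : Nontrivial B := AdjoinRoot.nontrivial _ (by
    rw [hdegM]; intro h; have := Nat.cast_eq_zero.1 h; omega)
  have hx0 : Polynomial.eval₂ (AdjoinRoot.of (mmP K0 p)) x (mmP K0 p) = 0 := AdjoinRoot.eval₂_root _
  have hx1 : (mmP B p).eval x = 0 := by
    rw [← mmP_map (AdjoinRoot.of (mmP K0 p)) p, Polynomial.eval_map]; exact hx0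
  -- `x` is invertible
  obtain ⟨xi, hxi⟩ : ∃ xi : B, x * xi = 1 := by
    have h1 := Polynomial.divX_mul_X_add (mmP K0 p)
    have h2 : (mmP K0 p).coeff 0 = (p : K0) ^ 2 := by
      rw [Polynomial.coeff_zero_eq_eval_zero, mmP_eval_zero]
    rw [h2] at h1
    have h3 := congrArg (Polynomial.eval₂ (AdjoinRoot.of (mmP K0 p)) x) h1
    rw [hx0, Polynomial.eval₂_add, Polynomial.eval₂_mul, Polynomial.eval₂_X, Polynomial.eval₂_C] at h3
    have h4 : AdjoinRoot.of (mmP K0 p) ((p : K0) ^ 2) * AdjoinRoot.of (mmP K0 p) (((p : K0) ^ 2)⁻¹) = 1 := by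
      rw [← map_mul, mul_inv_cancel₀, map_one]
      exact pow_ne_zero _ (Nat.cast_ne_zero.2 hp.ne_zero)
    refine ⟨-(Polynomial.eval₂ (AdjoinRoot.of (mmP K0 p)) x (mmP K0 p).divX *
      AdjoinRoot.of (mmP K0 p) (((p : K0) ^ 2)⁻¹)), ?_⟩
    linear_combination (-AdjoinRoot.of (mmP K0 p) (((p : K0) ^ 2)⁻¹)) * h3 + h4
  -- the second extension
  let Q4 : Polynomial B := Polynomial.X ^ 4 - Polynomial.C (x + 2) * Polynomial.X ^ 2 + 1
  have hQ4 : Q4.Monic ∧ Q4.degree = 4 := by
    have e : Q4 = Polynomial.X ^ 4 + (-(Polynomial.C (x + 2) * Polynomial.X ^ 2) + Polynomial.C 1) := by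
      simp only [Q4, Polynomial.C_1]; ring
    have hlt : (-(Polynomial.C (x + 2) * Polynomial.X ^ 2) + Polynomial.C 1 : Polynomial B).degree <
        ((4 : ℕ) : WithBot ℕ) := by
      refine lt_of_le_of_lt (Polynomial.degree_add_le _ _) ?_
      rw [max_lt_iff, Polynomial.degree_neg]
      constructor
      · exact lt_of_le_of_lt (Polynomial.degree_C_mul_X_pow_le _ _) (by norm_num)
      · exact lt_of_le_of_lt Polynomial.degree_C_le (by norm_num)
    rw [e]
    refine ⟨Polynomial.monic_X_pow_add hlt, ?_⟩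
    rw [Polynomial.degree_add_eq_left_of_degree_lt (by rwa [Polynomial.degree_X_pow]),
      Polynomial.degree_X_pow]
    rfl
  let k := AdjoinRoot Q4
  let y : k := AdjoinRoot.root Q4
  let β : B →+* k := AdjoinRoot.of Q4
  have hβinj : Function.Injective β := by
    rw [injective_iff_map_eq_zero]
    intro b hb
    by_contra hne
    have h1 : Q4 ∣ Polynomial.C b := by
      rw [← AdjoinRoot.mk_eq_zero]; exact hb
    refine hQ4.1.not_dvd_of_degree_lt (q := Polynomial.C b) (by simpa using hne) ?_ h1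
    rw [hQ4.2]
    exact lt_of_le_of_lt Polynomial.degree_C_le (by norm_num)
  have hy : y ^ 4 - β (x + 2) * y ^ 2 + 1 = 0 := by
    have := AdjoinRoot.eval₂_root Q4
    simpa [Q4] using this
  have hy1 : y * (β (x+2) * y - y ^ 3) = 1 := by linear_combination -hy
  let qu : kˣ := ⟨y, β (x+2) * y - y ^ 3, hy1, by rw [mul_comm]; exact hy1⟩
  have hqu : (qu : k) = y := rfl
  have hqr : (qu : k) * ((qu⁻¹ : kˣ) : k) = 1 := Units.mul_inv _
  have hz2 : ((qu : k) - ((qu⁻¹ : kˣ) : k)) ^ 2 = β x := by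
    generalize ((qu⁻¹ : kˣ) : k) = r at hqr
    rw [hqu] at hqr ⊢
    rw [map_add, map_ofNat] at hy
    linear_combination r ^ 2 * hy - ((y * r + 1) * (y ^ 2 - (β x + 2)) + 2) * hqr
  have hιu : IsUnit a0 := by rw [← ha0]; exact P0.a.isUnit
  let ε : K0 →+* k := β.comp (AdjoinRoot.of (mmP K0 p))
  let P : Par k := ⟨qu, Units.map ε.toMonoidHom P0.a, ((qu : k) - ((qu⁻¹ : kˣ) : k)) * β xi, by
    rw [← mul_assoc, ← sq, hz2, ← map_mul, hxi, map_one]⟩
  have hPz : P.z ^ 2 = β x := hz2
  have hsq : P.qn p ^ 2 = 0 := by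
    rw [← mmP_eval₂, hPz, ← mmP_map β p, Polynomial.eval_map, Polynomial.eval₂_hom, hx1, map_zero]
  have hG : Good P p := by
    refine ⟨hp, hsq, ?_, ?_, ?_⟩
    · intro j hj hjp
      exact isUnit_qn P hsq ((Nat.coprime_of_lt_prime hj.ne' hjp hp).symm)
    · intro m hm
      have h1 : IsUnit (m : K0) := (Nat.cast_ne_zero.2 hm.ne').isUnit
      have h2 := h1.map ε
      rwa [map_natCast] at h2
    · have h0 : (P.a : k) = ε a0 := by rw [← ha0]; rfl
      have h0' : ((P.a⁻¹ : kˣ) : k) = ε (a0⁻¹) := by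
        rw [← ha0, ← Units.val_inv_eq_inv_val]; rfl
      have h1 : ((P.a : k) ^ p - ((P.a⁻¹ : kˣ) : k) ^ p) = ε (a0 ^ p - (a0⁻¹) ^ p) := by
        rw [h0, h0', map_sub, map_pow, map_pow]
      rw [h1]
      refine IsUnit.map ε (IsUnit.mk0 _ ?_)
      intro h2
      have hne : a0 ≠ 0 := hιu.ne_zero
      have h3 : a0 ^ (2 * p) - 1 = 0 := by
        have h4 : a0 ^ p * (a0 ^ p - a0⁻¹ ^ p) = 0 := by rw [h2, mul_zero]
        rw [mul_sub, ← mul_pow, ← mul_pow, mul_inv_cancel₀ hne, one_pow, mul_pow, ← pow_add,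
          ← two_mul] at h4
        exact h4
      have h5 : (Polynomial.C (Polynomial.X ^ (2 * p) - 1) : Polynomial (Polynomial ℤ)) = 0 := by
        apply nested_inj
        rw [map_zero, ← h3, Polynomial.coe_eval₂RingHom, Polynomial.eval₂_C, map_sub, map_pow,
          map_one, Polynomial.coe_eval₂RingHom, Polynomial.eval₂_X]
      rw [Polynomial.C_eq_zero] at h5
      have h6 : (Polynomial.X ^ (2 * p) - Polynomial.C 1 : Polynomial ℤ).Monic :=
        Polynomial.monic_X_pow_sub_C _ (by have := hp.pos; omega)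
      rw [Polynomial.C_1, h5] at h6
      exact Polynomial.not_monic_zero h6
  refine ⟨k, inferInstance, P, hG, ?_⟩
  intro G hG0
  let ι : LaurentPolynomial ℤ →+* K0 := LaurentPolynomial.eval₂ (Int.castRingHom K0) P0.a
  have hιinj : Function.Injective ι := by
    intro c c' hcc
    have h1 : evG P0 (Polynomial.C c) = evG P0 (Polynomial.C c') := by
      unfold evG
      simpa using hcc
    exact Polynomial.C_injective (evG_inj P0 hq0 ha0 h1)
  have hfac : evG P = (β.comp (AdjoinRoot.mk (mmP K0 p))).comp (Polynomial.mapRingHom ι) := by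
    apply RR_hom_ext
    · rw [RingHom.comp_apply, RingHom.comp_apply, Polynomial.coe_mapRingHom, Polynomial.map_C,
        AdjoinRoot.mk_C]
      have e1 : evG P (Polynomial.C (LaurentPolynomial.T 1)) = (P.a : k) := by
        unfold evG; simp
      have e2 : ι (LaurentPolynomial.T 1) = (P0.a : K0) := by
        simp [ι]
      rw [e1, e2]
      rfl
    · rw [RingHom.comp_apply, RingHom.comp_apply, Polynomial.coe_mapRingHom, Polynomial.map_X,
        AdjoinRoot.mk_X]
      have e1 : evG P Polynomial.X = P.z ^ 2 := by unfold evG; simp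
      rw [e1, hPz]
  rw [hfac, RingHom.comp_apply, RingHom.comp_apply] at hG0
  have h1 : AdjoinRoot.mk (mmP K0 p) (Polynomial.mapRingHom ι G) = 0 := by
    apply hβinj
    rw [hG0, map_zero]
  rw [AdjoinRoot.mk_eq_zero, Polynomial.coe_mapRingHom, ← mmP_map ι p] at h1
  rw [mp_eq hp.pos]
  refine (Polynomial.map_dvd_map ι hιinj ?_).1 h1
  rw [hn]; exact (mmP_spec _ n).2.1

end Pool.Agent.HL
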