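import Pool.Agent.Lib.HL21.Stmt

/-! # Module Wd: induction on braid words -/

namespace Pool.Agent.HL

section letters

variable {R : List ℕ → Prop}

theorem wd_comm (hco : ∀ u v i j, i + 1 < j → (R (u ++ [i, j] ++ v) ↔ R (u ++ [j, i] ++ v)))
    (m : ℕ) (b : List ℕ) (hb : ∀ l ∈ b, l + 1 < m) (u v : List ℕ) :
    R (u ++ [m] ++ b ++ v) ↔ R (u ++ b ++ [m] ++ v) := by
  induction b generalizing u with
  | nil => simp only [List.append_nil]
  | cons x b ih =>
    have h1 : u ++ [m] ++ (x :: b) ++ v = u ++ [m, x] ++ (b ++ v) := by simp
    have h2 : u ++ [x, m] ++ (b ++ v) = (u ++ [x]) ++ [m] ++ b ++ v := by simp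
    have h3 : (u ++ [x]) ++ b ++ [m] ++ v = u ++ (x :: b) ++ [m] ++ v := by simp
    rw [h1, ← hco u (b ++ v) x m (hb x List.mem_cons_self), h2,
      ih (fun l hl => hb l (List.mem_cons_of_mem _ hl)), h3]

theorem wd_reduce (hsq : ∀ u v i, R (u ++ [i, i] ++ v))
    (hbr : ∀ u v i, (R (u ++ [i, i+1, i] ++ v) ↔ R (u ++ [i+1, i, i+1] ++ v)))
    (hco : ∀ u v i j, i + 1 < j → (R (u ++ [i, j] ++ v) ↔ R (u ++ [j, i] ++ v))) :
    ∀ (m : ℕ) (c : ℕ) (w : List ℕ), (∀ l ∈ w, l ≤ m) → w.count m ≤ c → ∀ u v,
      (∀ w', (∀ l ∈ w', l ≤ m) → w'.count m ≤ 1 → w'.length = w.length → R (u ++ w' ++ v)) →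
      R (u ++ w ++ v) := by
  intro m
  induction m with
  | zero =>
    intro c w hw hc u v hyp
    by_cases hcount : w.count 0 ≤ 1
    · exact hyp w hw hcount rfl
    · push Not at hcount
      match w, hw, hcount with
      | [], _, h => simp at h
      | [x], _, h =>
        have := List.count_le_length (a := 0) (l := [x])
        simp only [List.length_singleton] at this
        omega
      | x :: y :: t, hw, _ =>
        have hx : x = 0 := Nat.le_zero.mp (hw x (by simp))
        have hy : y = 0 := Nat.le_zero.mp (hw y (by simp))
        subst hx; subst hy
        have := hsq u (t ++ v) 0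
        have e : u ++ [0, 0] ++ (t ++ v) = u ++ (0 :: 0 :: t) ++ v := by simp
        rw [e] at this
        exact this
  | succ m ihm =>
    intro c
    induction c with
    | zero =>
      intro w hw hc u v hyp
      exact hyp w hw (le_trans hc (Nat.zero_le _)) rfl
    | succ c ihc =>
      intro w hw hc u v hyp
      by_cases hcount : w.count (m+1) ≤ 1
      · exact hyp w hw hcount rfl
      · push Not at hcount
        have hmem : (m+1) ∈ w := List.count_pos_iff.mp (by omega)
        obtain ⟨a, w1, hwa, ha⟩ := List.eq_append_cons_of_mem hmem
        have hca : a.count (m+1) = 0 := List.count_eq_zero_of_not_mem ha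
        have hcw : w.count (m+1) = w1.count (m+1) + 1 := by
          rw [hwa, List.count_append, hca, List.count_cons_self]; omega
        have hmem1 : (m+1) ∈ w1 := List.count_pos_iff.mp (by omega)
        obtain ⟨b, cc, hwb, hb⟩ := List.eq_append_cons_of_mem hmem1
        have hcb : b.count (m+1) = 0 := List.count_eq_zero_of_not_mem hb
        have hcw1 : w1.count (m+1) = cc.count (m+1) + 1 := by
          rw [hwb, List.count_append, hcb, List.count_cons_self]; omega
        have hw_eq : w = a ++ (m+1) :: (b ++ (m+1) :: cc) := by rw [hwa, hwb]
        have hbm : ∀ l ∈ b, l ≤ m := by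
          intro l hl
          have h1 : l ≤ m + 1 := hw l (by rw [hw_eq]; simp [hl])
          have h2 : l ≠ m + 1 := fun h => hb (h ▸ hl)
          omega
        have ham : ∀ l ∈ a, l ≤ m + 1 := fun l hl => hw l (by rw [hw_eq]; simp [hl])
        have hcm : ∀ l ∈ cc, l ≤ m + 1 := fun l hl => hw l (by rw [hw_eq]; simp [hl])
        have hgoal : u ++ w ++ v = (u ++ a ++ [m+1]) ++ b ++ ([m+1] ++ cc ++ v) := by
          rw [hw_eq]; simp
        rw [hgoal]
        refine ihm (b.count m) b hbm le_rfl _ _ ?_
        intro b' hb' hcb' hlb'
        by_cases h0 : b'.count m = 0
        · have hnm : m ∉ b' := List.count_eq_zero.mp h0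
          have hlt : ∀ l ∈ b', l + 1 < m + 1 := by
            intro l hl
            have h1 := hb' l hl
            have h2 : l ≠ m := fun h => hnm (h ▸ hl)
            omega
          have e1 : (u ++ a ++ [m+1]) ++ b' ++ ([m+1] ++ cc ++ v) =
              (u ++ a) ++ [m+1] ++ b' ++ ([m+1] ++ cc ++ v) := by simp
          rw [e1, wd_comm hco (m+1) b' hlt]
          have e2 : (u ++ a) ++ b' ++ [m+1] ++ ([m+1] ++ cc ++ v) =
              (u ++ a ++ b') ++ [m+1, m+1] ++ (cc ++ v) := by simp
          rw [e2]
          exact hsq _ _ _
        · have hmemb : m ∈ b' := List.count_pos_iff.mp (by omega)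
          obtain ⟨b1, b2, hb12, hb1⟩ := List.eq_append_cons_of_mem hmemb
          have hcb1 : b1.count m = 0 := List.count_eq_zero_of_not_mem hb1
          have hcb2 : b2.count m = 0 := by
            have : b'.count m = b2.count m + 1 := by
              rw [hb12, List.count_append, hcb1, List.count_cons_self]; omega
            omega
          have hb2 : m ∉ b2 := List.count_eq_zero.mp hcb2
          have hlt1 : ∀ l ∈ b1, l + 1 < m + 1 := by
            intro l hl
            have h1 := hb' l (by rw [hb12]; simp [hl])
            have h2 : l ≠ m := fun h => hb1 (h ▸ hl)
            omega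
          have hlt2 : ∀ l ∈ b2, l + 1 < m + 1 := by
            intro l hl
            have h1 := hb' l (by rw [hb12]; simp [hl])
            have h2 : l ≠ m := fun h => hb2 (h ▸ hl)
            omega
          have e1 : (u ++ a ++ [m+1]) ++ b' ++ ([m+1] ++ cc ++ v) =
              (u ++ a) ++ [m+1] ++ b1 ++ ([m] ++ b2 ++ [m+1] ++ cc ++ v) := by
            rw [hb12]; simp
          rw [e1, wd_comm hco (m+1) b1 hlt1]
          have e2 : (u ++ a) ++ b1 ++ [m+1] ++ ([m] ++ b2 ++ [m+1] ++ cc ++ v) =
              (u ++ a ++ b1 ++ [m+1, m]) ++ b2 ++ [m+1] ++ (cc ++ v) := by simp
          rw [e2, ← wd_comm hco (m+1) b2 hlt2]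
          have e3 : (u ++ a ++ b1 ++ [m+1, m]) ++ [m+1] ++ b2 ++ (cc ++ v) =
              (u ++ a ++ b1) ++ [m+1, m, m+1] ++ (b2 ++ cc ++ v) := by simp
          rw [e3, ← hbr]
          have e4 : (u ++ a ++ b1) ++ [m, m+1, m] ++ (b2 ++ cc ++ v) =
              u ++ (a ++ b1 ++ [m, m+1, m] ++ b2 ++ cc) ++ v := by simp
          rw [e4]
          have hcb1' : b1.count (m+1) = 0 := by
            apply List.count_eq_zero_of_not_mem
            intro h; have := hlt1 _ h; omega
          have hcb2' : b2.count (m+1) = 0 := by
            apply List.count_eq_zero_of_not_mem
            intro h; have := hlt2 _ h; omega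
          have hcm3 : [m, m+1, m].count (m+1) = 1 := by simp
          refine ihc _ ?_ ?_ u v ?_
          · intro l hl
            simp only [List.mem_append, List.mem_cons, List.not_mem_nil, or_false] at hl
            rcases hl with (((h | h) | h) | h) | h
            · exact ham l h
            · have := hlt1 l h; omega
            · omega
            · have := hlt2 l h; omega
            · exact hcm l h
          · simp only [List.count_append, hca, hcb1', hcb2', hcm3]
            omega
          · intro w' hw' hcw' hlw'
            refine hyp w' hw' hcw' ?_
            rw [hlw', hw_eq]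
            have hlb : b'.length = b1.length + b2.length + 1 := by
              rw [hb12]; simp; omega
            simp only [List.length_append, List.length_cons, List.length_nil]
            omega

end letters

/-- The positive word of a list of letters. -/
def posW (w : List ℕ) : Word := w.map (fun i => (i, true))

theorem posW_append (u v : List ℕ) : posW (u ++ v) = posW u ++ posW v := List.map_append

theorem braid_ind {Q : ℕ → Word → Prop} (h0 : Q 0 [])
    (hfree : ∀ n w, Valid n w → Q n w → Q (n+1) w)
    (hmark : ∀ n w (b : Bool), Valid (n+1) w → Q (n+1) w → Q (n+2) (w ++ [(n, b)]))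
    (hconj : ∀ n u v, Valid n (u ++ v) → Q n (u ++ v) → Q n (v ++ u))
    (hbraid : ∀ n u v i, i + 2 < n → Valid n (u ++ v) →
      (Q n (u ++ [(i, true), (i+1, true), (i, true)] ++ v) ↔
        Q n (u ++ [(i+1, true), (i, true), (i+1, true)] ++ v)))
    (hcomm : ∀ n u v i j, i + 1 < j → j + 1 < n → Valid n (u ++ v) →
      (Q n (u ++ [(i, true), (j, true)] ++ v) ↔ Q n (u ++ [(j, true), (i, true)] ++ v)))
    (hcancel : ∀ n u v i, i + 1 < n → Valid n (u ++ v) → Q n (u ++ v) →
      Q n (u ++ [(i, true), (i, false)] ++ v))
    (hskein : ∀ n u v i, i + 1 < n → Valid n (u ++ v) → Q n (u ++ v) →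
      (Q n (u ++ [(i, true)] ++ v) ↔ Q n (u ++ [(i, false)] ++ v))) :
    ∀ n w, Valid n w → Q n w := by
  suffices H : ∀ L n w, w.length = L → Valid n w → Q n w from fun n w hw => H _ n w rfl hw
  intro L
  induction L using Nat.strong_induction_on with
  | _ L ihL =>
  -- signs can be changed
  have hsign : ∀ n (v u : Word), (u ++ v).length = L → Valid n (u ++ v) →
      Q n (u ++ v.map (fun l => (l.1, true))) → Q n (u ++ v) := by
    intro n v
    induction v with
    | nil => intro u _ _ h; exact h
    | cons l v ihv =>
      intro u hlen hval h
      have e1 : u ++ l :: v = (u ++ [l]) ++ v := by simp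
      rw [e1]
      refine ihv (u ++ [l]) (by rw [← e1]; exact hlen) (by rw [← e1]; exact hval) ?_
      have e2 : u ++ (l :: v).map (fun l => (l.1, true)) =
          u ++ [(l.1, true)] ++ v.map (fun l => (l.1, true)) := by simp
      rw [e2] at h
      obtain ⟨i, b⟩ := l
      cases b
      · have hi : i + 1 < n := hval (i, false) (by simp)
        have hval' : Valid n (u ++ v.map (fun l => (l.1, true))) := by
          intro x hx
          rcases List.mem_append.mp hx with hx | hx
          · exact hval x (List.mem_append_left _ hx)
          · obtain ⟨y, hy, rfl⟩ := List.mem_map.mp hx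
            exact hval y (by simp [hy])
        have hlen' : (u ++ v.map (fun l => (l.1, true))).length < L := by
          rw [← hlen]; simp
        exact (hskein n u _ i hi hval' (ihL _ hlen' n _ rfl hval')).mp h
      · exact h
  -- positive words
  have hpos : ∀ n (w : List ℕ), w.length = L → Valid n (posW w) → Q n (posW w) := by
    intro n
    induction n with
    | zero =>
      intro w _ hw
      have : w = [] := by
        cases w with
        | nil => rfl
        | cons x t => exact absurd (hw (x, true) (by simp [posW])) (by omega)
      subst this
      exact h0
    | succ n ihn =>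
      intro w hlen hw
      cases n with
      | zero =>
        have : w = [] := by
          cases w with
          | nil => rfl
          | cons x t => exact absurd (hw (x, true) (by simp [posW])) (by simp)
        subst this
        exact hfree 0 [] (by intro l hl; simp at hl) h0
      | succ m =>
        -- letters `≤ m`
        let R : List ℕ → Prop := fun w => w.length = L → Valid (m+1+1) (posW w) → Q (m+1+1) (posW w)
        have vsub : ∀ (u x v : List ℕ), Valid (m+1+1) (posW (u ++ x ++ v)) →
            Valid (m+1+1) (posW u ++ posW v) := by
          intro u x v h l hl
          refine h l ?_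
          rw [posW_append, posW_append]
          rcases List.mem_append.mp hl with hl | hl
          · exact List.mem_append_left _ (List.mem_append_left _ hl)
          · exact List.mem_append_right _ hl
        have vmem : ∀ (u x v : List ℕ), Valid (m+1+1) (posW (u ++ x ++ v)) → ∀ i ∈ x, i + 1 < m+1+1 := by
          intro u x v h i hi
          refine h (i, true) ?_
          rw [posW_append, posW_append]
          exact List.mem_append_left _ (List.mem_append_right _ (List.mem_map.mpr ⟨i, hi, rfl⟩))
        have key := wd_reduce (R := R) ?_ ?_ ?_ m (w.count m) w ?_ le_rfl [] [] ?_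
        · simp only [List.nil_append, List.append_nil] at key
          exact key hlen hw
        · -- squares
          intro u v i hlen' hval'
          have hval0 := vsub u [i, i] v hval'
          have hi := vmem u [i, i] v hval' i (by simp)
          rw [posW_append, posW_append]
          have e1 : posW u ++ posW [i, i] ++ posW v =
              (posW u ++ [(i, true)]) ++ [(i, true)] ++ posW v := by simp [posW]
          rw [e1]
          have hval1 : Valid (m+1+1) ((posW u ++ [(i, true)]) ++ posW v) := by
            intro l hl
            simp only [List.mem_append, List.mem_cons, List.not_mem_nil, or_false] at hl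
            rcases hl with (hl | hl) | hl
            · exact hval0 l (List.mem_append_left _ hl)
            · rw [hl]; exact hi
            · exact hval0 l (List.mem_append_right _ hl)
          have hlen1 : ((posW u ++ [(i, true)]) ++ posW v).length < L := by
            rw [← hlen']; simp [posW]
          have hlen2 : (posW u ++ posW v).length < L := by
            rw [← hlen']; simp [posW]
          rw [hskein (m+1+1) _ _ i hi hval1 (ihL _ hlen1 _ _ rfl hval1)]
          have e2 : (posW u ++ [(i, true)]) ++ [(i, false)] ++ posW v =
              posW u ++ [(i, true), (i, false)] ++ posW v := by simp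
          rw [e2]
          exact hcancel _ _ _ i hi hval0 (ihL _ hlen2 _ _ rfl hval0)
        · -- braid
          intro u v i
          have hl : (u ++ [i, i+1, i] ++ v).length = (u ++ [i+1, i, i+1] ++ v).length := by simp
          have hv : Valid (m+1+1) (posW (u ++ [i, i+1, i] ++ v)) ↔
              Valid (m+1+1) (posW (u ++ [i+1, i, i+1] ++ v)) := by
            constructor
            · intro h l hl
              refine h l ?_
              simp only [posW, List.map_append, List.mem_append, List.map_cons, List.map_nil,
                List.mem_cons, List.not_mem_nil, or_false] at hl ⊢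
              tauto
            · intro h l hl
              refine h l ?_
              simp only [posW, List.map_append, List.mem_append, List.map_cons, List.map_nil,
                List.mem_cons, List.not_mem_nil, or_false] at hl ⊢
              tauto
          have hb : ∀ (_ : Valid (m+1+1) (posW (u ++ [i, i+1, i] ++ v))),
              (Q (m+1+1) (posW (u ++ [i, i+1, i] ++ v)) ↔ Q (m+1+1) (posW (u ++ [i+1, i, i+1] ++ v))) := by
            intro h
            have h1 := vsub _ _ _ h
            have h2 := vmem _ _ _ h (i+1) (by simp)
            have := hbraid (m+1+1) (posW u) (posW v) i (by omega) h1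
            rw [posW_append, posW_append, posW_append, posW_append]
            exact this
          constructor
          · intro h hlen' hval'
            have hval'' := hv.mpr hval'
            exact (hb hval'').mp (h (hl.trans hlen') hval'')
          · intro h hlen' hval'
            exact (hb hval').mpr (h (hl.symm.trans hlen') (hv.mp hval'))
        · -- commutation
          intro u v i j hij
          have hl : (u ++ [i, j] ++ v).length = (u ++ [j, i] ++ v).length := by simp
          have hv : Valid (m+1+1) (posW (u ++ [i, j] ++ v)) ↔
              Valid (m+1+1) (posW (u ++ [j, i] ++ v)) := by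
            constructor
            · intro h l hl
              refine h l ?_
              simp only [posW, List.map_append, List.mem_append, List.map_cons, List.map_nil,
                List.mem_cons, List.not_mem_nil, or_false] at hl ⊢
              tauto
            · intro h l hl
              refine h l ?_
              simp only [posW, List.map_append, List.mem_append, List.map_cons, List.map_nil,
                List.mem_cons, List.not_mem_nil, or_false] at hl ⊢
              tauto
          have hb : ∀ (_ : Valid (m+1+1) (posW (u ++ [i, j] ++ v))),
              (Q (m+1+1) (posW (u ++ [i, j] ++ v)) ↔ Q (m+1+1) (posW (u ++ [j, i] ++ v))) := by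
            intro h
            have h1 := vsub _ _ _ h
            have h2 := vmem _ _ _ h j (by simp)
            have := hcomm (m+1+1) (posW u) (posW v) i j hij h2 h1
            rw [posW_append, posW_append, posW_append, posW_append]
            exact this
          constructor
          · intro h hlen' hval'
            have hval'' := hv.mpr hval'
            exact (hb hval'').mp (h (hl.trans hlen') hval'')
          · intro h hlen' hval'
            exact (hb hval').mpr (h (hl.symm.trans hlen') (hv.mp hval'))
        · intro l hl
          have := hw (l, true) (List.mem_map.mpr ⟨l, hl, rfl⟩)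
          simp only at this
          omega
        · intro w' hw' hc' hl'
          simp only [List.nil_append, List.append_nil]
          intro hlen' hval'
          by_cases hc0 : w'.count m = 0
          · have hm : m ∉ w' := List.count_eq_zero.mp hc0
            have hv' : Valid (m+1) (posW w') := by
              intro l hl
              obtain ⟨i, hi, rfl⟩ := List.mem_map.mp hl
              have h1 := hw' i hi
              have h2 : i ≠ m := fun h => hm (h ▸ hi)
              show i + 1 < m + 1
              omega
            exact hfree (m+1) _ hv' (ihn w' hlen' hv')
          · have hmem : m ∈ w' := List.count_pos_iff.mp (by omega)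
            obtain ⟨a, b, hab, ha⟩ := List.eq_append_cons_of_mem hmem
            have hca : a.count m = 0 := List.count_eq_zero_of_not_mem ha
            have hcb : b.count m = 0 := by
              have : w'.count m = b.count m + 1 := by
                rw [hab, List.count_append, hca, List.count_cons_self]; omega
              omega
            have hb : m ∉ b := List.count_eq_zero.mp hcb
            have hvba : Valid (m+1) (posW b ++ posW a) := by
              intro l hl
              rw [← posW_append] at hl
              obtain ⟨i, hi, rfl⟩ := List.mem_map.mp hl
              have h1 : i ≤ m := hw' i (by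
                rw [hab]
                rcases List.mem_append.mp hi with h | h
                · simp [h]
                · simp [h])
              have h2 : i ≠ m := by
                intro h
                rcases List.mem_append.mp hi with h' | h'
                · exact hb (h ▸ h')
                · exact ha (h ▸ h')
              show i + 1 < m + 1
              omega
            have hlba : (posW b ++ posW a).length < L := by
              rw [← hlen', hab]; simp [posW]; omega
            have h1 := hmark m _ true hvba (ihL _ hlba _ _ rfl hvba)
            have e1 : posW b ++ posW a ++ [(m, true)] = posW b ++ (posW a ++ [(m, true)]) := by simp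
            rw [e1] at h1
            have hv2 : Valid (m+2) (posW b ++ (posW a ++ [(m, true)])) := by
              intro l hl
              rw [← e1] at hl
              rcases List.mem_append.mp hl with hl | hl
              · exact (hvba l hl).trans (Nat.lt_succ_self _)
              · rw [List.mem_singleton] at hl
                rw [hl]
                show m + 1 < m + 2
                omega
            have h2 := hconj (m+2) _ _ hv2 h1
            have e2 : posW a ++ [(m, true)] ++ posW b = posW w' := by
              rw [hab]; simp [posW]
            rw [e2] at h2
            exact h2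
  intro n w hlen hw
  have e : w.map (fun l => (l.1, true)) = posW (w.map (fun l => l.1)) := by
    simp [posW, List.map_map, Function.comp_def]
  have h1 : Q n ([] ++ w.map (fun l => (l.1, true))) := by
    rw [List.nil_append, e]
    refine hpos n _ (by rw [List.length_map]; exact hlen) ?_
    intro l hl
    rw [← e] at hl
    obtain ⟨y, hy, rfl⟩ := List.mem_map.mp hl
    exact hw y hy
  exact hsign n w [] hlen hw h1

end Pool.Agent.HL
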