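import Pool.Agent.Lib.HL21.JMs
import Pool.Agent.Lib.HL21.Rel
import Pool.Agent.Lib.HL21.Wd
import Pool.Agent.Lib.HL21.Comp

/-! # Module Intg: integrality and universality of the invariants -/

namespace Pool.Agent.HL

open Finset

variable {k : Type*} [CommRing k]

/-- `ℤ[a^±][x]`, where `x` stands for `z²`. -/
abbrev RR := Polynomial (LaurentPolynomial ℤ)

/-- Evaluation at `x = z²` and `a`. -/
noncomputable def evG (P : Par k) : RR →+* k :=
  Polynomial.eval₂RingHom (LaurentPolynomial.eval₂ (Int.castRingHom k) P.a) (P.z ^ 2)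

/-- `Ž` computed with the Ocneanu trace. -/
noncomputable def Z1 (P : Par k) (n : ℕ) (w : Word) : k := P.z ^ ncomp n w * tr P n (ev P.z w)

theorem intg_Valid_append {n : ℕ} {u v : Word} : Valid n (u ++ v) ↔ Valid n u ∧ Valid n v := by
  simp only [Valid, List.mem_append]
  constructor
  · intro h
    exact ⟨fun l hl => h l (Or.inl hl), fun l hl => h l (Or.inr hl)⟩
  · rintro ⟨h1, h2⟩ l (hl | hl)
    · exact h1 l hl
    · exact h2 l hl

theorem intg_ev_single (z : k) (i : ℕ) (b : Bool) :
    ev z [(i, b)] = if b then g z i else gi z i := by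
  simp [ev, evl]

theorem Z1_zero (P : Par k) : Z1 P 0 [] = 1 := by
  rw [Z1, ncomp_zero, ev_nil, tr_zero, pow_zero, one_mul]

theorem Z1_free (P : Par k) {n : ℕ} {w : Word} (hw : Valid n w) :
    Z1 P (n+1) w = ((P.a : k) - ((P.a⁻¹ : kˣ) : k)) * Z1 P n w := by
  rw [Z1, Z1, ncomp_free hw, tr_free P (ev_mem P.z hw), Par.δ, pow_succ]
  linear_combination (((P.a : k) - ((P.a⁻¹ : kˣ) : k)) * P.z ^ ncomp n w * tr P n (ev P.z w)) *
    P.z_mul_zi

theorem Z1_markov (P : Par k) {n : ℕ} {w : Word} (hw : Valid (n+1) w) (b : Bool) :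
    Z1 P (n+2) (w ++ [(n, b)]) = (if b then (P.a : k) else ((P.a⁻¹ : kˣ) : k)) * Z1 P (n+1) w := by
  rw [Z1, Z1, ncomp_markov b hw, ev_append, intg_ev_single]
  cases b
  · rw [if_neg (by decide), if_neg (by decide), tr_markov_neg P (ev_mem P.z hw)]
    ring
  · rw [if_pos rfl, if_pos rfl, tr_markov_pos P (ev_mem P.z hw)]
    ring

theorem Z1_conj (P : Par k) {n : ℕ} {u v : Word} (hw : Valid n (u ++ v)) :
    Z1 P n (u ++ v) = Z1 P n (v ++ u) := by
  rw [Z1, Z1, ncomp_conj hw, ev_append, ev_append,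
    tr_comm P (ev_mem P.z (intg_Valid_append.1 hw).1)]

theorem Z1_congr (P : Par k) {n : ℕ} {u v : Word} (h : perm u = perm v) (h' : ev P.z u = ev P.z v) :
    Z1 P n u = Z1 P n v := by
  rw [Z1, Z1, ncomp_congr h, h']

theorem intg_skein (P : Par k) (n : ℕ) (u v : Word) (i : ℕ) :
    tr P n (ev P.z (u ++ [(i, true)] ++ v)) - tr P n (ev P.z (u ++ [(i, false)] ++ v)) =
      P.z * tr P n (ev P.z (u ++ v)) := by
  rw [← map_sub]
  have h : ev P.z (u ++ [(i, true)] ++ v) - ev P.z (u ++ [(i, false)] ++ v) =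
      P.z • ev P.z (u ++ v) := by
    rw [ev_append, ev_append, ev_append, ev_append, ev_append, intg_ev_single, intg_ev_single,
      if_pos rfl, if_neg (by decide), gi, mul_sub, sub_mul, mul_smul_comm, mul_one, smul_mul_assoc]
    abel
  rw [h, map_smul, smul_eq_mul]

theorem Z1_inter (P : Par k) {n : ℕ} {u v : Word} {i : ℕ} (hi : i + 1 < n)
    (hw : Valid n (u ++ v)) (h : (perm (v ++ u)).SameCycle i (i+1)) :
    Z1 P n (u ++ [(i, true)] ++ v) - Z1 P n (u ++ [(i, false)] ++ v) = P.z ^ 2 * Z1 P n (u ++ v) := by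
  rw [Z1, Z1, Z1, ncomp_split true hi hw h, ncomp_split false hi hw h, ← mul_sub, intg_skein]
  ring

theorem Z1_self (P : Par k) {n : ℕ} {u v : Word} {i : ℕ} (hi : i + 1 < n)
    (hw : Valid n (u ++ v)) (h : ¬ (perm (v ++ u)).SameCycle i (i+1)) :
    Z1 P n (u ++ [(i, true)] ++ v) - Z1 P n (u ++ [(i, false)] ++ v) = Z1 P n (u ++ v) := by
  have h1 := ncomp_merge true hi hw h
  have h2 := ncomp_merge false hi hw h
  have h3 : ncomp n (u ++ [(i, false)] ++ v) = ncomp n (u ++ [(i, true)] ++ v) := by omega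
  rw [Z1, Z1, Z1, ← h1, h3, ← mul_sub, intg_skein]
  ring

theorem evG_C_T (P : Par k) (m : ℤ) :
    evG P (Polynomial.C (LaurentPolynomial.T m)) = ((P.a ^ m : kˣ) : k) := by
  simp [evG]

theorem Z1_int {n : ℕ} {w : Word} (hw : Valid n w) :
    ∃ G : RR, ∀ (k : Type) [CommRing k] (P : Par k), Z1 P n w = evG P G := by
  refine braid_ind (Q := fun n w => ∃ G : RR, ∀ (k : Type) [CommRing k] (P : Par k),
    Z1 P n w = evG P G) ?_ ?_ ?_ ?_ ?_ ?_ ?_ ?_ n w hw
  · exact ⟨1, fun k _ P => by rw [Z1_zero, map_one]⟩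
  · rintro n w hw ⟨G, hG⟩
    refine ⟨(Polynomial.C (LaurentPolynomial.T 1) - Polynomial.C (LaurentPolynomial.T (-1))) * G,
      fun k _ P => ?_⟩
    rw [Z1_free P hw, hG k P, map_mul, map_sub, evG_C_T, evG_C_T, zpow_one, zpow_neg_one]
  · rintro n w b hw ⟨G, hG⟩
    refine ⟨Polynomial.C (LaurentPolynomial.T (if b then 1 else -1)) * G, fun k _ P => ?_⟩
    rw [Z1_markov P hw, hG k P, map_mul, evG_C_T]
    cases b
    · rw [if_neg (by decide), if_neg (by decide), zpow_neg_one]
    · rw [if_pos rfl, if_pos rfl, zpow_one]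
  · rintro n u v hw ⟨G, hG⟩
    exact ⟨G, fun k _ P => by rw [← Z1_conj P hw, hG k P]⟩
  · intro n u v i hi hw
    have key : ∀ (k : Type) [CommRing k] (P : Par k),
        Z1 P n (u ++ [(i, true), (i+1, true), (i, true)] ++ v) =
          Z1 P n (u ++ [(i+1, true), (i, true), (i+1, true)] ++ v) := by
      intro k _ P
      refine Z1_congr P ?_ ?_
      · rw [perm_append, perm_append, perm_append (u ++ _), perm_append u]
        congr 2
        simp only [perm_cons, perm_nil, mul_one]
        ext x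
        simp only [Equiv.Perm.mul_apply, Equiv.swap_apply_def]
        split_ifs <;> omega
      · rw [ev_append, ev_append, ev_append, ev_append]
        congr 2
        simp only [ev_cons, ev_nil, evl, if_true, mul_one]
        rw [← mul_assoc, braid, mul_assoc]
    constructor
    · rintro ⟨G, hG⟩
      exact ⟨G, fun k _ P => by rw [← key k P, hG k P]⟩
    · rintro ⟨G, hG⟩
      exact ⟨G, fun k _ P => by rw [key k P, hG k P]⟩
  · intro n u v i j hij hj hw
    have key : ∀ (k : Type) [CommRing k] (P : Par k),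
        Z1 P n (u ++ [(i, true), (j, true)] ++ v) = Z1 P n (u ++ [(j, true), (i, true)] ++ v) := by
      intro k _ P
      refine Z1_congr P ?_ ?_
      · rw [perm_append, perm_append, perm_append (u ++ _), perm_append u]
        congr 2
        simp only [perm_cons, perm_nil, mul_one]
        ext x
        simp only [Equiv.Perm.mul_apply, Equiv.swap_apply_def]
        split_ifs <;> omega
      · rw [ev_append, ev_append, ev_append, ev_append]
        congr 2
        simp only [ev_cons, ev_nil, evl, if_true, mul_one]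
        exact g_comm P.z hij
    constructor
    · rintro ⟨G, hG⟩
      exact ⟨G, fun k _ P => by rw [← key k P, hG k P]⟩
    · rintro ⟨G, hG⟩
      exact ⟨G, fun k _ P => by rw [key k P, hG k P]⟩
  · rintro n u v i hi hw ⟨G, hG⟩
    refine ⟨G, fun k _ P => ?_⟩
    rw [← hG k P]
    refine Z1_congr P ?_ ?_
    · rw [perm_append, perm_append, perm_append u v]
      simp [perm_cons, perm_nil]
    · rw [ev_append, ev_append, ev_append P.z u v]
      simp [ev_cons, ev_nil, evl, g_gi]
  · rintro n u v i hi hw ⟨G, hG⟩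
    by_cases h : (perm (v ++ u)).SameCycle i (i+1)
    · constructor
      · rintro ⟨G', hG'⟩
        refine ⟨G' - Polynomial.X * G, fun k _ P => ?_⟩
        have h1 := Z1_inter P hi hw h
        rw [hG' k P, hG k P] at h1
        rw [map_sub, map_mul]
        have h2 : evG P Polynomial.X = P.z ^ 2 := by simp [evG]
        rw [h2]
        linear_combination -h1
      · rintro ⟨G', hG'⟩
        refine ⟨G' + Polynomial.X * G, fun k _ P => ?_⟩
        have h1 := Z1_inter P hi hw h
        rw [hG' k P, hG k P] at h1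
        rw [map_add, map_mul]
        have h2 : evG P Polynomial.X = P.z ^ 2 := by simp [evG]
        rw [h2]
        linear_combination h1
    · constructor
      · rintro ⟨G', hG'⟩
        refine ⟨G' - G, fun k _ P => ?_⟩
        have h1 := Z1_self P hi hw h
        rw [hG' k P, hG k P] at h1
        rw [map_sub]
        linear_combination -h1
      · rintro ⟨G', hG'⟩
        refine ⟨G' + G, fun k _ P => ?_⟩
        have h1 := Z1_self P hi hw h
        rw [hG' k P, hG k P] at h1
        rw [map_add]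
        linear_combination h1

theorem intg_expand (p : ℕ) (l : List ℕ) (hl : l.Nodup) :
    ∃ (ι : Type) (_ : Fintype ι) (m : ι → ℕ → ℕ), ∀ (k : Type) [CommRing k] (z : k),
      XL z p l = ∑ t : ι, ev z (l.flatMap (fun i => shW (p * i) (cWord p (m t i)))) := by
  induction l with
  | nil =>
    refine ⟨Unit, inferInstance, fun _ _ => 0, fun k _ z => ?_⟩
    simp [XL, ev_nil]
  | cons i l ih =>
    obtain ⟨ι, hι, m, hm⟩ := ih (List.nodup_cons.1 hl).2
    refine ⟨Fin p × ι, inferInstance, fun t => Function.update (m t.2) i t.1, fun k _ z => ?_⟩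
    have h1 : XL z p (i :: l) = sh z (p * i) (X z p) * XL z p l := by
      simp [XL]
    have h2 : ∀ t : Fin p × ι, ev z ((i :: l).flatMap
        (fun j => shW (p * j) (cWord p (Function.update (m t.2) i t.1 j)))) =
        sh z (p * i) (ev z (cWord p t.1)) *
          ev z (l.flatMap (fun j => shW (p * j) (cWord p (m t.2 j)))) := by
      intro t
      rw [List.flatMap_cons, ev_append, Function.update_self, ev_shW]
      congr 2
      refine List.flatMap_congr fun j hj => ?_
      have hji : j ≠ i := fun h => (List.nodup_cons.1 hl).1 (h ▸ hj)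
      rw [Function.update_of_ne hji]
    rw [h1, hm k z, Finset.sum_congr rfl fun t _ => h2 t, Fintype.sum_prod_type, X, map_sum,
      Finset.sum_range, Finset.sum_mul_sum]

theorem Zp_int {p n : ℕ} (hp : 0 < p) {w : Word} (hw : Valid n w) :
    ∃ G : RR, ∀ (k : Type) [CommRing k] (P : Par k), Zp P p n w = evG P G := by
  obtain ⟨ι, hι, m, hm⟩ := intg_expand p (reps n w) (reps_nodup n w)
  have h1 : ∀ t : ι, ∃ G : RR, ∀ (k : Type) [CommRing k] (P : Par k),
      Z1 P (p * n) (cab p w ++ (reps n w).flatMap (fun i => shW (p * i) (cWord p (m t i)))) =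
        evG P G := fun t => Z1_int (comp_valid hp hw (m t))
  choose G hG using h1
  refine ⟨∑ t : ι, G t, fun k _ P => ?_⟩
  rw [map_sum, ← Finset.sum_congr rfl fun t _ => hG t k P, Zp, hm k P.z, Finset.mul_sum, map_sum,
    Finset.mul_sum]
  refine Finset.sum_congr rfl fun t _ => ?_
  rw [Z1, comp_ncomp hp hw, ev_append]

end Pool.Agent.HL
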