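import Pool.Agent.Lib.HL21.Cas

/-! # Module JMs: Jucys-Murphy elements and the Ocneanu trace -/

namespace Pool.Agent.HL

open Finset

variable {k : Type*} [CommRing k]

/-! ### auxiliary -/

theorem jm_HS_mono (z : k) {m n : ℕ} (h : m ≤ n) : HS z m ≤ HS z n :=
  HW_mono z h (fun _ _ h => h)

theorem jm_mul_mem (z : k) {n : ℕ} {x y : H z} (hx : x ∈ HS z n) (hy : y ∈ HS z n) : x * y ∈ HS z n :=
  mul_mem_HW z f0_mono hx hy

theorem jm_g_mem (z : k) {i n : ℕ} (h : i + 1 < n) : g z i ∈ HS z n := g_mem_HW z h rfl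

theorem jm_gi_mem (z : k) {i n : ℕ} (h : i + 1 < n) : gi z i ∈ HS z n := gi_mem_HW z h rfl

theorem jm_g_comm_HS (z : k) {i n : ℕ} (h : n ≤ i) {x : H z} (hx : x ∈ HS z n) :
    g z i * x = x * g z i := by
  refine (commute_HW z f0_mono (N := n) (c := g z i) (fun m hm _ => ?_) hx).symm
  exact g_comm z (by omega)

theorem jm_HS_one (z : k) {x : H z} (hx : x ∈ HS z 1) : ∃ c : k, x = c • (1 : H z) := by
  refine HW_ind z f0_mono (N := 1) (P := fun x => ∃ c : k, x = c • (1 : H z)) ?_ ?_ ?_ ?_ x hx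
  · exact ⟨1, (one_smul _ _).symm⟩
  · rintro x y ⟨a, rfl⟩ ⟨b, rfl⟩
    exact ⟨a + b, (add_smul _ _ _).symm⟩
  · rintro c x ⟨a, rfl⟩
    exact ⟨c * a, (mul_smul _ _ _).symm⟩
  · intro i x hi
    omega

/-- `H_{n+2}` is spanned by `H_{n+1}` and `H_{n+1} g_n H_{n+1}`. -/
theorem HS_span (z : k) (n : ℕ) : HS z (n+2) ≤ HS z (n+1) ⊔
    Submodule.span k {u : H z | ∃ x ∈ HS z (n+1), ∃ y ∈ HS z (n+1), u = x * g z n * y} := by
  induction n with
  | zero =>
    intro x hx
    refine HW_ind z f0_mono (N := 2) (P := fun x => x ∈ HS z (0+1) ⊔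
      Submodule.span k {u : H z | ∃ x ∈ HS z (0+1), ∃ y ∈ HS z (0+1), u = x * g z 0 * y}) ?_ ?_ ?_ ?_ x hx
    · exact Submodule.mem_sup_left (one_mem_HW z _ _)
    · intro x y hx hy; exact Submodule.add_mem _ hx hy
    · intro c x hx; exact Submodule.smul_mem _ _ hx
    · intro i x hi _ hx
      obtain rfl : i = 0 := by omega
      obtain ⟨a, ha, b, hb, rfl⟩ := Submodule.mem_sup.1 hx
      rw [mul_add]
      refine Submodule.add_mem _ (Submodule.mem_sup_right (Submodule.subset_span
        ⟨1, one_mem_HW z _ _, a, ha, by rw [one_mul]⟩)) ?_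
      refine Submodule.span_induction (p := fun b _ => g z 0 * b ∈ HS z (0+1) ⊔
        Submodule.span k {u : H z | ∃ x ∈ HS z (0+1), ∃ y ∈ HS z (0+1), u = x * g z 0 * y}) ?_ ?_ ?_ ?_ hb
      · rintro u ⟨x, hx, y, hy, rfl⟩
        obtain ⟨c, rfl⟩ := jm_HS_one z hx
        have e : g z 0 * (c • (1 : H z) * g z 0 * y) = c • y + (z * c) • (1 * g z 0 * y) := by
          rw [smul_mul_assoc, smul_mul_assoc, mul_smul_comm, one_mul, ← mul_assoc, g_sq, add_mul, one_mul,
            smul_mul_assoc, smul_add, smul_smul, mul_comm c z]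
        rw [e]
        exact Submodule.add_mem _ (Submodule.mem_sup_left (Submodule.smul_mem _ _ hy))
          (Submodule.smul_mem _ _ (Submodule.mem_sup_right (Submodule.subset_span
            ⟨1, one_mem_HW z _ _, y, hy, rfl⟩)))
      · rw [mul_zero]; exact Submodule.zero_mem _
      · intro x y _ _ hx hy; rw [mul_add]; exact Submodule.add_mem _ hx hy
      · intro c x _ hx; rw [mul_smul_comm]; exact Submodule.smul_mem _ _ hx
  | succ n ih =>
    intro x hx
    refine HW_ind z f0_mono (N := n+3) (P := fun x => x ∈ HS z (n+2) ⊔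
      Submodule.span k {u : H z | ∃ x ∈ HS z (n+2), ∃ y ∈ HS z (n+2), u = x * g z (n+1) * y})
      ?_ ?_ ?_ ?_ x hx
    · exact Submodule.mem_sup_left (one_mem_HW z _ _)
    · intro x y hx hy; exact Submodule.add_mem _ hx hy
    · intro c x hx; exact Submodule.smul_mem _ _ hx
    · intro i x hi _ hx
      obtain ⟨a, ha, b, hb, rfl⟩ := Submodule.mem_sup.1 hx
      rw [mul_add]
      by_cases hin : i ≤ n
      · have hgi : g z i ∈ HS z (n+2) := jm_g_mem z (by omega)
        refine Submodule.add_mem _ (Submodule.mem_sup_left (jm_mul_mem z hgi ha)) ?_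
        refine Submodule.span_induction (p := fun b _ => g z i * b ∈ HS z (n+2) ⊔
          Submodule.span k {u : H z | ∃ x ∈ HS z (n+2), ∃ y ∈ HS z (n+2), u = x * g z (n+1) * y}) ?_ ?_ ?_ ?_ hb
        · rintro u ⟨x, hx, y, hy, rfl⟩
          exact Submodule.mem_sup_right (Submodule.subset_span
            ⟨g z i * x, jm_mul_mem z hgi hx, y, hy, by simp only [mul_assoc]⟩)
        · rw [mul_zero]; exact Submodule.zero_mem _
        · intro x y _ _ hx hy; rw [mul_add]; exact Submodule.add_mem _ hx hy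
        · intro c x _ hx; rw [mul_smul_comm]; exact Submodule.smul_mem _ _ hx
      obtain rfl : i = n + 1 := by omega
      refine Submodule.add_mem _ (Submodule.mem_sup_right (Submodule.subset_span
        ⟨1, one_mem_HW z _ _, a, ha, by rw [one_mul]⟩)) ?_
      refine Submodule.span_induction (p := fun b _ => g z (n+1) * b ∈ HS z (n+2) ⊔
        Submodule.span k {u : H z | ∃ x ∈ HS z (n+2), ∃ y ∈ HS z (n+2), u = x * g z (n+1) * y}) ?_ ?_ ?_ ?_ hb
      · rintro u ⟨x, hx, y, hy, rfl⟩
        -- now `x ∈ HS (n+2)` is decomposed by the induction hypothesis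
        obtain ⟨a', ha', b', hb', rfl⟩ := Submodule.mem_sup.1 (ih hx)
        rw [add_mul, add_mul, mul_add]
        refine Submodule.add_mem _ ?_ ?_
        · have e : g z (n+1) * (a' * g z (n+1) * y) = a' * y + z • (a' * g z (n+1) * y) := by
            rw [mul_assoc a', ← mul_assoc (g z (n+1)), jm_g_comm_HS z le_rfl ha', mul_assoc a',
              ← mul_assoc (g z (n+1)), g_sq, add_mul, one_mul, smul_mul_assoc, mul_add, mul_smul_comm,
              ← mul_assoc]
          rw [e]
          have ha2 : a' ∈ HS z (n+2) := jm_HS_mono z (by omega) ha'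
          exact Submodule.add_mem _ (Submodule.mem_sup_left (jm_mul_mem z ha2 hy))
            (Submodule.smul_mem _ _ (Submodule.mem_sup_right (Submodule.subset_span
              ⟨a', ha2, y, hy, rfl⟩)))
        · refine Submodule.span_induction (p := fun b _ => g z (n+1) * (b * g z (n+1) * y) ∈ HS z (n+2) ⊔
            Submodule.span k {u : H z | ∃ x ∈ HS z (n+2), ∃ y ∈ HS z (n+2), u = x * g z (n+1) * y}) ?_ ?_ ?_ ?_ hb'
          · rintro u ⟨x1, hx1, x2, hx2, rfl⟩
            have hx1' : x1 ∈ HS z (n+2) := jm_HS_mono z (by omega) hx1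
            have hx2' : x2 ∈ HS z (n+2) := jm_HS_mono z (by omega) hx2
            have hgn : g z n ∈ HS z (n+2) := jm_g_mem z (by omega)
            have e : g z (n+1) * (x1 * g z n * x2 * g z (n+1) * y) =
                (x1 * g z n) * g z (n+1) * (g z n * (x2 * y)) := by
              calc g z (n+1) * (x1 * g z n * x2 * g z (n+1) * y)
                  = (g z (n+1) * x1) * g z n * (x2 * g z (n+1)) * y := by simp only [mul_assoc]
                _ = (x1 * g z (n+1)) * g z n * (g z (n+1) * x2) * y := by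
                    rw [jm_g_comm_HS z le_rfl hx1, jm_g_comm_HS z le_rfl hx2]
                _ = x1 * (g z (n+1) * g z n * g z (n+1)) * (x2 * y) := by simp only [mul_assoc]
                _ = x1 * (g z n * g z (n+1) * g z n) * (x2 * y) := by rw [braid]
                _ = _ := by simp only [mul_assoc]
            rw [e]
            exact Submodule.mem_sup_right (Submodule.subset_span
              ⟨x1 * g z n, jm_mul_mem z hx1' hgn, g z n * (x2 * y),
                jm_mul_mem z hgn (jm_mul_mem z hx2' hy), rfl⟩)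
          · rw [zero_mul, zero_mul, mul_zero]; exact Submodule.zero_mem _
          · intro x y _ _ hx hy; rw [add_mul, add_mul, mul_add]; exact Submodule.add_mem _ hx hy
          · intro c x _ hx; rw [smul_mul_assoc, smul_mul_assoc, mul_smul_comm]; exact Submodule.smul_mem _ _ hx
      · rw [mul_zero]; exact Submodule.zero_mem _
      · intro x y _ _ hx hy; rw [mul_add]; exact Submodule.add_mem _ hx hy
      · intro c x _ hx; rw [mul_smul_comm]; exact Submodule.smul_mem _ _ hx

/-- induction principle for `H_{n+2}` -/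
theorem HS_succ_ind (z : k) {n : ℕ} {P : H z → Prop} (h0 : ∀ x ∈ HS z (n+1), P x)
    (h1 : ∀ x ∈ HS z (n+1), ∀ y ∈ HS z (n+1), P (x * g z n * y))
    (hadd : ∀ x y, P x → P y → P (x + y)) (hsmul : ∀ (c : k) x, P x → P (c • x)) :
    ∀ x ∈ HS z (n+2), P x := by
  intro x hx
  obtain ⟨a, ha, b, hb, rfl⟩ := Submodule.mem_sup.1 (HS_span z n hx)
  refine hadd _ _ (h0 a ha) ?_
  refine Submodule.span_induction (p := fun b _ => P b) ?_ ?_ ?_ ?_ hb
  · rintro u ⟨x, hx, y, hy, rfl⟩
    exact h1 x hx y hy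
  · have := h0 0 (Submodule.zero_mem _)
    exact this
  · intro x y _ _ hx hy; exact hadd x y hx hy
  · intro c x _ hx; exact hsmul c x hx

theorem W_of_HS_s {n : ℕ} : ∀ w ∈ W0 (n+1), w * s n ≠ 1 := by
  intro w hw h
  have h1 : w = s n := by rw [← mul_one w, ← s_mul_self n, ← mul_assoc, h, one_mul]
  have h2 := (mem_W.1 hw).1 (n+1) le_rfl
  rw [h1, s_apply] at h2
  simp at h2

/-- `τ(x g_n) = 0` for `x ∈ H_{n+1}` -/
theorem τ_mul_g (z : k) {n : ℕ} {x : H z} (hx : x ∈ HS z (n+1)) : τ z (x * g z n) = 0 := by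
  refine Submodule.span_induction (p := fun x _ => τ z (x * g z n) = 0) ?_ ?_ ?_ ?_ hx
  · rintro x ⟨w, hw, rfl⟩
    rw [g, τ_TT, if_neg (W_of_HS_s w (Finset.mem_coe.1 hw))]
  · rw [zero_mul, map_zero]
  · intro x y _ _ hx hy; rw [add_mul, map_add, hx, hy, add_zero]
  · intro c x _ hx; rw [smul_mul_assoc, map_smul, hx, smul_zero]

theorem τ_mul_g_mul (z : k) {n : ℕ} {x y : H z} (hx : x ∈ HS z (n+1)) (hy : y ∈ HS z (n+1)) :
    τ z (x * g z n * y) = 0 := by
  rw [τ_comm, ← mul_assoc]
  exact τ_mul_g z (jm_mul_mem z hy hx)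

/-! ### Jucys-Murphy elements -/

theorem JM_mem (z : k) (i : ℕ) : JM z i ∈ HS z (i+1) := by
  induction i with
  | zero => exact one_mem_HW z _ _
  | succ i ih =>
    exact jm_mul_mem z (jm_mul_mem z (jm_g_mem z (by omega)) (jm_HS_mono z (by omega) ih))
      (jm_g_mem z (by omega))

theorem JM_succ (z : k) (i : ℕ) : JM z (i+1) = g z i * JM z i * g z i := rfl

theorem JM_comm_g_lt (z : k) {i j : ℕ} (h : j < i) : g z i * JM z j = JM z j * g z i :=
  jm_g_comm_HS z (by omega) (JM_mem z j)

theorem JM_comm_g_gt (z : k) (i t : ℕ) : g z i * JM z (i + 2 + t) = JM z (i + 2 + t) * g z i := by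
  induction t with
  | zero =>
    have e1 : g z (i+1) * JM z i = JM z i * g z (i+1) := JM_comm_g_lt z (by omega)
    calc g z i * JM z (i+2+0) = g z i * (g z (i+1) * (g z i * JM z i * g z i) * g z (i+1)) := rfl
      _ = (g z i * g z (i+1) * g z i) * JM z i * g z i * g z (i+1) := by simp only [mul_assoc]
      _ = (g z (i+1) * g z i * g z (i+1)) * JM z i * g z i * g z (i+1) := by rw [braid]
      _ = g z (i+1) * g z i * (g z (i+1) * JM z i) * g z i * g z (i+1) := by simp only [mul_assoc]
      _ = g z (i+1) * g z i * (JM z i * g z (i+1)) * g z i * g z (i+1) := by rw [e1]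
      _ = g z (i+1) * g z i * JM z i * (g z (i+1) * g z i * g z (i+1)) := by simp only [mul_assoc]
      _ = g z (i+1) * g z i * JM z i * (g z i * g z (i+1) * g z i) := by rw [← braid]
      _ = (g z (i+1) * (g z i * JM z i * g z i) * g z (i+1)) * g z i := by simp only [mul_assoc]
      _ = _ := rfl
  | succ t ih =>
    have e1 : g z i * g z (i+2+t) = g z (i+2+t) * g z i := g_comm z (by omega)
    calc g z i * JM z (i+2+(t+1)) = g z i * (g z (i+2+t) * JM z (i+2+t) * g z (i+2+t)) := rfl
      _ = (g z i * g z (i+2+t)) * JM z (i+2+t) * g z (i+2+t) := by simp only [mul_assoc]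
      _ = (g z (i+2+t) * g z i) * JM z (i+2+t) * g z (i+2+t) := by rw [e1]
      _ = g z (i+2+t) * (g z i * JM z (i+2+t)) * g z (i+2+t) := by simp only [mul_assoc]
      _ = g z (i+2+t) * (JM z (i+2+t) * g z i) * g z (i+2+t) := by rw [ih]
      _ = g z (i+2+t) * JM z (i+2+t) * (g z i * g z (i+2+t)) := by simp only [mul_assoc]
      _ = g z (i+2+t) * JM z (i+2+t) * (g z (i+2+t) * g z i) := by rw [e1]
      _ = (g z (i+2+t) * JM z (i+2+t) * g z (i+2+t)) * g z i := by simp only [mul_assoc]
      _ = _ := rfl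

theorem JM_comm_g (z : k) {i j : ℕ} (h1 : j ≠ i) (h2 : j ≠ i + 1) : g z i * JM z j = JM z j * g z i := by
  by_cases h : j < i
  · exact JM_comm_g_lt z h
  · have := JM_comm_g_gt z i (j - (i + 2))
    rwa [show i + 2 + (j - (i + 2)) = j by omega] at this

theorem JM_comm_lt (z : k) {i j : ℕ} (h : i < j) : JM z i * JM z j = JM z j * JM z i :=
  commute_HW z f0_mono (N := i+1) (c := JM z j)
    (fun m hm _ => JM_comm_g z (by omega) (by omega)) (JM_mem z i)

theorem JM_comm (z : k) (i j : ℕ) : JM z i * JM z j = JM z j * JM z i := by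
  rcases lt_trichotomy i j with h | h | h
  · exact JM_comm_lt z h
  · rw [h]
  · exact (JM_comm_lt z h).symm

theorem OP_succ (z α β : k) (n : ℕ) : OP z α β (n+1) = OP z α β n * (α • JM z n + β • 1) := rfl

theorem OP_mem (z α β : k) (n : ℕ) : OP z α β n ∈ HS z n := by
  induction n with
  | zero => exact one_mem_HW z _ _
  | succ n ih =>
    exact jm_mul_mem z (jm_HS_mono z (by omega) ih)
      (Submodule.add_mem _ (Submodule.smul_mem _ _ (JM_mem z n)) (Submodule.smul_mem _ _ (one_mem_HW z _ _)))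

theorem JM_pair_add (z : k) (i : ℕ) : g z i * (JM z i + JM z (i+1)) = (JM z i + JM z (i+1)) * g z i := by
  rw [JM_succ, mul_add, add_mul]
  have e1 : g z i * (g z i * JM z i * g z i) = JM z i * g z i + z • (g z i * JM z i * g z i) := by
    rw [← mul_assoc, ← mul_assoc, g_sq, add_mul, add_mul, one_mul, smul_mul_assoc, smul_mul_assoc]
  have e2 : g z i * JM z i * g z i * g z i = g z i * JM z i + z • (g z i * JM z i * g z i) := by
    rw [mul_assoc (g z i * JM z i), g_sq, mul_add, mul_one, mul_smul_comm]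
  rw [e1, e2]
  abel

theorem JM_pair_mul (z : k) (i : ℕ) : g z i * (JM z i * JM z (i+1)) = (JM z i * JM z (i+1)) * g z i := by
  calc g z i * (JM z i * JM z (i+1)) = (g z i * JM z i * g z i) * JM z i * g z i := by
        rw [JM_succ]; simp only [mul_assoc]
    _ = (JM z (i+1) * JM z i) * g z i := by rw [JM_succ]
    _ = _ := by rw [JM_comm]

theorem OP_central (z α β : k) {n i : ℕ} (hi : i + 1 < n) :
    g z i * OP z α β n = OP z α β n * g z i := by
  induction n with
  | zero => omega
  | succ n ih =>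
    by_cases h : i + 1 < n
    · have e : g z i * (α • JM z n + β • 1) = (α • JM z n + β • 1) * g z i := by
        rw [mul_add, add_mul, mul_smul_comm, mul_smul_comm, smul_mul_assoc, smul_mul_assoc,
          JM_comm_g z (by omega) (by omega), mul_one, one_mul]
      rw [OP_succ, ← mul_assoc, ih h, mul_assoc, e, mul_assoc]
    · obtain rfl : n = i + 1 := by omega
      have e : g z i * ((α • JM z i + β • 1) * (α • JM z (i+1) + β • 1)) =
          ((α • JM z i + β • 1) * (α • JM z (i+1) + β • 1)) * g z i := by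
        have e0 : (α • JM z i + β • (1 : H z)) * (α • JM z (i+1) + β • 1) =
            (α * α) • (JM z i * JM z (i+1)) + (α * β) • (JM z i + JM z (i+1)) + (β * β) • (1 : H z) := by
          simp only [mul_add, add_mul, smul_mul_assoc, mul_smul_comm, mul_one, one_mul, smul_smul,
            smul_add, mul_comm β α]
          abel
        rw [e0]
        simp only [mul_add, add_mul, smul_mul_assoc, mul_smul_comm, mul_one, one_mul, smul_add]
        have h1 := JM_pair_mul z i
        have h2 := JM_pair_add z i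
        rw [mul_add, add_mul] at h2
        rw [h1, ← smul_add, ← smul_add, h2]
      rw [OP_succ, OP_succ, mul_assoc, ← mul_assoc (g z i), jm_g_comm_HS z le_rfl (OP_mem z α β i),
        mul_assoc, e]
      simp only [mul_assoc]

theorem OP_comm_HS (z α β : k) {n : ℕ} {x : H z} (hx : x ∈ HS z n) : x * OP z α β n = OP z α β n * x :=
  commute_HW z f0_mono (fun _ hi _ => OP_central z α β hi) hx

/-- `τ(y L_n) = τ(y)` for `y ∈ H_n` -/
theorem τ_mul_JM (z : k) {n : ℕ} {y : H z} (hy : y ∈ HS z n) : τ z (y * JM z n) = τ z y := by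
  induction n generalizing y with
  | zero => rw [show JM z 0 = 1 from rfl, mul_one]
  | succ n ih =>
    have hb : ∀ y ∈ HS z n, τ z (y * (g z n * JM z n * g z n)) = τ z y := by
      intro y hy
      have h1 : y * (g z n * JM z n * g z n) = g z n * (y * JM z n * g z n) := by
        simp only [← mul_assoc]
        rw [jm_g_comm_HS z le_rfl hy]
      have h2 : y * JM z n * g z n * g z n = y * JM z n + z • (y * JM z n * g z n) := by
        rw [mul_assoc, g_sq, mul_add, mul_one, mul_smul_comm]
      have h3 : y * JM z n ∈ HS z (n+1) := jm_mul_mem z (jm_HS_mono z (by omega) hy) (JM_mem z n)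
      rw [h1, τ_comm, h2, map_add, map_smul, τ_mul_g z h3, smul_zero, add_zero, ih hy]
    cases n with
    | zero =>
      obtain ⟨c, rfl⟩ := jm_HS_one z hy
      rw [JM_succ]
      have := hb (c • (1 : H z)) (Submodule.smul_mem _ _ (one_mem_HW z _ _))
      exact this
    | succ m =>
      refine HS_succ_ind z (n := m) (P := fun y => τ z (y * JM z (m+1+1)) = τ z y) ?_ ?_ ?_ ?_ y hy
      · intro y hy
        exact hb y hy
      · intro x hx y hy
        have hx' : x ∈ HS z (m+2) := jm_HS_mono z (by omega) hx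
        have hy' : y ∈ HS z (m+2) := jm_HS_mono z (by omega) hy
        have hg : g z m ∈ HS z (m+2) := jm_g_mem z (by omega)
        have e1 : x * g z m * y * (g z (m+1) * JM z (m+1) * g z (m+1)) =
            x * g z m * (g z (m+1) * (y * JM z (m+1) * g z (m+1))) := by
          calc x * g z m * y * (g z (m+1) * JM z (m+1) * g z (m+1))
              = x * g z m * (y * g z (m+1)) * (JM z (m+1) * g z (m+1)) := by simp only [mul_assoc]
            _ = x * g z m * (g z (m+1) * y) * (JM z (m+1) * g z (m+1)) := by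
                rw [jm_g_comm_HS z le_rfl hy]
            _ = _ := by simp only [mul_assoc]
        have e2 : (y * JM z (m+1) * g z (m+1)) * (x * g z m * g z (m+1)) =
            (y * JM z (m+1) * x * g z m) * g z (m+1) * g z m := by
          calc (y * JM z (m+1) * g z (m+1)) * (x * g z m * g z (m+1))
              = y * JM z (m+1) * (g z (m+1) * x) * (g z m * g z (m+1)) := by simp only [mul_assoc]
            _ = y * JM z (m+1) * (x * g z (m+1)) * (g z m * g z (m+1)) := by
                rw [jm_g_comm_HS z le_rfl hx]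
            _ = y * JM z (m+1) * x * (g z (m+1) * g z m * g z (m+1)) := by simp only [mul_assoc]
            _ = y * JM z (m+1) * x * (g z m * g z (m+1) * g z m) := by rw [braid]
            _ = _ := by simp only [mul_assoc]
        rw [JM_succ z (m+1), e1, ← mul_assoc, τ_comm, e2,
          τ_mul_g_mul z (jm_mul_mem z (jm_mul_mem z (jm_mul_mem z hy' (JM_mem z (m+1))) hx') hg) hg,
          τ_mul_g_mul z hx hy]
      · intro x y hx hy
        rw [add_mul, map_add, map_add, hx, hy]
      · intro c x hx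
        rw [smul_mul_assoc, map_smul, map_smul, hx]

/-- `τ(y L_{n+1} g_n) = z τ(y)` for `y ∈ H_{n+1}` -/
theorem τ_mul_JM_g (z : k) {n : ℕ} {y : H z} (hy : y ∈ HS z (n+1)) :
    τ z (y * JM z (n+1) * g z n) = z * τ z y := by
  have e : y * JM z (n+1) * g z n = y * g z n * JM z n + z • (y * JM z (n+1)) := by
    rw [JM_succ, mul_assoc, mul_assoc (g z n * JM z n), g_sq, mul_add, mul_one, mul_smul_comm, mul_add,
      mul_smul_comm, ← mul_assoc]
  rw [e, map_add, map_smul, τ_mul_g_mul z hy (JM_mem z n), τ_mul_JM z hy, zero_add, smul_eq_mul]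

/-- trace property: one factor in `H_n` suffices -/
theorem tr_comm (P : Par k) {n : ℕ} {x : H P.z} (hx : x ∈ HS P.z n) (y : H P.z) :
    tr P n (x * y) = tr P n (y * x) := by
  rw [tr_apply, tr_apply, mul_assoc, τ_comm, mul_assoc, mul_assoc, OP_comm_HS _ _ _ hx]

theorem tr_free (P : Par k) {n : ℕ} {x : H P.z} (hx : x ∈ HS P.z n) :
    tr P (n+1) x = P.δ * tr P n x := by
  have h1 : x * OP P.z P.a (-((P.a⁻¹ : kˣ) : k)) n ∈ HS P.z n := jm_mul_mem _ hx (OP_mem _ _ _ n)
  rw [tr_apply, tr_apply, OP_succ, ← mul_assoc, mul_add, mul_smul_comm, mul_smul_comm, mul_one, map_add,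
    map_smul, map_smul, τ_mul_JM _ h1, smul_eq_mul, smul_eq_mul, Par.δ, pow_succ]
  ring

theorem tr_markov_pos (P : Par k) {n : ℕ} {x : H P.z} (hx : x ∈ HS P.z (n+1)) :
    tr P (n+2) (x * g P.z n) = P.a * tr P (n+1) x := by
  have h1 : x * OP P.z P.a (-((P.a⁻¹ : kˣ) : k)) (n+1) ∈ HS P.z (n+1) := jm_mul_mem _ hx (OP_mem _ _ _ _)
  have h2 : x * g P.z n * OP P.z P.a (-((P.a⁻¹ : kˣ) : k)) (n+2) =
      x * OP P.z P.a (-((P.a⁻¹ : kˣ) : k)) (n+2) * g P.z n := by
    rw [mul_assoc, OP_central _ _ _ (by omega), mul_assoc]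
  rw [tr_apply, tr_apply, h2, OP_succ _ _ _ (n+1), ← mul_assoc, mul_add, mul_smul_comm, mul_smul_comm,
    mul_one, add_mul, smul_mul_assoc, smul_mul_assoc, map_add, map_smul, map_smul, τ_mul_JM_g _ h1,
    τ_mul_g _ h1, smul_zero, add_zero, smul_eq_mul, pow_succ]
  have := P.z_mul_zi
  linear_combination (P.zi ^ (n+1) * P.a * τ P.z (x * OP P.z P.a (-((P.a⁻¹ : kˣ) : k)) (n+1))) * this

theorem tr_markov_neg (P : Par k) {n : ℕ} {x : H P.z} (hx : x ∈ HS P.z (n+1)) :
    tr P (n+2) (x * gi P.z n) = ((P.a⁻¹ : kˣ) : k) * tr P (n+1) x := by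
  rw [gi, mul_sub, map_sub, tr_markov_pos P hx, mul_smul_comm, mul_one, map_smul, tr_free P hx, Par.δ,
    smul_eq_mul]
  have := P.z_mul_zi
  linear_combination (-(P.a : k) + ((P.a⁻¹ : kˣ) : k)) * tr P (n+1) x * this

theorem tr_zero (P : Par k) : tr P 0 1 = 1 := by
  rw [tr_apply, pow_zero, one_mul, one_mul, show OP P.z (P.a : k) (-((P.a⁻¹ : kˣ) : k)) 0 = 1 from rfl,
    ← T_one, τ_T, if_pos rfl]

/-! ### the full twist -/

/-- `g_a g_{a+1} ⋯ g_{a+m-1}` -/
noncomputable def asc (z : k) (a : ℕ) : ℕ → H z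
  | 0 => 1
  | (m+1) => asc z a m * g z (a + m)

theorem jm_cWord_succ (n m : ℕ) : cWord (n+2) m = (n, decide (m ≤ n)) :: cWord (n+1) m := by
  simp [cWord, List.range_succ]

theorem jm_cWord_one (m : ℕ) : cWord 1 m = [] := by simp [cWord]

theorem jm_cWord_zero (m : ℕ) : cWord 0 m = [] := by simp [cWord]

theorem jm_ev_cons (z : k) (l : Letter) (v : Word) : ev z (l :: v) = evl z l * ev z v := by
  simp [ev]

theorem jm_ev_nil (z : k) : ev z [] = 1 := by simp [ev]

theorem kap_one (z : k) : kap z 1 = 1 := by rw [kap, jm_cWord_one, jm_ev_nil]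

theorem kap_zero (z : k) : kap z 0 = 1 := by rw [kap, jm_cWord_zero, jm_ev_nil]

theorem kap_succ (z : k) (n : ℕ) : kap z (n+2) = g z n * kap z (n+1) := by
  rw [kap, jm_cWord_succ, jm_ev_cons, kap, evl]
  simp

theorem jm_ev_mem (z : k) {n : ℕ} {w : Word} (hw : Valid n w) : ev z w ∈ HS z n := by
  induction w with
  | nil => rw [jm_ev_nil]; exact one_mem_HW z _ _
  | cons l v ih =>
    rw [jm_ev_cons]
    have hl : l.1 + 1 < n := hw l List.mem_cons_self
    refine jm_mul_mem z ?_ (ih (fun l' hl' => hw l' (List.mem_cons_of_mem _ hl')))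
    unfold evl
    split_ifs
    · exact jm_g_mem z hl
    · exact jm_gi_mem z hl

theorem jm_cWord_valid (p m : ℕ) : Valid p (cWord p m) := by
  intro l hl
  simp only [cWord, List.mem_map, List.mem_reverse, List.mem_range] at hl
  obtain ⟨i, hi, rfl⟩ := hl
  show i + 1 < p
  omega

theorem kap_mem (z : k) (n : ℕ) : kap z n ∈ HS z n := jm_ev_mem z (jm_cWord_valid n 0)

/-- `κ_{n+2} g_{i+1} = g_i κ_{n+2}` for `i < n` -/
theorem kap_slide (z : k) (n i : ℕ) (hi : i < n) : kap z (n+2) * g z (i+1) = g z i * kap z (n+2) := by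
  induction n with
  | zero => omega
  | succ n ih =>
    by_cases h : i < n
    · have e : g z i * g z (n+1) = g z (n+1) * g z i := g_comm z (by omega)
      rw [kap_succ z (n+1), mul_assoc, ih h, ← mul_assoc, ← e, mul_assoc]
    · obtain rfl : i = n := by omega
      have e1 : g z (i+1) * kap z (i+1) = kap z (i+1) * g z (i+1) := jm_g_comm_HS z le_rfl (kap_mem z _)
      calc kap z (i+1+2) * g z (i+1) = g z (i+1) * g z i * (kap z (i+1) * g z (i+1)) := by
            rw [kap_succ z (i+1), kap_succ z i]; simp only [mul_assoc]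
        _ = g z (i+1) * g z i * (g z (i+1) * kap z (i+1)) := by rw [e1]
        _ = (g z (i+1) * g z i * g z (i+1)) * kap z (i+1) := by simp only [mul_assoc]
        _ = (g z i * g z (i+1) * g z i) * kap z (i+1) := by rw [braid]
        _ = g z i * kap z (i+1+2) := by rw [kap_succ z (i+1), kap_succ z i]; simp only [mul_assoc]

theorem kap_asc (z : k) (n a m : ℕ) (h : a + m ≤ n) :
    kap z (n+2) * asc z (a+1) m = asc z a m * kap z (n+2) := by
  induction m with
  | zero => simp only [asc, mul_one, one_mul]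
  | succ m ih =>
    have e := kap_slide z n (a+m) (by omega)
    rw [show a + m + 1 = a + 1 + m by omega] at e
    simp only [asc]
    rw [← mul_assoc, ih (by omega), mul_assoc, e, ← mul_assoc]

theorem kap_pow_asc (z : k) (n m : ℕ) (h : m ≤ n + 1) :
    kap z (n+2) ^ m = asc z (n + 1 - m) m * kap z (n+1) ^ m := by
  induction m with
  | zero => simp only [asc, pow_zero, mul_one]
  | succ m ih =>
    have e1 : n + 1 - m = (n - m) + 1 := by omega
    have e2 : n + 1 - (m + 1) = n - m := by omega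
    have e3 : n - m + m = n := by omega
    rw [pow_succ', ih (by omega), e1, ← mul_assoc, kap_asc z n (n-m) m (by omega), e2, mul_assoc,
      kap_succ z n, mul_assoc, ← pow_succ']
    simp only [asc, e3, mul_assoc]

theorem JM_eq_kap_asc (z : k) (n : ℕ) : JM z n = kap z (n+1) * asc z 0 n := by
  induction n with
  | zero => simp [JM, asc, kap_one]
  | succ n ih =>
    rw [JM_succ, ih, kap_succ]
    simp only [asc, zero_add, mul_assoc]

theorem FT_succ (z : k) (n : ℕ) : FT z (n+2) = JM z (n+1) * FT z (n+1) := by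
  rw [FT, FT, pow_succ', kap_pow_asc z n (n+1) le_rfl, Nat.sub_self, JM_eq_kap_asc]
  simp only [mul_assoc]

/-- The full twist is the product of the Jucys-Murphy elements. -/
theorem FT_eq (z : k) (n : ℕ) : FT z n = OP z 1 0 n := by
  induction n with
  | zero => simp [FT, OP]
  | succ n ih =>
    cases n with
    | zero => simp [FT, OP, kap_one, JM]
    | succ n =>
      have e : JM z (n+1) * OP z 1 0 (n+1) = OP z 1 0 (n+1) * JM z (n+1) := by
        have h : ∀ m, m ≤ n + 1 → JM z (n+1) * OP z 1 0 m = OP z 1 0 m * JM z (n+1) := by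
          intro m
          induction m with
          | zero => intro _; simp [OP]
          | succ m ihm =>
            intro hm
            rw [OP_succ, one_smul, zero_smul, add_zero, ← mul_assoc, ihm (by omega), mul_assoc,
              JM_comm, mul_assoc]
        exact h (n+1) le_rfl
      rw [FT_succ, ih, e, OP_succ z 1 0 (n+1), one_smul, zero_smul, add_zero]

theorem FT_mem (z : k) (n : ℕ) : FT z n ∈ HS z n := by
  rw [FT_eq]
  exact OP_mem z 1 0 n

theorem jm_evl_inv (z : k) (l : Letter) : evl z l * evl z (l.1, !l.2) = 1 ∧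
    evl z (l.1, !l.2) * evl z l = 1 := by
  rcases l with ⟨i, b⟩
  cases b
  · simp [evl, gi_g, g_gi]
  · simp [evl, gi_g, g_gi]

theorem jm_ev_append (z : k) (u v : Word) : ev z (u ++ v) = ev z u * ev z v := by
  simp [ev]

theorem jm_ev_invW (z : k) (w : Word) : ev z w * ev z (invW w) = 1 ∧ ev z (invW w) * ev z w = 1 := by
  induction w with
  | nil => simp [ev, invW]
  | cons l v ih =>
    have e : invW (l :: v) = invW v ++ [(l.1, !l.2)] := by
      simp [invW]
    have e1 : ev z [(l.1, !l.2)] = evl z (l.1, !l.2) := by simp [ev]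
    obtain ⟨h1, h2⟩ := jm_evl_inv z l
    rw [e, jm_ev_append, jm_ev_cons, e1]
    constructor
    · calc evl z l * ev z v * (ev z (invW v) * evl z (l.1, !l.2))
          = evl z l * (ev z v * ev z (invW v)) * evl z (l.1, !l.2) := by simp only [mul_assoc]
        _ = 1 := by rw [ih.1, mul_one, h1]
    · calc ev z (invW v) * evl z (l.1, !l.2) * (evl z l * ev z v)
          = ev z (invW v) * (evl z (l.1, !l.2) * evl z l) * ev z v := by simp only [mul_assoc]
        _ = 1 := by rw [h2, mul_one, ih.2]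

theorem jm_invW_valid {n : ℕ} {w : Word} (hw : Valid n w) : Valid n (invW w) := by
  intro l hl
  simp only [invW, List.mem_map, List.mem_reverse] at hl
  obtain ⟨l', hl', rfl⟩ := hl
  exact hw l' hl'

theorem FTi_mem (z : k) (n : ℕ) : FTi z n ∈ HS z n := by
  have h : ev z (invW (cWord n 0)) ∈ HS z n := jm_ev_mem z (jm_invW_valid (jm_cWord_valid n 0))
  have h' : ∀ m, ev z (invW (cWord n 0)) ^ m ∈ HS z n := by
    intro m
    induction m with
    | zero => rw [pow_zero]; exact one_mem_HW z _ _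
    | succ m ih => rw [pow_succ]; exact jm_mul_mem z ih h
  exact h' n

theorem jm_pow_inv {A : Type*} [Ring A] {x y : A} (h : x * y = 1) (n : ℕ) : x ^ n * y ^ n = 1 := by
  induction n with
  | zero => simp
  | succ n ih =>
    rw [pow_succ, pow_succ', mul_assoc, ← mul_assoc x, h, one_mul, ih]

theorem FT_FTi (z : k) (n : ℕ) : FT z n * FTi z n = 1 :=
  jm_pow_inv (jm_ev_invW z (cWord n 0)).1 n

theorem FTi_FT (z : k) (n : ℕ) : FTi z n * FT z n = 1 :=
  jm_pow_inv (jm_ev_invW z (cWord n 0)).2 n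

theorem FT_central (z : k) {n i : ℕ} (hi : i + 1 < n) : g z i * FT z n = FT z n * g z i := by
  rw [FT_eq]
  exact OP_central z 1 0 hi

theorem FTi_central (z : k) {n i : ℕ} (hi : i + 1 < n) : g z i * FTi z n = FTi z n * g z i := by
  calc g z i * FTi z n = (FTi z n * FT z n) * g z i * FTi z n := by rw [FTi_FT, one_mul]
    _ = FTi z n * (FT z n * g z i) * FTi z n := by simp only [mul_assoc]
    _ = FTi z n * (g z i * FT z n) * FTi z n := by rw [FT_central z hi]
    _ = FTi z n * g z i * (FT z n * FTi z n) := by simp only [mul_assoc]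
    _ = _ := by rw [FT_FTi, mul_one]

theorem X_mem (z : k) (n : ℕ) : X z n ∈ HS z n :=
  Submodule.sum_mem _ fun m _ => jm_ev_mem z (jm_cWord_valid n m)

theorem τ_g_mul (z : k) {n : ℕ} {x : H z} (hx : x ∈ HS z (n+1)) : τ z (g z n * x) = 0 := by
  rw [τ_comm, τ_mul_g z hx]

theorem τ_c (z : k) (n m : ℕ) : τ z (ev z (cWord (n+1) m)) = if n ≤ m then (-z) ^ n else 0 := by
  induction n with
  | zero =>
    rw [jm_cWord_one, jm_ev_nil, ← T_one, τ_T, if_pos rfl, if_pos (Nat.zero_le _), pow_zero]
  | succ n ih =>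
    have hx : ev z (cWord (n+1) m) ∈ HS z (n+1) := jm_ev_mem z (jm_cWord_valid _ _)
    rw [jm_cWord_succ, jm_ev_cons, evl]
    by_cases h : m ≤ n
    · simp only [h, decide_true, if_true]
      rw [τ_g_mul z hx, if_neg (by omega)]
    · simp only [h, decide_false]
      rw [if_neg (by simp), gi, sub_mul, map_sub, τ_g_mul z hx, smul_mul_assoc, one_mul, map_smul, ih,
        if_pos (by omega), if_pos (by omega), smul_eq_mul, pow_succ]
      ring

theorem τ_X (z : k) {n : ℕ} (hn : 0 < n) : τ z (X z n) = (-z) ^ (n - 1) := by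
  obtain ⟨m, rfl⟩ : ∃ m, n = m + 1 := ⟨n - 1, by omega⟩
  rw [X, map_sum, Finset.sum_congr rfl (fun j _ => τ_c z m j), Finset.sum_range_succ, if_pos le_rfl,
    Finset.sum_eq_zero, zero_add, Nat.add_sub_cancel]
  intro j hj
  rw [Finset.mem_range] at hj
  rw [if_neg (by omega)]

theorem τ_c_FT (z : k) (n m : ℕ) : τ z (ev z (cWord (n+1) m) * FT z (n+1)) =
    if m = 0 ∨ n = 0 then z ^ n else 0 := by
  induction n with
  | zero =>
    rw [jm_cWord_one, jm_ev_nil, FT, kap_one, one_pow, one_mul, ← T_one, τ_T, if_pos rfl,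
      if_pos (Or.inr rfl), pow_zero]
  | succ n ih =>
    have hx : ev z (cWord (n+1) m) ∈ HS z (n+1) := jm_ev_mem z (jm_cWord_valid _ _)
    have hy : ev z (cWord (n+1) m) * FT z (n+1) ∈ HS z (n+1) := jm_mul_mem z hx (FT_mem z _)
    have hFT : FT z (n+2) = FT z (n+1) * JM z (n+1) := by
      rw [FT_eq, FT_eq, OP_succ z 1 0 (n+1), one_smul, zero_smul, add_zero]
    have e1 : τ z (g z n * ev z (cWord (n+1) m) * FT z (n+2)) =
        z * τ z (ev z (cWord (n+1) m) * FT z (n+1)) := by
      rw [mul_assoc, τ_comm, hFT, ← mul_assoc, τ_mul_JM_g z hy]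
    have e2 : τ z (ev z (cWord (n+1) m) * FT z (n+2)) = τ z (ev z (cWord (n+1) m) * FT z (n+1)) := by
      rw [hFT, ← mul_assoc, τ_mul_JM z hy]
    rw [jm_cWord_succ, jm_ev_cons, evl]
    by_cases h : m ≤ n
    · simp only [h, decide_true, if_true]
      rw [e1, ih]
      by_cases hm : m = 0
      · rw [if_pos (Or.inl hm), if_pos (Or.inl hm), pow_succ]
        ring
      · rw [if_neg (by omega), if_neg (by omega), mul_zero]
    · simp only [h, decide_false]
      rw [if_neg (by simp), gi, sub_mul, sub_mul, map_sub, e1, smul_mul_assoc, smul_mul_assoc, one_mul,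
        map_smul, e2, smul_eq_mul, sub_self, if_neg (by omega)]

theorem τ_X_FT (z : k) {n : ℕ} (hn : 0 < n) : τ z (X z n * FT z n) = z ^ (n - 1) := by
  obtain ⟨m, rfl⟩ : ∃ m, n = m + 1 := ⟨n - 1, by omega⟩
  rw [X, Finset.sum_mul, map_sum, Finset.sum_congr rfl (fun j _ => τ_c_FT z m j), Finset.sum_range_succ',
    if_pos (Or.inl rfl), Nat.add_sub_cancel]
  rw [Finset.sum_eq_zero, zero_add]
  intro j hj
  rw [Finset.mem_range] at hj
  rw [if_neg (by omega)]

end Pool.Agent.HL
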