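import Pool.Agent.Lib.HL21.JMs
import Pool.Agent.Lib.HL21.Rel

/-! # Module Kink: closing the last bundle -/

namespace Pool.Agent.HL

open Finset

variable {k : Type*} [CommRing k]

private theorem ki_f0_mono : Monotone f0 := fun _ _ _ => le_rfl

private theorem hs_mono (z : k) {n n' : ℕ} (h : n ≤ n') {x : H z} (hx : x ∈ HS z n) : x ∈ HS z n' :=
  HW_mono z h (fun _ _ _ => rfl) hx

private theorem ki_comm (z : k) {m i : ℕ} (h : m ≤ i) {x : H z} (hx : x ∈ HS z m) :
    x * g z i = g z i * x := by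
  have h1 := sh_commute z (le_refl m) hx (g z (i - m))
  rw [sh_g, Nat.add_sub_cancel' h] at h1
  exact h1

private theorem ki_cWord_succ (n i : ℕ) : cWord (n + 2) i = (n, decide (i ≤ n)) :: cWord (n + 1) i := by
  unfold cWord
  rw [show n + 2 - 1 = n + 1 by omega, show n + 1 - 1 = n by omega, List.range_succ,
    List.reverse_append, List.reverse_singleton, List.singleton_append, List.map_cons]

private theorem ki_cWord_one (i : ℕ) : cWord 1 i = [] := by
  simp [cWord]

private theorem kk_kap_mem (z : k) (n : ℕ) : kap z n ∈ HS z n := ev_mem z (cWord_valid n 0)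

private theorem kk_kap_succ (z : k) (n : ℕ) : kap z (n + 2) = g z n * kap z (n + 1) := by
  unfold kap
  rw [ki_cWord_succ, ev_cons]
  unfold evl
  simp

private theorem kk_kap_one (z : k) : kap z 1 = 1 := by
  unfold kap
  rw [ki_cWord_one, ev_nil]

private theorem kap_slide_g (z : k) (p : ℕ) : ∀ j, j + 1 < p →
    kap z (p + 1) * g z (j + 1) = g z j * kap z (p + 1) := by
  induction p with
  | zero => intro j hj; omega
  | succ p ih =>
    intro j hj
    rw [kk_kap_succ]
    by_cases h : j + 1 < p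
    · have h1 : g z p * kap z (p + 1) * g z (j + 1) = g z p * g z j * kap z (p + 1) := by
        rw [mul_assoc, ih j h, ← mul_assoc]
      rw [h1, ← g_comm z h, mul_assoc]
    · obtain rfl : p = j + 1 := by omega
      rw [kk_kap_succ]
      have h1 : kap z (j + 1) * g z (j + 1) = g z (j + 1) * kap z (j + 1) :=
        ki_comm z (le_refl _) (kk_kap_mem z _)
      calc g z (j + 1) * (g z j * kap z (j + 1)) * g z (j + 1)
          = g z (j + 1) * g z j * (kap z (j + 1) * g z (j + 1)) := by simp only [mul_assoc]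
        _ = (g z (j + 1) * g z j * g z (j + 1)) * kap z (j + 1) := by
            rw [h1]; simp only [mul_assoc]
        _ = (g z j * g z (j + 1) * g z j) * kap z (j + 1) := by rw [braid]
        _ = _ := by simp only [mul_assoc]

private theorem kk_kap_slide (z : k) (p : ℕ) {x : H z} (hx : x ∈ HS z p) :
    kap z (p + 1) * sh z 1 x = x * kap z (p + 1) := by
  refine HW_ind z ki_f0_mono (P := fun x => kap z (p + 1) * sh z 1 x = x * kap z (p + 1))
    ?_ ?_ ?_ ?_ x hx
  · rw [map_one, mul_one, one_mul]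
  · intro x y hx hy
    rw [map_add, mul_add, add_mul, hx, hy]
  · intro c x hx
    rw [map_smul, mul_smul_comm, smul_mul_assoc, hx]
  · intro i x hi _ hx
    rw [map_mul, sh_g, add_comm 1 i, ← mul_assoc, kap_slide_g z p i hi, mul_assoc, hx, mul_assoc]

/-- partial bundle crossing -/
private noncomputable def Rq (z : k) (p : ℕ) : ℕ → H z
  | 0 => 1
  | (q+1) => Rq z p q * sh z q (kap z (p+1))

private noncomputable def kapi (z : k) (n : ℕ) : H z := ev z (invW (cWord n 0))

private noncomputable def Riq (z : k) (p : ℕ) : ℕ → H z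
  | 0 => 1
  | (q+1) => sh z q (kapi z (p+1)) * Riq z p q

private theorem kap_kapi (z : k) (n : ℕ) : kap z n * kapi z n = 1 := ev_invW z _
private theorem kapi_kap (z : k) (n : ℕ) : kapi z n * kap z n = 1 := ev_invW' z _

private theorem R_eq_Rq (z : k) (p : ℕ) : R z p = Rq z p p := by
  have h : ∀ q, ev z ((List.range q).flatMap
      (fun i => ((List.range p).reverse).map (fun j => (i + j, true)))) = Rq z p q := by
    intro q
    induction q with
    | zero => simp [Rq, ev_nil]
    | succ q ih =>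
      rw [List.range_succ, List.flatMap_append, ev_append, ih, List.flatMap_singleton, Rq]
      congr 1
      unfold kap
      rw [← ev_shW]
      congr 1
      unfold shW cWord
      rw [List.map_map]
      simp [Function.comp_def]
  exact h p

private theorem Riq_Rq (z : k) (p q : ℕ) : Riq z p q * Rq z p q = 1 := by
  induction q with
  | zero => simp [Riq, Rq]
  | succ q ih =>
    rw [Riq, Rq]
    calc sh z q (kapi z (p + 1)) * Riq z p q * (Rq z p q * sh z q (kap z (p + 1)))
        = sh z q (kapi z (p + 1)) * (Riq z p q * Rq z p q) * sh z q (kap z (p + 1)) := by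
          simp only [mul_assoc]
      _ = 1 := by rw [ih, mul_one, ← map_mul, kapi_kap, map_one]

private theorem Rq_Riq (z : k) (p q : ℕ) : Rq z p q * Riq z p q = 1 := by
  induction q with
  | zero => simp [Riq, Rq]
  | succ q ih =>
    rw [Riq, Rq]
    calc Rq z p q * sh z q (kap z (p + 1)) * (sh z q (kapi z (p + 1)) * Riq z p q)
        = Rq z p q * (sh z q (kap z (p + 1)) * sh z q (kapi z (p + 1))) * Riq z p q := by
          simp only [mul_assoc]
      _ = 1 := by rw [← map_mul, kap_kapi, map_one, mul_one, ih]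

private theorem Ri_eq_Riq (z : k) (p : ℕ) : Ri z p = Riq z p p := by
  have h1 := Ri_R z p
  rw [R_eq_Rq] at h1
  calc Ri z p = Ri z p * (Rq z p p * Riq z p p) := by rw [Rq_Riq, mul_one]
    _ = (Ri z p * Rq z p p) * Riq z p p := by rw [mul_assoc]
    _ = _ := by rw [h1, one_mul]

private theorem Rq_mem (z : k) (p q : ℕ) : Rq z p q ∈ HS z (p + q) := by
  induction q with
  | zero => exact one_mem_HW z _ _
  | succ q ih =>
    rw [Rq]
    refine mul_mem_HW z ki_f0_mono (HW_mono z (by omega) (fun _ _ _ => rfl) ih) ?_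
    have := sh_mem z q (kk_kap_mem z (p + 1))
    rwa [show q + (p + 1) = p + (q + 1) by omega] at this

private theorem kapi_mem (z : k) (n : ℕ) : kapi z n ∈ HS z n := by
  refine ev_mem z ?_
  intro l hl
  unfold invW at hl
  rw [List.mem_map] at hl
  obtain ⟨l', hl', rfl⟩ := hl
  exact cWord_valid n 0 l' (List.mem_reverse.mp hl')

private theorem Riq_mem (z : k) (p q : ℕ) : Riq z p q ∈ HS z (p + q) := by
  induction q with
  | zero => exact one_mem_HW z _ _
  | succ q ih =>
    rw [Riq]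
    refine mul_mem_HW z ki_f0_mono ?_ (HW_mono z (by omega) (fun _ _ _ => rfl) ih)
    have := sh_mem z q (kapi_mem z (p + 1))
    rwa [show q + (p + 1) = p + (q + 1) by omega] at this

private theorem Rq_slide (z : k) (p q : ℕ) :
    Rq z p q * sh z q (kap z p) = kap z p * Rq z p q := by
  induction q with
  | zero => rw [Rq, sh_zero, one_mul, mul_one]
  | succ q ih =>
    rw [Rq]
    have h1 : sh z (q + 1) (kap z p) = sh z q (sh z 1 (kap z p)) := (sh_sh z q 1 _).symm
    rw [h1, mul_assoc, ← map_mul, kk_kap_slide z p (kk_kap_mem z p), map_mul, ← mul_assoc, ih, mul_assoc]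

private theorem Riq_slide (z : k) (p q : ℕ) :
    sh z q (kapi z p) * Riq z p q = Riq z p q * kapi z p := by
  have h1 : sh z q (kapi z p) * sh z q (kap z p) = 1 := by
    rw [← map_mul, kapi_kap, map_one]
  calc sh z q (kapi z p) * Riq z p q
      = (Riq z p q * Rq z p q) * sh z q (kapi z p) * Riq z p q := by rw [Riq_Rq, one_mul]
    _ = Riq z p q * (kapi z p * (kap z p * Rq z p q)) * sh z q (kapi z p) * Riq z p q := by
        rw [← mul_assoc (kapi z p), kapi_kap, one_mul]
    _ = Riq z p q * kapi z p * Rq z p q * (sh z q (kap z p) * sh z q (kapi z p)) * Riq z p q := by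
        rw [← Rq_slide]; simp only [mul_assoc]
    _ = Riq z p q * kapi z p := by
        rw [← map_mul, kap_kapi, map_one, mul_one, mul_assoc _ (Rq z p q), Rq_Riq, mul_one]

private theorem kapi_succ (z : k) (n : ℕ) : kapi z (n + 2) = kapi z (n + 1) * gi z n := by
  unfold kapi
  rw [ki_cWord_succ]
  have h : invW ((n, decide (0 ≤ n)) :: cWord (n + 1) 0) = invW (cWord (n + 1) 0) ++ [(n, false)] := by
    unfold invW
    rw [List.reverse_cons, List.map_append]
    simp
  rw [h, ev_append, ev_cons, ev_nil, mul_one]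
  rfl

/-- generic Markov step: `tr (x g c) = a tr (x c)` with `x`, `c` on one strand less -/
private theorem step_pos (P : Par k) {N : ℕ} {x c : H P.z} (hx : x ∈ HS P.z (N+1))
    (hc : c ∈ HS P.z (N+1)) : tr P (N + 2) (x * g P.z N * c) = (P.a : k) * tr P (N+1) (x * c) := by
  have hc' : c ∈ HS P.z (N+2) := hs_mono P.z (by omega) hc
  have h1 : tr P (N + 2) (x * g P.z N * c) = tr P (N + 2) (c * (x * g P.z N)) :=
    (tr_comm P hc' _).symm
  have h2 : c * (x * g P.z N) = (c * x) * g P.z N := (mul_assoc _ _ _).symm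
  rw [h1, h2, tr_markov_pos P (mul_mem_HW P.z ki_f0_mono hc hx), tr_comm P hc x]

private theorem step_neg (P : Par k) {N : ℕ} {x c : H P.z} (hx : x ∈ HS P.z (N+1))
    (hc : c ∈ HS P.z (N+1)) :
    tr P (N + 2) (x * gi P.z N * c) = ((P.a⁻¹ : kˣ) : k) * tr P (N+1) (x * c) := by
  have hc' : c ∈ HS P.z (N+2) := hs_mono P.z (by omega) hc
  have h1 : tr P (N + 2) (x * gi P.z N * c) = tr P (N + 2) (c * (x * gi P.z N)) :=
    (tr_comm P hc' _).symm
  have h2 : c * (x * gi P.z N) = (c * x) * gi P.z N := (mul_assoc _ _ _).symm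
  rw [h1, h2, tr_markov_neg P (mul_mem_HW P.z ki_f0_mono hc hx), tr_comm P hc x]

private theorem kink_pos_aux (P : Par k) {m p' : ℕ} (q : ℕ) : ∀ {y : H P.z},
    y ∈ HS P.z (m+(p'+1)) → tr P (m + (p'+1) + q) (y * sh P.z m (Rq P.z (p'+1) q)) =
      (P.a : k) ^ q * tr P (m+(p'+1)) (y * sh P.z m (kap P.z (p'+1) ^ q)) := by
  induction q with
  | zero =>
    intro y hy
    simp [Rq]
  | succ q ih =>
    intro y hy
    have hkm : sh P.z m (kap P.z (p' + 1)) ∈ HS P.z (m + (p' + 1)) := sh_mem P.z m (kk_kap_mem P.z _)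
    have hx1 : y * sh P.z m (Rq P.z (p' + 1) q) ∈ HS P.z (m + p' + q + 1) := by
      refine mul_mem_HW P.z ki_f0_mono (hs_mono P.z (by omega) hy) ?_
      exact hs_mono P.z (by omega) (sh_mem P.z m (Rq_mem P.z (p' + 1) q))
    have hc : sh P.z m (sh P.z q (kap P.z (p' + 1))) ∈ HS P.z (m + p' + q + 1) :=
      hs_mono P.z (by omega) (sh_mem P.z m (sh_mem P.z q (kk_kap_mem P.z (p' + 1))))
    have e1 : y * sh P.z m (Rq P.z (p' + 1) (q + 1)) =
        (y * sh P.z m (Rq P.z (p' + 1) q)) * g P.z (m + p' + q) *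
          sh P.z m (sh P.z q (kap P.z (p' + 1))) := by
      rw [Rq, kk_kap_succ, map_mul, map_mul, map_mul, sh_g, sh_g,
        show m + (q + p') = m + p' + q by omega]
      simp only [mul_assoc]
    have e2 : (y * sh P.z m (Rq P.z (p' + 1) q)) * sh P.z m (sh P.z q (kap P.z (p' + 1))) =
        (y * sh P.z m (kap P.z (p' + 1))) * sh P.z m (Rq P.z (p' + 1) q) := by
      rw [mul_assoc, ← map_mul, Rq_slide, map_mul, mul_assoc]
    have e3 : (y * sh P.z m (kap P.z (p' + 1))) * sh P.z m (kap P.z (p' + 1) ^ q) =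
        y * sh P.z m (kap P.z (p' + 1) ^ (q + 1)) := by
      rw [mul_assoc, ← map_mul, ← pow_succ']
    have hN : m + (p' + 1) + (q + 1) = (m + p' + q) + 2 := by omega
    have hN' : (m + p' + q) + 1 = m + (p' + 1) + q := by omega
    rw [e1, hN, step_pos P hx1 hc, e2, hN', ih (mul_mem_HW P.z ki_f0_mono hy hkm), e3, ← mul_assoc,
      ← pow_succ']

theorem kink_pos (P : Par k) {m p : ℕ} (hp : 0 < p) {y : H P.z} (hy : y ∈ HS P.z (m+p)) :
    tr P (m + 2 * p) (y * sh P.z m (R P.z p)) = (P.a : k) ^ p * tr P (m+p) (y * sh P.z m (FT P.z p)) := by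
  obtain ⟨p', rfl⟩ : ∃ p', p = p' + 1 := ⟨p - 1, by omega⟩
  rw [show m + 2 * (p' + 1) = m + (p' + 1) + (p' + 1) by omega, R_eq_Rq, kink_pos_aux P (p' + 1) hy]
  rfl

private theorem ki_pow_mem (z : k) {n : ℕ} {x : H z} (hx : x ∈ HS z n) (q : ℕ) : x ^ q ∈ HS z n := by
  induction q with
  | zero => rw [pow_zero]; exact one_mem_HW z _ _
  | succ q ih => rw [pow_succ]; exact mul_mem_HW z ki_f0_mono ih hx

private theorem kink_neg_aux (P : Par k) {m p' : ℕ} (q : ℕ) : ∀ {y : H P.z},
    y ∈ HS P.z (m+(p'+1)) → tr P (m + (p'+1) + q) (y * sh P.z m (Riq P.z (p'+1) q)) =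
      ((P.a⁻¹ : kˣ) : k) ^ q * tr P (m+(p'+1)) (y * sh P.z m (kapi P.z (p'+1) ^ q)) := by
  induction q with
  | zero =>
    intro y hy
    simp [Riq]
  | succ q ih =>
    intro y hy
    have hkm : sh P.z m (kapi P.z (p' + 1)) ∈ HS P.z (m + (p' + 1)) := sh_mem P.z m (kapi_mem P.z _)
    have hr : sh P.z m (Riq P.z (p' + 1) q) ∈ HS P.z (m + p' + q + 1) :=
      hs_mono P.z (by omega) (sh_mem P.z m (Riq_mem P.z (p' + 1) q))
    have hyc : y * sh P.z m (sh P.z q (kapi P.z (p' + 1))) ∈ HS P.z (m + p' + q + 1) :=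
      mul_mem_HW P.z ki_f0_mono (hs_mono P.z (by omega) hy)
        (hs_mono P.z (by omega) (sh_mem P.z m (sh_mem P.z q (kapi_mem P.z (p' + 1)))))
    have e1 : y * sh P.z m (Riq P.z (p' + 1) (q + 1)) =
        (y * sh P.z m (sh P.z q (kapi P.z (p' + 1)))) * gi P.z (m + p' + q) *
          sh P.z m (Riq P.z (p' + 1) q) := by
      rw [Riq, kapi_succ, map_mul, map_mul, map_mul, sh_gi, sh_gi,
        show m + (q + p') = m + p' + q by omega]
      simp only [mul_assoc]
    have e2 : (y * sh P.z m (sh P.z q (kapi P.z (p' + 1)))) * sh P.z m (Riq P.z (p' + 1) q) =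
        (y * sh P.z m (Riq P.z (p' + 1) q)) * sh P.z m (kapi P.z (p' + 1)) := by
      rw [mul_assoc, ← map_mul, Riq_slide, map_mul, mul_assoc]
    have hkm' : sh P.z m (kapi P.z (p' + 1)) ∈ HS P.z (m + p' + q + 1) :=
      hs_mono P.z (by omega) hkm
    have hN : m + (p' + 1) + (q + 1) = (m + p' + q) + 2 := by omega
    have hN' : (m + p' + q) + 1 = m + (p' + 1) + q := by omega
    have e3 : tr P (m + p' + q + 1)
        ((y * sh P.z m (Riq P.z (p' + 1) q)) * sh P.z m (kapi P.z (p' + 1))) =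
        tr P (m + p' + q + 1)
          ((sh P.z m (kapi P.z (p' + 1)) * y) * sh P.z m (Riq P.z (p' + 1) q)) := by
      rw [← tr_comm P hkm', mul_assoc]
    have e4 : tr P (m + (p' + 1))
        ((sh P.z m (kapi P.z (p' + 1)) * y) * sh P.z m (kapi P.z (p' + 1) ^ q)) =
        tr P (m + (p' + 1)) (y * sh P.z m (kapi P.z (p' + 1) ^ (q + 1))) := by
      rw [mul_assoc, tr_comm P hkm, mul_assoc, ← map_mul, ← pow_succ]
    rw [e1, hN, step_neg P hyc hr, e2, e3, hN', ih (mul_mem_HW P.z ki_f0_mono hkm hy), e4, ← mul_assoc,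
      ← pow_succ']

theorem kink_neg (P : Par k) {m p : ℕ} (hp : 0 < p) {y : H P.z} (hy : y ∈ HS P.z (m+p)) :
    tr P (m + 2 * p) (y * sh P.z m (Ri P.z p)) =
      ((P.a⁻¹ : kˣ) : k) ^ p * tr P (m+p) (y * sh P.z m (FTi P.z p)) := by
  obtain ⟨p', rfl⟩ : ∃ p', p = p' + 1 := ⟨p - 1, by omega⟩
  rw [show m + 2 * (p' + 1) = m + (p' + 1) + (p' + 1) by omega, Ri_eq_Riq,
    kink_neg_aux P (p' + 1) hy]
  rfl

private theorem tr_cWord (P : Par k) {m : ℕ} {y : H P.z} (hy : y ∈ HS P.z m) (i n : ℕ) :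
    tr P (m + n + 1) (y * sh P.z m (ev P.z (cWord (n + 1) i))) =
      (P.a : k) ^ (n - i) * ((P.a⁻¹ : kˣ) : k) ^ (min i n) * tr P (m + 1) y := by
  induction n with
  | zero =>
    rw [ki_cWord_one, ev_nil, map_one, mul_one]
    simp
  | succ n ih =>
    have hr0 : sh P.z m (ev P.z (cWord (n + 1) i)) ∈ HS P.z (m + (n + 1)) :=
      sh_mem P.z m (ev_mem P.z (cWord_valid (n + 1) i))
    have hr : sh P.z m (ev P.z (cWord (n + 1) i)) ∈ HS P.z (m + n + 1) :=
      hs_mono P.z (by omega) hr0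
    have hy' : y ∈ HS P.z (m + n + 1) := hs_mono P.z (by omega) hy
    have e0 : ev P.z (cWord (n + 1 + 1) i) =
        evl P.z (n, decide (i ≤ n)) * ev P.z (cWord (n + 1) i) := by
      rw [ki_cWord_succ, ev_cons]
    have hN : m + (n + 1) + 1 = (m + n) + 2 := by omega
    by_cases h : i ≤ n
    · have h1 : evl P.z (n, decide (i ≤ n)) = g P.z n := by
        unfold evl; simp [h]
      rw [e0, h1, map_mul (sh P.z m), sh_g, ← mul_assoc y, hN, step_pos P hy' hr, ih,
        show n + 1 - i = (n - i) + 1 by omega, pow_succ' (P.a : k),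
        show min i (n + 1) = min i n by omega]
      ring
    · have h1 : evl P.z (n, decide (i ≤ n)) = gi P.z n := by
        unfold evl; simp [h]
      rw [e0, h1, map_mul (sh P.z m), sh_gi, ← mul_assoc y, hN, step_neg P hy' hr, ih,
        show n + 1 - i = n - i by omega,
        show min i (n + 1) = min i n + 1 by omega, pow_succ' ((P.a⁻¹ : kˣ) : k)]
      ring

/-- a split bundle carrying `X_p` -/
theorem tr_X (P : Par k) {m p : ℕ} {y : H P.z} (hy : y ∈ HS P.z m) :
    tr P (m + p) (y * sh P.z m (X P.z p)) =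
      ((P.a : k) ^ p - ((P.a⁻¹ : kˣ) : k) ^ p) * P.zi * tr P m y := by
  rcases p with _ | p
  · simp [X]
  · unfold X
    rw [map_sum, Finset.mul_sum, map_sum]
    have h1 : ∀ i ∈ range (p + 1), tr P (m + (p + 1)) (y * sh P.z m (ev P.z (cWord (p + 1) i))) =
        ((P.a⁻¹ : kˣ) : k) ^ i * (P.a : k) ^ (p + 1 - 1 - i) * tr P (m + 1) y := by
      intro i hi
      rw [mem_range] at hi
      rw [← add_assoc, tr_cWord P hy i p, show min i p = i by omega, Nat.add_sub_cancel,
        mul_comm ((P.a : k) ^ (p - i))]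
    rw [Finset.sum_congr rfl h1, ← Finset.sum_mul, tr_free P hy, Par.δ]
    have h2 := (Commute.all ((P.a⁻¹ : kˣ) : k) (P.a : k)).geom_sum₂_mul (p + 1)
    have h3 : (∑ i ∈ range (p + 1), ((P.a⁻¹ : kˣ) : k) ^ i * (P.a : k) ^ (p + 1 - 1 - i)) *
        ((P.a : k) - ((P.a⁻¹ : kˣ) : k)) = (P.a : k) ^ (p + 1) - ((P.a⁻¹ : kˣ) : k) ^ (p + 1) := by
      linear_combination -h2
    rw [← h3]
    ring

end Pool.Agent.HL
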