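import Pool.Agent.Lib.HL21.Cas
import Pool.Agent.Lib.HL21.JMs
import Pool.Agent.Lib.HL21.Rel

/-! # Module Newt: Newton's identities for the Aiston-Morton elements -/

namespace Pool.Agent.HL

open Finset

variable {K : Type*} [Field K]

/-- evaluation of formal combinations of words in the Hecke algebra -/
noncomputable def evA (z : K) : Skein K →ₐ[K] H z :=
  MonoidAlgebra.lift K (H z) (FreeMonoid Letter) (FreeMonoid.lift (evl z))

theorem evA_wd (z : K) (w : Word) : evA z (wd w) = ev z w := by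
  rw [evA, wd, MonoidAlgebra.lift_of, FreeMonoid.lift_ofList, ev]

theorem evA_apply (z : K) (x : Skein K) :
    evA z x = x.coeff.sum fun w c => c • ev z w.toList := by
  rw [evA, MonoidAlgebra.lift_apply]
  refine Finset.sum_congr rfl fun w _ => ?_
  simp only [FreeMonoid.lift_apply]
  rfl

theorem evA_shA (z : K) (m : ℕ) (x : Skein K) : evA z (shA m x) = sh z m (evA z x) := by
  have h : (evA z).comp (shA m) = (sh z m).comp (evA z) := by
    refine MonoidAlgebra.algHom_ext (fun w => ?_) (AlgHom.ext fun c => ?_)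
    swap
    · rw [← mul_one c, ← smul_eq_mul, map_smul, map_smul, map_one, map_one]
    have h1 : (MonoidAlgebra.single w (1 : K) : Skein K) = MonoidAlgebra.of K (FreeMonoid Letter) w :=
      rfl
    rw [AlgHom.comp_apply, AlgHom.comp_apply, h1, shA, MonoidAlgebra.lift_of, MonoidHom.comp_apply,
      evA, MonoidAlgebra.lift_of, MonoidAlgebra.lift_of, FreeMonoid.lift_apply,
      FreeMonoid.lift_apply, FreeMonoid.toList_map, List.map_map, map_list_prod, List.map_map]
    congr 1
    refine List.map_congr_left fun l _ => ?_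
    rw [Function.comp_apply, Function.comp_apply, evl, evl]
    split_ifs with hl
    · rw [sh_g]
    · rw [sh_gi]
  exact DFunLike.congr_fun h x

/-- all words of the combination are valid -/
def ValidA (n : ℕ) (x : Skein K) : Prop := ∀ w ∈ x.coeff.support, Valid n w.toList

theorem validA_wd {n : ℕ} {w : Word} (hw : Valid n w) : ValidA n (wd w : Skein K) := by
  intro u hu
  have h1 : (wd w : Skein K).coeff = Finsupp.single (FreeMonoid.ofList w) 1 := rfl
  rw [h1] at hu
  have h2 := Finset.mem_singleton.mp (Finsupp.support_single_subset hu)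
  rw [h2]
  exact hw

theorem validA_mul {n : ℕ} {x y : Skein K} (hx : ValidA n x) (hy : ValidA n y) :
    ValidA n (x * y) := by
  classical
  intro u hu
  have h1 := MonoidAlgebra.support_coeff_mul_subset x y hu
  obtain ⟨a, ha, b, hb, rfl⟩ := Finset.mem_mul.mp h1
  rw [FreeMonoid.toList_mul]
  intro l hl
  rcases List.mem_append.mp hl with h | h
  · exact hx a ha l h
  · exact hy b hb l h

theorem validA_one (n : ℕ) : ValidA n (1 : Skein K) := by
  have h : (1 : Skein K) = wd [] := rfl
  rw [h]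
  apply validA_wd
  intro l hl
  simp at hl

theorem newt_validA_add {n : ℕ} {x y : Skein K} (hx : ValidA n x) (hy : ValidA n y) :
    ValidA n (x + y) := by
  classical
  intro u hu
  rw [MonoidAlgebra.coeff_add] at hu
  rcases Finset.mem_union.mp (Finsupp.support_add hu) with h | h
  · exact hx u h
  · exact hy u h

theorem newt_validA_smul {n : ℕ} {x : Skein K} (c : K) (hx : ValidA n x) :
    ValidA n (c • x) := by
  intro u hu
  rw [MonoidAlgebra.coeff_smul] at hu
  exact hx u (Finsupp.support_smul hu)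

theorem newt_validA_sub {n : ℕ} {x y : Skein K} (hx : ValidA n x) (hy : ValidA n y) :
    ValidA n (x - y) := by
  have h : x - y = x + (-1 : K) • y := by rw [neg_one_smul]; exact sub_eq_add_neg x y
  rw [h]
  exact newt_validA_add hx (newt_validA_smul _ hy)

theorem newt_validA_zero (n : ℕ) : ValidA n (0 : Skein K) := by
  intro u hu
  simp at hu

theorem newt_validA_sum {n : ℕ} {ι : Type*} (s : Finset ι) (f : ι → Skein K)
    (h : ∀ i ∈ s, ValidA n (f i)) : ValidA n (∑ i ∈ s, f i) := by
  classical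
  induction s using Finset.induction_on with
  | empty => simpa using newt_validA_zero n
  | insert a s ha ih =>
    rw [Finset.sum_insert ha]
    exact newt_validA_add (h a (Finset.mem_insert_self a s))
      (ih fun i hi => h i (Finset.mem_insert_of_mem hi))

theorem validA_shA {m n : ℕ} {x : Skein K} (hx : ValidA n x) : ValidA (m + n) (shA m x) := by
  have h1 : shA m x = ∑ w ∈ x.coeff.support, x.coeff w •
      wd (K := K) (w.toList.map (fun l : Letter => (m + l.1, l.2))) := by
    rw [shA, MonoidAlgebra.lift_apply, Finsupp.sum]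
    refine Finset.sum_congr rfl fun w _ => ?_
    rfl
  rw [h1]
  refine newt_validA_sum _ _ fun w hw => newt_validA_smul _ (validA_wd ?_)
  intro l hl
  rw [List.mem_map] at hl
  obtain ⟨l', hl', rfl⟩ := hl
  have := hx w hw l' hl'
  simp only
  omega

theorem validA_mono {m n : ℕ} (h : m ≤ n) {x : Skein K} (hx : ValidA m x) : ValidA n x :=
  fun w hw l hl => lt_of_lt_of_le (hx w hw l hl) h

theorem newt_validA_hh (q : K) (n : ℕ) : ValidA n (hh q n) := by
  induction n with
  | zero => rw [hh]; exact validA_one 0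
  | succ n ih =>
    rw [hh]
    refine newt_validA_smul _ (validA_mul (validA_mono (Nat.le_succ n) ih) ?_)
    refine newt_validA_sum _ _ fun j hj => newt_validA_smul _ (validA_wd ?_)
    rw [Finset.mem_range] at hj
    intro l hl
    rw [List.mem_map] at hl
    obtain ⟨i, hi, rfl⟩ := hl
    rw [List.mem_range] at hi
    simp only
    omega

theorem validA_PP (q : K) (n : ℕ) : ValidA n (PP q n) := by
  induction n using Nat.strong_induction_on with
  | _ n ih =>
    rw [PP]
    refine newt_validA_sub (newt_validA_smul _ (newt_validA_hh q n)) ?_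
    refine newt_validA_sum _ _ fun j _ => ?_
    split_ifs with hj
    · exact newt_validA_zero n
    · refine validA_mul (validA_mono j.2.le (ih j j.2)) ?_
      have h := validA_shA (m := j) (newt_validA_hh q (n - j))
      rwa [Nat.add_sub_cancel' j.2.le] at h

theorem evA_mem (z : K) {n : ℕ} {x : Skein K} (hx : ValidA n x) : evA z x ∈ HS z n := by
  rw [evA_apply, Finsupp.sum]
  exact Submodule.sum_mem _ fun w hw => Submodule.smul_mem _ _ (ev_mem z (hx w hw))

/-- the linear extension of a function which agrees with a linear functional on valid words -/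
theorem lin_eq (z : K) {P : ℕ → Word → K} {n : ℕ} {φ : H z →ₗ[K] K}
    (h : ∀ w, Valid n w → P n w = φ (ev z w)) {x : Skein K} (hx : ValidA n x) :
    lin P n x = φ (evA z x) := by
  rw [evA_apply, lin, Finsupp.sum, Finsupp.sum, map_sum]
  refine Finset.sum_congr rfl fun w hw => ?_
  rw [map_smul, h _ (hx w hw), smul_eq_mul]

theorem qnum_eq (P : Par K) (n : ℕ) : qnum (P.q : K) n = P.qn n := by
  rw [qnum, Par.qn]
  refine Finset.sum_congr rfl fun i _ => ?_
  rw [Units.val_inv_eq_inv_val]

/-! ### trace functionals -/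

/-- trace property on `H_n` -/
def TrF (z : K) (n : ℕ) (φ : H z →ₗ[K] K) : Prop :=
  ∀ x ∈ HS z n, ∀ y ∈ HS z n, φ (x * y) = φ (y * x)

theorem newt_f0_mono : Monotone f0 := fun _ _ _ => le_rfl

theorem newt_HS_mono (z : K) {m n : ℕ} (h : m ≤ n) : HS z m ≤ HS z n :=
  HW_mono z h fun _ _ h => h

theorem newt_HS_mul (z : K) {n : ℕ} {x y : H z} (hx : x ∈ HS z n) (hy : y ∈ HS z n) :
    x * y ∈ HS z n := mul_mem_HW z newt_f0_mono hx hy

/-- `y ↦ φ (x * sh y)` -/
noncomputable def phL (z : K) (φ : H z →ₗ[K] K) (m : ℕ) (x : H z) : H z →ₗ[K] K :=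
  φ ∘ₗ (LinearMap.mulLeft K x) ∘ₗ (sh z m).toLinearMap

/-- `x ↦ φ (x * sh y)` -/
noncomputable def phR (z : K) (φ : H z →ₗ[K] K) (m : ℕ) (y : H z) : H z →ₗ[K] K :=
  φ ∘ₗ (LinearMap.mulRight K (sh z m y))

theorem phL_apply (z : K) (φ : H z →ₗ[K] K) (m : ℕ) (x y : H z) :
    phL z φ m x y = φ (x * sh z m y) := rfl

theorem phR_apply (z : K) (φ : H z →ₗ[K] K) (m : ℕ) (x y : H z) :
    phR z φ m y x = φ (x * sh z m y) := rfl

theorem TrF.left {z : K} {φ : H z →ₗ[K] K} {m n : ℕ} (h : TrF z (m + n) φ) {x : H z}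
    (hx : x ∈ HS z m) : TrF z n (phL z φ m x) := by
  intro y hy y' hy'
  rw [phL_apply, phL_apply, map_mul (sh z m), map_mul (sh z m)]
  have c : x * sh z m y' = sh z m y' * x := sh_commute z le_rfl hx y'
  calc φ (x * (sh z m y * sh z m y')) = φ ((x * sh z m y) * sh z m y') := by rw [mul_assoc]
    _ = φ (sh z m y' * (x * sh z m y)) :=
        h _ (newt_HS_mul z (newt_HS_mono z (Nat.le_add_right m n) hx) (sh_mem z m hy)) _
          (sh_mem z m hy')
    _ = φ (x * (sh z m y' * sh z m y)) := by rw [← mul_assoc, ← c, mul_assoc]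

theorem TrF.right {z : K} {φ : H z →ₗ[K] K} {m n : ℕ} (h : TrF z (m + n) φ) {y : H z}
    (hy : y ∈ HS z n) : TrF z m (phR z φ m y) := by
  intro x hx x' hx'
  rw [phR_apply, phR_apply]
  have c : x' * sh z m y = sh z m y * x' := sh_commute z le_rfl hx' y
  have hle := newt_HS_mono z (Nat.le_add_right m n)
  calc φ (x * x' * sh z m y) = φ ((x * sh z m y) * x') := by rw [mul_assoc, c, mul_assoc]
    _ = φ (x' * (x * sh z m y)) :=
        h _ (newt_HS_mul z (hle hx) (sh_mem z m hy)) _ (hle hx')
    _ = φ (x' * x * sh z m y) := by rw [mul_assoc]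

/-! ### the block swap -/

/-- the block swap permutation exchanging `[0,m)` and `[m,m+n)` -/
noncomputable def newtB (m n : ℕ) : S :=
  ⟨{ toFun := fun i => if i < m then i + n else if i < m + n then i - m else i
     invFun := fun i => if i < n then i + m else if i < m + n then i - n else i
     left_inv := by
      intro i
      simp only
      split_ifs <;> omega
     right_inv := by
      intro i
      simp only
      split_ifs <;> omega }, ⟨m + n, fun i hi => by
        simp only [Equiv.coe_fn_mk]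
        rw [if_neg (by omega), if_neg (by omega)]⟩⟩

theorem newtB_apply (m n i : ℕ) :
    (newtB m n).1 i = if i < m then i + n else if i < m + n then i - m else i := rfl

theorem newtB_symm (m n i : ℕ) :
    (newtB m n).1.symm i = if i < n then i + m else if i < m + n then i - n else i := rfl

theorem newtB_mem (m n : ℕ) : newtB m n ∈ W0 (m + n) := by
  rw [mem_W]
  refine ⟨fun i hi => ?_, fun i => rfl⟩
  rw [newtB_apply, if_neg (by omega), if_neg (by omega)]

theorem newt_TB_left (z : K) (m n i : ℕ) (hi : i + 1 < m) :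
    T z (newtB m n) * g z i = g z (n + i) * T z (newtB m n) := by
  rw [Ts_lt z (by rw [newtB_apply, newtB_apply]; split_ifs <;> omega),
    sT_lt z (by rw [newtB_symm, newtB_symm]; split_ifs <;> omega)]
  congr 1
  apply Subtype.ext
  apply Equiv.ext
  intro x
  change (newtB m n).1 ((s i).1 x) = (s (n + i)).1 ((newtB m n).1 x)
  rw [s_apply, s_apply, newtB_apply, newtB_apply]
  split_ifs <;> omega

theorem newt_TB_right (z : K) (m n j : ℕ) (hj : j + 1 < n) :
    T z (newtB m n) * g z (m + j) = g z j * T z (newtB m n) := by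
  rw [Ts_lt z (by rw [newtB_apply, newtB_apply]; split_ifs <;> omega),
    sT_lt z (by rw [newtB_symm, newtB_symm]; split_ifs <;> omega)]
  congr 1
  apply Subtype.ext
  apply Equiv.ext
  intro x
  change (newtB m n).1 ((s (m + j)).1 x) = (s j).1 ((newtB m n).1 x)
  rw [s_apply, s_apply, newtB_apply, newtB_apply]
  split_ifs <;> omega

theorem newt_slide_left (z : K) (m n : ℕ) {x : H z} (hx : x ∈ HS z m) :
    T z (newtB m n) * x = sh z n x * T z (newtB m n) := by
  refine HW_ind z newt_f0_mono (P := fun x => T z (newtB m n) * x = sh z n x * T z (newtB m n))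
    ?_ ?_ ?_ ?_ x hx
  · rw [map_one, mul_one, one_mul]
  · intro x y hx hy
    rw [mul_add, map_add, add_mul, hx, hy]
  · intro c x hx
    rw [map_smul, mul_smul_comm, smul_mul_assoc, hx]
  · intro i x hi _ hx
    rw [map_mul, sh_g, ← mul_assoc, newt_TB_left z m n i hi, mul_assoc, hx, mul_assoc]

theorem newt_slide_right (z : K) (m n : ℕ) {y : H z} (hy : y ∈ HS z n) :
    T z (newtB m n) * sh z m y = y * T z (newtB m n) := by
  refine HW_ind z newt_f0_mono (P := fun y => T z (newtB m n) * sh z m y = y * T z (newtB m n))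
    ?_ ?_ ?_ ?_ y hy
  · rw [map_one, mul_one, one_mul]
  · intro x y hx hy
    rw [map_add, mul_add, add_mul, hx, hy]
  · intro c x hx
    rw [map_smul, mul_smul_comm, smul_mul_assoc, hx]
  · intro i x hi _ hx
    rw [map_mul, sh_g, ← mul_assoc, newt_TB_right z m n i hi, mul_assoc, hx, mul_assoc]

theorem newt_T_unit (z : K) (w : S) : ∃ u : H z, T z w * u = 1 ∧ u * T z w = 1 := by
  refine S_ind (P := fun w => ∃ u : H z, T z w * u = 1 ∧ u * T z w = 1) ?_ ?_ w
  · exact ⟨1, by rw [T_one, mul_one], by rw [T_one, mul_one]⟩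
  · rintro i w h ⟨u, h1, h2⟩
    refine ⟨u * gi z i, ?_, ?_⟩
    · rw [← sT_lt z h, mul_assoc, ← mul_assoc (T z w), h1, one_mul, g_gi]
    · rw [← sT_lt z h, mul_assoc, ← mul_assoc (gi z i), gi_g, one_mul, h2]

theorem newt_T_unit_mem (z : K) {N : ℕ} {w : S} (hw : w ∈ W0 N) :
    ∃ u ∈ HS z N, T z w * u = 1 ∧ u * T z w = 1 := by
  obtain ⟨u, h1, h2⟩ := newt_T_unit z w
  have hT : T z w ∈ HS z N := T_mem_HW z hw
  have hE1 : E z f0 N (1 : H z) = 1 := E_of_mem z (one_mem_HW z f0 N)
  refine ⟨E z f0 N u, E_mem z f0 N u, ?_, ?_⟩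
  · rw [← E_mul_left z newt_f0_mono hT, h1, hE1]
  · rw [← E_mul_right z newt_f0_mono hT, h2, hE1]

/-- the closure of a juxtaposition is commutative -/
theorem newt_swap {z : K} {φ : H z →ₗ[K] K} {m n : ℕ} (h : TrF z (m + n) φ) {x y : H z}
    (hx : x ∈ HS z m) (hy : y ∈ HS z n) : φ (x * sh z m y) = φ (y * sh z n x) := by
  obtain ⟨u, hu, h1, h2⟩ := newt_T_unit_mem z (newtB_mem m n)
  have hT : T z (newtB m n) ∈ HS z (m + n) := T_mem_HW z (newtB_mem m n)
  have hy' : y ∈ HS z (m + n) := newt_HS_mono z (Nat.le_add_left n m) hy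
  have hx' : sh z n x ∈ HS z (m + n) := by rw [add_comm]; exact sh_mem z n hx
  have h3 : T z (newtB m n) * (x * sh z m y) = (y * sh z n x) * T z (newtB m n) := by
    rw [← mul_assoc, newt_slide_left z m n hx, mul_assoc, newt_slide_right z m n hy, ← mul_assoc,
      sh_commute z le_rfl hy x]
  calc φ (x * sh z m y) = φ (u * ((y * sh z n x) * T z (newtB m n))) := by
        rw [← h3, ← mul_assoc u, h2, one_mul]
    _ = φ (((y * sh z n x) * T z (newtB m n)) * u) :=
        h _ hu _ (newt_HS_mul z (newt_HS_mul z hy' hx') hT)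
    _ = φ (y * sh z n x) := by rw [mul_assoc _ _ u, h1, mul_one]

/-! ### descending and ascending products -/

/-- descending product of the letters `N-1, ..., 0` with signs `c` -/
noncomputable def dsc (z : K) (c : ℕ → Bool) (N : ℕ) : H z :=
  ev z ((List.range N).reverse.map (fun i => (i, c i)))

theorem dsc_zero (z : K) (c : ℕ → Bool) : dsc z c 0 = 1 := by simp [dsc, ev]

theorem dsc_succ (z : K) (c : ℕ → Bool) (N : ℕ) :
    dsc z c (N + 1) = evl z (N, c N) * dsc z c N := by
  rw [dsc, dsc, List.range_succ, List.reverse_append, List.reverse_singleton,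
    List.singleton_append, List.map_cons, ev_cons]

theorem evl_mem (z : K) {n : ℕ} (l : Letter) (h : l.1 + 1 < n) : evl z l ∈ HS z n := by
  rw [evl]
  split_ifs
  · exact g_mem_HW z h rfl
  · exact gi_mem_HW z h rfl

theorem dsc_mem (z : K) (c : ℕ → Bool) (N : ℕ) : dsc z c N ∈ HS z (N + 1) := by
  induction N with
  | zero => rw [dsc_zero]; exact one_mem_HW z _ _
  | succ N ih =>
    rw [dsc_succ]
    exact newt_HS_mul z (evl_mem z _ (by simp only; omega)) (newt_HS_mono z (Nat.le_succ _) ih)

theorem dsc_congr (z : K) {c c' : ℕ → Bool} {N : ℕ} (h : ∀ i, i < N → c i = c' i) :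
    dsc z c N = dsc z c' N := by
  induction N with
  | zero => rw [dsc_zero, dsc_zero]
  | succ N ih =>
    rw [dsc_succ, dsc_succ, ih fun i hi => h i (by omega), h N (Nat.lt_succ_self N)]

theorem sh_evl (z : K) (m : ℕ) (l : Letter) : sh z m (evl z l) = evl z (m + l.1, l.2) := by
  rw [evl, evl]
  split_ifs
  · rw [sh_g]
  · rw [sh_gi]

theorem dsc_add (z : K) (c : ℕ → Bool) (a b : ℕ) :
    dsc z c (a + b) = sh z a (dsc z (fun i => c (a + i)) b) * dsc z c a := by
  induction b with
  | zero => rw [dsc_zero, map_one, one_mul, add_zero]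
  | succ b ih =>
    rw [← add_assoc, dsc_succ, ih, dsc_succ, map_mul, sh_evl, mul_assoc]

/-- `σ_{n-2} ⋯` with `m` negative letters -/
noncomputable abbrev ccw (z : K) (n m : ℕ) : H z := ev z (cWord n m)

theorem ccw_eq (z : K) (n m : ℕ) : ccw z n m = dsc z (fun i => decide (m ≤ i)) (n - 1) := rfl

theorem nw_kap_eq (z : K) (n : ℕ) : kap z n = dsc z (fun _ => true) (n - 1) := by
  have h : kap z n = dsc z (fun i => decide (0 ≤ i)) (n - 1) := rfl
  rw [h]
  exact dsc_congr z fun i _ => by simp

theorem nw_kap_mem (z : K) {n : ℕ} (hn : 0 < n) : kap z n ∈ HS z n := by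
  rw [nw_kap_eq]
  have := dsc_mem z (fun _ => true) (n - 1)
  rwa [Nat.sub_add_cancel hn] at this

theorem ccw_mem (z : K) {n : ℕ} (hn : 0 < n) (m : ℕ) : ccw z n m ∈ HS z n := by
  rw [ccw_eq]
  have := dsc_mem z (fun i => decide (m ≤ i)) (n - 1)
  rwa [Nat.sub_add_cancel hn] at this

/-- change one letter at a time -/
theorem newt_star (z : K) {n m : ℕ} (hm : m < n) :
    kap z n - ccw z n m =
      z • ∑ i ∈ range m, kap z (i + 1) * sh z (i + 1) (ccw z (n - (i + 1)) (m - (i + 1))) := by
  set e : ℕ → H z := fun i => dsc z (fun l => decide (l < i ∨ m ≤ l)) (n - 1) with he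
  have h0 : e 0 = ccw z n m := by
    rw [ccw_eq]
    exact dsc_congr z fun i _ => by simp
  have hm' : e m = kap z n := by
    rw [nw_kap_eq]
    refine dsc_congr z fun i _ => ?_
    simp only [decide_eq_true_eq]
    omega
  have hstep : ∀ i ∈ range m, e (i + 1) - e i =
      z • (kap z (i + 1) * sh z (i + 1) (ccw z (n - (i + 1)) (m - (i + 1)))) := by
    intro i hi
    rw [Finset.mem_range] at hi
    have hn : n - 1 = (i + 1) + (n - (i + 1) - 1) := by omega
    have h1 : ∀ j, j = i ∨ j = i + 1 →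
        dsc z (fun l => decide ((i + 1 + l) < j ∨ m ≤ (i + 1 + l))) (n - (i + 1) - 1) =
        ccw z (n - (i + 1)) (m - (i + 1)) := by
      intro j hj
      rw [ccw_eq]
      refine dsc_congr z fun l _ => ?_
      rw [decide_eq_decide]
      omega
    have h2 : ∀ j, j = i ∨ j = i + 1 →
        dsc z (fun l => decide (l < j ∨ m ≤ l)) i = dsc z (fun _ => true) i := by
      intro j hj
      refine dsc_congr z fun l hl => ?_
      simp only [decide_eq_true_eq]
      omega
    have e1 : e (i + 1) = sh z (i + 1) (ccw z (n - (i + 1)) (m - (i + 1))) *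
        (g z i * dsc z (fun _ => true) i) := by
      simp only [he]
      rw [hn, dsc_add, h1 _ (Or.inr rfl), dsc_succ, h2 _ (Or.inr rfl)]
      have h3 : decide (i < i + 1 ∨ m ≤ i) = true := by simp
      rw [h3, evl, if_pos rfl]
    have e2 : e i = sh z (i + 1) (ccw z (n - (i + 1)) (m - (i + 1))) *
        (gi z i * dsc z (fun _ => true) i) := by
      simp only [he]
      rw [hn, dsc_add, h1 _ (Or.inl rfl), dsc_succ, h2 _ (Or.inl rfl)]
      have h3 : decide (i < i ∨ m ≤ i) = false := by
        rw [decide_eq_false_iff_not]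
        omega
      rw [h3, evl, if_neg (by simp)]
    have h4 : kap z (i + 1) = dsc z (fun _ => true) i := by rw [nw_kap_eq]; rfl
    have h5 : kap z (i + 1) * sh z (i + 1) (ccw z (n - (i + 1)) (m - (i + 1))) =
        sh z (i + 1) (ccw z (n - (i + 1)) (m - (i + 1))) * kap z (i + 1) :=
      sh_commute z le_rfl (nw_kap_mem z (Nat.succ_pos i)) _
    rw [e1, e2, h5, h4, ← mul_sub, ← sub_mul, gi, sub_sub_cancel, smul_mul_assoc, one_mul,
      mul_smul_comm]
  have htel := Finset.sum_range_sub e m
  rw [← hm', ← h0, ← htel, Finset.smul_sum]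
  exact Finset.sum_congr rfl hstep

theorem newt_dbl {M : Type*} [AddCommMonoid M] (F : ℕ → ℕ → M) (n : ℕ) :
    ∑ l ∈ range n, ∑ j ∈ range (l + 1), F j (l - j) = ∑ j ∈ range n, ∑ t ∈ range (n - j), F j t := by
  induction n with
  | zero => simp
  | succ n ih =>
    rw [Finset.sum_range_succ, ih]
    have h1 : ∑ j ∈ range (n + 1), ∑ t ∈ range (n + 1 - j), F j t =
        ∑ j ∈ range (n + 1), (∑ t ∈ range (n - j), F j t + F j (n - j)) := by
      refine Finset.sum_congr rfl fun j hj => ?_
      rw [Finset.mem_range] at hj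
      have : n + 1 - j = (n - j) + 1 := by omega
      rw [this, Finset.sum_range_succ]
    rw [h1, Finset.sum_add_distrib, Finset.sum_range_succ (fun j => ∑ t ∈ range (n - j), F j t) n,
      Nat.sub_self, Finset.sum_range_zero, add_zero]

/-- (b) `n κ_n = X_n + z ∑ κ_i X_{n-i}` -/
theorem newt_b (z : K) (n : ℕ) :
    (n : K) • kap z n = X z n + z • ∑ i ∈ range n, kap z (i + 1) * sh z (i + 1) (X z (n - (i + 1))) := by
  rcases Nat.eq_zero_or_pos n with rfl | hn
  · simp [X]
  have h1 : ∑ m ∈ range n, (kap z n - ccw z n m) =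
      ∑ m ∈ range n, z • ∑ i ∈ range m,
        kap z (i + 1) * sh z (i + 1) (ccw z (n - (i + 1)) (m - (i + 1))) :=
    Finset.sum_congr rfl fun m hm => newt_star z (Finset.mem_range.1 hm)
  rw [Finset.sum_sub_distrib, Finset.sum_const, card_range, ← Nat.cast_smul_eq_nsmul K] at h1
  have h2 : ∑ m ∈ range n, ccw z n m = X z n := rfl
  rw [h2, ← Finset.smul_sum] at h1
  obtain ⟨N, rfl⟩ := Nat.exists_eq_add_of_le' hn
  have h3 : ∑ m ∈ range (N + 1), ∑ i ∈ range m,
        kap z (i + 1) * sh z (i + 1) (ccw z (N + 1 - (i + 1)) (m - (i + 1))) =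
      ∑ i ∈ range (N + 1), kap z (i + 1) * sh z (i + 1) (X z (N + 1 - (i + 1))) := by
    rw [Finset.sum_range_succ', Finset.sum_range_zero, add_zero]
    have h4 := newt_dbl (fun i t => kap z (i + 1) * sh z (i + 1) (ccw z (N + 1 - (i + 1)) t)) N
    have h5 : ∑ l ∈ range N, ∑ i ∈ range (l + 1),
        kap z (i + 1) * sh z (i + 1) (ccw z (N + 1 - (i + 1)) (l + 1 - (i + 1))) =
        ∑ l ∈ range N, ∑ j ∈ range (l + 1),
          kap z (j + 1) * sh z (j + 1) (ccw z (N + 1 - (j + 1)) (l - j)) := by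
      refine Finset.sum_congr rfl fun l _ => Finset.sum_congr rfl fun i _ => ?_
      have h8 : l + 1 - (i + 1) = l - i := by omega
      rw [h8]
    rw [h5, h4, Finset.sum_range_succ]
    have h6 : X z (N + 1 - (N + 1)) = 0 := by rw [Nat.sub_self]; simp [X]
    rw [h6, map_zero, mul_zero, add_zero]
    refine Finset.sum_congr rfl fun i hi => ?_
    rw [← Finset.mul_sum, ← map_sum]
    have h7 : N + 1 - (i + 1) = N - i := by omega
    rw [h7]
    rfl
  rw [h3] at h1
  rw [← h1, add_sub_cancel]

/-- ascending product of the letters `0, ..., N-1` -/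
noncomputable def nw_asc (z : K) : ℕ → H z
  | 0 => 1
  | (N+1) => g z 0 * sh z 1 (nw_asc z N)

theorem asc_mem (z : K) (N : ℕ) : nw_asc z N ∈ HS z (N + 1) := by
  induction N with
  | zero => exact one_mem_HW z _ _
  | succ N ih =>
    rw [nw_asc]
    refine newt_HS_mul z (g_mem_HW z (by omega) rfl) ?_
    have := sh_mem z 1 ih
    rwa [add_comm 1 (N + 1)] at this

theorem asc_dsc {z : K} {φ : H z →ₗ[K] K} {N : ℕ} (h : TrF z (N + 1) φ) :
    φ (nw_asc z N) = φ (dsc z (fun _ => true) N) := by
  have key : ∀ i, i ≤ N → φ (nw_asc z N) = φ (dsc z (fun _ => true) i * sh z i (nw_asc z (N - i))) := by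
    intro i
    induction i with
    | zero =>
      intro _
      rw [dsc_zero, one_mul, sh_zero, Nat.sub_zero]
    | succ i ih =>
      intro hi
      rw [ih (by omega)]
      have h1 : dsc z (fun _ => true) i ∈ HS z (N + 1) :=
        newt_HS_mono z (by omega) (dsc_mem z _ i)
      have h2 : sh z i (nw_asc z (N - i)) ∈ HS z (N + 1) := by
        have := sh_mem z i (asc_mem z (N - i))
        exact newt_HS_mono z (by omega) this
      rw [h _ h1 _ h2]
      have h3 : N - i = (N - (i + 1)) + 1 := by omega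
      rw [h3, nw_asc, map_mul (sh z i), sh_g, sh_sh, add_zero, dsc_succ, evl, if_pos rfl, mul_assoc,
        mul_assoc, sh_commute z le_rfl (dsc_mem z _ i)]
  have := key N le_rfl
  rw [Nat.sub_self] at this
  rw [this, nw_asc, map_one, mul_one]

/-! ### the symmetriser -/

section sym

variable (P : Par K)

/-- quantum identity -/
theorem newt_zq (n : ℕ) : P.z * P.qn n = (P.q : K) ^ n - ((P.q⁻¹ : Kˣ) : K) ^ n := by
  have hc : Commute (P.q : K) ((P.q⁻¹ : Kˣ) : K) := Commute.all _ _
  have h := hc.mul_geom_sum₂ n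
  rw [Par.z, Par.qn, ← h]
  congr 1
  rw [← Finset.sum_range_reflect]
  refine Finset.sum_congr rfl fun i hi => ?_
  rw [Finset.mem_range] at hi
  congr 2
  omega

theorem newt_z_ne : P.z ≠ 0 := by
  intro h
  have := P.z_mul_zi
  rw [h, zero_mul] at this
  exact zero_ne_one this

theorem newt_qqi : (P.q : K) * ((P.q⁻¹ : Kˣ) : K) = 1 := Units.mul_inv P.q

theorem newt_qn_zero : P.qn 0 = 0 := by simp [Par.qn]

theorem newt_qn_one : P.qn 1 = 1 := by simp [Par.qn]

/-- `q^n [n+1] = 1 + q^{n+1} [n]` -/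
theorem newt_qn_succ (n : ℕ) :
    (P.q : K) ^ n * P.qn (n + 1) = 1 + (P.q : K) ^ (n + 1) * P.qn n := by
  have hz := newt_z_ne P
  apply mul_left_cancel₀ hz
  have h1 : P.z * ((P.q : K) ^ n * P.qn (n + 1)) = (P.q : K) ^ n * (P.z * P.qn (n + 1)) := by ring
  have h2 : P.z * (1 + (P.q : K) ^ (n + 1) * P.qn n) =
      P.z + (P.q : K) ^ (n + 1) * (P.z * P.qn n) := by ring
  rw [h1, h2, newt_zq, newt_zq, Par.z]
  have h3 : (P.q : K) ^ n * ((P.q⁻¹ : Kˣ) : K) ^ n = 1 := by rw [← mul_pow, newt_qqi, one_pow]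
  rw [pow_succ, pow_succ]
  linear_combination (-((P.q⁻¹ : Kˣ) : K) + (P.q : K)) * h3

/-- `q^{n-j} [j] = [n] - q^{-j} [n-j]` -/
theorem newt_qn_sub {n j : ℕ} (h : j ≤ n) :
    (P.q : K) ^ (n - j) * P.qn j = P.qn n - ((P.q⁻¹ : Kˣ) : K) ^ j * P.qn (n - j) := by
  have hz := newt_z_ne P
  apply mul_left_cancel₀ hz
  obtain ⟨t, rfl⟩ := Nat.exists_eq_add_of_le h
  rw [Nat.add_sub_cancel_left]
  have h1 : P.z * ((P.q : K) ^ t * P.qn j) = (P.q : K) ^ t * (P.z * P.qn j) := by ring
  have h2 : P.z * (P.qn (j + t) - ((P.q⁻¹ : Kˣ) : K) ^ j * P.qn t) =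
      P.z * P.qn (j + t) - ((P.q⁻¹ : Kˣ) : K) ^ j * (P.z * P.qn t) := by ring
  rw [h1, h2, newt_zq, newt_zq, newt_zq, pow_add, pow_add]
  ring

/-- `h_n` -/
noncomputable def hn (n : ℕ) : H P.z := evA P.z (hh (P.q : K) n)

/-- `p_n` -/
noncomputable def pn (n : ℕ) : H P.z := evA P.z (PP (P.q : K) n)

/-- `S_{n+1} = ∑_{j ≤ n} q^j g_{n-1} ⋯ g_{n-j}` -/
noncomputable def Sg : ℕ → H P.z
  | 0 => 1
  | (n+1) => 1 + (P.q : K) • (g P.z n * Sg n)

theorem hn_mem (n : ℕ) : hn P n ∈ HS P.z n := evA_mem P.z (newt_validA_hh _ n)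
theorem pn_mem (n : ℕ) : pn P n ∈ HS P.z n := evA_mem P.z (validA_PP _ n)

theorem hn_zero : hn P 0 = 1 := by rw [hn, hh, map_one]

theorem Sg_mem (n : ℕ) : Sg P n ∈ HS P.z (n + 1) := by
  induction n with
  | zero => exact one_mem_HW _ _ _
  | succ n ih =>
    rw [Sg]
    exact Submodule.add_mem _ (one_mem_HW _ _ _) (Submodule.smul_mem _ _
      (newt_HS_mul _ (g_mem_HW _ (by omega) rfl) (newt_HS_mono _ (Nat.le_succ _) ih)))

theorem Sg_eq (n : ℕ) : Sg P n = ∑ j ∈ range (n + 1),
    (P.q : K) ^ j • ev P.z ((List.range j).map (fun i => (n - 1 - i, true))) := by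
  induction n with
  | zero => simp [Sg, ev]
  | succ n ih =>
    rw [Sg, ih, Finset.sum_range_succ' (fun j => (P.q : K) ^ j •
      ev P.z ((List.range j).map (fun i => (n + 1 - 1 - i, true)))) (n + 1)]
    have h0 : (P.q : K) ^ 0 • ev P.z ((List.range 0).map (fun i => (n + 1 - 1 - i, true))) = 1 := by
      simp [ev]
    rw [h0, add_comm]
    congr 1
    rw [Finset.mul_sum, Finset.smul_sum]
    refine Finset.sum_congr rfl fun j _ => ?_
    rw [mul_smul_comm, smul_smul, ← pow_succ', List.range_succ_eq_map, List.map_cons, ev_cons,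
      List.map_map]
    have h1 : evl P.z (n + 1 - 1 - 0, true) = g P.z n := by rw [evl, if_pos rfl]; rfl
    rw [h1]
    congr 4
    ext i
    · simp only [Function.comp_apply]
      omega
    · rfl

theorem hn_succ (hq : ∀ n, 0 < n → P.qn n ≠ 0) (n : ℕ) :
    ((P.q : K) ^ n * P.qn (n + 1)) • hn P (n + 1) = hn P n * Sg P n := by
  have h1 : hn P (n + 1) = ((P.q : K) ^ n * P.qn (n + 1))⁻¹ • (hn P n * Sg P n) := by
    have h2 : evA P.z (∑ j ∈ range (n + 1), (P.q : K) ^ j •
        wd ((List.range j).map (fun i => (n - 1 - i, true)))) = Sg P n := by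
      rw [Sg_eq, map_sum]
      refine Finset.sum_congr rfl fun j _ => ?_
      rw [map_smul, evA_wd]
    rw [hn, hh, map_smul, map_mul, qnum_eq, h2]
    rfl
  rw [h1, smul_smul, mul_inv_cancel₀, one_smul]
  exact mul_ne_zero (pow_ne_zero _ (Units.ne_zero _)) (hq _ (Nat.succ_pos n))

/-- `g_{n} S_{n+1} S_{n+2} = q S_{n+1} S_{n+2}` -/
theorem g_Sg_Sg (n : ℕ) : g P.z n * (Sg P n * Sg P (n + 1)) = (P.q : K) • (Sg P n * Sg P (n + 1)) := by
  have hqz : 1 + (P.q : K) * P.z = (P.q : K) * P.q := by
    rw [Par.z, mul_sub, newt_qqi]; ring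
  induction n with
  | zero =>
    rw [Sg, Sg, Sg, one_mul, mul_one, mul_add, mul_one, mul_smul_comm, g_sq, smul_add, smul_add,
      smul_smul, smul_smul]
    have h1 : g P.z 0 + ((P.q : K) • (1 : H P.z) + ((P.q : K) * P.z) • g P.z 0) =
        (P.q : K) • (1 : H P.z) + (1 + (P.q : K) * P.z) • g P.z 0 := by
      rw [add_smul, one_smul]; abel
    rw [h1, hqz]
  | succ n ih =>
    -- notation
    set G := g P.z (n + 1) with hG
    set g' := g P.z n with hg'
    set S0 := Sg P n with hS0
    set S1 := Sg P (n + 1) with hS1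
    have hS2 : Sg P (n + 1 + 1) = 1 + (P.q : K) • (G * S1) := rfl
    have hS1' : S1 = 1 + (P.q : K) • (g' * S0) := rfl
    have hcomm : S0 * G = G * S0 := by
      have h1 : G = sh P.z (n + 1) (g P.z 0) := by rw [sh_g]
      rw [h1]
      exact sh_commute P.z le_rfl (Sg_mem P n) _
    have hbr : g' * G * g' = G * g' * G := braid P.z n
    have hGG : G * G = 1 + P.z • G := g_sq P.z (n + 1)
    -- S1 G S1
    have e1 : S1 * (G * S1) = G * S1 + (P.q : K) • (g' * G * (S0 * S1)) := by
      nth_rewrite 1 [hS1']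
      rw [add_mul, one_mul, smul_mul_assoc, mul_assoc g' S0, ← mul_assoc S0 G, hcomm,
        mul_assoc G S0, ← mul_assoc g' G]
    have e2 : G * (S1 * (G * S1)) = G * G * S1 + ((P.q : K) * P.q) • (g' * G * (S0 * S1)) := by
      rw [e1, mul_add, ← mul_assoc, mul_smul_comm, ← mul_assoc G (g' * G), ← mul_assoc G g' G,
        ← hbr, mul_assoc (g' * G) g', ih, mul_smul_comm, smul_smul]
    rw [hS2, mul_add, mul_one, mul_smul_comm, mul_add, mul_smul_comm, e2, e1, hGG]
    simp only [smul_add, smul_smul, add_mul, one_mul, smul_mul_assoc]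
    have h1 : G * S1 + ((P.q : K) • S1 + ((P.q : K) * P.z) • (G * S1) +
        ((P.q : K) * ((P.q : K) * P.q)) • (g' * G * (S0 * S1))) =
        (P.q : K) • S1 + (1 + (P.q : K) * P.z) • (G * S1) +
        ((P.q : K) * ((P.q : K) * P.q)) • (g' * G * (S0 * S1)) := by
      rw [add_smul, one_smul]; abel
    rw [h1, hqz, mul_assoc, add_assoc]

/-- `g_i h_n = q h_n` -/
theorem g_hn (hq : ∀ n, 0 < n → P.qn n ≠ 0) (n : ℕ) : ∀ i, i + 1 < n →
    g P.z i * hn P n = (P.q : K) • hn P n := by
  induction n with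
  | zero => intro i hi; omega
  | succ n ih =>
    intro i hi
    have hne : (P.q : K) ^ n * P.qn (n + 1) ≠ 0 :=
      mul_ne_zero (pow_ne_zero _ (Units.ne_zero _)) (hq _ (Nat.succ_pos n))
    apply smul_right_injective (H P.z) hne
    simp only
    rw [← mul_smul_comm, smul_comm _ (P.q : K), hn_succ P hq]
    by_cases h1 : i + 1 < n
    · rw [← mul_assoc, ih i h1, smul_mul_assoc]
    · obtain ⟨m, rfl⟩ : ∃ m, n = m + 1 := ⟨n - 1, by omega⟩
      have him : i = m := by omega
      subst him
      have hne' : (P.q : K) ^ i * P.qn (i + 1) ≠ 0 :=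
        mul_ne_zero (pow_ne_zero _ (Units.ne_zero _)) (hq _ (Nat.succ_pos i))
      apply smul_right_injective (H P.z) hne'
      simp only
      rw [← mul_smul_comm, ← smul_mul_assoc, smul_comm _ (P.q : K), ← smul_mul_assoc _ (hn P (i + 1)),
        hn_succ P hq, mul_assoc, ← mul_assoc (g P.z i)]
      have hc : g P.z i * hn P i = hn P i * g P.z i := by
        have h2 : g P.z i = sh P.z i (g P.z 0) := by rw [sh_g]; rfl
        rw [h2]
        exact (sh_commute P.z le_rfl (hn_mem P i) _).symm
      rw [hc, mul_assoc (hn P i), g_Sg_Sg, mul_smul_comm]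

/-- `S_{n+1} h_{n+1} = q^n [n+1] h_{n+1}` -/
theorem Sg_hn (hq : ∀ n, 0 < n → P.qn n ≠ 0) (N : ℕ) : ∀ n, n < N →
    Sg P n * hn P N = ((P.q : K) ^ n * P.qn (n + 1)) • hn P N := by
  intro n
  induction n with
  | zero =>
    intro _
    rw [Sg, one_mul, pow_zero, newt_qn_one, mul_one, one_smul]
  | succ n ih =>
    intro hn'
    have h := newt_qn_succ P (n + 1)
    rw [Sg, add_mul, one_mul, smul_mul_assoc, mul_assoc, ih (by omega), mul_smul_comm,
      g_hn P hq N n (by omega), smul_smul, smul_smul, h, add_smul, one_smul]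
    congr 2
    ring

/-- (a) -/
theorem newt_a0 (hq : ∀ n, 0 < n → P.qn n ≠ 0) {n : ℕ} {φ : H P.z →ₗ[K] K} (hφ : TrF P.z n φ) :
    ∀ j, j < n → P.qn (j + 1) * φ (hn P (j + 1) * sh P.z j (nw_asc P.z (n - j - 1))) =
      ∑ l ∈ range (j + 1), ((P.q⁻¹ : Kˣ) : K) ^ l * φ (hn P l * sh P.z l (nw_asc P.z (n - l - 1))) := by
  intro j
  induction j with
  | zero =>
    intro _
    have h1 := hn_succ P hq 0
    rw [pow_zero, one_mul, zero_add, newt_qn_one, one_smul, hn_zero, one_mul, Sg] at h1
    rw [Finset.sum_range_one, zero_add, h1, newt_qn_one, hn_zero, pow_zero]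
  | succ j ih =>
    intro hj
    rw [Finset.sum_range_succ, ← ih (by omega)]
    have hqj : (P.q : K) ^ (j + 1) ≠ 0 := pow_ne_zero _ (Units.ne_zero _)
    apply mul_left_cancel₀ hqj
    set A := sh P.z (j + 1) (nw_asc P.z (n - (j + 1) - 1)) with hA
    have hAm : A ∈ HS P.z n := by
      have := sh_mem P.z (j + 1) (asc_mem P.z (n - (j + 1) - 1))
      exact newt_HS_mono _ (by omega) this
    have h1 : (P.q : K) ^ (j + 1) * (P.qn (j + 1 + 1) * φ (hn P (j + 1 + 1) * A)) =
        φ (hn P (j + 1) * Sg P (j + 1) * A) := by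
      rw [← hn_succ P hq, smul_mul_assoc, map_smul, smul_eq_mul]
      ring
    rw [h1, Sg, mul_add, mul_one, add_mul, map_add]
    have h2 : φ (hn P (j + 1) * (P.q : K) • (g P.z j * Sg P j) * A) =
        (P.q : K) * (((P.q : K) ^ j * P.qn (j + 1)) * φ (hn P (j + 1) * (g P.z j * A))) := by
      rw [mul_smul_comm, smul_mul_assoc, map_smul, smul_eq_mul]
      congr 1
      have c1 : Sg P j * A = A * Sg P j := sh_commute P.z le_rfl (Sg_mem P j) _
      have h3 : hn P (j + 1) * (g P.z j * Sg P j) * A = (hn P (j + 1) * (g P.z j * A)) * Sg P j := by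
        simp only [mul_assoc]
        rw [c1]
      have m1 : hn P (j + 1) * (g P.z j * A) ∈ HS P.z n :=
        newt_HS_mul _ (newt_HS_mono _ (by omega) (hn_mem P (j + 1)))
          (newt_HS_mul _ (g_mem_HW _ (by omega) rfl) hAm)
      have m2 : Sg P j ∈ HS P.z n := newt_HS_mono _ (by omega) (Sg_mem P j)
      rw [h3, hφ _ m1 _ m2, ← mul_assoc, Sg_hn P hq (j + 1) j (by omega), smul_mul_assoc, map_smul,
        smul_eq_mul]
    have h4 : g P.z j * A = sh P.z j (nw_asc P.z (n - j - 1)) := by
      have h5 : n - j - 1 = (n - (j + 1) - 1) + 1 := by omega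
      rw [h5, nw_asc, map_mul, sh_g, sh_sh, add_zero]
    rw [h2, h4]
    have h6 : (P.q : K) ^ (j + 1) * ((P.q⁻¹ : Kˣ) : K) ^ (j + 1) = 1 := by
      rw [← mul_pow, newt_qqi, one_pow]
    linear_combination (-φ (hn P (j + 1) * A)) * h6

theorem newt_a (hq : ∀ n, 0 < n → P.qn n ≠ 0) {n : ℕ} {φ : H P.z →ₗ[K] K} (hφ : TrF P.z n φ) :
    P.qn n * φ (hn P n) =
      ∑ l ∈ range n, ((P.q⁻¹ : Kˣ) : K) ^ l * φ (hn P l * sh P.z l (kap P.z (n - l))) := by
  rcases Nat.eq_zero_or_pos n with rfl | hn0
  · rw [newt_qn_zero, zero_mul, Finset.sum_range_zero]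
  obtain ⟨N, rfl⟩ := Nat.exists_eq_add_of_le' hn0
  have h1 := newt_a0 P hq hφ N (Nat.lt_succ_self N)
  have h2 : N + 1 - N - 1 = 0 := by omega
  rw [h2, nw_asc, map_one, mul_one] at h1
  rw [h1]
  refine Finset.sum_congr rfl fun l hl => ?_
  rw [Finset.mem_range] at hl
  congr 1
  have h3 : TrF P.z (l + (N + 1 - l)) φ := by
    have : l + (N + 1 - l) = N + 1 := by omega
    rw [this]; exact hφ
  have h4 := h3.left (hn_mem P l)
  have h5 : N + 1 - l = (N + 1 - l - 1) + 1 := by omega
  rw [h5] at h4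
  have h6 := asc_dsc h4
  rw [phL_apply, phL_apply] at h6
  rw [h6, nw_kap_eq]

theorem newt_PP (n : ℕ) :
    (n : K) • hn P n = ∑ j ∈ range (n + 1), pn P j * sh P.z j (hn P (n - j)) := by
  have h0 : pn P 0 = 0 := by
    rw [pn, PP]
    simp
  have h1 : pn P n = (n : K) • hn P n - ∑ j ∈ range n, pn P j * sh P.z j (hn P (n - j)) := by
    rw [pn, PP, map_sub, map_smul, map_sum, Finset.sum_range]
    congr 1
    refine Finset.sum_congr rfl fun j _ => ?_
    split_ifs with hj
    · rw [hj, h0, zero_mul, map_zero]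
    · rw [map_mul, evA_shA]
      rfl
  rw [Finset.sum_range_succ, Nat.sub_self, hn_zero, map_one, mul_one, h1]
  abel

end sym

/-- `X_n` and `[n] P_{(n)}` have the same closure -/
theorem newton (P : Par K) (hq : ∀ n, 0 < n → P.qn n ≠ 0) {n : ℕ} (hn : 0 < n) {φ : H P.z →ₗ[K] K}
    (hφ : ∀ x ∈ HS P.z n, ∀ y ∈ HS P.z n, φ (x * y) = φ (y * x)) :
    φ (X P.z n) = P.qn n * φ (evA P.z (PP (P.q : K) n)) := by
  induction n using Nat.strong_induction_on generalizing φ with
  | _ n IH =>
    set qi : K := ((P.q⁻¹ : Kˣ) : K) with hqi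
    have hTr : ∀ l, l ≤ n → TrF P.z (l + (n - l)) φ := by
      intro l hl
      rw [Nat.add_sub_cancel' hl]
      exact hφ
    -- the sequences
    set A : ℕ → K := fun j => φ (pn P j * sh P.z j (Pool.Agent.HL.hn P (n - j))) with hA
    set Y : ℕ → K := fun l => φ (Pool.Agent.HL.hn P l * sh P.z l (X P.z (n - l))) with hY
    have hYn : Y n = 0 := by
      simp only [hY]
      rw [Nat.sub_self]
      have : X P.z 0 = 0 := by simp [X]
      rw [this, map_zero, mul_zero, map_zero]
    -- (i)
    have e1 : (n : K) * φ (Pool.Agent.HL.hn P n) = ∑ j ∈ range (n + 1), A j := by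
      rw [← smul_eq_mul, ← map_smul, newt_PP, map_sum]
    -- (ii)
    have e2 := newt_a P hq hφ
    set F : ℕ → ℕ → K := fun j t => qi ^ (j + t) * φ (pn P j * sh P.z j
            (Pool.Agent.HL.hn P t * sh P.z t (kap P.z (n - j - t)))) with hF
    set G : ℕ → ℕ → K := fun l i => qi ^ l *
            φ (Pool.Agent.HL.hn P l * sh P.z l (kap P.z (i + 1)) *
              sh P.z (l + i + 1) (X P.z (n - (l + i + 1)))) with hG
    -- first part
    have e3 : ∑ l ∈ range n, qi ^ l *
        φ (((l : K) • Pool.Agent.HL.hn P l) * sh P.z l (kap P.z (n - l))) =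
        ∑ j ∈ range n, qi ^ j * P.qn (n - j) * A j := by
      have h1 : ∀ l ∈ range n, qi ^ l *
          φ (((l : K) • Pool.Agent.HL.hn P l) * sh P.z l (kap P.z (n - l))) =
          ∑ j ∈ range (l + 1), F j (l - j) := by
        intro l _
        rw [newt_PP, Finset.sum_mul, map_sum, Finset.mul_sum]
        refine Finset.sum_congr rfl fun j hj => ?_
        rw [Finset.mem_range] at hj
        have h2 : j + (l - j) = l := by omega
        have h3 : n - j - (l - j) = n - l := by omega
        simp only [hF]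
        rw [h2, h3, map_mul (sh P.z j), sh_sh, h2, mul_assoc]
      rw [Finset.sum_congr rfl h1, newt_dbl F]
      refine Finset.sum_congr rfl fun j hj => ?_
      rw [Finset.mem_range] at hj
      have h4 := (hTr j hj.le).left (pn_mem P j)
      have h5 := newt_a P hq h4
      rw [phL_apply] at h5
      simp only [hA]
      rw [mul_assoc, h5, Finset.mul_sum]
      refine Finset.sum_congr rfl fun t _ => ?_
      simp only [hF]
      rw [phL_apply, pow_add, mul_assoc]
    -- second part
    have e4 : ∑ l ∈ range n, qi ^ l *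
        φ (Pool.Agent.HL.hn P l * sh P.z l (((n - l : ℕ) : K) • kap P.z (n - l))) =
        ∑ l ∈ range n, (P.q : K) ^ l * Y l := by
      have h1 : ∀ l ∈ range n, qi ^ l *
          φ (Pool.Agent.HL.hn P l * sh P.z l (((n - l : ℕ) : K) • kap P.z (n - l))) =
          qi ^ l * Y l + P.z * ∑ i ∈ range (n - l), G l i := by
        intro l _
        rw [newt_b, map_add, mul_add, map_add, mul_add, map_smul, mul_smul_comm, map_smul,
          smul_eq_mul, map_sum, Finset.mul_sum, map_sum, mul_left_comm, Finset.mul_sum]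
        congr 2
        refine Finset.sum_congr rfl fun i _ => ?_
        have h2 : n - l - (i + 1) = n - (l + i + 1) := by omega
        have h3 : l + (i + 1) = l + i + 1 := by omega
        simp only [hG]
        rw [h2, map_mul (sh P.z l), sh_sh, h3, mul_assoc (Pool.Agent.HL.hn P l)]
      rw [Finset.sum_congr rfl h1, Finset.sum_add_distrib, ← Finset.mul_sum, ← newt_dbl]
      have h4 : ∑ r ∈ range n, ∑ l ∈ range (r + 1), G l (r - l) =
          ∑ r ∈ range n, P.qn (r + 1) * Y (r + 1) := by
        refine Finset.sum_congr rfl fun r hr => ?_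
        rw [Finset.mem_range] at hr
        have h5 := (hTr (r + 1) hr).right (X_mem P.z (n - (r + 1)))
        have h6 := newt_a P hq h5
        rw [phR_apply] at h6
        simp only [hY]
        rw [h6]
        refine Finset.sum_congr rfl fun l hl => ?_
        rw [Finset.mem_range] at hl
        have h7 : l + (r - l) + 1 = r + 1 := by omega
        have h8 : r - l + 1 = r + 1 - l := by omega
        simp only [hG]
        rw [phR_apply, h7, h8]
      rw [h4]
      have h9 : ∑ r ∈ range n, P.qn (r + 1) * Y (r + 1) = ∑ r ∈ range n, P.qn r * Y r := by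
        have h10 := Finset.sum_range_succ' (fun r => P.qn r * Y r) n
        rw [Finset.sum_range_succ, hYn, newt_qn_zero, mul_zero, add_zero, zero_mul, add_zero] at h10
        exact h10.symm
      rw [h9, Finset.mul_sum, ← Finset.sum_add_distrib]
      refine Finset.sum_congr rfl fun l _ => ?_
      rw [← mul_assoc, newt_zq]
      ring
    -- combine
    have e5 : P.qn n * ∑ j ∈ range (n + 1), A j =
        ∑ j ∈ range n, qi ^ j * P.qn (n - j) * A j + ∑ l ∈ range n, (P.q : K) ^ l * Y l := by
      rw [← e1, mul_left_comm, e2, ← e3, ← e4, ← Finset.sum_add_distrib, Finset.mul_sum]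
      refine Finset.sum_congr rfl fun l hl => ?_
      rw [Finset.mem_range] at hl
      simp only [smul_mul_assoc, mul_smul_comm, map_smul, smul_eq_mul]
      rw [Nat.cast_sub hl.le]
      ring
    have e6 : ∑ j ∈ range (n + 1), (P.q : K) ^ (n - j) * P.qn j * A j =
        ∑ l ∈ range n, (P.q : K) ^ l * Y l := by
      have h1 : ∑ j ∈ range (n + 1), (P.q : K) ^ (n - j) * P.qn j * A j =
          P.qn n * ∑ j ∈ range (n + 1), A j - ∑ j ∈ range (n + 1), qi ^ j * P.qn (n - j) * A j := by
        rw [Finset.mul_sum, ← Finset.sum_sub_distrib]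
        refine Finset.sum_congr rfl fun j hj => ?_
        rw [Finset.mem_range] at hj
        rw [newt_qn_sub P (by omega : j ≤ n)]
        ring
      rw [h1, e5, Finset.sum_range_succ (fun j => qi ^ j * P.qn (n - j) * A j), Nat.sub_self,
        newt_qn_zero]
      ring
    -- use the induction hypothesis
    have e7 : ∀ k ∈ range n, 0 < k → Y (n - k) = P.qn k * A k := by
      intro k hk hk0
      rw [Finset.mem_range] at hk
      have h1 : Y (n - k) = φ (X P.z k * sh P.z k (Pool.Agent.HL.hn P (n - k))) := by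
        simp only [hY]
        have h2 : n - (n - k) = k := by omega
        rw [h2]
        have h3 : TrF P.z ((n - k) + k) φ := by
          rw [Nat.sub_add_cancel hk.le]
          exact hφ
        exact newt_swap h3 (hn_mem P (n - k)) (X_mem P.z k)
      have h4 := (hTr k hk.le).right (hn_mem P (n - k))
      have h5 := IH k hk hk0 h4
      rw [phR_apply, phR_apply] at h5
      rw [h1, h5]
      rfl
    have e8 : ∑ l ∈ range n, (P.q : K) ^ l * Y l =
        ∑ k ∈ range n, (P.q : K) ^ (n - (k + 1)) * Y (n - (k + 1)) := by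
      rw [← Finset.sum_range_reflect]
      refine Finset.sum_congr rfl fun k hk => ?_
      rw [Finset.mem_range] at hk
      have : n - 1 - k = n - (k + 1) := by omega
      rw [this]
    rw [e8, Finset.sum_range_succ', newt_qn_zero, mul_zero, zero_mul, add_zero] at e6
    obtain ⟨N, rfl⟩ := Nat.exists_eq_add_of_le' hn
    rw [Finset.sum_range_succ, Finset.sum_range_succ, Nat.sub_self, pow_zero, one_mul, one_mul] at e6
    have e9 : ∑ k ∈ range N, (P.q : K) ^ (N + 1 - (k + 1)) * P.qn (k + 1) * A (k + 1) =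
        ∑ k ∈ range N, (P.q : K) ^ (N + 1 - (k + 1)) * Y (N + 1 - (k + 1)) := by
      refine Finset.sum_congr rfl fun k hk => ?_
      rw [Finset.mem_range] at hk
      rw [e7 (k + 1) (by rw [Finset.mem_range]; omega) (Nat.succ_pos k), mul_assoc]
    rw [e9] at e6
    have e10 := add_left_cancel e6
    have h11 : Y 0 = φ (X P.z (N + 1)) := by
      simp only [hY]
      rw [hn_zero, one_mul, sh_zero, Nat.sub_zero]
    have h12 : A (N + 1) = φ (evA P.z (PP (P.q : K) (N + 1))) := by
      simp only [hA]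
      rw [Nat.sub_self, hn_zero, map_one, mul_one]
      rfl
    rw [← h11, ← h12]
    exact e10.symm

end Pool.Agent.HL
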