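import Pool.Agent.Lib.HL21.Cyc

/-! # Module Sw: parity of the number of self-crossings -/

namespace Pool.Agent.HL

open Finset

/-- inversions of a labelling -/
def swInv (n : ℕ) (L : ℕ → ℕ) : Finset (ℕ × ℕ) :=
  ((range n) ×ˢ (range n)).filter (fun p => p.1 < p.2 ∧ L p.2 < L p.1)

theorem mem_swInv {n : ℕ} {L : ℕ → ℕ} {x y : ℕ} :
    (x, y) ∈ swInv n L ↔ (x < n ∧ y < n) ∧ x < y ∧ L y < L x := by
  unfold swInv
  rw [mem_filter, mem_product, mem_range, mem_range]

theorem swInv_erase (n : ℕ) (L : ℕ → ℕ) {i : ℕ} (hi : i + 1 < n) :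
    ((swInv n (L ∘ Equiv.swap i (i+1))).erase (i, i+1)).card ≤
      ((swInv n L).erase (i, i+1)).card := by
  refine card_le_card_of_injOn (Prod.map (Equiv.swap i (i+1)) (Equiv.swap i (i+1))) ?_ ?_
  · rintro ⟨x, y⟩ hxy
    rw [mem_coe, mem_erase, mem_swInv] at hxy
    obtain ⟨hne, ⟨hx, hy⟩, hlt, hL⟩ := hxy
    rw [Prod.map_apply, mem_coe, mem_erase, mem_swInv]
    simp only [Function.comp_apply] at hL
    rw [Ne, Prod.mk.injEq] at hne
    refine ⟨?_, ⟨?_, ?_⟩, ?_, hL⟩
    · rw [Ne, Prod.mk.injEq]
      simp only [Equiv.swap_apply_def]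
      split_ifs <;> omega
    · simp only [Equiv.swap_apply_def]
      split_ifs <;> omega
    · simp only [Equiv.swap_apply_def]
      split_ifs <;> omega
    · simp only [Equiv.swap_apply_def]
      split_ifs <;> omega
  · exact (Function.Injective.prodMap (Equiv.injective _) (Equiv.injective _)).injOn

theorem swInv_erase_eq (n : ℕ) (L : ℕ → ℕ) {i : ℕ} (hi : i + 1 < n) :
    ((swInv n (L ∘ Equiv.swap i (i+1))).erase (i, i+1)).card =
      ((swInv n L).erase (i, i+1)).card := by
  refine le_antisymm (swInv_erase n L hi) ?_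
  have h := swInv_erase n (L ∘ Equiv.swap i (i+1)) hi
  have h2 : (L ∘ Equiv.swap i (i+1)) ∘ Equiv.swap i (i+1) = L := by
    funext x
    simp only [Function.comp_apply, Equiv.swap_apply_self]
  rw [h2] at h
  exact h

theorem swInv_swap (n : ℕ) (L : ℕ → ℕ) {i : ℕ} (hi : i + 1 < n) :
    ((swInv n (L ∘ Equiv.swap i (i+1))).card : ZMod 2) =
      (swInv n L).card + (if L i = L (i+1) then 0 else 1) := by
  have h := swInv_erase_eq n L hi
  have h1 : (i, i+1) ∈ swInv n L ↔ L (i+1) < L i := by
    rw [mem_swInv]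
    constructor
    · intro h; exact h.2.2
    · intro h; exact ⟨⟨by omega, hi⟩, by omega, h⟩
  have h2 : (i, i+1) ∈ swInv n (L ∘ Equiv.swap i (i+1)) ↔ L i < L (i+1) := by
    rw [mem_swInv]
    simp only [Function.comp_apply, Equiv.swap_apply_left, Equiv.swap_apply_right]
    constructor
    · intro h; exact h.2.2
    · intro h; exact ⟨⟨by omega, hi⟩, by omega, h⟩
  have two : (1 : ZMod 2) + 1 = 0 := by decide
  rcases lt_trichotomy (L i) (L (i+1)) with hc | hc | hc
  · have h3 := card_erase_add_one (h2.2 hc)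
    rw [erase_eq_of_notMem (fun hh => absurd (h1.1 hh) (by omega))] at h
    rw [← h3, h, if_neg (by omega)]
    push_cast
    ring
  · rw [erase_eq_of_notMem (fun hh => absurd (h1.1 hh) (by omega)),
      erase_eq_of_notMem (fun hh => absurd (h2.1 hh) (by omega))] at h
    rw [h, if_pos hc, add_zero]
  · have h3 := card_erase_add_one (h1.2 hc)
    rw [erase_eq_of_notMem (fun hh => absurd (h2.1 hh) (by omega))] at h
    rw [← h3, h, if_neg (by omega)]
    push_cast
    rw [add_assoc, two, add_zero]

/-- number of non-self crossings read along the word (mod 2) -/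
def swNs : (ℕ → ℕ) → Word → ZMod 2
  | _, [] => 0
  | L, l :: v => (if L l.1 = L (l.1+1) then 0 else 1) + swNs (L ∘ Equiv.swap l.1 (l.1+1)) v

theorem swInv_word (n : ℕ) : ∀ (w : Word) (L : ℕ → ℕ), Valid n w →
    ((swInv n (L ∘ perm w)).card : ZMod 2) = (swInv n L).card + swNs L w := by
  intro w
  induction w with
  | nil =>
    intro L _
    rw [perm_nil, swNs, add_zero]
    rfl
  | cons l v ih =>
    intro L hw
    have h1 : l.1 + 1 < n := hw l (List.mem_cons_self ..)
    have h2 : Valid n v := fun l' hl' => hw l' (List.mem_cons_of_mem _ hl')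
    have h3 : L ∘ perm (l :: v) = (L ∘ Equiv.swap l.1 (l.1+1)) ∘ perm v := by
      rw [perm_cons]; rfl
    rw [h3, ih _ h2, swInv_swap n L h1, swNs]
    ring

theorem swNs_eq_sum : ∀ (v : Word) (L : ℕ → ℕ), swNs L v =
    ∑ j : Fin v.length, if L (perm (v.take j) (v.get j).1) = L (perm (v.take j) ((v.get j).1 + 1))
      then (0 : ZMod 2) else 1 := by
  intro v
  induction v with
  | nil => intro L; rfl
  | cons l v ih =>
    intro L
    rw [swNs, ih]
    refine Eq.trans ?_ (Fin.sum_univ_succ (n := v.length) _).symm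
    refine congrArg₂ (· + ·) rfl (Finset.sum_congr rfl ?_)
    intro j _
    have hget : (l :: v).get j.succ = v.get j := rfl
    simp only [Fin.val_succ, List.take_succ_cons, perm_cons, hget,
      Function.comp_apply, Equiv.Perm.mul_apply]

/-- the number of crossings between different components is even -/
theorem selfWr_parity {n : ℕ} {w : Word} (hw : Valid n w) : Even (selfWr w - w.length) := by
  classical
  -- the representative of the cycle
  have hrep : ∀ x, ∃ y, y ≤ x ∧ (perm w).SameCycle y x ∧ IsRep (perm w) y :=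
    cyc_exists_isRep (perm w)
  choose c hc1 hc2 hc3 using hrep
  have hciff : ∀ x y, c x = c y ↔ (perm w).SameCycle x y := by
    intro x y
    constructor
    · intro h
      have h1 := hc2 x
      rw [h] at h1
      exact h1.symm.trans (hc2 y)
    · intro h
      have h1 : (perm w).SameCycle (c x) (c y) := (hc2 x).trans (h.trans (hc2 y).symm)
      exact le_antisymm (hc3 x _ h1) (hc3 y _ h1.symm)
  have hcπ : c ∘ perm w = c := by
    funext x
    rw [Function.comp_apply, hciff]
    exact Equiv.Perm.sameCycle_apply_left.2 (Equiv.Perm.SameCycle.refl _ _)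
  have h1 := swInv_word n w c hw
  rw [hcπ] at h1
  have hns : swNs c w = 0 := by
    have : (swInv n c).card + swNs c w = ((swInv n c).card : ZMod 2) + 0 := by
      rw [add_zero]; exact h1.symm
    exact add_left_cancel this
  rw [swNs_eq_sum] at hns
  -- rotation
  have hrot : ∀ j : Fin w.length, (perm (w.rotate j)).SameCycle (w.get j).1 ((w.get j).1 + 1) ↔
      c (perm (w.take j) (w.get j).1) = c (perm (w.take j) ((w.get j).1 + 1)) := by
    intro j
    rw [hciff]
    have h2 : perm (w.rotate j) = (perm (w.take j))⁻¹ * perm w * ((perm (w.take j))⁻¹)⁻¹ := by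
      rw [List.rotate_eq_drop_append_take j.2.le, perm_append, inv_inv]
      have h3 : perm w = perm (w.take j) * perm (w.drop j) := by
        rw [← perm_append, List.take_append_drop]
      rw [h3]
      group
    rw [h2, Equiv.Perm.sameCycle_conj, inv_inv]
  rw [even_iff_two_dvd]
  have h2 : ((selfWr w - w.length : ℤ) : ZMod 2) = 0 := by
    unfold selfWr
    have hlen : ((w.length : ℤ) : ZMod 2) = ∑ _j : Fin w.length, (1 : ZMod 2) := by
      simp
    rw [Int.cast_sub, hlen, Int.cast_sum, ← Finset.sum_sub_distrib]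
    have hneg : -(∑ j : Fin w.length, if c (perm (w.take j) (w.get j).1) =
        c (perm (w.take j) ((w.get j).1 + 1)) then (0 : ZMod 2) else 1) = 0 := by
      rw [hns, neg_zero]
    rw [← hneg, ← Finset.sum_neg_distrib]
    refine Finset.sum_congr rfl ?_
    intro j _
    by_cases hj : c (perm (w.take j) (w.get j).1) = c (perm (w.take j) ((w.get j).1 + 1))
    · rw [if_pos hj, if_pos ((hrot j).2 hj)]
      cases (w.get j).2 <;> simp <;> decide
    · rw [if_neg hj, if_neg (fun h => hj ((hrot j).1 h))]
      simp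
  exact (ZMod.intCast_zmod_eq_zero_iff_dvd _ 2).1 h2

end Pool.Agent.HL
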