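import Pool.Agent.Lib.HL21.CabG
import Pool.Agent.Lib.HL21.Desc
import Pool.Agent.Lib.HL21.Newt
import Pool.Agent.Lib.HL21.Sw

/-! # Module Main: assembly -/

namespace Pool.Agent.HL

open Finset

section general

variable {k : Type*} [CommRing k]

theorem ev_single (z : k) (l : Letter) : ev z [l] = evl z l := by
  rw [ev_cons, ev_nil, mul_one]

theorem evl_true (z : k) (i : ℕ) : evl z (i, true) = g z i := by simp [evl]

theorem evl_false (z : k) (i : ℕ) : evl z (i, false) = gi z i := by simp [evl]

theorem ev_mid (z : k) (u m v : Word) : ev z (u ++ m ++ v) = ev z u * ev z m * ev z v := by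
  rw [ev_append, ev_append]

theorem evl_comm (z : k) {i j : ℕ} (h : i + 1 < j) (b c : Bool) :
    evl z (i, b) * evl z (j, c) = evl z (j, c) * evl z (i, b) := by
  have h0 := g_comm z h
  have h1 : g z i * gi z j = gi z j * g z i := by
    rw [gi, mul_sub, sub_mul, h0, mul_smul_comm, smul_mul_assoc, mul_one, one_mul]
  have h2 : gi z i * g z j = g z j * gi z i := by
    rw [gi, mul_sub, sub_mul, h0, mul_smul_comm, smul_mul_assoc, mul_one, one_mul]
  have h3 : gi z i * gi z j = gi z j * gi z i := by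
    rw [gi, sub_mul, mul_sub, h1, mul_smul_comm, smul_mul_assoc, mul_one, one_mul]
  cases b <;> cases c <;> simp only [evl_true, evl_false, h0, h1, h2, h3]

theorem ev_cancel (z : k) (i : ℕ) (b : Bool) : ev z [(i, b), (i, !b)] = 1 := by
  rw [ev_cons, ev_single]
  cases b
  · rw [Bool.not_false, evl_true, evl_false, gi_g]
  · rw [Bool.not_true, evl_true, evl_false, g_gi]

theorem ev_braid (z : k) (i : ℕ) : ev z [(i, true), (i+1, true), (i, true)] =
    ev z [(i+1, true), (i, true), (i+1, true)] := by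
  rw [ev_cons, ev_cons, ev_single, ev_cons, ev_cons, ev_single, evl_true, evl_true, ← mul_assoc, braid,
    mul_assoc]

theorem ev_comm2 (z : k) {i j : ℕ} (h : i + 1 < j) (b c : Bool) :
    ev z [(i, b), (j, c)] = ev z [(j, c), (i, b)] := by
  rw [ev_cons, ev_single, ev_cons, ev_single, evl_comm z h]

theorem valid_append {n : ℕ} {u v : Word} (hu : Valid n u) (hv : Valid n v) : Valid n (u ++ v) := by
  intro l hl
  rcases List.mem_append.1 hl with h | h
  · exact hu l h
  · exact hv l h

theorem valid_left {n : ℕ} {u v : Word} (h : Valid n (u ++ v)) : Valid n u :=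
  fun l hl => h l (List.mem_append_left _ hl)

theorem valid_right {n : ℕ} {u v : Word} (h : Valid n (u ++ v)) : Valid n v :=
  fun l hl => h l (List.mem_append_right _ hl)

theorem valid_mid {n : ℕ} {u v m : Word} (h : Valid n (u ++ v)) (hm : Valid n m) : Valid n (u ++ m ++ v) :=
  valid_append (valid_append (valid_left h) hm) (valid_right h)

theorem valid_swap {n : ℕ} {u v : Word} (h : Valid n (u ++ v)) : Valid n (v ++ u) :=
  valid_append (valid_right h) (valid_left h)

end general

section homfly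

variable {K : Type*} [Field K]

theorem Par.inv_q (P : Par K) : ((P.q⁻¹ : Kˣ) : K) = (P.q : K)⁻¹ := Units.val_inv_eq_inv_val _
theorem Par.inv_a (P : Par K) : ((P.a⁻¹ : Kˣ) : K) = (P.a : K)⁻¹ := Units.val_inv_eq_inv_val _

theorem Par.δ_eq (P : Par K) : P.δ = ((P.a : K) - (P.a : K)⁻¹) / ((P.q : K) - (P.q : K)⁻¹) := by
  have h := P.hz
  rw [P.inv_q] at h
  rw [Par.δ, P.inv_a, div_eq_mul_inv]
  congr 1
  exact eq_inv_of_mul_eq_one_right h

/-- The Ocneanu trace gives a HOMFLY-PT invariant. -/
theorem homfly_tr (P : Par K) : IsHomfly (P.q : K) (P.a : K) (fun n w => tr P n (ev P.z w)) where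
  empty := by
    simp only [ev_nil]
    exact tr_zero P
  unknot n w hw := by
    rw [tr_free P (ev_mem P.z hw), P.δ_eq]
  curl_pos n w hw := by
    rw [ev_append, ev_single, evl_true, tr_markov_pos P (ev_mem P.z hw)]
  curl_neg n w hw := by
    rw [ev_append, ev_single, evl_false, tr_markov_neg P (ev_mem P.z hw), P.inv_a]
  conj n u v hw := by
    rw [ev_append, ev_append, tr_comm P (ev_mem P.z (valid_left hw))]
  cancel n u v i b _ _ := by
    rw [ev_mid, ev_cancel, mul_one, ev_append]
  comm n u v i j b c h _ _ := by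
    rw [ev_mid, ev_mid, ev_comm2 P.z h]
  braid n u v i _ _ := by
    rw [ev_mid, ev_mid, ev_braid]
  skein n u v i _ _ := by
    rw [ev_mid, ev_mid, ev_single, ev_single, evl_true, evl_false, ← map_sub, ← sub_mul, ← mul_sub,
      gi, sub_sub_cancel, mul_smul_comm, mul_one, smul_mul_assoc, map_smul, ev_append, smul_eq_mul]
    rw [Par.z, P.inv_q]

/-- Uniqueness of the HOMFLY-PT invariant on closed braids. -/
theorem homfly_unique (P : Par K) {Q : ℕ → Word → K} (hQ : IsHomfly (P.q : K) (P.a : K) Q) :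
    ∀ n w, Valid n w → Q n w = tr P n (ev P.z w) := by
  have hT := homfly_tr P
  refine braid_ind (Q := fun n w => Q n w = tr P n (ev P.z w)) ?_ ?_ ?_ ?_ ?_ ?_ ?_ ?_
  · rw [hQ.empty]; exact hT.empty.symm
  · intro n w hw h
    rw [hQ.unknot n w hw, h]; exact (hT.unknot n w hw).symm
  · intro n w b hw h
    cases b
    · rw [hQ.curl_neg n w hw, h]; exact (hT.curl_neg n w hw).symm
    · rw [hQ.curl_pos n w hw, h]; exact (hT.curl_pos n w hw).symm
  · intro n u v hw h
    rw [← hQ.conj n u v hw, h]; exact hT.conj n u v hw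
  · intro n u v i hi hw
    rw [hQ.braid n u v i hi hw, ← hT.braid n u v i hi hw]
  · intro n u v i j hij hj hw
    rw [hQ.comm n u v i j true true hij hj hw, ← hT.comm n u v i j true true hij hj hw]
  · intro n u v i hi hw h
    have h1 := hQ.cancel n u v i true hi hw
    have h2 := hT.cancel n u v i true hi hw
    simp only [Bool.not_true] at h1 h2
    rw [h1, h2, h]
  · intro n u v i hi hw h
    have h1 := hQ.skein n u v i hi hw
    have h2 := hT.skein n u v i hi hw
    rw [h, ← h2] at h1
    constructor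
    · intro h3
      rw [h3] at h1
      exact sub_right_injective h1
    · intro h3
      rw [h3] at h1
      exact sub_left_injective h1

theorem qn_mul_z {k : Type*} [CommRing k] (P : Par k) (p : ℕ) :
    P.z * P.qn p = (P.q : k) ^ p - ((P.q⁻¹ : kˣ) : k) ^ p := by
  have h := (Commute.all (P.q : k) ((P.q⁻¹ : kˣ) : k)).geom_sum₂_mul p
  rw [Par.z, Par.qn, mul_comm, ← h]
  congr 1
  rw [← Finset.sum_range_reflect]
  refine Finset.sum_congr rfl (fun i hi => ?_)
  rw [mem_range] at hi
  congr 2
  omega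

/-- replacing the decorations one at a time -/
theorem deco_step (P : Par K) (hq : ∀ n, 0 < n → P.qn n ≠ 0) {p n : ℕ} (hp : 0 < p) {w : Word}
    (hw : Valid n w) {I : Finset ℕ} (hI : IsTr (perm w) n I) {J : Finset ℕ} (hJ : J ⊆ I) :
    tr P (p * n) (ev P.z (cab p w) *
      HF P.z p (fun i => if i ∈ J then X P.z p else evA P.z (PP (P.q : K) p)) I) =
    P.qn p ^ J.card * tr P (p * n) (ev P.z (cab p w) *
      HF P.z p (fun _ => evA P.z (PP (P.q : K) p)) I) := by
  have hmem : ∀ J : Finset ℕ, ∀ i, (if i ∈ J then X P.z p else evA P.z (PP (P.q : K) p)) ∈ HS P.z p := by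
    intro J i
    split_ifs
    · exact X_mem P.z p
    · exact evA_mem P.z (validA_PP _ _)
  induction J using Finset.induction_on with
  | empty =>
    rw [Finset.card_empty, pow_zero, one_mul]
    simp only [Finset.notMem_empty, if_false]
  | insert j J hjJ ih =>
    have hjI : j ∈ I := hJ (Finset.mem_insert_self _ _)
    have ih' := ih (fun x hx => hJ (Finset.mem_insert_of_mem hx))
    rw [Finset.card_insert_of_notMem hjJ, pow_succ, mul_comm (P.qn p ^ J.card), mul_assoc, ← ih']
    obtain ⟨I', hjI', rfl⟩ : ∃ I', j ∉ I' ∧ I = insert j I' :=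
      ⟨I.erase j, Finset.notMem_erase _ _, (Finset.insert_erase hjI).symm⟩
    rw [HF_insert P.z (hmem _) hjI', HF_insert P.z (hmem _) hjI', if_pos (Finset.mem_insert_self _ _),
      if_neg hjJ]
    have hc : HF P.z p (fun i => if i ∈ insert j J then X P.z p else evA P.z (PP (P.q : K) p)) I' =
        HF P.z p (fun i => if i ∈ J then X P.z p else evA P.z (PP (P.q : K) p)) I' := by
      refine HF_congr P.z (fun i hi => ?_)
      have : i ≠ j := fun h => hjI' (h ▸ hi)
      simp only [Finset.mem_insert, this, false_or]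
    rw [hc, HF_comm P.z (hmem _) hjI' (X_mem P.z p),
      HF_comm P.z (hmem _) hjI' (evA_mem P.z (validA_PP _ _)), ← mul_assoc, ← mul_assoc]
    have := newton P hq hp (φ := (tr P (p * n)) ∘ₗ (LinearMap.mulLeft K (ev P.z (cab p w) *
      HF P.z p (fun i => if i ∈ J then X P.z p else evA P.z (PP (P.q : K) p)) I')) ∘ₗ
        (sh P.z (p * j)).toLinearMap) (by
      intro x hx y hy
      simp only [LinearMap.comp_apply, LinearMap.mulLeft_apply, AlgHom.toLinearMap_apply]
      exact slot P hp hw hjI' hI (hmem _) hx hy)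
    simpa only [LinearMap.comp_apply, LinearMap.mulLeft_apply, AlgHom.toLinearMap_apply] using this

theorem validA_prod {n : ℕ} {l : List (Skein K)} (h : ∀ x ∈ l, ValidA n x) : ValidA n l.prod := by
  induction l with
  | nil => rw [List.prod_nil]; exact validA_one n
  | cons a l ih =>
    rw [List.prod_cons]
    exact validA_mul (h a (List.mem_cons_self)) (ih (fun x hx => h x (List.mem_cons_of_mem _ hx)))

theorem Zch_eq (P : Par K) (hq : ∀ n, 0 < n → P.qn n ≠ 0) {Q : ℕ → Word → K}
    (hQ : IsHomfly (P.q : K) (P.a : K) Q) {p n : ℕ} (hp : 0 < p) {w : Word} (hw : Valid n w) :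
    Zch (P.q : K) Q p n w = Zp P p n w := by
  have hU := homfly_unique P hQ
  have hreps := isTr_reps hw
  rw [Zch]
  have hval : ValidA (p * n) (wd (cab p w) * ((reps n w).map (fun i => shA (p * i) (PP (P.q : K) p))).prod) := by
    refine validA_mul (validA_wd (cab_valid hp hw)) (validA_prod ?_)
    intro x hx
    rw [List.mem_map] at hx
    obtain ⟨i, hi, rfl⟩ := hx
    have hi' : i < n := by
      rw [reps, List.mem_filter, List.mem_range] at hi
      exact hi.1
    refine validA_mono (m := p * i + p) ?_ (validA_shA (validA_PP _ _))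
    calc p * i + p = p * (i + 1) := by ring
      _ ≤ p * n := Nat.mul_le_mul_left _ hi'
  rw [lin_eq P.z (fun w hw => hU _ w hw) hval, map_mul, evA_wd, map_list_prod, List.map_map]
  have e1 : (List.map (⇑(evA P.z) ∘ fun i => shA (p * i) (PP (P.q : K) p)) (reps n w)) =
      (reps n w).map (fun i => sh P.z (p * i) (evA P.z (PP (P.q : K) p))) := by
    refine List.map_congr_left (fun i _ => ?_)
    rw [Function.comp_apply, evA_shA]
  rw [e1, HF_reps P.z p n w (fun _ => evA P.z (PP (P.q : K) p)), Zp_eq P hp hw hreps]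
  have h3 := deco_step P hq hp hw hreps (Finset.Subset.refl _)
  have h4 : HF P.z p (fun i => if i ∈ (reps n w).toFinset then X P.z p else evA P.z (PP (P.q : K) p))
      (reps n w).toFinset = XF P.z p (reps n w).toFinset :=
    HF_congr P.z (fun i hi => by rw [if_pos hi])
  rw [h4] at h3
  rw [h3, ← ncomp_eq_card hw hreps, ← mul_assoc, ← mul_pow, qn_mul_z, P.inv_q]

end homfly

theorem evG_B {k : Type} [CommRing k] (P : Par k) : evG P (Polynomial.C (LaurentPolynomial.T 1)) = P.a := by
  rw [evG, Polynomial.coe_eval₂RingHom, Polynomial.eval₂_C, LaurentPolynomial.eval₂_T, zpow_one]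

theorem evG_B' {k : Type} [CommRing k] (P : Par k) : evG P (Polynomial.C (LaurentPolynomial.T (-1))) = ((P.a⁻¹ : kˣ) : k) := by
  rw [evG, Polynomial.coe_eval₂RingHom, Polynomial.eval₂_C, LaurentPolynomial.eval₂_T, zpow_neg, zpow_one]

theorem evG_X {k : Type} [CommRing k] (P : Par k) : evG P Polynomial.X = P.z ^ 2 := by
  rw [evG, Polynomial.coe_eval₂RingHom, Polynomial.eval₂_X]

theorem psi_X (p : ℕ) : psi p Polynomial.X = Polynomial.X * mp p := by
  rw [psi, Polynomial.coe_eval₂RingHom, Polynomial.eval₂_X]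

theorem psi_B (p : ℕ) : psi p (Polynomial.C (LaurentPolynomial.T 1)) = Polynomial.C (LaurentPolynomial.T p) := by
  rw [psi, Polynomial.coe_eval₂RingHom, Polynomial.eval₂_C, RingHom.comp_apply, LaurentPolynomial.eval₂_T, zpow_one]

theorem psi_B' (p : ℕ) : psi p (Polynomial.C (LaurentPolynomial.T (-1))) = Polynomial.C (LaurentPolynomial.T (-p)) := by
  rw [psi, Polynomial.coe_eval₂RingHom, Polynomial.eval₂_C, RingHom.comp_apply, LaurentPolynomial.eval₂_T, zpow_neg, zpow_one]
  rfl

theorem evG_psi_B {k : Type} [CommRing k] (P : Par k) (p : ℕ) :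
    evG P (psi p (Polynomial.C (LaurentPolynomial.T 1))) = (P.a : k) ^ p := by
  rw [psi_B, evG, Polynomial.coe_eval₂RingHom, Polynomial.eval₂_C, LaurentPolynomial.eval₂_T, zpow_natCast,
    Units.val_pow_eq_pow_val]

theorem evG_psi_B' {k : Type} [CommRing k] (P : Par k) (p : ℕ) :
    evG P (psi p (Polynomial.C (LaurentPolynomial.T (-1)))) = ((P.a⁻¹ : kˣ) : k) ^ p := by
  rw [psi_B', evG, Polynomial.coe_eval₂RingHom, Polynomial.eval₂_C, LaurentPolynomial.eval₂_T, zpow_neg,
    zpow_natCast, ← inv_pow, Units.val_pow_eq_pow_val]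

theorem evG_psi_X {k : Type} [CommRing k] (P : Par k) {p : ℕ} (hp : 0 < p) (h : P.qn p ^ 2 = 0) :
    evG P (psi p Polynomial.X) = 0 := by
  rw [psi_X, map_mul, evG_mp hp, h, mul_zero]

theorem swap_braid (i : ℕ) : Equiv.swap i (i+1) * Equiv.swap (i+1) (i+1+1) * Equiv.swap i (i+1) =
    Equiv.swap (i+1) (i+1+1) * Equiv.swap i (i+1) * Equiv.swap (i+1) (i+1+1) :=
  congrArg Subtype.val (s_braid i)

theorem swap_comm' {i j : ℕ} (h : i + 1 < j) : Equiv.swap i (i+1) * Equiv.swap j (j+1) =
    Equiv.swap j (j+1) * Equiv.swap i (i+1) :=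
  congrArg Subtype.val (s_comm h)

theorem perm_braid (i : ℕ) : perm [(i, true), (i+1, true), (i, true)] =
    perm [(i+1, true), (i, true), (i+1, true)] := by
  rw [perm_cons, perm_cons, perm_cons, perm_nil, perm_cons, perm_cons, perm_cons, perm_nil, mul_one, mul_one]
  have := swap_braid i
  rw [mul_assoc, mul_assoc] at this
  exact this

theorem perm_comm2 {i j : ℕ} (h : i + 1 < j) : perm [(i, true), (j, true)] = perm [(j, true), (i, true)] := by
  rw [perm_cons, perm_cons, perm_nil, perm_cons, perm_cons, perm_nil, mul_one, mul_one]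
  exact swap_comm' h

theorem perm_cancel (i : ℕ) : perm [(i, true), (i, false)] = 1 := by
  rw [perm_cons, perm_cons, perm_nil, mul_one]
  exact congrArg Subtype.val (s_mul_self i)

theorem cab_one (w : Word) : cab 1 w = w := by
  rw [cab]
  have : cabL 1 = fun l => [l] := by
    funext l
    obtain ⟨i, b⟩ := l
    cases b <;> simp [cabL, shW, blk, invW]
  rw [this]
  exact List.flatMap_singleton' w

theorem Zp_one {k : Type*} [CommRing k] (P : Par k) {n : ℕ} {w : Word} :
    Zp P 1 n w = Z1 P n w := by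
  have hX : X P.z 1 = 1 := by
    rw [X, sum_range_one, cWord]
    simp only [Nat.sub_self, List.range_zero, List.reverse_nil, List.map_nil]
    rw [ev_nil]
  rw [Zp, Z1, cab_one, one_mul, XL, hX]
  have e1 : (fun i => (sh P.z (1 * i)) (1 : H P.z)) = fun _ => (1 : H P.z) := funext (fun i => map_one _)
  rw [e1]
  have : ∀ l : List ℕ, (l.map (fun _ => (1 : H P.z))).prod = 1 := by
    intro l
    induction l with
    | nil => rfl
    | cons a l ih => rw [List.map_cons, List.prod_cons, ih, one_mul]
  rw [this, mul_one]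

theorem q0_pow_ne {n : ℕ} (hn : 0 < n) : q0 ^ n ≠ 1 := by
  intro h
  rw [q0, ← map_pow, ← map_one (algebraMap (MvPolynomial (Fin 2) ℚ) K0)] at h
  have h2 := IsFractionRing.injective (MvPolynomial (Fin 2) ℚ) K0 h
  have h3 := congrArg (MvPolynomial.eval (fun _ => (2:ℚ))) h2
  rw [map_pow, MvPolynomial.eval_X, map_one] at h3
  have : (1:ℚ) < 2 ^ n := one_lt_pow₀ (by norm_num) (by omega)
  rw [h3] at this
  exact lt_irrefl _ this

theorem sign_eq {p : ℕ} (hp : 0 < p) {n : ℕ} {w : Word} (hw : Valid n w) :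
    ((-1 : K0)) ^ (((p : ℤ) - 1) * selfWr w) = (-1) ^ ((p - 1) * w.length) := by
  obtain ⟨c, hc⟩ := selfWr_parity hw
  have h1 : ((p : ℤ) - 1) * selfWr w = (((p - 1) * w.length : ℕ) : ℤ) + 2 * (((p : ℤ) - 1) * c) := by
    have : selfWr w = w.length + (c + c) := by rw [← hc]; ring
    rw [this]
    push_cast [Nat.cast_sub hp]
    ring
  rw [h1, zpow_add₀ (by norm_num), zpow_natCast, zpow_mul]
  norm_num

/-- the congruence as an identity in the good case -/
theorem congr_special {k : Type} [CommRing k] {P : Par k} {p : ℕ} (hG : Good P p) :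
    ∀ n w, Valid n w → ∃ G : RR, (∀ (k' : Type) [CommRing k'] (P' : Par k'), Z1 P' n w = evG P' G) ∧
      Zp P p n w = (-1) ^ ((p - 1) * w.length) * evG P (psi p G) := by
  have hp := hG.pr.pos
  set B : RR := Polynomial.C (LaurentPolynomial.T 1) with hB
  set B' : RR := Polynomial.C (LaurentPolynomial.T (-1)) with hB'
  have evB : ∀ (k' : Type) [CommRing k'] (P' : Par k'), evG P' B = P'.a := fun k' _ P' => evG_B P'
  have evB' : ∀ (k' : Type) [CommRing k'] (P' : Par k'), evG P' B' = ((P'.a⁻¹ : k'ˣ) : k') :=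
    fun k' _ P' => evG_B' P'
  have evX : ∀ (k' : Type) [CommRing k'] (P' : Par k'), evG P' Polynomial.X = P'.z ^ 2 :=
    fun k' _ P' => evG_X P'
  have psB : evG P (psi p B) = (P.a : k) ^ p := evG_psi_B P p
  have psB' : evG P (psi p B') = ((P.a⁻¹ : kˣ) : k) ^ p := evG_psi_B' P p
  have psX : evG P (psi p Polynomial.X) = 0 := evG_psi_X P hp hG.sq
  refine braid_ind ?_ ?_ ?_ ?_ ?_ ?_ ?_ ?_
  · refine ⟨1, fun k' _ P' => ?_, ?_⟩
    · rw [Z1_zero, map_one]
    · rw [Zp_zero, map_one, map_one, List.length_nil, mul_zero, pow_zero, mul_one]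
  · rintro n w hw ⟨G, h1, h2⟩
    refine ⟨(B - B') * G, fun k' _ P' => ?_, ?_⟩
    · rw [Z1_free P' hw, h1, map_mul, map_sub, evB, evB']
    · rw [Zp_free P hp hw, h2, map_mul, map_mul, map_sub, map_sub, psB, psB']
      ring
  · rintro n w b hw ⟨G, h1, h2⟩
    refine ⟨(if b then B else B') * G, fun k' _ P' => ?_, ?_⟩
    · rw [Z1_markov P' hw, h1, map_mul]
      cases b
      · simp only [Bool.false_eq_true, if_false]; rw [evB']
      · simp only [if_true]; rw [evB]
    · rw [Zp_markov hG hw, h2, map_mul, map_mul, List.length_append, List.length_singleton, mul_add, pow_add,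
        mul_one]
      cases b
      · simp only [Bool.false_eq_true, if_false]; rw [psB']; ring
      · simp only [if_true]; rw [psB]; ring
  · rintro n u v hw ⟨G, h1, h2⟩
    refine ⟨G, fun k' _ P' => ?_, ?_⟩
    · rw [← Z1_conj P' hw, h1]
    · rw [← Zp_conj P hp hw, h2, List.length_append, List.length_append, add_comm u.length]
  · intro n u v i hi hw
    have hperm : perm (u ++ [(i, true), (i+1, true), (i, true)] ++ v) =
        perm (u ++ [(i+1, true), (i, true), (i+1, true)] ++ v) := by
      rw [perm_append, perm_append, perm_append, perm_append, perm_braid]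
    have hlen : (u ++ [(i, true), (i+1, true), (i, true)] ++ v : Word).length =
        (u ++ [(i+1, true), (i, true), (i+1, true)] ++ v : Word).length := by simp
    have hZ1 : ∀ (k' : Type) [CommRing k'] (P' : Par k'), Z1 P' n (u ++ [(i, true), (i+1, true), (i, true)] ++ v) =
        Z1 P' n (u ++ [(i+1, true), (i, true), (i+1, true)] ++ v) := fun k' _ P' =>
      Z1_congr P' hperm (by rw [ev_mid, ev_mid, ev_braid])
    have hZp : Zp P p n (u ++ [(i, true), (i+1, true), (i, true)] ++ v) =
        Zp P p n (u ++ [(i+1, true), (i, true), (i+1, true)] ++ v) :=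
      Zp_congr P hperm (by rw [ev_cab_append, ev_cab_append, ev_cab_append, ev_cab_append, ev_cab_braid])
    constructor
    · rintro ⟨G, h1, h2⟩
      exact ⟨G, fun k' _ P' => by rw [← hZ1, h1], by rw [← hZp, h2, hlen]⟩
    · rintro ⟨G, h1, h2⟩
      exact ⟨G, fun k' _ P' => by rw [hZ1, h1], by rw [hZp, h2, hlen]⟩
  · intro n u v i j hij hj hw
    have hperm : perm (u ++ [(i, true), (j, true)] ++ v) = perm (u ++ [(j, true), (i, true)] ++ v) := by
      rw [perm_append, perm_append, perm_append, perm_append, perm_comm2 hij]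
    have hlen : (u ++ [(i, true), (j, true)] ++ v : Word).length =
        (u ++ [(j, true), (i, true)] ++ v : Word).length := by simp
    have hZ1 : ∀ (k' : Type) [CommRing k'] (P' : Par k'), Z1 P' n (u ++ [(i, true), (j, true)] ++ v) =
        Z1 P' n (u ++ [(j, true), (i, true)] ++ v) := fun k' _ P' =>
      Z1_congr P' hperm (by rw [ev_mid, ev_mid, ev_comm2 P'.z hij])
    have hZp : Zp P p n (u ++ [(i, true), (j, true)] ++ v) =
        Zp P p n (u ++ [(j, true), (i, true)] ++ v) :=
      Zp_congr P hperm (by rw [ev_cab_append, ev_cab_append, ev_cab_append, ev_cab_append, ev_cab_comm P.z hp hij])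
    constructor
    · rintro ⟨G, h1, h2⟩
      exact ⟨G, fun k' _ P' => by rw [← hZ1, h1], by rw [← hZp, h2, hlen]⟩
    · rintro ⟨G, h1, h2⟩
      exact ⟨G, fun k' _ P' => by rw [hZ1, h1], by rw [hZp, h2, hlen]⟩
  · rintro n u v i hi hw ⟨G, h1, h2⟩
    have hperm : perm (u ++ [(i, true), (i, false)] ++ v) = perm (u ++ v) := by
      rw [perm_append, perm_append, perm_append, perm_cancel, mul_one]
    refine ⟨G, fun k' _ P' => ?_, ?_⟩
    · rw [← h1]
      refine Z1_congr P' hperm ?_
      have := ev_cancel P'.z i true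
      rw [Bool.not_true] at this
      rw [ev_mid, this, mul_one, ev_append]
    · have h3 : Zp P p n (u ++ [(i, true), (i, false)] ++ v) = Zp P p n (u ++ v) :=
        Zp_congr P hperm (by rw [ev_cab_append, ev_cab_append, ev_cab_cancel, mul_one, ev_cab_append])
      rw [h3, h2]
      have : (u ++ [(i, true), (i, false)] ++ v : Word).length = (u ++ v : Word).length + 2 := by
        simp only [List.length_append, List.length_cons, List.length_nil]; omega
      rw [this, mul_add, pow_add]
      have h5 : ((-1 : k)) ^ ((p - 1) * 2) = 1 := by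
        rw [mul_comm, pow_mul]; simp
      rw [h5, mul_one]
  · rintro n u v i hi hw ⟨G0, h1, h2⟩
    have hl1 : (u ++ [(i, true)] ++ v : Word).length = (u ++ v : Word).length + 1 := by
      simp only [List.length_append, List.length_cons, List.length_nil]; omega
    have hl2 : (u ++ [(i, false)] ++ v : Word).length = (u ++ v : Word).length + 1 := by
      simp only [List.length_append, List.length_cons, List.length_nil]; omega
    by_cases hs : (perm (v ++ u)).SameCycle i (i+1)
    · have hz := fun (k' : Type) [CommRing k'] (P' : Par k') => Z1_inter P' hi hw hs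
      have hzp := Zp_inter hG hi hw hs
      constructor
      · rintro ⟨G, h3, h4⟩
        refine ⟨G - Polynomial.X * G0, fun k' _ P' => ?_, ?_⟩
        · rw [map_sub, map_mul, evX, ← h3, ← h1, ← hz]; ring
        · rw [← hzp, h4, hl1, hl2, map_sub, map_mul, map_sub, map_mul, psX]; ring
      · rintro ⟨G, h3, h4⟩
        refine ⟨G + Polynomial.X * G0, fun k' _ P' => ?_, ?_⟩
        · rw [map_add, map_mul, evX, ← h3, ← h1, ← hz]; ring
        · rw [hzp, h4, hl1, hl2, map_add, map_mul, map_add, map_mul, psX]; ring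
    · have hz := fun (k' : Type) [CommRing k'] (P' : Par k') => Z1_self P' hi hw hs
      have hzp := Zp_self hG hi hw hs
      constructor
      · rintro ⟨G, h3, h4⟩
        refine ⟨G - G0, fun k' _ P' => ?_, ?_⟩
        · rw [map_sub, ← h3, ← h1, ← hz]; ring
        · have : Zp P p n (u ++ [(i, false)] ++ v) = Zp P p n (u ++ [(i, true)] ++ v) -
              (-1) ^ (p - 1) * Zp P p n (u ++ v) := by rw [← hzp]; ring
          rw [this, h4, h2, hl1, hl2, map_sub, map_sub, mul_add, pow_add, mul_one]; ring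
      · rintro ⟨G, h3, h4⟩
        refine ⟨G + G0, fun k' _ P' => ?_, ?_⟩
        · rw [map_add, ← h3, ← h1, ← hz]; ring
        · have : Zp P p n (u ++ [(i, true)] ++ v) = Zp P p n (u ++ [(i, false)] ++ v) +
              (-1) ^ (p - 1) * Zp P p n (u ++ v) := by rw [← hzp]; ring
          rw [this, h4, h2, hl1, hl2, map_add, map_add, mul_add, pow_add, mul_one]; ring

theorem final : FinalStatement := by
  obtain ⟨PK, hq, ha⟩ := exists_ParK
  refine ⟨⟨_, hq ▸ ha ▸ homfly_tr PK⟩, ?_⟩
  intro Q hQ p hp n w hw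
  have hQ' : IsHomfly (PK.q : K0) (PK.a : K0) Q := by rw [hq, ha]; exact hQ
  have hqn : ∀ n, 0 < n → PK.qn n ≠ 0 := by
    intro n hn h0
    have h1 := qn_mul_z PK n
    rw [h0, mul_zero, PK.inv_q, hq] at h1
    have h2 : q0 ≠ 0 := by
      rw [← hq]; exact PK.q.ne_zero
    have h3 : q0 ^ (n + n) = 1 := by
      rw [pow_add]
      have h4 : q0 ^ n = q0⁻¹ ^ n := (sub_eq_zero.1 h1.symm)
      nth_rewrite 2 [h4]
      rw [← mul_pow, mul_inv_cancel₀ h2, one_pow]
    exact q0_pow_ne (by omega) h3
  obtain ⟨k, _, P, hG, hdiv⟩ := exists_special p hp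
  obtain ⟨G, h1, h2⟩ := congr_special hG n w hw
  obtain ⟨Gp, h3⟩ := Zp_int hp.pos hw
  have h4 : evG P (Gp - (-1) ^ ((p - 1) * w.length) * psi p G) = 0 := by
    rw [map_sub, map_mul, map_pow, map_neg, map_one, ← h3, h2, sub_self]
  obtain ⟨C, hC⟩ := hdiv _ h4
  refine ⟨evG PK C, evG_mem_adjoin PK hq ha C, ?_⟩
  have e1 : Zch q0 Q p n w = evG PK Gp := by
    rw [← hq, Zch_eq PK hqn hQ' hp.pos hw, h3]
  have e2 : Zch q0 Q 1 n w = evG PK G := by
    rw [← hq, Zch_eq PK hqn hQ' one_pos hw, Zp_one PK, h1]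
  have e3 : qnum q0 p = PK.qn p := by rw [← hq, qnum_eq]
  rw [e1, e2, e3, adams_evG PK hq ha hp.pos, ← evG_mp hp.pos, ← map_mul, ← hC, map_sub, map_mul, map_pow,
    map_neg, map_one]
  rw [sign_eq hp.pos hw]

end Pool.Agent.HL
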