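import Pool.Agent.Lib.HL21.Cas
import Pool.Agent.Lib.HL21.Rel

/-! # Module Path: two-colourings of the strands and the path lemma -/

namespace Pool.Agent.HL

open Finset

variable {k : Type*} [CommRing k]

/-- the colour (`true` = second block) of position `i` under `d` -/
def col (j : ℕ) (d : S) (i : ℕ) : Bool := decide (j ≤ d.1.symm i)

/-- the set of positions of colour `true` -/
def colset (j n : ℕ) (d : S) : Finset ℕ := (range n).filter (fun i => j ≤ d.1.symm i)

/-- the diagonal coefficient of a letter in the basis `T_d` of `H_n` over the Young subalgebra -/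
noncomputable def del (z : k) (j : ℕ) (d : S) (l : Letter) : H z :=
  if col j d l.1 = col j d (l.1 + 1) then evl z (d.1.symm l.1, l.2)
  else if l.2 = col j d l.1 then (if l.2 then z • 1 else (-z) • 1) else 0

/-- position inside the blocks, in terms of the set `A` of positions of colour `true` -/
def rk (j : ℕ) (A : Finset ℕ) (i : ℕ) : ℕ :=
  if i ∈ A then j + (A.filter (· < i)).card else i - (A.filter (· < i)).card

/-- the diagonal coefficient in terms of `A` -/
noncomputable def delA (z : k) (j : ℕ) (A : Finset ℕ) (l : Letter) : H z :=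
  if (l.1 ∈ A ↔ l.1 + 1 ∈ A) then evl z (rk j A l.1, l.2)
  else if (l.2 = true ↔ l.1 ∈ A) then (if l.2 then z • 1 else (-z) • 1) else 0

theorem fj_mono (j : ℕ) : Monotone (fj j) := by
  intro a b h
  simp only [fj]
  split_ifs <;> omega

private theorem D_fix {n j : ℕ} {d : S} (hd : d ∈ D (fj j) n) {i : ℕ} (hi : n ≤ i) : d.1 i = i :=
  (mem_W.mp (mem_D.mp hd).1).1 i hi

private theorem D_lt0 {n j : ℕ} {d : S} (hd : d ∈ D (fj j) n) {a b : ℕ} (hab : a < b) (hb : b < n)
    (hj : b < j) : d.1 a < d.1 b := by
  refine (mem_D.mp hd).2 a b hab hb ?_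
  simp only [fj]
  rw [if_pos (by omega), if_pos hj]

private theorem D_lt1 {n j : ℕ} {d : S} (hd : d ∈ D (fj j) n) {a b : ℕ} (hab : a < b) (hb : b < n)
    (hj : j ≤ a) : d.1 a < d.1 b := by
  refine (mem_D.mp hd).2 a b hab hb ?_
  simp only [fj]
  rw [if_neg (by omega), if_neg (by omega)]

private theorem D_symm_fix {n j : ℕ} {d : S} (hd : d ∈ D (fj j) n) {i : ℕ} (hi : n ≤ i) :
    d.1.symm i = i := by
  rw [Equiv.symm_apply_eq]
  exact (D_fix hd hi).symm

private theorem D_symm_lt {n j : ℕ} {d : S} (hd : d ∈ D (fj j) n) {i : ℕ} (hi : i < n) :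
    d.1.symm i < n := by
  by_contra h
  push Not at h
  have h1 := D_fix hd h
  rw [Equiv.apply_symm_apply] at h1
  omega

private theorem D_apply_lt {n j : ℕ} {d : S} (hd : d ∈ D (fj j) n) {i : ℕ} (hi : i < n) :
    d.1 i < n := by
  by_contra h
  push Not at h
  have h1 := D_symm_fix hd h
  rw [Equiv.symm_apply_apply] at h1
  omega

theorem D_symm {n j : ℕ} (hj : j ≤ n) {d : S} (hd : d ∈ D (fj j) n) {i : ℕ} (hi : i < n) :
    d.1.symm i = rk j (colset j n d) i := by
  have hx : d.1 (d.1.symm i) = i := Equiv.apply_symm_apply _ _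
  have hxn := D_symm_lt hd hi
  set x := d.1.symm i with hxdef
  unfold rk
  by_cases hjx : j ≤ x
  · have hiA : i ∈ colset j n d := by
      simp only [colset, mem_filter, mem_range]
      exact ⟨hi, hjx⟩
    rw [if_pos hiA]
    have h1 : (colset j n d).filter (· < i) = (Ico j x).map d.1.toEmbedding := by
      ext y
      simp only [colset, mem_filter, mem_range, mem_map, mem_Ico, Equiv.coe_toEmbedding]
      constructor
      · rintro ⟨⟨hy, hy1⟩, hy2⟩
        refine ⟨d.1.symm y, ⟨hy1, ?_⟩, Equiv.apply_symm_apply _ _⟩
        by_contra h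
        push Not at h
        rcases h.eq_or_lt with h | h
        · have : d.1 x = y := by rw [h, Equiv.apply_symm_apply]
          omega
        · have := D_lt1 hd h (D_symm_lt hd hy) hjx
          rw [Equiv.apply_symm_apply d.1 y] at this
          omega
      · rintro ⟨x', ⟨h2, h3⟩, rfl⟩
        have := D_lt1 hd h3 hxn h2
        refine ⟨⟨by omega, ?_⟩, by omega⟩
        rw [Equiv.symm_apply_apply]
        exact h2
    rw [h1, card_map, Nat.card_Ico]
    omega
  · have hiA : i ∉ colset j n d := by
      simp only [colset, mem_filter, mem_range]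
      rintro ⟨_, h⟩
      exact hjx h
    rw [if_neg hiA]
    push Not at hjx
    have h0 : (colset j n d).filter (· < i) = (range i).filter (fun y => j ≤ d.1.symm y) := by
      ext y
      simp only [colset, mem_filter, mem_range]
      constructor
      · rintro ⟨⟨h1, h2⟩, h3⟩
        exact ⟨h3, h2⟩
      · rintro ⟨h1, h2⟩
        exact ⟨⟨by omega, h2⟩, h1⟩
    have h1 : (range i).filter (fun y => ¬ j ≤ d.1.symm y) = (range x).map d.1.toEmbedding := by
      ext y
      simp only [mem_filter, mem_range, mem_map, Equiv.coe_toEmbedding]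
      constructor
      · rintro ⟨hy, hy1⟩
        refine ⟨d.1.symm y, ?_, Equiv.apply_symm_apply _ _⟩
        by_contra h
        push Not at h hy1
        rcases h.eq_or_lt with h | h
        · have : d.1 x = y := by rw [h, Equiv.apply_symm_apply]
          omega
        · have := D_lt0 hd h (D_symm_lt hd (by omega)) (by omega)
          rw [Equiv.apply_symm_apply d.1 y] at this
          omega
      · rintro ⟨x', h3, rfl⟩
        have := D_lt0 hd h3 hxn hjx
        refine ⟨by omega, ?_⟩
        rw [Equiv.symm_apply_apply]
        omega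
    have h2 := Finset.card_filter_add_card_filter_not (s := range i) (fun y => j ≤ d.1.symm y)
    rw [h1, card_map, card_range, card_range] at h2
    rw [h0]
    omega

private theorem mem_colset {n j : ℕ} {d : S} {i : ℕ} (hi : i < n) :
    i ∈ colset j n d ↔ col j d i = true := by
  simp only [colset, col, mem_filter, mem_range, decide_eq_true_eq]
  exact ⟨fun h => h.2, fun h => ⟨hi, h⟩⟩

theorem del_eq_delA (z : k) {n j : ℕ} (hj : j ≤ n) {d : S} (hd : d ∈ D (fj j) n) {l : Letter}
    (hl : l.1 + 1 < n) : del z j d l = delA z j (colset j n d) l := by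
  have h1 : l.1 ∈ colset j n d ↔ col j d l.1 = true := mem_colset (by omega)
  have h2 : l.1 + 1 ∈ colset j n d ↔ col j d (l.1 + 1) = true := mem_colset hl
  have h3 : (col j d l.1 = col j d (l.1 + 1)) ↔ (l.1 ∈ colset j n d ↔ l.1 + 1 ∈ colset j n d) := by
    rw [h1, h2, Bool.eq_iff_iff]
  have h4 : (l.2 = col j d l.1) ↔ (l.2 = true ↔ l.1 ∈ colset j n d) := by
    rw [h1, Bool.eq_iff_iff]
  unfold del delA
  rw [← D_symm hj hd (by omega : l.1 < n)]
  by_cases h5 : col j d l.1 = col j d (l.1 + 1)
  · rw [if_pos h5, if_pos (h3.mp h5)]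
  · rw [if_neg h5, if_neg (fun h => h5 (h3.mpr h))]
    by_cases h6 : l.2 = col j d l.1
    · rw [if_pos h6, if_pos (h4.mp h6)]
    · rw [if_neg h6, if_neg (fun h => h6 (h4.mpr h))]

/-- neighbouring positions of the same colour come from neighbouring strands -/
private theorem symm_succ {n j : ℕ} (hj : j ≤ n) {d : S} (hd : d ∈ D (fj j) n) {i : ℕ}
    (hi : i + 1 < n) (hc : col j d i = col j d (i + 1)) : d.1.symm (i + 1) = d.1.symm i + 1 := by
  have h1 : i ∈ colset j n d ↔ col j d i = true := mem_colset (by omega)
  have h2 : i + 1 ∈ colset j n d ↔ col j d (i + 1) = true := mem_colset hi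
  rw [D_symm hj hd hi, D_symm hj hd (by omega : i < n)]
  unfold rk
  by_cases h : i ∈ colset j n d
  · have h' : i + 1 ∈ colset j n d := h2.mpr (hc ▸ h1.mp h)
    rw [if_pos h, if_pos h']
    have h3 : (colset j n d).filter (· < i + 1) = insert i ((colset j n d).filter (· < i)) := by
      ext y
      simp only [mem_filter, mem_insert]
      constructor
      · rintro ⟨h4, h5⟩
        rcases (Nat.lt_succ_iff.mp h5).eq_or_lt with h6 | h6
        · exact Or.inl h6
        · exact Or.inr ⟨h4, h6⟩
      · rintro (h4 | ⟨h4, h5⟩)
        · rw [h4]; exact ⟨h, by omega⟩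
        · exact ⟨h4, by omega⟩
    rw [h3, card_insert_of_notMem (by simp)]
    omega
  · have h' : i + 1 ∉ colset j n d := fun h4 => h (h1.mpr (hc ▸ h2.mp h4))
    rw [if_neg h, if_neg h']
    have h3 : (colset j n d).filter (· < i + 1) = (colset j n d).filter (· < i) := by
      ext y
      simp only [mem_filter]
      constructor
      · rintro ⟨h4, h5⟩
        rcases (Nat.lt_succ_iff.mp h5).eq_or_lt with h6 | h6
        · rw [h6] at h4; exact absurd h4 h
        · exact ⟨h4, h6⟩
      · rintro ⟨h4, h5⟩
        exact ⟨h4, by omega⟩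
    rw [h3]
    have h4 : ((colset j n d).filter (· < i)).card ≤ i := by
      calc ((colset j n d).filter (· < i)).card ≤ (range i).card := by
            apply card_le_card
            intro y hy
            rw [mem_filter] at hy
            exact mem_range.mpr hy.2
        _ = i := card_range i
    omega

private theorem fj_eq_of_col {j : ℕ} {d : S} {i : ℕ} (hc : col j d i = col j d (i + 1)) :
    fj j (d.1.symm i) = fj j (d.1.symm (i + 1)) := by
  simp only [col, decide_eq_decide] at hc
  simp only [fj]
  split_ifs <;> omega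

theorem evl_mem_HW (z : k) {f : ℕ → ℕ} {N : ℕ} {l : Letter} (hi : l.1 + 1 < N)
    (hf : f l.1 = f (l.1 + 1)) : evl z l ∈ HW z f N := by
  unfold evl
  split_ifs
  · exact g_mem_HW z hi hf
  · exact gi_mem_HW z hi hf

theorem del_mem (z : k) {n j : ℕ} (hj : j ≤ n) {d : S} (hd : d ∈ D (fj j) n) {l : Letter}
    (hl : l.1 + 1 < n) : del z j d l ∈ HW z (fj j) n := by
  unfold del
  split_ifs with h1 h2 h3
  · have h4 := symm_succ hj hd hl h1
    refine evl_mem_HW z ?_ ?_
    · have := D_symm_lt hd hl
      simp only
      omega
    · simp only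
      rw [← h4]
      exact fj_eq_of_col h1
  · exact Submodule.smul_mem _ _ (one_mem_HW z _ _)
  · exact Submodule.smul_mem _ _ (one_mem_HW z _ _)
  · exact Submodule.zero_mem _

theorem colset_card {n j : ℕ} (hj : j ≤ n) {d : S} (hd : d ∈ D (fj j) n) :
    (colset j n d).card = n - j := by
  have h1 : colset j n d = (Ico j n).map d.1.toEmbedding := by
    ext y
    simp only [colset, mem_filter, mem_range, mem_map, mem_Ico, Equiv.coe_toEmbedding]
    constructor
    · rintro ⟨hy, hy1⟩
      exact ⟨d.1.symm y, ⟨hy1, D_symm_lt hd hy⟩, Equiv.apply_symm_apply _ _⟩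
    · rintro ⟨x, ⟨h2, h3⟩, rfl⟩
      refine ⟨D_apply_lt hd h3, ?_⟩
      rw [Equiv.symm_apply_apply]
      exact h2
  rw [h1, card_map, Nat.card_Ico]

private theorem card_filter_lt_le (A : Finset ℕ) (i : ℕ) : (A.filter (· < i)).card ≤ i := by
  calc (A.filter (· < i)).card ≤ (range i).card := by
        apply card_le_card
        intro y hy
        rw [mem_filter] at hy
        exact mem_range.mpr hy.2
    _ = i := card_range i

private theorem rk_mono1 {j : ℕ} {A : Finset ℕ} {a b : ℕ} (hab : a < b) (ha : a ∈ A) (hb : b ∈ A) :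
    rk j A a < rk j A b := by
  unfold rk
  rw [if_pos ha, if_pos hb]
  have : (A.filter (· < a)).card < (A.filter (· < b)).card := by
    apply card_lt_card
    rw [ssubset_iff_of_subset]
    · exact ⟨a, by simp [ha, hab], by simp⟩
    · intro y hy
      rw [mem_filter] at hy ⊢
      exact ⟨hy.1, by omega⟩
  omega

private theorem rk_mono0 {j : ℕ} {A : Finset ℕ} {a b : ℕ} (hab : a < b) (ha : a ∉ A) (hb : b ∉ A) :
    rk j A a < rk j A b := by
  unfold rk
  rw [if_neg ha, if_neg hb]
  have h1 : ∀ i, (A.filter (· < i)).card + ((range i).filter (fun y => y ∉ A)).card = i := by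
    intro i
    have h2 := Finset.card_filter_add_card_filter_not (s := range i) (fun y => y ∈ A)
    rw [card_range] at h2
    have h3 : A.filter (· < i) = (range i).filter (fun y => y ∈ A) := by
      ext y
      simp only [mem_filter, mem_range]
      tauto
    rw [h3]
    exact h2
  have h2 := h1 a
  have h3 := h1 b
  have : ((range a).filter (fun y => y ∉ A)).card < ((range b).filter (fun y => y ∉ A)).card := by
    apply card_lt_card
    rw [ssubset_iff_of_subset]
    · exact ⟨a, by simp [ha, hab], by simp⟩
    · intro y hy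
      rw [mem_filter, mem_range] at hy ⊢
      exact ⟨by omega, hy.2⟩
  omega

/-- every subset with `n - j` elements is a colouring -/
private theorem exists_colset {n j : ℕ} (hj : j ≤ n) {A : Finset ℕ} (hA : A ⊆ range n)
    (hc : A.card = n - j) : ∃ d ∈ D (fj j) n, colset j n d = A := by
  have hrk1 : ∀ i ∈ A, j ≤ rk j A i ∧ rk j A i < n := by
    intro i hi
    unfold rk
    rw [if_pos hi]
    have : (A.filter (· < i)).card < A.card := by
      apply card_lt_card
      rw [ssubset_iff_of_subset (filter_subset _ _)]
      exact ⟨i, hi, by simp⟩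
    omega
  have hrk0 : ∀ i, i < n → i ∉ A → rk j A i < j := by
    intro i hi hiA
    unfold rk
    rw [if_neg hiA]
    have h1 : (range n).filter (fun y => y ∉ A) = range n \ A := by
      ext y; simp
    have h2 : (range n \ A).card = j := by
      rw [card_sdiff_of_subset hA, card_range, hc]; omega
    have h3 : ((range i).filter (fun y => y ∉ A)).card < (range n \ A).card := by
      apply card_lt_card
      rw [ssubset_iff_of_subset]
      · exact ⟨i, by simp [hi, hiA], by simp⟩
      · intro y hy
        rw [mem_filter, mem_range] at hy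
        rw [mem_sdiff, mem_range]
        exact ⟨by omega, hy.2⟩
    have h4 := Finset.card_filter_add_card_filter_not (s := range i) (fun y => y ∈ A)
    rw [card_range] at h4
    have h5 : A.filter (· < i) = (range i).filter (fun y => y ∈ A) := by
      ext y
      simp only [mem_filter, mem_range]
      tauto
    rw [h5]
    omega
  set r : ℕ → ℕ := fun i => if i < n then rk j A i else i with hr
  have hrlt : ∀ i, i < n → r i < n := by
    intro i hi
    rw [hr]
    simp only
    rw [if_pos hi]
    by_cases hiA : i ∈ A
    · exact (hrk1 i hiA).2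
    · have := hrk0 i hi hiA
      omega
  have hinjn : ∀ a b, a < b → b < n → r a ≠ r b := by
    intro a b hab hb
    rw [hr]
    simp only
    rw [if_pos (by omega), if_pos hb]
    by_cases ha : a ∈ A <;> by_cases hb' : b ∈ A
    · exact (rk_mono1 hab ha hb').ne
    · have h1 := hrk1 a ha
      have h2 := hrk0 b hb hb'
      omega
    · have h1 := hrk1 b hb'
      have h2 := hrk0 a (by omega) ha
      omega
    · exact (rk_mono0 hab ha hb').ne
  have hrge : ∀ i, n ≤ i → r i = i := by
    intro i hi
    rw [hr]
    simp only
    rw [if_neg (by omega)]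
  have hinj : Function.Injective r := by
    intro a b hab
    by_contra hne
    wlog h : a < b generalizing a b
    · exact this hab.symm (Ne.symm hne) (by omega)
    by_cases hb : b < n
    · exact hinjn a b h hb hab
    · push Not at hb
      by_cases ha : a < n
      · have h1 := hrlt a ha
        rw [hab, hrge b hb] at h1
        omega
      · rw [hrge a (by omega), hrge b hb] at hab
        exact hne hab
  have hsurj : Function.Surjective r := by
    intro y
    by_cases hy : y < n
    · have h1 : (range n).image r = range n := by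
        apply Finset.eq_of_subset_of_card_le
        · intro x hx
          rw [mem_image] at hx
          obtain ⟨i, hi, rfl⟩ := hx
          rw [mem_range] at hi ⊢
          exact hrlt i hi
        · rw [card_image_of_injective _ hinj]
      have h2 : y ∈ (range n).image r := by rw [h1]; exact mem_range.mpr hy
      rw [mem_image] at h2
      obtain ⟨i, _, hi⟩ := h2
      exact ⟨i, hi⟩
    · exact ⟨y, hrge y (by omega)⟩
  set e : Equiv.Perm ℕ := Equiv.ofBijective r ⟨hinj, hsurj⟩ with he
  have hev : ∀ i, e i = r i := fun i => rfl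
  have hesymm : ∀ i, n ≤ i → e.symm i = i := by
    intro i hi
    rw [Equiv.symm_apply_eq, hev, hrge i hi]
  have hesymmlt : ∀ i, i < n → e.symm i < n := by
    intro i hi
    by_contra h
    push Not at h
    have h1 := hrge _ h
    rw [← hev, Equiv.apply_symm_apply] at h1
    omega
  refine ⟨⟨e.symm, n, hesymm⟩, ?_, ?_⟩
  · rw [mem_D]
    constructor
    · rw [mem_W]
      exact ⟨hesymm, fun _ => rfl⟩
    · intro a b hab hb hf
      simp only
      by_contra hcon
      have hne : e.symm a ≠ e.symm b := fun h => by
        have := e.symm.injective h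
        omega
      have hlt : e.symm b < e.symm a := by omega
      have h1 : r (e.symm a) = a := by rw [← hev, Equiv.apply_symm_apply]
      have h2 : r (e.symm b) = b := by rw [← hev, Equiv.apply_symm_apply]
      have ha' := hesymmlt a (by omega)
      have hb' := hesymmlt b hb
      have h1' : rk j A (e.symm a) = a := by
        have : r (e.symm a) = rk j A (e.symm a) := by rw [hr]; simp only; rw [if_pos ha']
        omega
      have h2' : rk j A (e.symm b) = b := by
        have : r (e.symm b) = rk j A (e.symm b) := by rw [hr]; simp only; rw [if_pos hb']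
        omega
      simp only [fj] at hf
      by_cases hA1 : e.symm a ∈ A <;> by_cases hA2 : e.symm b ∈ A
      · have := rk_mono1 (j := j) hlt hA2 hA1
        omega
      · have h3 := hrk1 _ hA1
        have h4 := hrk0 _ hb' hA2
        omega
      · have h3 := hrk1 _ hA2
        have h4 := hrk0 _ ha' hA1
        rw [if_pos (by omega), if_neg (by omega)] at hf
        omega
      · have := rk_mono0 (j := j) hlt hA2 hA1
        omega
  · ext i
    simp only [colset, mem_filter, mem_range, Equiv.symm_symm]
    rw [hev]
    constructor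
    · rintro ⟨hi, h1⟩
      by_contra hiA
      have h2 := hrk0 i hi hiA
      have : r i = rk j A i := by rw [hr]; simp only; rw [if_pos hi]
      omega
    · intro hiA
      have hi : i < n := mem_range.mp (hA hiA)
      have h2 := hrk1 i hiA
      have : r i = rk j A i := by rw [hr]; simp only; rw [if_pos hi]
      exact ⟨hi, by omega⟩

/-- `D (fj j) n` is in bijection with the subsets of `range n` with `n - j` elements. -/
theorem sum_D {n j : ℕ} (hj : j ≤ n) {M : Type*} [AddCommMonoid M] (G : Finset ℕ → M) :
    ∑ d ∈ D (fj j) n, G (colset j n d) = ∑ A ∈ powersetCard (n - j) (range n), G A := by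
  refine Finset.sum_bij (fun d _ => colset j n d) ?_ ?_ ?_ ?_
  · intro d hd
    rw [mem_powersetCard]
    refine ⟨?_, colset_card hj hd⟩
    intro i hi
    simp only [colset, mem_filter] at hi
    exact hi.1
  · intro d hd d' hd' h
    have h1 : ∀ i, d.1.symm i = d'.1.symm i := by
      intro i
      by_cases hi : i < n
      · rw [D_symm hj hd hi, D_symm hj hd' hi, h]
      · rw [D_symm_fix hd (by omega), D_symm_fix hd' (by omega)]
    have h2 : d.1.symm = d'.1.symm := Equiv.ext h1
    have h3 : d.1 = d'.1 := by rw [← Equiv.symm_symm d.1, h2, Equiv.symm_symm]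
    exact Subtype.ext h3
  · intro A hA
    rw [mem_powersetCard] at hA
    obtain ⟨d, hd, h⟩ := exists_colset hj hA.1 hA.2
    exact ⟨d, hd, h⟩
  · intro d hd
    rfl

/-- same colour: the letter slides through `T_d` -/
theorem slide_same (z : k) {n j : ℕ} (hj : j ≤ n) {d : S} (hd : d ∈ D (fj j) n) {l : Letter}
    (hl : l.1 + 1 < n) (hc : col j d l.1 = col j d (l.1 + 1)) :
    evl z l * T z d = T z d * evl z (d.1.symm l.1, l.2) := by
  have h1 := symm_succ hj hd hl hc
  have hg : g z l.1 * T z d = T z d * g z (d.1.symm l.1) := by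
    rw [sT_lt z (by omega), Ts_lt z]
    · congr 1
      apply Subtype.ext
      apply Equiv.ext
      intro x
      change (s l.1).1 (d.1 x) = d.1 ((s (d.1.symm l.1)).1 x)
      rw [s_apply, s_apply, ← h1]
      by_cases hx : x = d.1.symm l.1
      · rw [if_pos hx, hx, Equiv.apply_symm_apply, if_pos rfl, Equiv.apply_symm_apply]
      · rw [if_neg hx]
        have hx1 : d.1 x ≠ l.1 := fun h => hx (by rw [← h, Equiv.symm_apply_apply])
        rw [if_neg hx1]
        by_cases hx2 : x = d.1.symm (l.1 + 1)
        · rw [if_pos hx2, hx2, Equiv.apply_symm_apply, if_pos rfl, Equiv.apply_symm_apply]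
        · have hx3 : d.1 x ≠ l.1 + 1 := fun h => hx2 (by rw [← h, Equiv.symm_apply_apply])
          rw [if_neg hx2, if_neg hx3]
    · rw [← h1, Equiv.apply_symm_apply, Equiv.apply_symm_apply]
      omega
  unfold evl
  simp only
  split_ifs
  · exact hg
  · unfold gi
    rw [sub_mul, mul_sub, hg, smul_one_mul, mul_smul_one]

/-- The span of the `T_v` with `v⁻¹ i` in a fixed block. -/
private noncomputable def Mc (z : k) (j i : ℕ) (c : Bool) : Submodule k (H z) :=
  Submodule.span k (T z '' {v : S | col j v i = c})

private theorem col_s {j i m : ℕ} (him : i < m) (v : S) : col j (s m * v) i = col j v i := by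
  simp only [col]
  have h : (s m * v).1.symm i = v.1.symm i := by
    have h1 : (s m * v).1.symm i = v.1.symm ((s m).1.symm i) := rfl
    have h2 : (s m).1.symm i = i := by
      rw [Equiv.symm_apply_eq, s_apply, if_neg (by omega), if_neg (by omega)]
    rw [h1, h2]
  rw [h]

private theorem g_mul_Mc (z : k) {j i m : ℕ} {c : Bool} (him : i < m) {x : H z}
    (hx : x ∈ Mc z j i c) : g z m * x ∈ Mc z j i c := by
  unfold Mc at hx ⊢
  induction hx using Submodule.span_induction with
  | mem x h =>
    obtain ⟨v, hv, rfl⟩ := h
    have h1 : T z (s m * v) ∈ Submodule.span k (T z '' {v : S | col j v i = c}) := by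
      apply Submodule.subset_span
      refine ⟨s m * v, ?_, rfl⟩
      change col j (s m * v) i = c
      rw [col_s him]; exact hv
    have h2 : T z v ∈ Submodule.span k (T z '' {v : S | col j v i = c}) :=
      Submodule.subset_span ⟨v, hv, rfl⟩
    rcases lt_trichotomy (v.1.symm m) (v.1.symm (m + 1)) with h | h | h
    · rw [sT_lt z h]; exact h1
    · exact absurd (v.1.symm.injective h) (by omega)
    · rw [sT_gt z h]
      exact Submodule.add_mem _ h1 (Submodule.smul_mem _ _ h2)
  | zero => rw [mul_zero]; exact Submodule.zero_mem _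
  | add x y _ _ hx hy => rw [mul_add]; exact Submodule.add_mem _ hx hy
  | smul a x _ hx => rw [mul_smul_comm]; exact Submodule.smul_mem _ _ hx

private theorem evl_mul_Mc (z : k) {j i : ℕ} {l : Letter} {c : Bool} (him : i < l.1) {x : H z}
    (hx : x ∈ Mc z j i c) : evl z l * x ∈ Mc z j i c := by
  unfold evl
  split_ifs
  · exact g_mul_Mc z him hx
  · unfold gi
    rw [sub_mul, smul_one_mul]
    exact Submodule.sub_mem _ (g_mul_Mc z him hx) (Submodule.smul_mem _ _ hx)

private theorem ev_mul_Mc (z : k) {j i : ℕ} {w : Word} {c : Bool} (hw : ∀ l ∈ w, i < l.1) {x : H z}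
    (hx : x ∈ Mc z j i c) : ev z w * x ∈ Mc z j i c := by
  induction w with
  | nil => rw [ev_nil, one_mul]; exact hx
  | cons l w ih =>
    rw [ev_cons, mul_assoc]
    exact evl_mul_Mc z (hw l (by simp)) (ih (fun l' hl' => hw l' (by simp [hl'])))

private theorem τ_Mc (z : k) {n j i : ℕ} {d : S} (hd : d ∈ D (fj j) n) {b : H z}
    (hb : b ∈ HW z (fj j) n) {c : Bool} (hc : c ≠ col j d i) {x : H z} (hx : x ∈ Mc z j i c) :
    τ z (b * T z d⁻¹ * x) = 0 := by
  unfold Mc at hx
  induction hx using Submodule.span_induction with
  | mem x h =>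
    obtain ⟨v, hv, rfl⟩ := h
    unfold HW at hb
    induction hb using Submodule.span_induction with
    | mem b h =>
      obtain ⟨u, hu, rfl⟩ := h
      have hu' : u ∈ W (fj j) n := hu
      rw [T_coset_inv z (fj_mono j) hd hu', τ_TT, if_neg]
      intro h1
      apply hc
      have h2 : v = (u * d⁻¹)⁻¹ := (inv_eq_of_mul_eq_one_right h1).symm
      have h3 : v.1.symm i = u.1 (d.1.symm i) := by
        rw [h2]
        rfl
      have h4 := (mem_W.mp hu').2 (d.1.symm i)
      have hv' : col j v i = c := hv
      rw [← hv']
      simp only [col, h3]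
      simp only [fj] at h4
      rw [decide_eq_decide]
      split_ifs at h4 <;> omega
    | zero => rw [zero_mul, zero_mul, map_zero]
    | add x y _ _ hx hy => rw [add_mul, add_mul, map_add, hx, hy, add_zero]
    | smul a x _ hx => rw [smul_mul_assoc, smul_mul_assoc, map_smul, hx, smul_zero]
  | zero => rw [mul_zero, map_zero]
  | add x y _ _ hx hy => rw [mul_add, map_add, hx, hy, add_zero]
  | smul a x _ hx => rw [mul_smul_comm, map_smul, hx, smul_zero]

/-- different colours: the letter acts by the diagonal coefficient plus a term of the other colour -/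
private theorem evl_T_diff (z : k) {j : ℕ} {d : S} {l : Letter}
    (hc : col j d l.1 ≠ col j d (l.1 + 1)) :
    ∃ y ∈ Mc z j l.1 (col j d (l.1 + 1)), evl z l * T z d = y + T z d * del z j d l := by
  have hy : T z (s l.1 * d) ∈ Mc z j l.1 (col j d (l.1 + 1)) := by
    apply Submodule.subset_span
    refine ⟨s l.1 * d, ?_, rfl⟩
    change col j (s l.1 * d) l.1 = col j d (l.1 + 1)
    simp only [col]
    have h : (s l.1 * d).1.symm l.1 = d.1.symm (l.1 + 1) := by
      have h1 : (s l.1 * d).1.symm l.1 = d.1.symm ((s l.1).1.symm l.1) := rfl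
      have h2 : (s l.1).1.symm l.1 = l.1 + 1 := by
        rw [Equiv.symm_apply_eq, s_apply, if_neg (by omega), if_pos rfl]
      rw [h1, h2]
    rw [h]
  refine ⟨T z (s l.1 * d), hy, ?_⟩
  unfold del
  rw [if_neg hc]
  by_cases h1 : col j d l.1 = true
  · have h2 : col j d (l.1 + 1) = false := by
      cases h : col j d (l.1 + 1)
      · rfl
      · rw [h1, h] at hc; exact absurd rfl hc
    have h3 : d.1.symm (l.1 + 1) < d.1.symm l.1 := by
      simp only [col, decide_eq_true_eq, decide_eq_false_iff_not] at h1 h2
      omega
    unfold evl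
    cases h4 : l.2
    · simp only [Bool.false_eq_true, if_false]
      rw [if_neg (by rw [h1]; simp), mul_zero, add_zero]
      unfold gi
      rw [sub_mul, smul_one_mul, sT_gt z h3, add_sub_cancel_right]
    · simp only [if_true]
      rw [if_pos h1.symm, sT_gt z h3, mul_smul_one]
  · have h1' : col j d l.1 = false := by simpa using h1
    have h2 : col j d (l.1 + 1) = true := by
      cases h : col j d (l.1 + 1)
      · rw [h1', h] at hc; exact absurd rfl hc
      · rfl
    have h3 : d.1.symm l.1 < d.1.symm (l.1 + 1) := by
      simp only [col, decide_eq_true_eq, decide_eq_false_iff_not] at h1' h2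
      omega
    unfold evl
    cases h4 : l.2
    · simp only [Bool.false_eq_true, if_false]
      rw [if_pos h1'.symm, mul_smul_one]
      unfold gi
      rw [sub_mul, smul_one_mul, sT_lt z h3, neg_smul, sub_eq_add_neg]
    · simp only [if_true]
      rw [if_neg (by rw [h1']; simp), mul_zero, add_zero, sT_lt z h3]

/-- PATH LEMMA -/
theorem path (z : k) {n j : ℕ} (hj : j ≤ n) {d : S} (hd : d ∈ D (fj j) n) {w : Word} (hw : Valid n w)
    (hdec : (w.map Prod.fst).Pairwise (· > ·)) {b : H z} (hb : b ∈ HW z (fj j) n) :
    τ z (b * T z d⁻¹ * ev z w * T z d) = τ z (b * (w.map (del z j d)).prod) := by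
  induction w using List.reverseRecOn generalizing b with
  | nil =>
    rw [ev_nil, mul_one, List.map_nil, List.prod_nil, mul_one]
    have h1 := τ_E_mul z (fj_mono j) (N := n) (y := 1) (one_mem_HW z _ _) (b * T z d⁻¹ * T z d)
    rw [mul_one, mul_one] at h1
    rw [← h1, mul_assoc, E_mul_left z (fj_mono j) hb, E_TdTd z (fj_mono j) hd hd, if_pos rfl, mul_one]
  | append_singleton w l ih =>
    have hl : l.1 + 1 < n := hw l (by simp)
    have hw' : Valid n w := fun l' hl' => hw l' (by simp [hl'])
    rw [List.map_append, List.pairwise_append] at hdec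
    obtain ⟨hdec1, _, hdec2⟩ := hdec
    have hgt : ∀ l' ∈ w, l.1 < l'.1 := by
      intro l' hl'
      exact hdec2 l'.1 (List.mem_map.mpr ⟨l', hl', rfl⟩) l.1 (by simp)
    rw [ev_append, ev_cons, ev_nil, mul_one, List.map_append, List.prod_append, List.map_singleton,
      List.prod_singleton]
    have hdel := del_mem z hj hd hl
    have key : τ z (b * T z d⁻¹ * ev z w * (T z d * del z j d l)) =
        τ z (b * ((w.map (del z j d)).prod * del z j d l)) := by
      have h1 : b * T z d⁻¹ * ev z w * (T z d * del z j d l) =
          (b * T z d⁻¹ * ev z w * T z d) * del z j d l := by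
        simp only [mul_assoc]
      have h2 : del z j d l * (b * T z d⁻¹ * ev z w * T z d) =
          (del z j d l * b) * T z d⁻¹ * ev z w * T z d := by
        simp only [mul_assoc]
      rw [h1, τ_comm, h2, ih hw' hdec1 (mul_mem_HW z (fj_mono j) hdel hb), mul_assoc, τ_comm,
        mul_assoc]
    by_cases hc : col j d l.1 = col j d (l.1 + 1)
    · have h1 : evl z l * T z d = T z d * del z j d l := by
        rw [slide_same z hj hd hl hc]
        unfold del
        rw [if_pos hc]
      have h2 : b * T z d⁻¹ * (ev z w * evl z l) * T z d =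
          b * T z d⁻¹ * ev z w * (T z d * del z j d l) := by
        rw [← h1]
        simp only [mul_assoc]
      rw [h2, key]
    · obtain ⟨y, hy, h1⟩ := evl_T_diff z hc
      have h2 : b * T z d⁻¹ * (ev z w * evl z l) * T z d =
          b * T z d⁻¹ * (ev z w * y) + b * T z d⁻¹ * ev z w * (T z d * del z j d l) := by
        have h3 : b * T z d⁻¹ * (ev z w * evl z l) * T z d =
            b * T z d⁻¹ * ev z w * (evl z l * T z d) := by simp only [mul_assoc]
        rw [h3, h1, mul_add]
        simp only [mul_assoc]
      rw [h2, map_add, key, τ_Mc z hd hb (fun h => hc h.symm) (ev_mul_Mc z hgt hy), zero_add]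

end Pool.Agent.HL
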