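import Pool.Agent.Lib.HL21.Path

/-! # Module Psi: the operator `Ψ = ∑ Ind Res` on the centre -/

namespace Pool.Agent.HL

open Finset

variable {k : Type*} [CommRing k]

/-- The operator `Ψ = ∑_j Ind Res` on the centre. -/
noncomputable def Psi (z : k) (n : ℕ) : H z →ₗ[k] H z :=
  ∑ j ∈ range (n+1), ∑ d ∈ D (fj j) n,
    (LinearMap.mulLeft k (T z d)) ∘ₗ (LinearMap.mulRight k (T z d⁻¹)) ∘ₗ (E z (fj j) n)

theorem Psi_apply (z : k) (n : ℕ) (x : H z) :
    Psi z n x = ∑ j ∈ range (n+1), ∑ d ∈ D (fj j) n, T z d * E z (fj j) n x * T z d⁻¹ := by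
  simp only [Psi, LinearMap.sum_apply, LinearMap.comp_apply, LinearMap.mulLeft_apply,
    LinearMap.mulRight_apply, mul_assoc]

/-- The positive word with the given list of indices. -/
def pw (l : List ℕ) : Word := l.map (fun i => (i, true))

/-- `τ(ζ · -)` kills all descending words of length `< m`. -/
def Kills (z : k) (n m : ℕ) (ζ : H z) : Prop :=
  ∀ l : List ℕ, l.Pairwise (· > ·) → (∀ i ∈ l, i + 1 < n) → l.length < m → τ z (ζ * ev z (pw l)) = 0

namespace PsiAux

/-! ### counting two-colourings -/

theorem desc_length {N : ℕ} {l : List ℕ} (hl : l.Pairwise (· > ·)) (hv : ∀ i ∈ l, i < N) :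
    l.length ≤ N := by
  have hnd : l.Nodup := hl.imp (fun h => ne_of_gt h)
  have h1 : l.toFinset ⊆ range N := by
    intro x hx
    rw [mem_range]
    exact hv x (List.mem_toFinset.1 hx)
  have h2 := card_le_card h1
  rwa [card_range, List.toFinset_card_of_nodup hnd] at h2

theorem count (n : ℕ) : ∀ (l : List ℕ), l.Pairwise (· > ·) → (∀ i ∈ l, i + 1 < n) → ∀ x : k,
    ∑ A ∈ (range n).powerset, (if ∀ i ∈ l, (i ∈ A ↔ i + 1 ∈ A) then x else 0) =
      2 ^ (n - l.length) * x := by
  induction n with
  | zero =>
    intro l _ hv x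
    have : l = [] := by
      rcases l with _ | ⟨a, l⟩
      · rfl
      · exact absurd (hv a (by simp)) (by omega)
    subst this
    simp
  | succ n ih =>
    intro l hl hv x
    have hn : n ∉ range n := by simp
    rw [range_add_one, sum_powerset_insert hn]
    have hlow : ∀ (l' : List ℕ) (A : Finset ℕ), (∀ i ∈ l', i + 1 < n) →
        ((∀ i ∈ l', (i ∈ insert n A ↔ i + 1 ∈ insert n A)) ↔ ∀ i ∈ l', (i ∈ A ↔ i + 1 ∈ A)) := by
      intro l' A hl'
      refine forall₂_congr ?_
      intro i hi
      have := hl' i hi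
      have h1 : i ∈ insert n A ↔ i ∈ A := by
        rw [mem_insert]; constructor
        · rintro (h | h)
          · omega
          · exact h
        · exact Or.inr
      have h2 : i + 1 ∈ insert n A ↔ i + 1 ∈ A := by
        rw [mem_insert]; constructor
        · rintro (h | h)
          · omega
          · exact h
        · exact Or.inr
      rw [h1, h2]
    by_cases hall : ∀ i ∈ l, i + 1 < n
    · have hlen : l.length ≤ n := desc_length hl (fun i hi => by have := hall i hi; omega)
      rw [sum_congr (g := fun A => if ∀ i ∈ l, (i ∈ A ↔ i + 1 ∈ A) then x else 0) rfl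
        (fun A _ => if_congr (hlow l A hall) rfl rfl), ih l hl hall x,
        show n + 1 - l.length = n - l.length + 1 by omega, pow_succ]
      ring
    · rcases l with _ | ⟨a, l⟩
      · exact absurd (by simp) hall
      · rw [List.pairwise_cons] at hl
        have ha := hv a (by simp)
        have hl' : ∀ i ∈ l, i + 1 < n := by
          intro i hi
          have := hl.1 i hi
          omega
        have ha' : a + 1 = n := by
          by_contra hne
          refine hall ?_
          intro i hi
          rw [List.mem_cons] at hi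
          rcases hi with rfl | hi
          · omega
          · exact hl' i hi
        rw [← sum_add_distrib, List.length_cons, show n + 1 - (l.length + 1) = n - l.length by omega,
          ← ih l hl.2 hl' x]
        refine sum_congr rfl ?_
        intro A hA
        rw [mem_powerset] at hA
        have hnA : n ∉ A := fun h => hn (hA h)
        have e1 : (∀ i ∈ a :: l, (i ∈ A ↔ i + 1 ∈ A)) ↔
            (a ∉ A ∧ ∀ i ∈ l, (i ∈ A ↔ i + 1 ∈ A)) := by
          rw [List.forall_mem_cons, ha']
          simp only [hnA, iff_false]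
        have e2 : (∀ i ∈ a :: l, (i ∈ insert n A ↔ i + 1 ∈ insert n A)) ↔
            (a ∈ A ∧ ∀ i ∈ l, (i ∈ A ↔ i + 1 ∈ A)) := by
          rw [List.forall_mem_cons, hlow l A hl', ha']
          have h3 : n ∈ insert n A := mem_insert_self _ _
          have h4 : a ∈ insert n A ↔ a ∈ A := by
            rw [mem_insert]; constructor
            · rintro (h | h)
              · omega
              · exact h
            · exact Or.inr
          rw [h4]
          simp only [h3, iff_true]
        rw [if_congr e1 rfl rfl, if_congr e2 rfl rfl]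
        by_cases h5 : a ∈ A <;> by_cases h6 : ∀ i ∈ l, (i ∈ A ↔ i + 1 ∈ A) <;> simp [h5, h6]

theorem sum_levels {M : Type*} [AddCommMonoid M] (n : ℕ) (F : Finset ℕ → M) :
    ∑ j ∈ range (n + 1), ∑ A ∈ powersetCard (n - j) (range n), F A =
      ∑ A ∈ (range n).powerset, F A := by
  rw [sum_powerset, card_range]
  exact sum_flip (fun j => ∑ A ∈ powersetCard j (range n), F A)

/-! ### elementary facts on `D (fj j) n` -/

theorem symm_lt {n : ℕ} {d : S} (hd : d ∈ W0 n) {x : ℕ} (hx : x < n) : d.1.symm x < n := by
  by_contra h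
  push Not at h
  have h1 := (mem_W.1 hd).1 _ h
  rw [Equiv.apply_symm_apply] at h1
  omega

theorem symm_mono {n j : ℕ} {d : S} (hd : d ∈ D (fj j) n) {x y : ℕ} (hxy : x < y) (hy : y < n)
    (hc : col j d x = col j d y) : d.1.symm x < d.1.symm y := by
  rw [mem_D] at hd
  by_contra h
  push Not at h
  have hx' := symm_lt hd.1 (lt_trans hxy hy)
  have hne : d.1.symm y ≠ d.1.symm x := by
    intro h'
    have := d.1.symm.injective h'
    omega
  have hlt : d.1.symm y < d.1.symm x := lt_of_le_of_ne h hne
  have hf : fj j (d.1.symm y) = fj j (d.1.symm x) := by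
    unfold col at hc
    unfold fj
    by_cases h1 : j ≤ d.1.symm x
    · have h2 : j ≤ d.1.symm y := by
        rw [decide_eq_true h1] at hc
        exact of_decide_eq_true hc.symm
      rw [if_neg (by omega), if_neg (by omega)]
    · have h2 : ¬ j ≤ d.1.symm y := by
        intro h2
        rw [decide_eq_true h2] at hc
        exact h1 (of_decide_eq_true hc)
      rw [if_pos (by omega), if_pos (by omega)]
  have := hd.2 _ _ hlt hx' hf
  rw [Equiv.apply_symm_apply, Equiv.apply_symm_apply] at this
  omega

theorem ev_pw_cons (z : k) (a : ℕ) (l : List ℕ) : ev z (pw (a :: l)) = g z a * ev z (pw l) := by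
  unfold pw
  rw [List.map_cons, ev_cons]
  rfl

theorem ev_pw_append (z : k) (l l' : List ℕ) :
    ev z (pw (l ++ l')) = ev z (pw l) * ev z (pw l') := by
  unfold pw
  rw [List.map_append, ev_append]

theorem g_comm_pw (z : k) (a : ℕ) (l : List ℕ) (h : ∀ i ∈ l, a + 1 < i) :
    g z a * ev z (pw l) = ev z (pw l) * g z a := by
  induction l with
  | nil => simp [pw, ev_nil]
  | cons b l ih =>
    rw [ev_pw_cons, ← mul_assoc, g_comm z (h b (by simp)), mul_assoc,
      ih (fun i hi => h i (by simp [hi])), mul_assoc]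

/-- the product of the diagonal coefficients is a multiple of a descending word, which is shorter
if there is a letter with two colours -/
theorem prod_del (z : k) {n j : ℕ} {d : S} (hd : d ∈ D (fj j) n) :
    ∀ (l : List ℕ), l.Pairwise (· > ·) → (∀ i ∈ l, i + 1 < n) →
    ∃ (c : k) (l1 l2 : List ℕ), ((pw l).map (del z j d)).prod = c • (ev z (pw l1) * ev z (pw l2)) ∧
      l1.Pairwise (· > ·) ∧ l2.Pairwise (· > ·) ∧
      (∀ y ∈ l1, y + 1 < n ∧ j ≤ y ∧ ∃ x ∈ l, x + 1 < n ∧ y = d.1.symm x) ∧
      (∀ y ∈ l2, y + 1 < j ∧ y + 1 < n ∧ ∃ x ∈ l, x + 1 < n ∧ y = d.1.symm x) ∧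
      l1.length + l2.length ≤ l.length ∧
      ((∃ i ∈ l, col j d i ≠ col j d (i + 1)) → l1.length + l2.length < l.length) := by
  intro l
  induction l with
  | nil =>
    intro _ _
    refine ⟨1, [], [], by simp [pw, ev_nil], by simp, by simp, by simp, by simp, by simp, by simp⟩
  | cons x l ih =>
    intro hl hv
    rw [List.pairwise_cons] at hl
    obtain ⟨c, l1, l2, h1, h2, h3, h4, h5, h6, h7⟩ := ih hl.2 (fun i hi => hv i (by simp [hi]))
    have hx := hv x (by simp)
    have hd0 := (mem_D.1 hd).1
    have hprod : ((pw (x :: l)).map (del z j d)).prod =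
        del z j d (x, true) * ((pw l).map (del z j d)).prod := by
      unfold pw
      rw [List.map_cons, List.map_cons, List.prod_cons]
    have h4' : ∀ y ∈ l1, y + 1 < n ∧ j ≤ y ∧ ∃ x' ∈ x :: l, x' + 1 < n ∧ y = d.1.symm x' := by
      intro y hy
      obtain ⟨a, b, x', hx', e⟩ := h4 y hy
      exact ⟨a, b, x', by simp [hx'], e⟩
    have h5' : ∀ y ∈ l2, y + 1 < j ∧ y + 1 < n ∧ ∃ x' ∈ x :: l, x' + 1 < n ∧ y = d.1.symm x' := by
      intro y hy
      obtain ⟨a, b, x', hx', e⟩ := h5 y hy
      exact ⟨a, b, x', by simp [hx'], e⟩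
    by_cases hc : col j d x = col j d (x + 1)
    · have hdel : del z j d (x, true) = g z (d.1.symm x) := by
        unfold del
        rw [if_pos hc]
        rfl
      have hm : d.1.symm x < d.1.symm (x + 1) := symm_mono hd (Nat.lt_add_one x) hx hc
      have hlt := symm_lt hd0 hx
      by_cases ht : j ≤ d.1.symm x
      · refine ⟨c, d.1.symm x :: l1, l2, ?_, ?_, h3, ?_, h5', ?_, ?_⟩
        · rw [hprod, hdel, h1, ev_pw_cons, mul_smul_comm, mul_assoc]
        · rw [List.pairwise_cons]
          refine ⟨?_, h2⟩
          intro y hy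
          obtain ⟨_, hjy, x', hx', hx'n, rfl⟩ := h4 y hy
          refine symm_mono hd (hl.1 x' hx') (by omega) ?_
          unfold col
          rw [decide_eq_true ht, decide_eq_true hjy]
        · intro y hy
          rw [List.mem_cons] at hy
          rcases hy with rfl | hy
          · exact ⟨by omega, ht, x, by simp, hx, rfl⟩
          · exact h4' y hy
        · rw [List.length_cons, List.length_cons]; omega
        · rintro ⟨i, hi, hne⟩
          rw [List.mem_cons] at hi
          rcases hi with rfl | hi
          · exact absurd hc hne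
          · have := h7 ⟨i, hi, hne⟩
            rw [List.length_cons, List.length_cons]; omega
      · have ht2 : ¬ j ≤ d.1.symm (x + 1) := by
          intro h
          unfold col at hc
          rw [decide_eq_true h] at hc
          exact ht (of_decide_eq_true hc)
        have hcomm : g z (d.1.symm x) * ev z (pw l1) = ev z (pw l1) * g z (d.1.symm x) := by
          refine g_comm_pw z _ _ ?_
          intro y hy
          have := (h4 y hy).2.1
          omega
        refine ⟨c, l1, d.1.symm x :: l2, ?_, h2, ?_, h4', ?_, ?_, ?_⟩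
        · rw [hprod, hdel, h1, ev_pw_cons, mul_smul_comm, ← mul_assoc, hcomm, mul_assoc]
        · rw [List.pairwise_cons]
          refine ⟨?_, h3⟩
          intro y hy
          obtain ⟨hjy, _, x', hx', hx'n, rfl⟩ := h5 y hy
          refine symm_mono hd (hl.1 x' hx') (by omega) ?_
          unfold col
          rw [decide_eq_false ht, decide_eq_false (by omega)]
        · intro y hy
          rw [List.mem_cons] at hy
          rcases hy with rfl | hy
          · exact ⟨by omega, by omega, x, by simp, hx, rfl⟩
          · exact h5' y hy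
        · rw [List.length_cons, List.length_cons]; omega
        · rintro ⟨i, hi, hne⟩
          rw [List.mem_cons] at hi
          rcases hi with rfl | hi
          · exact absurd hc hne
          · have := h7 ⟨i, hi, hne⟩
            rw [List.length_cons, List.length_cons]; omega
    · obtain ⟨c', hc'⟩ : ∃ c' : k, del z j d (x, true) = c' • (1 : H z) := by
        unfold del
        rw [if_neg hc]
        by_cases h : true = col j d x
        · exact ⟨z, by rw [if_pos h, if_pos rfl]⟩
        · refine ⟨0, ?_⟩
          rw [if_neg h, zero_smul]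
      refine ⟨c' * c, l1, l2, ?_, h2, h3, h4', h5', ?_, ?_⟩
      · rw [hprod, hc', h1, smul_mul_assoc, one_mul, smul_smul]
      · rw [List.length_cons]; omega
      · intro _
        rw [List.length_cons]; omega

theorem isUnit_T (z : k) (w : S) : IsUnit (T z w) := by
  refine S_ind (P := fun w => IsUnit (T z w)) ?_ ?_ w
  · rw [T_one]; exact isUnit_one
  · intro i w h hw
    rw [← sT_lt z h]
    exact IsUnit.mul ⟨⟨g z i, gi z i, g_gi z i, gi_g z i⟩, rfl⟩ hw

theorem slide_all (z : k) {n j : ℕ} (hj : j ≤ n) {d : S} (hd : d ∈ D (fj j) n) :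
    ∀ (l : List ℕ), (∀ i ∈ l, i + 1 < n) → (∀ i ∈ l, col j d i = col j d (i + 1)) →
      ev z (pw l) * T z d = T z d * ((pw l).map (del z j d)).prod := by
  intro l
  induction l with
  | nil => intro _ _; simp [pw, ev_nil]
  | cons x l ih =>
    intro hv hc
    have hx := hv x (by simp)
    have hcx := hc x (by simp)
    have hprod : ((pw (x :: l)).map (del z j d)).prod =
        del z j d (x, true) * ((pw l).map (del z j d)).prod := by
      unfold pw
      rw [List.map_cons, List.map_cons, List.prod_cons]
    have hdel : del z j d (x, true) = g z (d.1.symm x) := by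
      unfold del
      rw [if_pos hcx]
      rfl
    have hs : g z x * T z d = T z d * g z (d.1.symm x) := slide_same z hj hd (l := (x, true)) hx hcx
    rw [ev_pw_cons, mul_assoc, ih (fun i hi => hv i (by simp [hi])) (fun i hi => hc i (by simp [hi])),
      ← mul_assoc, hs, hprod, hdel, mul_assoc]

theorem Zc_comm_T (z : k) {n : ℕ} {ζ : H z} (hζ : ζ ∈ Zc z n) {x : H z} (hx : x ∈ HS z n) :
    x * ζ = ζ * x :=
  commute_HW z (f := f0) (fun _ _ _ => le_rfl) (fun i hi _ => hζ.2 i hi) hx

/-- the contribution of one coset representative -/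
theorem term (z : k) {n m j : ℕ} (hj : j ≤ n) {ζ : H z} (hζ : ζ ∈ Zc z n) (hk : Kills z n m ζ)
    {l : List ℕ} (hl : l.Pairwise (· > ·)) (hv : ∀ i ∈ l, i + 1 < n) (hm : l.length = m) {d : S}
    (hd : d ∈ D (fj j) n) :
    τ z (T z d * E z (fj j) n ζ * T z d⁻¹ * ev z (pw l)) =
      if ∀ i ∈ l, (i ∈ colset j n d ↔ i + 1 ∈ colset j n d) then τ z (ζ * ev z (pw l)) else 0 := by
  have hV : Valid n (pw l) := by
    intro a ha
    unfold pw at ha
    rw [List.mem_map] at ha
    obtain ⟨i, hi, rfl⟩ := ha
    exact hv i hi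
  have hdec : ((pw l).map Prod.fst).Pairwise (· > ·) := by
    unfold pw
    rw [List.map_map]
    have : (Prod.fst ∘ fun i : ℕ => (i, true)) = id := by funext i; rfl
    rw [this, List.map_id]
    exact hl
  have hEm : E z (fj j) n ζ ∈ HW z (fj j) n := E_mem z _ _ _
  have e1 : τ z (T z d * E z (fj j) n ζ * T z d⁻¹ * ev z (pw l)) =
      τ z (E z (fj j) n ζ * ((pw l).map (del z j d)).prod) := by
    rw [← path z hj hd hV hdec hEm, mul_assoc, mul_assoc, τ_comm]
    simp only [mul_assoc]
  have hPm : ((pw l).map (del z j d)).prod ∈ HW z (fj j) n := by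
    have : ∀ w : Word, Valid n w → (w.map (del z j d)).prod ∈ HW z (fj j) n := by
      intro w
      induction w with
      | nil => intro _; simpa using one_mem_HW z (fj j) n
      | cons a w ih =>
        intro hw
        rw [List.map_cons, List.prod_cons]
        exact mul_mem_HW z (fj_mono j) (del_mem z hj hd (hw a (by simp)))
          (ih (fun b hb => hw b (by simp [hb])))
    exact this _ hV
  rw [e1, τ_E_mul z (fj_mono j) hPm]
  have hcol : ∀ i ∈ l, ((i ∈ colset j n d ↔ i + 1 ∈ colset j n d) ↔
      col j d i = col j d (i + 1)) := by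
    intro i hi
    have := hv i hi
    unfold colset col
    rw [mem_filter, mem_filter, mem_range, mem_range, decide_eq_decide]
    constructor
    · intro h
      exact ⟨fun a => (h.1 ⟨by omega, a⟩).2, fun a => (h.2 ⟨by omega, a⟩).2⟩
    · intro h
      exact ⟨fun a => ⟨by omega, h.1 a.2⟩, fun a => ⟨by omega, h.2 a.2⟩⟩
  by_cases hall : ∀ i ∈ l, col j d i = col j d (i + 1)
  · rw [if_pos (fun i hi => (hcol i hi).2 (hall i hi))]
    have hs := slide_all z hj hd l hv hall
    obtain ⟨u, hu⟩ := isUnit_T z d
    have hcm : T z d * ζ = ζ * T z d :=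
      Zc_comm_T z hζ (T_mem_HW z ((mem_D.1 hd).1))
    have e2 : ((pw l).map (del z j d)).prod = ((u⁻¹ : (H z)ˣ) : H z) * (ev z (pw l) * T z d) := by
      rw [hs, ← hu, ← mul_assoc, Units.inv_mul, one_mul]
    rw [e2, ← mul_assoc, ← mul_assoc, τ_comm, ← mul_assoc, ← mul_assoc, hcm, ← hu, mul_assoc ζ,
      Units.mul_inv, mul_one]
  · rw [if_neg (fun h => hall (fun i hi => (hcol i hi).1 (h i hi)))]
    push Not at hall
    obtain ⟨c, l1, l2, h1, h2, h3, h4, h5, h6, h7⟩ := prod_del z hd l hl hv
    rw [h1, mul_smul_comm, map_smul, ← ev_pw_append]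
    have h8 : τ z (ζ * ev z (pw (l1 ++ l2))) = 0 := by
      refine hk _ ?_ ?_ ?_
      · rw [List.pairwise_append]
        refine ⟨h2, h3, ?_⟩
        intro a ha b hb
        have := (h4 a ha).2.1
        have := (h5 b hb).1
        show b < a
        omega
      · intro i hi
        rw [List.mem_append] at hi
        rcases hi with hi | hi
        · exact (h4 i hi).1
        · exact (h5 i hi).2.1
      · rw [List.length_append, ← hm]
        exact h7 hall
    rw [h8, smul_zero]

end PsiAux

/-- `Ψ` is triangular on descending words, with eigenvalues `2^(n - length)`. -/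
theorem Psi_tri (z : k) {n m : ℕ} {ζ : H z} (hζ : ζ ∈ Zc z n) (hk : Kills z n m ζ) {l : List ℕ}
    (hl : l.Pairwise (· > ·)) (hv : ∀ i ∈ l, i + 1 < n) (hm : l.length = m) :
    τ z (Psi z n ζ * ev z (pw l)) = 2 ^ (n - m) * τ z (ζ * ev z (pw l)) := by
  rw [Psi_apply, sum_mul, map_sum]
  have key : ∀ j ∈ range (n + 1),
      τ z ((∑ d ∈ D (fj j) n, T z d * E z (fj j) n ζ * T z d⁻¹) * ev z (pw l)) =
      ∑ A ∈ powersetCard (n - j) (range n),
        (if ∀ i ∈ l, (i ∈ A ↔ i + 1 ∈ A) then τ z (ζ * ev z (pw l)) else 0) := by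
    intro j hj
    rw [mem_range] at hj
    have hj' : j ≤ n := by omega
    rw [sum_mul, map_sum,
      ← sum_D hj' (fun A => if ∀ i ∈ l, (i ∈ A ↔ i + 1 ∈ A) then τ z (ζ * ev z (pw l)) else 0)]
    exact sum_congr rfl (fun d hd => PsiAux.term z hj' hζ hk hl hv hm hd)
  rw [sum_congr rfl key, PsiAux.sum_levels n
    (fun A => if ∀ i ∈ l, (i ∈ A ↔ i + 1 ∈ A) then τ z (ζ * ev z (pw l)) else 0),
    PsiAux.count n l hl hv, hm]

/-- `Ψ` preserves the centre -/
theorem Psi_mem (z : k) {n : ℕ} {ζ : H z} (hζ : ζ ∈ Zc z n) : Psi z n ζ ∈ Zc z n := by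
  rw [Psi_apply]
  refine Submodule.sum_mem _ ?_
  intro j _
  exact relTr_central z (fj_mono j) (E_mem z _ _ _) (fun y hy => E_central z (fj_mono j) hζ hy)

end Pool.Agent.HL
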