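import Pool.Agent.Lib.HL21.Chi
import Pool.Agent.Lib.HL21.JMs

/-! # Module Theta: the norm of `X_n` -/

namespace Pool.Agent.HL

open Finset

variable {k : Type*} [CommRing k]

namespace Theta

theorem symm_smul (i : ℕ) (w : S) (x : ℕ) : (s i * w).1.symm x = w.1.symm ((s i).1 x) := by
  rw [Equiv.symm_apply_eq]
  show x = (s i).1 (w.1 (w.1.symm ((s i).1 x)))
  rw [Equiv.apply_symm_apply]
  have h := congrArg (fun v : S => v.1 x) (s_mul_self i)
  exact h.symm

theorem s_l (i : ℕ) : (s i).1 i = i + 1 := by rw [s_apply]; simp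

theorem s_r (i : ℕ) : (s i).1 (i + 1) = i := by rw [s_apply]; simp

theorem s_smul (i : ℕ) (w : S) : s i * (s i * w) = w := by
  rw [← mul_assoc, s_mul_self, one_mul]

theorem mul_s_s (i : ℕ) (w : S) : w * s i * s i = w := by
  rw [mul_assoc, s_mul_self, mul_one]

theorem s_ne_one (i : ℕ) : s i ≠ 1 := by
  intro h
  have := congrArg (fun v : S => v.1 i) h
  simp only [s_l] at this
  have h2 : ((1 : S).1 : ℕ → ℕ) i = i := rfl
  rw [h2] at this
  omega

theorem asc_or (i : ℕ) (w : S) : w.1.symm i < w.1.symm (i+1) ∨ w.1.symm (i+1) < w.1.symm i := by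
  rcases lt_trichotomy (w.1.symm i) (w.1.symm (i+1)) with h | h | h
  · exact Or.inl h
  · exact absurd (w.1.symm.injective h) (by omega)
  · exact Or.inr h

theorem desc_smul {i : ℕ} {w : S} (h : w.1.symm i < w.1.symm (i+1)) :
    (s i * w).1.symm (i+1) < (s i * w).1.symm i := by
  rw [symm_smul, symm_smul, s_l, s_r]
  exact h

theorem asc_smul {i : ℕ} {w : S} (h : w.1.symm (i+1) < w.1.symm i) :
    (s i * w).1.symm i < (s i * w).1.symm (i+1) := by
  rw [symm_smul, symm_smul, s_l, s_r]
  exact h

theorem s_mem {n i : ℕ} (hi : i + 1 < n) : s i ∈ W0 n := s_mem_W hi rfl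

/-- the parameter identities -/
theorem q_qi (P : Par k) : (P.q : k) * ((P.q⁻¹ : kˣ) : k) = 1 := P.q.mul_inv

theorem qz (P : Par k) : P.z = (P.q : k) - ((P.q⁻¹ : kˣ) : k) := rfl

/-- the symmetriser `∑ q^{len w} T_w` of `H_n` -/
noncomputable def xs (P : Par k) (n : ℕ) : H P.z := ∑ w ∈ W0 n, ((P.q : k) ^ len w) • T P.z w

theorem g_xs (P : Par k) {n i : ℕ} (hi : i + 1 < n) : g P.z i * xs P n = (P.q : k) • xs P n := by
  rw [xs, Finset.mul_sum, Finset.smul_sum, ← sub_eq_zero, ← Finset.sum_sub_distrib]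
  have key : ∀ w : S, w.1.symm i < w.1.symm (i+1) →
      (g P.z i * (P.q : k) ^ len w • T P.z w - (P.q : k) • (P.q : k) ^ len w • T P.z w) +
      (g P.z i * (P.q : k) ^ len (s i * w) • T P.z (s i * w) -
        (P.q : k) • (P.q : k) ^ len (s i * w) • T P.z (s i * w)) = 0 := by
    intro w h
    rw [mul_smul_comm, mul_smul_comm, sT_lt P.z h, sT_gt P.z (desc_smul h), s_smul, len_s_lt h]
    simp only [smul_smul, smul_add]
    have e1 : (P.q : k) ^ (len w + 1) * P.z =
        (P.q : k) * (P.q : k) ^ (len w + 1) - (P.q : k) ^ len w := by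
      have := q_qi P
      rw [pow_succ, qz]
      linear_combination (-(P.q : k) ^ len w) * this
    rw [e1, sub_smul, pow_succ, mul_comm ((P.q : k) ^ len w) (P.q : k)]
    abel
  refine Finset.sum_involution (fun w _ => s i * w) ?_ ?_ ?_ ?_
  · intro w _
    rcases asc_or i w with h | h
    · exact key w h
    · have h2 := key (s i * w) (asc_smul h)
      rw [s_smul] at h2
      rw [add_comm]
      exact h2
  · intro w _ _ h
    exact s_ne_one i (mul_eq_right.1 h)
  · intro w hw
    exact mul_mem_W (s_mem hi) hw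
  · intro w _
    exact s_smul i w

theorem len_mul_s (w : S) (i : ℕ) : len (w * s i) = len (s i * w⁻¹) := by
  rw [← len_inv (w * s i), mul_inv_rev, s_inv]

theorem xs_g (P : Par k) {n i : ℕ} (hi : i + 1 < n) : xs P n * g P.z i = (P.q : k) • xs P n := by
  rw [xs, Finset.sum_mul, Finset.smul_sum, ← sub_eq_zero, ← Finset.sum_sub_distrib]
  have key : ∀ w : S, w.1 i < w.1 (i+1) →
      ((P.q : k) ^ len w • T P.z w * g P.z i - (P.q : k) • (P.q : k) ^ len w • T P.z w) +
      ((P.q : k) ^ len (w * s i) • T P.z (w * s i) * g P.z i -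
        (P.q : k) • (P.q : k) ^ len (w * s i) • T P.z (w * s i)) = 0 := by
    intro w h
    have h' : (w⁻¹).1.symm i < (w⁻¹).1.symm (i+1) := by
      have e : ∀ x, (w⁻¹).1.symm x = w.1 x := fun x => rfl
      rw [e, e]
      exact h
    have h2 : (w * s i).1 (i+1) < (w * s i).1 i := by
      show w.1 ((s i).1 (i+1)) < w.1 ((s i).1 i)
      rw [s_l, s_r]
      exact h
    rw [smul_mul_assoc, smul_mul_assoc, Ts_lt P.z h, Ts_gt P.z h2, mul_s_s, len_mul_s,
      len_s_lt h', len_inv]
    simp only [smul_smul, smul_add]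
    have e1 : (P.q : k) ^ (len w + 1) * P.z =
        (P.q : k) * (P.q : k) ^ (len w + 1) - (P.q : k) ^ len w := by
      have := q_qi P
      rw [pow_succ, qz]
      linear_combination (-(P.q : k) ^ len w) * this
    rw [e1, sub_smul, pow_succ, mul_comm ((P.q : k) ^ len w) (P.q : k)]
    abel
  refine Finset.sum_involution (fun w _ => w * s i) ?_ ?_ ?_ ?_
  · intro w _
    rcases lt_trichotomy (w.1 i) (w.1 (i+1)) with h | h | h
    · exact key w h
    · exact absurd (w.1.injective h) (by omega)
    · have h3 : (w * s i).1 i < (w * s i).1 (i+1) := by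
        show w.1 ((s i).1 i) < w.1 ((s i).1 (i+1))
        rw [s_l, s_r]
        exact h
      have h2 := key (w * s i) h3
      rw [mul_s_s] at h2
      rw [add_comm]
      exact h2
  · intro w _ _ h
    exact s_ne_one i (mul_eq_left.1 h)
  · intro w hw
    exact mul_mem_W hw (s_mem hi)
  · intro w _
    exact mul_s_s i w

/-- `T_w xs = q^{len w} xs` -/
theorem T_xs (P : Par k) (n : ℕ) (w : S) : w ∈ W0 n →
    T P.z w * xs P n = ((P.q : k) ^ len w) • xs P n := by
  refine S_ind (P := fun w => w ∈ W0 n → T P.z w * xs P n = ((P.q : k) ^ len w) • xs P n)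
    ?_ ?_ w
  · intro _
    rw [T_one, one_mul, len_one, pow_zero, one_smul]
  · intro i w h ih hw
    have hi : i + 1 < n := by
      by_contra hcon
      rw [mem_W] at hw
      have h1 := hw.1 (i+1) (by omega)
      have h2 : w.1.symm i = i + 1 := by
        rw [Equiv.symm_apply_eq]
        have h3 : (s i).1 (w.1 (i+1)) = i + 1 := h1
        have h4 := congrArg (s i).1 h3
        rw [s_r] at h4
        have h5 := congrArg (fun v : S => v.1 (w.1 (i+1))) (s_mul_self i)
        have h6 : (s i).1 ((s i).1 (w.1 (i+1))) = w.1 (i+1) := h5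
        rw [h6] at h4
        exact h4.symm
      rw [h2] at h
      set y := w.1.symm (i+1) with hy
      have h7 := hw.1 y (by omega)
      have h8 : (s i).1 (w.1 y) = y := h7
      rw [hy, Equiv.apply_symm_apply, s_r] at h8
      omega
    have hw' : w ∈ W0 n := by
      have := mul_mem_W (s_mem hi) hw
      rwa [s_smul] at this
    rw [← sT_lt P.z h, mul_assoc, ih hw', mul_smul_comm, g_xs P hi, smul_smul, len_s_lt h,
      pow_succ]

theorem xs_T (P : Par k) (n : ℕ) (w : S) : w ∈ W0 n →
    xs P n * T P.z w⁻¹ = ((P.q : k) ^ len w) • xs P n := by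
  refine S_ind (P := fun w => w ∈ W0 n → xs P n * T P.z w⁻¹ = ((P.q : k) ^ len w) • xs P n)
    ?_ ?_ w
  · intro _
    rw [inv_one, T_one, mul_one, len_one, pow_zero, one_smul]
  · intro i w h ih hw
    have hi : i + 1 < n := by
      by_contra hcon
      rw [mem_W] at hw
      have h1 := hw.1 (i+1) (by omega)
      have h2 : w.1.symm i = i + 1 := by
        rw [Equiv.symm_apply_eq]
        have h3 : (s i).1 (w.1 (i+1)) = i + 1 := h1
        have h4 := congrArg (s i).1 h3
        rw [s_r] at h4
        have h5 := congrArg (fun v : S => v.1 (w.1 (i+1))) (s_mul_self i)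
        have h6 : (s i).1 ((s i).1 (w.1 (i+1))) = w.1 (i+1) := h5
        rw [h6] at h4
        exact h4.symm
      rw [h2] at h
      set y := w.1.symm (i+1) with hy
      have h7 := hw.1 y (by omega)
      have h8 : (s i).1 (w.1 y) = y := h7
      rw [hy, Equiv.apply_symm_apply, s_r] at h8
      omega
    have hw' : w ∈ W0 n := by
      have := mul_mem_W (s_mem hi) hw
      rwa [s_smul] at this
    have h9 : T P.z (s i * w)⁻¹ = T P.z w⁻¹ * g P.z i := by
      have e : ∀ x, (w⁻¹).1 x = w.1.symm x := fun x => rfl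
      rw [mul_inv_rev, s_inv, Ts_lt]
      rw [e, e]
      exact h
    rw [h9, ← mul_assoc, ih hw', smul_mul_assoc, xs_g P hi, smul_smul, len_s_lt h,
      pow_succ]

theorem τ_xs (P : Par k) (n : ℕ) : τ P.z (xs P n) = 1 := by
  rw [xs, map_sum, Finset.sum_eq_single 1]
  · rw [map_smul, τ_T, if_pos rfl, len_one, pow_zero, one_smul]
  · intro w _ hw
    rw [map_smul, τ_T, if_neg hw, smul_zero]
  · intro h
    exact absurd (one_mem_W _ _) h

theorem xs_mem (P : Par k) (n : ℕ) : xs P n ∈ HS P.z n :=
  Submodule.sum_mem _ fun w hw => Submodule.smul_mem _ _ (T_mem_HW P.z hw)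

/-- the norm constant `∑ q^{2 len w}` -/
noncomputable def cc (P : Par k) (n : ℕ) : k := ∑ w ∈ W0 n, (P.q : k) ^ len w * (P.q : k) ^ len w

theorem TrS_xs (P : Par k) (n : ℕ) : TrS P.z n (xs P n) = cc P n • xs P n := by
  rw [Tr_apply, cc, Finset.sum_smul]
  refine Finset.sum_congr rfl fun w hw => ?_
  rw [T_xs P n w hw, smul_mul_assoc, xs_T P n w hw, smul_smul]

theorem gi_xs (P : Par k) {n i : ℕ} (hi : i + 1 < n) :
    gi P.z i * xs P n = ((P.q⁻¹ : kˣ) : k) • xs P n := by
  rw [gi, sub_mul, g_xs P hi, smul_mul_assoc, one_mul, ← sub_smul, qz]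
  congr 1
  ring

theorem ev_xs (P : Par k) (n : ℕ) (w : Word) (hw : Valid n w) :
    ev P.z w * xs P n =
      ((w.map (fun l => if l.2 then (P.q : k) else ((P.q⁻¹ : kˣ) : k))).prod) • xs P n := by
  induction w with
  | nil => rw [ev_nil, one_mul, List.map_nil, List.prod_nil, one_smul]
  | cons l w ih =>
    have hl : l.1 + 1 < n := hw l (List.mem_cons_self)
    have hw' : Valid n w := fun l' hl' => hw l' (List.mem_cons_of_mem _ hl')
    rw [ev_cons, mul_assoc, ih hw', mul_smul_comm, List.map_cons, List.prod_cons]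
    rcases l with ⟨i, b⟩
    cases b
    · simp only [evl, Bool.false_eq_true, if_false]
      rw [gi_xs P hl, smul_smul, mul_comm]
    · simp only [evl, if_true]
      rw [g_xs P hl, smul_smul, mul_comm]

theorem prod_range_le (x y : k) (N m : ℕ) (hm : m ≤ N) :
    ∏ i ∈ range N, (if m ≤ i then x else y) = x ^ (N - m) * y ^ m := by
  induction N with
  | zero =>
    have : m = 0 := by omega
    subst this
    simp
  | succ N ih =>
    rw [Finset.prod_range_succ]
    rcases Nat.lt_or_ge N m with h | h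
    · have : m = N + 1 := by omega
      subst this
      rw [if_neg (by omega)]
      have : ∏ i ∈ range N, (if N + 1 ≤ i then x else y) = y ^ N := by
        rw [Finset.prod_congr rfl (fun i hi => if_neg (by
          have := Finset.mem_range.1 hi
          omega))]
        simp
      rw [this, Nat.sub_self, pow_zero, one_mul, pow_succ]
    · rw [ih h, if_pos h, Nat.succ_sub h, pow_succ]
      ring

theorem X_xs (P : Par k) {n : ℕ} : X P.z n * xs P n = P.qn n • xs P n := by
  rw [X, Finset.sum_mul, Par.qn, Finset.sum_smul]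
  refine Finset.sum_congr rfl fun m hm => ?_
  rw [ev_xs P n _ (cWord_valid n m)]
  congr 1
  rw [cWord, List.map_map, List.map_reverse, List.prod_reverse]
  have : (List.map ((fun l : Letter => if l.2 then (P.q : k) else ((P.q⁻¹ : kˣ) : k)) ∘
      fun i => (i, decide (m ≤ i))) (List.range (n - 1))).prod =
      ∏ i ∈ range (n - 1), (if m ≤ i then (P.q : k) else ((P.q⁻¹ : kˣ) : k)) := by
    rw [Finset.prod_eq_multiset_prod, Finset.range_val, Multiset.range, Multiset.map_coe,
      Multiset.prod_coe]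
    congr 1
    refine List.map_congr_left fun i _ => ?_
    simp only [Function.comp_apply, decide_eq_true_eq]
  rw [this, prod_range_le]
  have := Finset.mem_range.1 hm
  omega


/-! ### the coset decomposition for the blocks `[0,n)`, `{n}` -/

theorem W_fj (n : ℕ) : W (fj n) (n+1) = W0 n := by
  ext w
  rw [mem_W, mem_W]
  constructor
  · rintro ⟨h1, h2⟩
    refine ⟨fun i hi => ?_, fun _ => rfl⟩
    rcases Nat.lt_or_ge n i with h | h
    · exact h1 i h
    · have hin : i = n := by omega
      subst hin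
      have h3 := h2 i
      simp only [fj, lt_irrefl, if_false] at h3
      have h4 : ¬ w.1 i < i := by
        intro h
        rw [if_pos h] at h3
        omega
      by_contra h5
      have h6 := h1 (w.1 i) (by omega)
      exact h5 (w.1.injective h6)
  · rintro ⟨h1, -⟩
    refine ⟨fun i hi => h1 i (by omega), fun i => ?_⟩
    rcases Nat.lt_or_ge i n with h | h
    · have h3 : w.1 i < n := by
        by_contra h4
        have h5 := w.1.injective (h1 (w.1 i) (by omega))
        omega
      simp only [fj, h, h3, if_true]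
    · rw [h1 i h]

/-- the permutation `s_a s_{a+1} ⋯ s_{a+t-1}` -/
def up : ℕ → ℕ → S
  | _, 0 => 1
  | a, (t+1) => s a * up (a+1) t

theorem up_apply (a t x : ℕ) : (up a t).1 x =
    if x = a + t then a else if a ≤ x ∧ x < a + t then x + 1 else x := by
  induction t generalizing a with
  | zero =>
    show x = _
    split_ifs with h1 h2
    · omega
    · omega
    · rfl
  | succ t ih =>
    show (s a).1 ((up (a+1) t).1 x) = _
    rw [ih, s_apply]
    split_ifs <;> omega

theorem up_symm_top (a t : ℕ) : (up a t).1.symm a = a + t := by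
  rw [Equiv.symm_apply_eq, up_apply, if_pos rfl]

theorem up_symm_lt {a t x : ℕ} (h : x < a) : (up a t).1.symm x = x := by
  rw [Equiv.symm_apply_eq, up_apply, if_neg (by omega), if_neg (by omega)]

theorem up_asc (a t : ℕ) : (up (a+1) t).1.symm a < (up (a+1) t).1.symm (a+1) := by
  rw [up_symm_top, up_symm_lt (Nat.lt_succ_self a)]
  omega

theorem len_up (a t : ℕ) : len (up a t) = t := by
  induction t generalizing a with
  | zero => exact len_one
  | succ t ih =>
    show len (s a * up (a+1) t) = _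
    rw [len_s_lt (up_asc a t), ih]

/-- `g_a g_{a+1} ⋯ g_{a+t-1}` -/
noncomputable def upH (z : k) (a : ℕ) : ℕ → H z
  | 0 => 1
  | (t+1) => upH z a t * g z (a + t)

theorem upH_succ' (z : k) (a t : ℕ) : upH z a (t+1) = g z a * upH z (a+1) t := by
  induction t with
  | zero =>
    show 1 * g z (a + 0) = g z a * 1
    rw [one_mul, mul_one, add_zero]
  | succ t ih =>
    show upH z a (t+1) * g z (a + (t+1)) = g z a * (upH z (a+1) t * g z (a + 1 + t))
    rw [ih, mul_assoc, show a + (t+1) = a + 1 + t by omega]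

theorem T_up (z : k) (a t : ℕ) : T z (up a t) = upH z a t := by
  induction t generalizing a with
  | zero => rfl
  | succ t ih =>
    rw [upH_succ', ← ih, sT_lt z (up_asc a t)]
    rfl

theorem up_mem {n a t : ℕ} (h : a + t = n) : up a t ∈ D (fj n) (n+1) := by
  rw [mem_D]
  constructor
  · rw [mem_W]
    refine ⟨fun i hi => ?_, fun _ => rfl⟩
    rw [up_apply, if_neg (by omega), if_neg (by omega)]
  · intro i j hij hj hf
    have hjn : j < n := by
      by_contra hcon
      have hjn : j = n := by omega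
      subst hjn
      simp only [fj, hij, if_true, lt_irrefl, if_false] at hf
      omega
    rw [up_apply, up_apply]
    split_ifs <;> omega

theorem eq_up {n : ℕ} {d : S} (hd : d ∈ D (fj n) (n+1)) :
    d.1 n ≤ n ∧ d = up (d.1 n) (n - d.1 n) := by
  have hdW : d ∈ W0 (n+1) := ((mem_D).1 hd).1
  have hfix : ∀ i, n + 1 ≤ i → d.1 i = i := (mem_W.1 hdW).1
  have hle : d.1 n ≤ n := by
    by_contra hcon
    have h1 := d.1.injective (hfix (d.1 n) (by omega))
    omega
  refine ⟨hle, ?_⟩
  set a := d.1 n with ha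
  set e := up a (n - a) with he
  have heD : e ∈ D (fj n) (n+1) := up_mem (by omega)
  have hen : e.1 n = a := by
    rw [he, up_apply, if_pos (by omega)]
  have heW : e ∈ W0 (n+1) := ((mem_D).1 heD).1
  have h2 : e⁻¹ * d ∈ W0 (n+1) := mul_mem_W (inv_mem_W heW) hdW
  have h3 : (e⁻¹ * d).1 n = n := by
    show e.1.symm (d.1 n) = n
    rw [← ha, ← hen, Equiv.symm_apply_apply]
  have h4 : e⁻¹ * d ∈ W (fj n) (n+1) := by
    rw [W_fj, mem_W]
    refine ⟨fun i hi => ?_, fun _ => rfl⟩
    rcases Nat.lt_or_ge n i with h | h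
    · exact (mem_W.1 h2).1 i h
    · have hin : i = n := by omega
      rw [hin]
      exact h3
  have h5 := coset_unique (fj_mono n) hd heD (one_mem_W _ _) h4
    (by rw [mul_one, mul_inv_cancel_left])
  exact h5.1

theorem sum_D_up {M : Type*} [AddCommMonoid M] (n : ℕ) (G : S → M) :
    ∑ d ∈ D (fj n) (n+1), G d = ∑ t ∈ range (n+1), G (up (n - t) t) := by
  refine Finset.sum_bij' (fun d _ => n - d.1 n) (fun t _ => up (n - t) t) ?_ ?_ ?_ ?_ ?_
  · intro d _
    rw [Finset.mem_range]
    omega
  · intro t ht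
    have := Finset.mem_range.1 ht
    exact up_mem (by omega)
  · intro d hd
    obtain ⟨h1, h2⟩ := eq_up hd
    conv_rhs => rw [h2]
    rw [show n - (n - d.1 n) = d.1 n by omega]
  · intro t ht
    have := Finset.mem_range.1 ht
    show n - (up (n - t) t).1 n = t
    rw [up_apply, if_pos (by omega)]
    omega
  · intro d hd
    obtain ⟨h1, h2⟩ := eq_up hd
    conv_lhs => rw [h2]
    rw [show n - (n - d.1 n) = d.1 n by omega]

theorem len_coset {f : ℕ → ℕ} (hf : Monotone f) {N : ℕ} {d u : S} (hd : d ∈ D f N)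
    (hu : u ∈ W f N) : len (d * u) = len d + len u := by
  apply len_mul
  intro i j hij huij
  rw [mem_W] at hu
  have h1 : f (u.1 i) ≤ f (u.1 j) := by
    rw [hu.2, hu.2]
    exact hf hij.le
  have h2 : f (u.1 j) ≤ f (u.1 i) := hf huij.le
  refine ((mem_D).1 hd).2 _ _ huij ?_ (le_antisymm h2 h1)
  by_contra hcon
  have h3 := u.1.injective (hu.1 (u.1 i) (by omega))
  have h4 := hu.1 j (by omega)
  omega

theorem xs_succ (P : Par k) (n : ℕ) : xs P (n+1) =
    (∑ t ∈ range (n+1), ((P.q : k) ^ t) • upH P.z (n - t) t) * xs P n := by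
  have h1 : xs P (n+1) = (∑ d ∈ D (fj n) (n+1), ((P.q : k) ^ len d) • T P.z d) * xs P n := by
    rw [xs, sum_coset (fj_mono n), Finset.sum_mul]
    refine Finset.sum_congr rfl fun d hd => ?_
    rw [xs, ← W_fj, Finset.mul_sum]
    refine Finset.sum_congr rfl fun u hu => ?_
    rw [len_coset (fj_mono n) hd hu, ← T_coset P.z (fj_mono n) hd hu, smul_mul_smul_comm, pow_add]
  rw [h1, sum_D_up n (fun d => ((P.q : k) ^ len d) • T P.z d)]
  congr 1
  refine Finset.sum_congr rfl fun t _ => ?_
  rw [len_up, T_up]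

/-- `∑_{t ≤ r} q^{2t}` -/
noncomputable def CC (P : Par k) (r : ℕ) : k := ∑ t ∈ range (r+1), (P.q : k) ^ t * (P.q : k) ^ t

theorem cc_succ (P : Par k) (n : ℕ) : cc P (n+1) = CC P n * cc P n := by
  have h1 : cc P (n+1) = (∑ d ∈ D (fj n) (n+1), ((P.q : k) ^ len d * (P.q : k) ^ len d)) *
      cc P n := by
    rw [cc, sum_coset (fj_mono n), Finset.sum_mul]
    refine Finset.sum_congr rfl fun d hd => ?_
    rw [cc, ← W_fj, Finset.mul_sum]
    refine Finset.sum_congr rfl fun u hu => ?_
    rw [len_coset (fj_mono n) hd hu, pow_add]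
    ring
  rw [h1, sum_D_up n (fun d => (P.q : k) ^ len d * (P.q : k) ^ len d), CC]
  congr 1
  refine Finset.sum_congr rfl fun t _ => ?_
  rw [len_up]

theorem W0_zero : W0 0 = {1} := by
  ext w
  rw [mem_W, Finset.mem_singleton]
  constructor
  · rintro ⟨h, -⟩
    ext x
    exact h x (Nat.zero_le x)
  · rintro rfl
    exact ⟨fun _ _ => rfl, fun _ => rfl⟩

theorem cc_zero (P : Par k) : cc P 0 = 1 := by
  rw [cc, W0_zero, Finset.sum_singleton, len_one, pow_zero, one_mul]

theorem cc_eq (P : Par k) (n : ℕ) : cc P n = ∏ r ∈ range n, CC P r := by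
  induction n with
  | zero => rw [cc_zero, Finset.prod_range_zero]
  | succ n ih => rw [cc_succ, ih, Finset.prod_range_succ, mul_comm]

theorem xs_one (P : Par k) : xs P 1 = 1 := by
  rw [xs_succ, Finset.sum_range_one, pow_zero, one_smul, xs, W0_zero, Finset.sum_singleton,
    len_one, pow_zero, one_smul, T_one, mul_one]
  rfl

theorem CC_eq (P : Par k) (r : ℕ) : CC P r = (P.q : k) ^ r * P.qn (r+1) := by
  rw [CC, Par.qn, Finset.mul_sum, ← Finset.sum_range_reflect]
  refine Finset.sum_congr rfl fun t ht => ?_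
  have ht' := Finset.mem_range.1 ht
  have h1 : r + 1 - 1 - t = r - t := by omega
  have h2 : (P.q : k) ^ r = (P.q : k) ^ (r - t) * (P.q : k) ^ t := by
    rw [← pow_add]
    congr 1
    omega
  have h3 : (P.q : k) ^ t * ((P.q⁻¹ : kˣ) : k) ^ t = 1 := by
    rw [← mul_pow, q_qi, one_pow]
  rw [h1, h2]
  linear_combination (-(P.q : k) ^ (r - t) * (P.q : k) ^ (r - t)) * h3

/-! ### the trace functional -/

/-- `g_{a+t-1} ⋯ g_a` -/
noncomputable def dnH (z : k) (a : ℕ) : ℕ → H z
  | 0 => 1
  | (t+1) => g z (a + t) * dnH z a t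

theorem dnH_succ' (z : k) (a t : ℕ) : dnH z a (t+1) = dnH z (a+1) t * g z a := by
  induction t with
  | zero =>
    show g z (a + 0) * 1 = 1 * g z a
    rw [one_mul, mul_one, add_zero]
  | succ t ih =>
    show g z (a + (t+1)) * dnH z a (t+1) = g z (a + 1 + t) * dnH z (a+1) t * g z a
    rw [ih, mul_assoc, show a + (t+1) = a + 1 + t by omega]

theorem kap_eq (z : k) (n : ℕ) : kap z (n+1) = dnH z 0 n := by
  rw [kap, cWord, Nat.add_sub_cancel]
  induction n with
  | zero => rfl
  | succ n ih =>
    rw [List.range_succ, List.reverse_append, List.reverse_singleton, List.map_append, ev_append, ih]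
    show ev z [(n, decide (0 ≤ n))] * dnH z 0 n = g z (0 + n) * dnH z 0 n
    rw [ev_cons, ev_nil, mul_one, zero_add]
    simp [evl]

theorem g_upH (z : k) {a t l : ℕ} (h : a + t < l) : g z l * upH z a t = upH z a t * g z l := by
  induction t with
  | zero =>
    show g z l * 1 = 1 * g z l
    rw [one_mul, mul_one]
  | succ t ih =>
    show g z l * (upH z a t * g z (a + t)) = upH z a t * g z (a + t) * g z l
    rw [← mul_assoc, ih (by omega), mul_assoc, mul_assoc, g_comm z (by omega : a + t + 1 < l)]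

theorem dnH_upH (z : k) {a t b r : ℕ} (h : a + t < b) :
    dnH z b r * upH z a t = upH z a t * dnH z b r := by
  induction r with
  | zero =>
    show 1 * _ = _ * 1
    rw [one_mul, mul_one]
  | succ r ih =>
    show g z (b + r) * dnH z b r * upH z a t = upH z a t * (g z (b + r) * dnH z b r)
    rw [mul_assoc, ih, ← mul_assoc, g_upH z (by omega), mul_assoc]

theorem xs_upH (P : Par k) {n a t : ℕ} (h : a + t < n) :
    xs P n * upH P.z a t = ((P.q : k) ^ t) • xs P n := by
  induction t with
  | zero =>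
    show xs P n * 1 = _
    rw [mul_one, pow_zero, one_smul]
  | succ t ih =>
    show xs P n * (upH P.z a t * g P.z (a + t)) = _
    rw [← mul_assoc, ih (by omega), smul_mul_assoc, xs_g P (by omega), smul_smul, pow_succ]

theorem upH_mem (z : k) {n a t : ℕ} (h : a + t < n) : upH z a t ∈ HS z n := by
  induction t with
  | zero => exact one_mem_HW z _ _
  | succ t ih => exact mul_mem_HW z (fun _ _ _ => le_refl _) (ih (by omega)) (g_mem_HW z (by omega) rfl)

theorem dnH_mem (z : k) {n a t : ℕ} (h : a + t < n) : dnH z a t ∈ HW z (fj a) n := by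
  induction t with
  | zero => exact one_mem_HW z _ _
  | succ t ih =>
    refine mul_mem_HW z (fj_mono a) (g_mem_HW z (by omega) ?_) (ih (by omega))
    simp only [fj]
    rw [if_neg (by omega), if_neg (by omega)]

theorem HS_le_fj (z : k) {n a : ℕ} (h : a ≤ n) : HS z a ≤ HW z (fj a) n := by
  show Submodule.span k (T z '' (W f0 a : Set S)) ≤ _
  rw [Submodule.span_le]
  rintro _ ⟨w, hw, rfl⟩
  apply T_mem_HW
  rw [Finset.mem_coe, mem_W] at hw
  rw [mem_W]
  refine ⟨fun i hi => hw.1 i (by omega), fun i => ?_⟩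
  rcases Nat.lt_or_ge i a with h1 | h1
  · have h3 : w.1 i < a := by
      by_contra h4
      have h5 := w.1.injective (hw.1 (w.1 i) (by omega))
      omega
    simp only [fj, h1, h3, if_true]
  · rw [hw.1 i h1]

/-- the trace functional -/
noncomputable def th (z : k) (n : ℕ) : H z →ₗ[k] k := (τ z) ∘ₗ (LinearMap.mulLeft k (TrS z n (X z n)))

theorem th_apply (z : k) (n : ℕ) (x : H z) : th z n x = τ z (TrS z n (X z n) * x) := rfl

theorem th_comm (z : k) {n : ℕ} {x : H z} (hx : x ∈ HS z n) (y : H z) :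
    th z n (x * y) = th z n (y * x) := by
  rw [th_apply, th_apply, ← mul_assoc, ← Tr_central z (fun _ _ _ => le_refl _) _ hx, mul_assoc,
    τ_comm, mul_assoc]

theorem th_kill (z : k) {n j : ℕ} (h0 : 0 < j) (hj : j < n) {y : H z} (hy : y ∈ HW z (fj j) n) :
    th z n y = 0 := by
  rw [th_apply, τ_Tr]
  exact chi_X z h0 hj hy

theorem th_xs (P : Par k) (n : ℕ) : th P.z n (xs P n) = cc P n * P.qn n := by
  rw [th_apply, τ_Tr, TrS_xs, mul_smul_comm, X_xs, map_smul, map_smul, τ_xs, smul_eq_mul,
    smul_eq_mul, mul_one]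

theorem th_step (P : Par k) {n r t : ℕ} (h : r + 2 + t = n) :
    th P.z n (dnH P.z (r+1) t * xs P (r+2)) =
      ((P.q : k) * CC P r) * th P.z n (dnH P.z r (t+1) * xs P (r+1)) := by
  have hterm : ∀ j ∈ range (r+1), th P.z n (dnH P.z (r+1) t *
      (((P.q : k) ^ (j+1)) • upH P.z (r + 1 - (j+1)) (j+1) * xs P (r+1))) =
      ((P.q : k) * ((P.q : k) ^ j * (P.q : k) ^ j)) *
        th P.z n (dnH P.z r (t+1) * xs P (r+1)) := by
    intro j hj
    have hj' := Finset.mem_range.1 hj
    have e1 : r + 1 - (j+1) = r - j := by omega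
    have e2 : upH P.z (r - j) (j+1) = upH P.z (r - j) j * g P.z r := by
      show upH P.z (r - j) j * g P.z (r - j + j) = _
      rw [Nat.sub_add_cancel (by omega)]
    rw [e1, e2, smul_mul_assoc, mul_smul_comm, map_smul, smul_eq_mul]
    have e3 : dnH P.z (r+1) t * (upH P.z (r - j) j * g P.z r * xs P (r+1)) =
        upH P.z (r - j) j * (dnH P.z r (t+1) * xs P (r+1)) := by
      rw [dnH_succ', mul_assoc (upH P.z (r - j) j), ← mul_assoc (dnH P.z (r+1) t),
        dnH_upH P.z (by omega)]
      simp only [mul_assoc]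
    rw [e3, th_comm P.z (upH_mem P.z (by omega)), mul_assoc, xs_upH P (by omega), mul_smul_comm,
      map_smul, smul_eq_mul, pow_succ]
    ring
  have hlast : th P.z n (dnH P.z (r+1) t *
      (((P.q : k) ^ 0) • upH P.z (r + 1 - 0) 0 * xs P (r+1))) = 0 := by
    rw [pow_zero, one_smul]
    show th P.z n (dnH P.z (r+1) t * (1 * xs P (r+1))) = 0
    rw [one_mul]
    exact th_kill P.z (j := r+1) (by omega) (by omega)
      (mul_mem_HW P.z (fj_mono _) (dnH_mem P.z (by omega)) (HS_le_fj P.z (by omega) (xs_mem P _)))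
  rw [xs_succ, Finset.sum_range_succ', add_mul, Finset.sum_mul, mul_add, Finset.mul_sum, map_add,
    map_sum, hlast, add_zero, Finset.sum_congr rfl hterm, ← Finset.sum_mul, CC, Finset.mul_sum]

theorem th_iter (P : Par k) {n : ℕ} (r : ℕ) : ∀ t, r + 1 + t = n →
    th P.z n (dnH P.z r t * xs P (r+1)) =
      (∏ i ∈ range r, ((P.q : k) * CC P i)) * th P.z n (dnH P.z 0 (t + r) * xs P 1) := by
  induction r with
  | zero =>
    intro t _
    rw [Finset.prod_range_zero, one_mul, add_zero]
  | succ r ih =>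
    intro t ht
    rw [th_step P (by omega : r + 2 + t = n), ih (t+1) (by omega), Finset.prod_range_succ,
      show t + 1 + r = t + (r + 1) by omega]
    ring

end Theta

theorem theta (P : Par k) {n : ℕ} (hn : 0 < n) (hq : ∀ j, 0 < j → j < n → IsUnit (P.qn j)) :
    τ P.z (TrS P.z n (X P.z n) * kap P.z n) = P.qn n ^ 2 := by
  obtain ⟨N, rfl⟩ : ∃ N, n = N + 1 := ⟨n - 1, by omega⟩
  have h1 := Theta.th_iter P (n := N+1) N 0 rfl
  have h2 : Theta.dnH P.z N 0 * Theta.xs P (N+1) = Theta.xs P (N+1) := one_mul _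
  rw [h2, Theta.th_xs, zero_add, Theta.xs_one, mul_one, ← Theta.kap_eq, Theta.cc_eq,
    Finset.prod_range_succ, Theta.CC_eq P N, Finset.prod_mul_distrib, Finset.prod_const,
    Finset.card_range] at h1
  have hu : IsUnit ((P.q : k) ^ N * ∏ i ∈ range N, Theta.CC P i) := by
    refine (P.q.isUnit.pow N).mul ?_
    rw [IsUnit.prod_iff]
    intro i hi
    rw [Theta.CC_eq]
    exact (P.q.isUnit.pow i).mul (hq _ (by omega) (by have := Finset.mem_range.1 hi; omega))
  refine hu.mul_left_cancel ?_
  rw [← Theta.th_apply, ← h1]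
  ring

end Pool.Agent.HL
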